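import Mathlib

set_option autoImplicit false

/-!
# The second derivative of a real-rooted polynomial has only real roots

PROOF.  Let `Q = ∏_{k∈J} (X - u_k)^(m_k) ∈ ℝ[X]`, of degree `n = ∑ m_k ≥ 2`; it has `n` real roots with multiplicity.  By
`Polynomial.card_roots_le_derivative` `Q'` has at least `n - 1` and `Q''` at least `n - 2` real roots with multiplicity, and `Q'' ≠ 0` has degree `n - 2`, so `Q''` splits over `ℝ`
and all its complex roots are real.  For non-real `w` all `w - u_k ≠ 0`, `Q(w) ≠ 0` and `Q''(w) = Q(w) ((∑ m_k/(w-u_k))² - ∑ m_k/(w-u_k)²)`.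
-/

namespace Pool.Agent.Lib.MP_0ae92b_ag.G26

open Polynomial

private def E2H (w : ℂ) (P : ℂ[X]) (a b : ℂ) : Prop :=
  (derivative P).eval w = P.eval w * a ∧ (derivative (derivative P)).eval w = P.eval w * (a ^ 2 - b)

private theorem E2H_mul {w : ℂ} {P R : ℂ[X]} {a b c d : ℂ} (h : E2H w P a b) (h' : E2H w R c d) :
    E2H w (P * R) (a + c) (b + d) := by
  obtain ⟨h1, h2⟩ := h
  obtain ⟨h3, h4⟩ := h'
  constructor
  · simp only [derivative_mul, eval_add, eval_mul]
    rw [h1, h3]; ring
  · simp only [derivative_mul, derivative_add, eval_add, eval_mul]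
    rw [h1, h2, h3, h4]; ring

private theorem E2H_one (w : ℂ) : E2H w 1 0 0 := by
  constructor <;> simp

private theorem E2H_pow {w : ℂ} {P : ℂ[X]} {a b : ℂ} (h : E2H w P a b) (n : ℕ) :
    E2H w (P ^ n) ((n : ℂ) * a) ((n : ℂ) * b) := by
  induction n with
  | zero => simpa using E2H_one w
  | succ n ih =>
    have := E2H_mul ih h
    rw [← pow_succ] at this
    convert this using 1 <;> push_cast <;> ring

private theorem E2H_lin {w : ℂ} {u : ℂ} (h : w - u ≠ 0) :
    E2H w (X - C u) (1 / (w - u)) (1 / (w - u) ^ 2) := by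
  constructor
  · simp [h]
  · simp

private theorem E2H_prod {ι : Type} (J : Finset ι) (u : ι → ℝ) (m : ι → ℕ) (w : ℂ)
    (hw : ∀ k, w - (u k : ℂ) ≠ 0) :
    E2H w (∏ k ∈ J, (X - C (u k : ℂ)) ^ m k) (∑ k ∈ J, (m k : ℂ) / (w - (u k : ℂ)))
      (∑ k ∈ J, (m k : ℂ) / (w - (u k : ℂ)) ^ 2) := by
  classical
  induction J using Finset.induction_on with
  | empty => simpa using E2H_one w
  | insert a s ha ih =>
    rw [Finset.prod_insert ha, Finset.sum_insert ha, Finset.sum_insert ha]
    have := E2H_mul (E2H_pow (E2H_lin (hw a)) (m a)) ih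
    simpa only [mul_one_div] using this

theorem E2 {ι : Type} (J : Finset ι) (u : ι → ℝ) (m : ι → ℕ) (hm : 2 ≤ ∑ k ∈ J, m k) (w : ℂ)
    (hw : w.im ≠ 0) :
    (∑ k ∈ J, (m k : ℂ) / (w - (u k : ℂ))) ^ 2 ≠ ∑ k ∈ J, (m k : ℂ) / (w - (u k : ℂ)) ^ 2 := by
  intro heq
  have hwu : ∀ k, w - (u k : ℂ) ≠ 0 := by
    intro k h
    apply hw
    have := congrArg Complex.im h
    simpa using this
  set Q : ℝ[X] := ∏ k ∈ J, (X - C (u k)) ^ m k with hQ
  have hQm : Q.Monic := monic_prod_of_monic _ _ fun k _ => (monic_X_sub_C _).pow _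
  have hQd : Q.natDegree = ∑ k ∈ J, m k := by
    rw [hQ, natDegree_prod_of_monic _ _ fun k _ => (monic_X_sub_C _).pow _]
    refine Finset.sum_congr rfl fun k _ => ?_
    rw [natDegree_pow, natDegree_X_sub_C, mul_one]
  have hQr : Multiset.card Q.roots = ∑ k ∈ J, m k := by
    have : Q.Splits := by
      rw [hQ]
      exact Splits.prod fun k _ => (Splits.X_sub_C _).pow _
    rw [← hQd]
    exact splits_iff_card_roots.mp this
  have h1 := card_roots_le_derivative Q
  have h2 := card_roots_le_derivative (derivative Q)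
  have hd1 : (derivative Q).natDegree = Q.natDegree - 1 := natDegree_derivative Q
  have hd2 : (derivative (derivative Q)).natDegree = Q.natDegree - 1 - 1 := by
    rw [natDegree_derivative, hd1]
  have hne : derivative (derivative Q) ≠ 0 := by
    intro h0
    have := derivative_eq_zero.mp h0
    rw [hd1] at this
    rw [hQd] at this
    omega
  have hsp : (derivative (derivative Q)).Splits := by
    rw [splits_iff_card_roots]
    apply le_antisymm (card_roots' _)
    omega
  have hev : ((derivative (derivative Q)).map Complex.ofRealHom).eval w = 0 := by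
    have hmap : Q.map Complex.ofRealHom = ∏ k ∈ J, (X - C (u k : ℂ)) ^ m k := by
      rw [hQ, Polynomial.map_prod]
      refine Finset.prod_congr rfl fun k _ => ?_
      simp
    rw [← derivative_map, ← derivative_map, hmap, (E2H_prod J u m w hwu).2, heq]
    ring
  have hmem : w ∈ ((derivative (derivative Q)).map Complex.ofRealHom).roots := by
    rw [mem_roots ((Polynomial.map_ne_zero_iff Complex.ofRealHom.injective).mpr hne)]
    exact hev
  rw [hsp.roots_map Complex.ofRealHom, Multiset.mem_map] at hmem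
  obtain ⟨t, _, ht⟩ := hmem
  apply hw
  rw [← ht]
  simp

end Pool.Agent.Lib.MP_0ae92b_ag.G26
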