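import Pool.Agent.Lib.MP_0ae92b_ag.G26.Vec
import Pool.Agent.Lib.MP_0ae92b_ag.G26.E2

set_option autoImplicit false

/-!
# Part (A): the roots of `κ` are real

PROOF.  Let `κ(w) = 0`, `Im w ≠ 0`; `D = ∏_{k∈J} (X - x_k)^(m_k)`, `D(w) ≠ 0`, `w ≠ x_0`.  The right side, hence the left side `L` of the identity vanishes to order at least `2` at `w`:
`L(w) = 0 = L'(w)`.
If `Y(w) = 0` then `L(w) = (w - x_0) Y'(w) D(w)`, so `Y'(w) = 0`, and `Y = 0` as `deg Y ≤ 1`, contradiction.  So `Y(w) ≠ 0` and near `w`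
`L = (z - x_0) Y D · Λ`, `Λ = Y'/Y + (d-1)/(z - x_0) - D'/D`, so `Λ(w) = 0 = Λ'(w)`, which says, with `a_k = 1/(w - x_k)`, `a_0 = 1/(w - x_0)`, `t = Y'(w)/Y(w)` (`Y'' = 0`, so `(Y'/Y)' = -t²`):
`∑ m_k a_k = (d - 1) a_0 + t` and `∑ m_k a_k² = (d - 1) a_0² + t²`.
As `∑ m_k = d`: `∑ m_k (a_k - a_0) = t - a_0` and `∑ m_k (a_k - a_0)² = ∑ m_k a_k² - 2 a_0 ∑ m_k a_k + d a_0² = (t - a_0)²`.
`a_k - a_0 = (x_k - x_0)/((w - x_k)(w - x_0)) = -(w - x_0)⁻² / (w' - u_k)` with `u_k = 1/(x_k - x_0)`, `w' = 1/(w - x_0)`, `Im w' ≠ 0`.  So `(∑ m_k/(w' - u_k))² = ∑ m_k/(w' - u_k)²`,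
contradicting `E2` (`∑ m_k = d ≥ 2`).
-/

namespace Pool.Agent.Lib.MP_0ae92b_ag.G26

open Polynomial

variable {ι : Type} [DecidableEq ι]

private def LD (P : ℂ[X]) (w a b : ℂ) : Prop :=
  (derivative P).eval w = P.eval w * a ∧
    (derivative (derivative P)).eval w = P.eval w * (a ^ 2 - b)

private theorem LD.mul {P Q : ℂ[X]} {w a b a' b' : ℂ} (hP : LD P w a b) (hQ : LD Q w a' b') :
    LD (P * Q) w (a + a') (b + b') := by
  constructor
  · rw [derivative_mul, eval_add, eval_mul, eval_mul, eval_mul, hP.1, hQ.1]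
    ring
  · rw [derivative_mul, derivative_add, derivative_mul, derivative_mul]
    simp only [eval_add, eval_mul]
    rw [hP.1, hQ.1, hP.2, hQ.2]
    ring

private theorem LD.one (w : ℂ) : LD 1 w 0 0 := by
  constructor <;> simp

private theorem LD.lin {w c : ℂ} (h : w - c ≠ 0) : LD (X - C c) w (1 / (w - c)) (1 / (w - c) ^ 2) := by
  constructor
  · simp only [derivative_sub, derivative_X, derivative_C, sub_zero, eval_one, eval_sub, eval_X,
      eval_C]
    field_simp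
  · simp only [derivative_sub, derivative_X, derivative_C, sub_zero, derivative_one, eval_zero,
      eval_sub, eval_X, eval_C]
    field_simp
    ring

private theorem LD.pow {P : ℂ[X]} {w a b : ℂ} (hP : LD P w a b) (m : ℕ) :
    LD (P ^ m) w (m * a) (m * b) := by
  induction m with
  | zero => simpa using LD.one w
  | succ m ih =>
    have h := ih.mul hP
    rw [← pow_succ] at h
    have e1 : (m : ℂ) * a + a = ((m + 1 : ℕ) : ℂ) * a := by push_cast; ring
    have e2 : (m : ℂ) * b + b = ((m + 1 : ℕ) : ℂ) * b := by push_cast; ring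
    rwa [e1, e2] at h

private theorem LD.prod (J : Finset ι) (x : ι → ℝ) (m : ι → ℕ) {w : ℂ}
    (h : ∀ k ∈ J, w - (x k : ℂ) ≠ 0) :
    LD (∏ k ∈ J, (X - C (x k : ℂ)) ^ m k) w (∑ k ∈ J, (m k : ℂ) * (1 / (w - (x k : ℂ))))
      (∑ k ∈ J, (m k : ℂ) * (1 / (w - (x k : ℂ)) ^ 2)) := by
  induction J using Finset.induction_on with
  | empty => simpa using LD.one w
  | insert a J ha ih =>
    rw [Finset.prod_insert ha, Finset.sum_insert ha, Finset.sum_insert ha]
    exact ((LD.lin (h a (Finset.mem_insert_self a J))).pow (m a)).mul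
      (ih fun k hk => h k (Finset.mem_insert_of_mem hk))

theorem ARoot (J : Finset ι) (x : ι → ℝ) (x0 : ℝ) (hx0 : ∀ k ∈ J, x k ≠ x0) (m : ι → ℕ) (d : ℕ)
    (hd : 2 ≤ d) (hsum : ∑ k ∈ J, m k = d) (κ Y M : ℂ[X]) (hY : Y ≠ 0) (hY1 : Y.natDegree ≤ 1)
    (h : (X - C (x0 : ℂ)) * derivative Y * ∏ k ∈ J, (X - C (x k : ℂ)) ^ m k +
          C ((d : ℂ) - 1) * Y * ∏ k ∈ J, (X - C (x k : ℂ)) ^ m k -
          (X - C (x0 : ℂ)) * Y * derivative (∏ k ∈ J, (X - C (x k : ℂ)) ^ m k) =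
        M * κ ^ 2) (w : ℂ) (hw : κ.eval w = 0) : w.im = 0 := by
  by_contra him
  have hne : ∀ y : ℝ, w - (y : ℂ) ≠ 0 := by
    intro y hy
    apply him
    have := congrArg Complex.im hy
    simpa using this
  have hLD := LD.prod J x m (w := w) (fun k _ => hne (x k))
  set D : ℂ[X] := ∏ k ∈ J, (X - C (x k : ℂ)) ^ m k with hD
  set s1 : ℂ := ∑ k ∈ J, (m k : ℂ) * (1 / (w - (x k : ℂ))) with hs1
  set s2 : ℂ := ∑ k ∈ J, (m k : ℂ) * (1 / (w - (x k : ℂ)) ^ 2) with hs2
  have hDw : D.eval w ≠ 0 := by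
    rw [hD, eval_prod]
    refine Finset.prod_ne_zero_iff.2 fun k _ => ?_
    rw [eval_pow, eval_sub, eval_X, eval_C]
    exact pow_ne_zero _ (hne _)
  set v : ℂ := w - (x0 : ℂ) with hv
  have hv0 : v ≠ 0 := hne x0
  have hY2 : derivative (derivative Y) = 0 := by
    have h1 : (derivative Y).natDegree ≤ 0 := (natDegree_derivative_le Y).trans (by omega)
    obtain ⟨c, hc⟩ := natDegree_eq_zero.1 (Nat.le_zero.1 h1)
    rw [← hc, derivative_C]
  -- the two equations
  have e1 := congrArg (eval w) h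
  simp only [eval_add, eval_sub, eval_mul, eval_pow, eval_X, eval_C, hw] at e1
  have e2 := congrArg (fun P => eval w (derivative P)) h
  simp only [derivative_mul, derivative_add, derivative_sub, derivative_X, derivative_C,
    derivative_pow, eval_add, eval_sub, eval_mul, eval_pow, eval_X, eval_C, hw, hY2, eval_zero,
    eval_one, sub_zero] at e2
  rw [← hv] at e1 e2
  rw [hLD.1] at e1 e2
  rw [hLD.2] at e2
  set y : ℂ := eval w Y with hy
  set y' : ℂ := eval w (derivative Y) with hy'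
  have f1 : v * y' + ((d : ℂ) - 1) * y - v * y * s1 = 0 := by
    have : eval w D * (v * y' + ((d : ℂ) - 1) * y - v * y * s1) = 0 := by linear_combination e1
    exact (mul_eq_zero.1 this).resolve_left hDw
  have f2 : (d : ℂ) * y' + ((d : ℂ) - 2) * y * s1 - v * y * (s1 ^ 2 - s2) = 0 := by
    have : eval w D * ((d : ℂ) * y' + ((d : ℂ) - 2) * y * s1 - v * y * (s1 ^ 2 - s2)) = 0 := by
      linear_combination e2
    exact (mul_eq_zero.1 this).resolve_left hDw
  have hy0 : y ≠ 0 := by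
    intro h0
    rw [h0] at f1
    have f3 : y' = 0 := by
      have : v * y' = 0 := by linear_combination f1
      exact (mul_eq_zero.1 this).resolve_left hv0
    apply hY
    obtain ⟨a, b, hab⟩ : ∃ a b : ℂ, Y = C a * X + C b := exists_eq_X_add_C_of_natDegree_le_one hY1
    rw [hab] at hy hy' ⊢
    simp only [derivative_add, derivative_mul, derivative_C, derivative_X, zero_mul, mul_one,
      zero_add, add_zero, eval_C, eval_add, eval_mul, eval_X] at hy hy'
    have ha : a = 0 := by rw [← hy', f3]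
    have hb : b = 0 := by
      rw [h0, ha] at hy
      simpa using hy.symm
    rw [ha, hb]
    simp
  set t : ℂ := y' / y with ht
  have hyt : y' = t * y := by rw [ht]; field_simp
  have g1 : s1 = t + ((d : ℂ) - 1) / v := by
    rw [hyt] at f1
    have : y * (v * t + ((d : ℂ) - 1) - v * s1) = 0 := by linear_combination f1
    have h3 := (mul_eq_zero.1 this).resolve_left hy0
    field_simp
    linear_combination -h3
  have g2 : v * s2 = v * s1 ^ 2 - ((d : ℂ) * t + ((d : ℂ) - 2) * s1) := by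
    rw [hyt] at f2
    have : y * ((d : ℂ) * t + ((d : ℂ) - 2) * s1 - v * (s1 ^ 2 - s2)) = 0 := by
      linear_combination f2
    have h3 := (mul_eq_zero.1 this).resolve_left hy0
    linear_combination h3
  have g3 : s2 - 2 * s1 / v + (d : ℂ) / v ^ 2 = (t - 1 / v) ^ 2 := by
    have h3 : s2 = s1 ^ 2 - ((d : ℂ) * t + ((d : ℂ) - 2) * s1) / v := by
      field_simp
      linear_combination g2
    rw [h3, g1]
    field_simp
    ring
  have g4 : s1 - (d : ℂ) / v = t - 1 / v := by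
    rw [g1]
    field_simp
    ring
  -- the substitution
  have hu : ∀ k ∈ J, (m k : ℂ) / (1 / v - ((1 / (x k - x0) : ℝ) : ℂ)) =
      -v ^ 2 * ((m k : ℂ) * (1 / (w - (x k : ℂ))) - (m k : ℂ) / v) := by
    intro k hk
    have h1 : (x k : ℂ) - (x0 : ℂ) ≠ 0 := by
      rw [← Complex.ofReal_sub]
      exact Complex.ofReal_ne_zero.2 (sub_ne_zero.2 (hx0 k hk))
    have h2 := hne (x k)
    have h3 : 1 / v - ((1 / (x k - x0) : ℝ) : ℂ) =
        -(w - (x k : ℂ)) / (v * ((x k : ℂ) - (x0 : ℂ))) := by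
      push_cast
      field_simp
      rw [hv]
      ring
    rw [h3]
    field_simp
    rw [hv]
    ring
  have hu2 : ∀ k ∈ J, (m k : ℂ) / (1 / v - ((1 / (x k - x0) : ℝ) : ℂ)) ^ 2 =
      v ^ 4 * ((m k : ℂ) * (1 / (w - (x k : ℂ)) ^ 2) - 2 / v * ((m k : ℂ) * (1 / (w - (x k : ℂ))))
        + (m k : ℂ) / v ^ 2) := by
    intro k hk
    have h1 : (x k : ℂ) - (x0 : ℂ) ≠ 0 := by
      rw [← Complex.ofReal_sub]
      exact Complex.ofReal_ne_zero.2 (sub_ne_zero.2 (hx0 k hk))
    have h2 := hne (x k)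
    have h3 : 1 / v - ((1 / (x k - x0) : ℝ) : ℂ) =
        -(w - (x k : ℂ)) / (v * ((x k : ℂ) - (x0 : ℂ))) := by
      push_cast
      field_simp
      rw [hv]
      ring
    rw [h3]
    field_simp
    rw [hv]
    ring
  have hsumC : ∑ k ∈ J, (m k : ℂ) = (d : ℂ) := by
    rw [← hsum]
    push_cast
    rfl
  have him' : (1 / v).im ≠ 0 := by
    rw [one_div, Complex.inv_im]
    have h1 : v.im = w.im := by rw [hv]; simp
    rw [h1]
    exact div_ne_zero (neg_ne_zero.2 him) (fun h => hv0 (Complex.normSq_eq_zero.1 h))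
  have hE := E2 J (fun k => 1 / (x k - x0)) m (by rw [hsum]; exact hd) (1 / v) him'
  apply hE
  rw [Finset.sum_congr rfl hu, Finset.sum_congr rfl hu2]
  rw [← Finset.mul_sum, ← Finset.mul_sum, Finset.sum_sub_distrib, Finset.sum_add_distrib,
    Finset.sum_sub_distrib, ← Finset.mul_sum, ← Finset.sum_div, ← Finset.sum_div, hsumC, ← hs1,
    ← hs2, g4]
  have g5 : s2 - 2 / v * s1 + (d : ℂ) / v ^ 2 = (t - 1 / v) ^ 2 := by
    rw [← g3]; ring
  rw [g5]
  ring

end Pool.Agent.Lib.MP_0ae92b_ag.G26
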