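import Pool.Agent.Lib.MP_0ae92b_ag.G26.Lag

set_option autoImplicit false

/-!
# Part (A): the real case

PROOF.  Divide the identity by `Π = ∏_{k∈J} (X - x_k)^(m_k-1)`: with `P = ∏_{k∈J} (X - x_k)`, `D = Π P` and `D' = Π · ∑_k m_k ∏_{j∈J, j≠k} (X - x_j)`; evaluate at `x_l`, `l ∈ J`:
`-m_l (x_l - x_0) Y(x_l) P'(x_l) = N(x_l) κ(x_l)²`, `P'(x_l) = ∏_{j∈J, j≠l} (x_l - x_j)`.
The polynomial `T = Y N (X - x_0)` has degree at most `1 + (n_J - 4) + 1 = n_J - 2`, `n_J = card J` (`deg N ≤ card ι - 5 = n_J - 4`), so `∑_{l∈J} T(x_l)/P'(x_l) = 0` (`lagSum` for the subtype `J`).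
But `T(x_l)/P'(x_l) = -N(x_l)² κ(x_l)²/(m_l P'(x_l)²) ≤ 0`, so `N(x_l) κ(x_l) = 0` for all `l ∈ J`: the nonzero polynomial `N κ` of degree at most `n_J - 2` has `n_J` zeros, contradiction.
-/

namespace Pool.Agent.Lib.MP_0ae92b_ag.G26

open Polynomial

variable {ι : Type} [DecidableEq ι]

private theorem ASos_rel (J : Finset ι) (x : ι → ℝ) (hx : Set.InjOn x J) (x0 : ℝ)
    (m : ι → ℕ) (hm : ∀ k ∈ J, 1 ≤ m k) (c : ℝ) (κ Y N : ℝ[X])
    (h : (X - C x0) * derivative Y * ∏ k ∈ J, (X - C (x k)) ^ m k +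
          C c * Y * ∏ k ∈ J, (X - C (x k)) ^ m k -
          (X - C x0) * Y * derivative (∏ k ∈ J, (X - C (x k)) ^ m k) =
        N * κ ^ 2 * ∏ k ∈ J, (X - C (x k)) ^ (m k - 1)) (l : ι) (hl : l ∈ J) :
    (m l : ℝ) * ((x l - x0) * Y.eval (x l)) * ∏ j ∈ J.erase l, (x l - x j) =
      -(N.eval (x l) * κ.eval (x l) ^ 2) := by
  obtain ⟨n, hn⟩ := Nat.exists_eq_add_of_le (hm l hl)
  have hn' : m l - 1 = n := by omega
  set E : ℝ[X] := ∏ j ∈ J.erase l, (X - C (x j)) ^ m j with hE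
  set E' : ℝ[X] := ∏ j ∈ J.erase l, (X - C (x j)) ^ (m j - 1) with hE'
  have h1 : ∏ k ∈ J, (X - C (x k)) ^ m k = (X - C (x l)) ^ (n + 1) * E := by
    rw [← Finset.mul_prod_erase J _ hl, hn, add_comm 1 n]
  have h2 : ∏ k ∈ J, (X - C (x k)) ^ (m k - 1) = (X - C (x l)) ^ n * E' := by
    rw [← Finset.mul_prod_erase J _ hl, hn']
  rw [h1, h2] at h
  have hne : (X - C (x l)) ^ n ≠ 0 := pow_ne_zero _ (X_sub_C_ne_zero _)
  have h3 : (X - C (x l)) ^ n * ((X - C x0) * derivative Y * ((X - C (x l)) * E) +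
      C c * Y * ((X - C (x l)) * E) -
      (X - C x0) * Y * (((n : ℝ[X]) + 1) * E + (X - C (x l)) * derivative E)) =
      (X - C (x l)) ^ n * (N * κ ^ 2 * E') := by
    have h4 : derivative ((X - C (x l)) ^ (n + 1) * E) =
        (X - C (x l)) ^ n * (((n : ℝ[X]) + 1) * E + (X - C (x l)) * derivative E) := by
      rw [derivative_mul, derivative_X_sub_C_pow]
      push_cast
      simp only [map_add, map_natCast, map_one, Nat.add_sub_cancel]
      ring
    rw [h4] at h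
    linear_combination h
  have h5 := mul_left_cancel₀ hne h3
  have h6 := congrArg (eval (x l)) h5
  simp only [eval_add, eval_sub, eval_mul, eval_pow, eval_X, eval_C, eval_natCast, eval_one,
    sub_self, zero_mul, mul_zero, zero_add, add_zero, zero_sub] at h6
  have h7 : E.eval (x l) = E'.eval (x l) * ∏ j ∈ J.erase l, (x l - x j) := by
    rw [hE, hE', eval_prod, eval_prod, ← Finset.prod_mul_distrib]
    refine Finset.prod_congr rfl fun j hj => ?_
    obtain ⟨n', hn'⟩ := Nat.exists_eq_add_of_le (hm j (Finset.mem_of_mem_erase hj))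
    have hn2 : m j - 1 = n' := by omega
    rw [eval_pow, eval_pow, eval_sub, eval_X, eval_C, hn2, hn', add_comm 1 n', pow_succ]
  have h8 : E'.eval (x l) ≠ 0 := by
    rw [hE', eval_prod]
    refine Finset.prod_ne_zero_iff.2 fun j hj => ?_
    rw [eval_pow, eval_sub, eval_X, eval_C]
    refine pow_ne_zero _ (sub_ne_zero.2 fun e => ?_)
    exact (Finset.ne_of_mem_erase hj) (hx (Finset.mem_of_mem_erase hj) hl e.symm)
  rw [h7] at h6
  have h9 : E'.eval (x l) * ((m l : ℝ) * ((x l - x0) * Y.eval (x l)) *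
      ∏ j ∈ J.erase l, (x l - x j)) = E'.eval (x l) * (-(N.eval (x l) * κ.eval (x l) ^ 2)) := by
    rw [hn]
    push_cast
    linear_combination -h6
  exact mul_left_cancel₀ h8 h9

private theorem ASos_Dp (J : Finset ι) (x : ι → ℝ) (l : {k // k ∈ J}) :
    Dp (fun k : {k // k ∈ J} => x k) l = ∏ j ∈ J.erase l, (x l - x j) := by
  have h1 : ∏ j ∈ J.erase (l : ι), (x l - x j) =
      ∏ j ∈ J, (if j = (l : ι) then 1 else x l - x j) := by
    rw [← Finset.mul_prod_erase J _ l.2, if_pos rfl, one_mul]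
    exact Finset.prod_congr rfl fun j hj => by rw [if_neg (Finset.ne_of_mem_erase hj)]
  have h2 : Dp (fun k : {k // k ∈ J} => x k) l =
      ∏ j : {k // k ∈ J}, (if (j : ι) = (l : ι) then 1 else x l - x j) := by
    rw [Dp, ← Finset.mul_prod_erase Finset.univ _ (Finset.mem_univ l), if_pos rfl, one_mul]
    refine Finset.prod_congr rfl fun j hj => ?_
    rw [if_neg fun e => (Finset.ne_of_mem_erase hj) (Subtype.ext e)]
  rw [h1, h2]
  exact Finset.prod_coe_sort J fun j => if j = (l : ι) then 1 else x l - x j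

theorem ASos (J : Finset ι) (x : ι → ℝ) (hx : Set.InjOn x J) (x0 : ℝ) (hx0 : ∀ k ∈ J, x k ≠ x0)
    (m : ι → ℕ) (hm : ∀ k ∈ J, 1 ≤ m k) (c : ℝ) (κ Y N : ℝ[X]) (hκ : κ ≠ 0) (hN : N ≠ 0)
    (hκ2 : κ.natDegree ≤ 2) (hY1 : Y.natDegree ≤ 1) (hNd : N.natDegree + 4 ≤ J.card)
    (h : (X - C x0) * derivative Y * ∏ k ∈ J, (X - C (x k)) ^ m k +
          C c * Y * ∏ k ∈ J, (X - C (x k)) ^ m k -
          (X - C x0) * Y * derivative (∏ k ∈ J, (X - C (x k)) ^ m k) =
        N * κ ^ 2 * ∏ k ∈ J, (X - C (x k)) ^ (m k - 1)) : False := by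
  have hrel := ASos_rel J x hx x0 m hm c κ Y N h
  have hinj : Function.Injective (fun k : {k // k ∈ J} => x k) := fun a b hab =>
    Subtype.ext (hx a.2 b.2 hab)
  have hDp : ∀ l : {k // k ∈ J}, ∏ j ∈ J.erase (l : ι), (x l - x j) ≠ 0 := by
    intro l
    refine Finset.prod_ne_zero_iff.2 fun j hj => sub_ne_zero.2 fun e => ?_
    exact (Finset.ne_of_mem_erase hj) (hx (Finset.mem_of_mem_erase hj) l.2 e.symm)
  have hdeg : (Y * N * (X - C x0)).natDegree + 2 ≤ Fintype.card {k // k ∈ J} := by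
    rw [Fintype.card_coe]
    have h1 := natDegree_mul_le (p := Y * N) (q := X - C x0)
    have h2 := natDegree_mul_le (p := Y) (q := N)
    rw [natDegree_X_sub_C] at h1
    omega
  have hsum := lagSum (fun k : {k // k ∈ J} => x k) hinj (Y * N * (X - C x0)) hdeg
  have hterm : ∀ l : {k // k ∈ J}, (Y * N * (X - C x0)).eval (x l) *
      (Dp (fun k : {k // k ∈ J} => x k) l)⁻¹ =
      -((N.eval (x l) * κ.eval (x l)) ^ 2 / (m l * (∏ j ∈ J.erase (l : ι), (x l - x j)) ^ 2)) := by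
    intro l
    have h1 := hrel l l.2
    have h2 := hDp l
    have h3 : (m l : ℝ) ≠ 0 := by
      have := hm l l.2
      exact_mod_cast (by omega : m l ≠ 0)
    rw [ASos_Dp]
    set Q := ∏ j ∈ J.erase (l : ι), (x l - x j) with hQ
    simp only [eval_mul, eval_sub, eval_X, eval_C]
    field_simp
    linear_combination (N.eval (x l)) * h1
  have hterm0 : ∀ l : {k // k ∈ J}, (N.eval (x l) * κ.eval (x l)) ^ 2 /
      (m l * (∏ j ∈ J.erase (l : ι), (x l - x j)) ^ 2) = 0 := by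
    have h1 : ∑ l : {k // k ∈ J}, (N.eval (x l) * κ.eval (x l)) ^ 2 /
      (m l * (∏ j ∈ J.erase (l : ι), (x l - x j)) ^ 2) = 0 := by
      have h2 : ∑ l : {k // k ∈ J}, -((N.eval (x l) * κ.eval (x l)) ^ 2 /
          (m l * (∏ j ∈ J.erase (l : ι), (x l - x j)) ^ 2)) = 0 := by
        rw [← hsum]
        exact Finset.sum_congr rfl fun l _ => (hterm l).symm
      rw [Finset.sum_neg_distrib] at h2
      linarith
    intro l
    exact (Finset.sum_eq_zero_iff_of_nonneg fun l _ => by positivity).1 h1 l (Finset.mem_univ l)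
  have hzero : ∀ l ∈ J, (N * κ).eval (x l) = 0 := by
    intro l hl
    have h1 := hterm0 ⟨l, hl⟩
    have h2 := hDp ⟨l, hl⟩
    have h3 : (m l : ℝ) ≠ 0 := by
      have := hm l hl
      exact_mod_cast (by omega : m l ≠ 0)
    rw [div_eq_zero_iff] at h1
    rcases h1 with h1 | h1
    · rw [eval_mul]
      exact pow_eq_zero_iff (two_ne_zero) |>.1 h1
    · exact absurd h1 (mul_ne_zero h3 (pow_ne_zero 2 h2))
  have hcard : (J.image x).card = J.card := Finset.card_image_of_injOn hx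
  have hdeg2 : (N * κ).natDegree < (J.image x).card := by
    rw [hcard]
    have := natDegree_mul_le (p := N) (q := κ)
    omega
  have h0 := eq_zero_of_natDegree_lt_card_of_eval_eq_zero' (N * κ) (J.image x) (by
    intro i hi
    obtain ⟨l, hl, rfl⟩ := Finset.mem_image.1 hi
    exact hzero l hl) hdeg2
  exact (mul_ne_zero hN hκ) h0

end Pool.Agent.Lib.MP_0ae92b_ag.G26
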