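import Mathlib

set_option autoImplicit false

/-!
# A residue free rational function has a rational primitive

PROOF.  One point: if `(taylor x s).coeff m = 0` there is `U` with `(X - x) U' - m U = s`: write `s = ∑_i t_i (X - x)^i`, `t_m = 0`, and take
`U = ∑_{i ≠ m} t_i/(i - m) (X - x)^i`.
General: `D^(k) = ∏_{j≠k} (X - x_j)^(m_j)`, `D = (X - x_k)^(m_k) D^(k)`, `U = ∑_k U_k D^(k)` with `(X - x_k) U_k' - m_k U_k = s_k`.  For one `k`:
`(U_k D^(k))' D - U_k D^(k) D' = (X - x_k)^(m_k-1) (D^(k))² ((X - x_k) U_k' - m_k U_k) = s_k (X - x_k)^(m_k - 1) ∏_{j≠k} (X - x_j)^(2 m_j)`, and this is the term `k` on the right side: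
`s_k ∏_{j≠k} (X - x_j)^(m_j+1) ∏_j (X - x_j)^(m_j-1)`.
-/

namespace Pool.Agent.Lib.MP_0ae92b_ag.G26

open Polynomial

variable {ι : Type} [DecidableEq ι]

private theorem prim_zero (m : ℕ) (t : ℂ[X]) (ht : t.coeff m = 0) :
    ∃ V : ℂ[X], X * derivative V - C (m : ℂ) * V = t := by
  refine ⟨∑ i ∈ t.support, C (t.coeff i * ((i : ℂ) - m)⁻¹) * X ^ i, ?_⟩
  conv_rhs => rw [t.as_sum_support_C_mul_X_pow]
  rw [derivative_sum, Finset.mul_sum, Finset.mul_sum, ← Finset.sum_sub_distrib]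
  apply Finset.sum_congr rfl
  intro i hi
  have him : (i : ℂ) - m ≠ 0 := by
    intro h0
    have : (i : ℂ) = m := sub_eq_zero.1 h0
    have : i = m := by exact_mod_cast this
    subst this
    exact (mem_support_iff.1 hi) ht
  have e : (X : ℂ[X]) * derivative (C (t.coeff i * ((i : ℂ) - m)⁻¹) * X ^ i) =
      C (i : ℂ) * (C (t.coeff i * ((i : ℂ) - m)⁻¹) * X ^ i) := by
    rw [derivative_C_mul, derivative_X_pow]
    rcases i with _ | i
    · simp
    · rw [Nat.add_sub_cancel, pow_succ]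
      ring
  rw [e, ← sub_mul, ← C_sub, ← mul_assoc, ← C_mul]
  congr 2
  field_simp

private theorem prim_one (x : ℂ) (m : ℕ) (s : ℂ[X]) (hs : (taylor x s).coeff m = 0) :
    ∃ U : ℂ[X], (X - C x) * derivative U - C (m : ℂ) * U = s := by
  obtain ⟨V, hV⟩ := prim_zero m _ hs
  refine ⟨taylor (-x) V, ?_⟩
  have h1 : derivative (taylor (-x) V) = taylor (-x) (derivative V) := by
    rw [taylor_apply, taylor_apply, derivative_comp]
    simp
  have h2 : taylor (-x) (X : ℂ[X]) = X - C x := by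
    rw [taylor_X, C_neg]; ring
  have h3 := congrArg (taylor (-x)) hV
  rw [taylor_taylor, neg_add_cancel, taylor_zero, map_sub, taylor_mul, taylor_mul, taylor_C, h2,
    ← h1] at h3
  exact h3

theorem prim (J : Finset ι) (x : ι → ℂ) (m : ι → ℕ) (hm : ∀ k ∈ J, 1 ≤ m k) (s : ι → ℂ[X])
    (hs : ∀ k ∈ J, (taylor (x k) (s k)).coeff (m k) = 0) :
    ∃ U : ℂ[X], derivative U * ∏ k ∈ J, (X - C (x k)) ^ m k -
        U * derivative (∏ k ∈ J, (X - C (x k)) ^ m k) =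
      (∑ k ∈ J, s k * ∏ j ∈ J.erase k, (X - C (x j)) ^ (m j + 1)) *
        ∏ k ∈ J, (X - C (x k)) ^ (m k - 1) := by
  have hex : ∀ k, ∃ U : ℂ[X], k ∈ J →
      (X - C (x k)) * derivative U - C (m k : ℂ) * U = s k := by
    intro k
    by_cases hk : k ∈ J
    · obtain ⟨U, hU⟩ := prim_one (x k) (m k) (s k) (hs k hk)
      exact ⟨U, fun _ => hU⟩
    · exact ⟨0, fun h => absurd h hk⟩
  choose U hU using hex
  refine ⟨∑ k ∈ J, U k * ∏ j ∈ J.erase k, (X - C (x j)) ^ m j, ?_⟩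
  rw [derivative_sum, Finset.sum_mul, Finset.sum_mul, Finset.sum_mul, ← Finset.sum_sub_distrib]
  apply Finset.sum_congr rfl
  intro k hk
  have hUk := hU k hk
  obtain ⟨n, hn⟩ : ∃ n, m k = n + 1 := ⟨m k - 1, by have := hm k hk; omega⟩
  have hD : (∏ j ∈ J, (X - C (x j)) ^ m j : ℂ[X]) =
      (X - C (x k)) ^ m k * ∏ j ∈ J.erase k, (X - C (x j)) ^ m j :=
    (Finset.mul_prod_erase J _ hk).symm
  have hE : (∏ j ∈ J, (X - C (x j)) ^ (m j - 1) : ℂ[X]) =
      (X - C (x k)) ^ (m k - 1) * ∏ j ∈ J.erase k, (X - C (x j)) ^ (m j - 1) :=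
    (Finset.mul_prod_erase J _ hk).symm
  have hP : (∏ j ∈ J.erase k, (X - C (x j)) ^ (m j + 1) : ℂ[X]) *
      ∏ j ∈ J.erase k, (X - C (x j)) ^ (m j - 1) =
      (∏ j ∈ J.erase k, (X - C (x j)) ^ m j) * ∏ j ∈ J.erase k, (X - C (x j)) ^ m j := by
    rw [← Finset.prod_mul_distrib, ← Finset.prod_mul_distrib]
    apply Finset.prod_congr rfl
    intro j hj
    rw [← pow_add, ← pow_add]
    congr 1
    have := hm j (Finset.mem_of_mem_erase hj)
    omega
  rw [hD, hE]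
  generalize (∏ j ∈ J.erase k, (X - C (x j)) ^ m j : ℂ[X]) = Q at *
  generalize (∏ j ∈ J.erase k, (X - C (x j)) ^ (m j + 1) : ℂ[X]) = P1 at *
  generalize (∏ j ∈ J.erase k, (X - C (x j)) ^ (m j - 1) : ℂ[X]) = P2 at *
  rw [derivative_mul, derivative_mul, derivative_X_sub_C_pow, hn, Nat.add_sub_cancel, pow_succ]
  rw [hn] at hUk
  linear_combination (X - C (x k)) ^ n * Q ^ 2 * hUk - s k * (X - C (x k)) ^ n * hP

end Pool.Agent.Lib.MP_0ae92b_ag.G26
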