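import Pool.Agent.Lib.MP_0ae92b_ag.G26.Pol
import Pool.Agent.Lib.MP_0ae92b_ag.G26.Prim

set_option autoImplicit false

/-!
# Part (A): the primitive `Y`

`J = univ.erase i0`, `x_0 = xc x i0`, `m_0 = m i0`, `D = ∏_{k ∈ J} (X - x_k)^(m_k)` of degree `n = 2 d - 3 - m_0`, `Π = ∏_{k∈J} (X - x_k)^(m_k-1)`.

PROOF.  `h_0 = p_0 f + q_0 g = (X - x_0)^(m_0+1) κ`, `κ ≠ 0`, `natDegree κ ≤ d - m_0 - 1 ≤ 2`.
`N h_0 = ∑_k (p_0 q_k - q_0 p_k) E_k r_k =: ∑_{k ∈ J} γ_k E_k r_k` (the term `i0` is zero), and for `k ∈ J`: `E_k = (X - x_0)^(m_0+1) ∏_{j∈J, j≠k} (X - x_j)^(m_j+1)`.  Cancel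
`(X - x_0)^(m_0+1)`: `N κ = ∑_{k∈J} γ_k r_k ∏_{j∈J.erase k} (X-x_j)^(m_j+1)`.  Multiply by `h_0` and put `s_k = γ_k r_k h_0`; `(taylor x_k s_k).coeff m_k = 0` by `hrf`, `hrg`.
`prim` gives `U` with `U' D - U D' = N κ h_0 Π`.  Degrees: `natDegree (N κ h_0) ≤ (card ι - 5) + (d - m_0 - 1) + d = n + (card ι - 1) - 2`, `natDegree Π = n - (card ι - 1)`, so the right side
has degree at most `2 n - 2`.  If `natDegree U > n` then `U' D - U D'` would have degree `natDegree U + n - 1 ≥ 2 n` (leading coefficient times `natDegree U - n ≠ 0`): so `natDegree U ≤ n`.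
Replace `U` by `U - c D` (same identity) such that `U(x_0) = 0` (`D(x_0) ≠ 0`).
`(X - x_0)^(m_0+1)` divides the right side (`h_0`); with `U(x_0) = 0` and `D(x_0) ≠ 0`, the multiplicity of `x_0` in `U' D - U D'` is one less than in `U` (characteristic `0`, `U ≠ 0`), so
`U = (X - x_0)^(m_0+2) Y`.  `U ≠ 0` because the right side is not zero.  `natDegree Y ≤ n - m_0 - 2 = 2 d - 5 - 2 m_0`, so `2 m_0 + 5 ≤ 2 d`, `m_0 + 3 ≤ d`; with `d ≤ m_0 + 3`: `d = m_0 + 3`, and
`natDegree Y ≤ 1`.  Insert `U` and cancel `(X - x_0)^(m_0+1)` (right side `N κ · κ (X - x_0)^(m_0+1) Π`).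
-/

namespace Pool.Agent.Lib.MP_0ae92b_ag.G26

open Polynomial

variable {ι : Type} [Fintype ι] [DecidableEq ι]

theorem AY (x : ι → ℝ) (m : ι → ℕ) (hm : ∀ k, 1 ≤ m k) (d : ℕ) (f g : ℂ[X]) (p q : ι → ℂ)
    (N : ℂ[X]) (r : ι → ℂ[X]) (hD : PData x m d f g p q) (hN : IsNode x m f g p q N r)
    (i0 : ι) (hi0 : d ≤ m i0 + 3) :
    m i0 + 3 = d ∧ ∃ κ Y : ℂ[X], κ ≠ 0 ∧ Y ≠ 0 ∧ κ.natDegree ≤ 2 ∧ Y.natDegree ≤ 1 ∧
      (X - C (xc x i0)) * derivative Y * ∏ k ∈ Finset.univ.erase i0, (X - C (xc x k)) ^ m k +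
          C ((m i0 : ℂ) + 2) * Y * ∏ k ∈ Finset.univ.erase i0, (X - C (xc x k)) ^ m k -
          (X - C (xc x i0)) * Y *
            derivative (∏ k ∈ Finset.univ.erase i0, (X - C (xc x k)) ^ m k) =
        N * κ ^ 2 * ∏ k ∈ Finset.univ.erase i0, (X - C (xc x k)) ^ (m k - 1) := by
  classical
  have hxc : ∀ j, j ≠ i0 → xc x i0 - xc x j ≠ 0 := by
    intro j hj h
    have h2 : ((x i0 : ℝ) : ℂ) = ((x j : ℝ) : ℂ) := by simpa [xc] using sub_eq_zero.mp h
    exact hj (hD.hx (by exact_mod_cast h2.symm))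
  obtain ⟨D, hDdef⟩ : ∃ D : ℂ[X], D = ∏ k ∈ Finset.univ.erase i0, (X - C (xc x k)) ^ m k := ⟨_, rfl⟩
  obtain ⟨Q, hQdef⟩ : ∃ Q : ℂ[X], Q = ∏ k ∈ Finset.univ.erase i0, (X - C (xc x k)) ^ (m k - 1) :=
    ⟨_, rfl⟩
  rw [← hDdef, ← hQdef]
  obtain ⟨L, hLdef⟩ : ∃ L : ℂ[X], L = X - C (xc x i0) := ⟨_, rfl⟩
  have hL0 : L ≠ 0 := by rw [hLdef]; exact X_sub_C_ne_zero _
  have hLdeg : L.natDegree = 1 := by rw [hLdef]; exact natDegree_X_sub_C _
  have hLder : derivative L = 1 := by rw [hLdef]; simp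
  have hLev : L.eval (xc x i0) = 0 := by rw [hLdef]; simp
  -- degrees of D and Q
  have hDmon : D.Monic := by
    rw [hDdef]; exact monic_prod_of_monic _ _ fun k _ => (monic_X_sub_C _).pow _
  have hQmon : Q.Monic := by
    rw [hQdef]; exact monic_prod_of_monic _ _ fun k _ => (monic_X_sub_C _).pow _
  have hDdeg : D.natDegree = ∑ k ∈ Finset.univ.erase i0, m k := by
    rw [hDdef, natDegree_prod_of_monic _ _ (fun k _ => (monic_X_sub_C _).pow _)]
    exact Finset.sum_congr rfl fun k _ => by rw [natDegree_pow, natDegree_X_sub_C, mul_one]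
  have hQdeg : Q.natDegree = ∑ k ∈ Finset.univ.erase i0, (m k - 1) := by
    rw [hQdef, natDegree_prod_of_monic _ _ (fun k _ => (monic_X_sub_C _).pow _)]
    exact Finset.sum_congr rfl fun k _ => by rw [natDegree_pow, natDegree_X_sub_C, mul_one]
  have hcard : (Finset.univ.erase i0 : Finset ι).card + 1 = Fintype.card ι := by
    rw [Finset.card_erase_add_one (Finset.mem_univ i0)]; rfl
  have hQD : Q.natDegree + (Finset.univ.erase i0 : Finset ι).card = D.natDegree := by
    rw [hQdeg, hDdeg, Finset.card_eq_sum_ones, ← Finset.sum_add_distrib]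
    exact Finset.sum_congr rfl fun k _ => Nat.sub_add_cancel (hm k)
  have hsum2 : D.natDegree + m i0 + 3 = 2 * d := by
    rw [hDdeg, Finset.sum_erase_add _ _ (Finset.mem_univ i0)]; exact hD.hsum
  have hDev : D.eval (xc x i0) ≠ 0 := by
    rw [hDdef, eval_prod]
    refine Finset.prod_ne_zero_iff.mpr fun k hk => ?_
    rw [eval_pow]
    refine pow_ne_zero _ ?_
    simpa using hxc k (Finset.ne_of_mem_erase hk)
  -- h0
  obtain ⟨κ, hκ⟩ := hD.hdiv i0
  rw [← hLdef] at hκ
  obtain ⟨h0, hh0⟩ : ∃ h0 : ℂ[X], h0 = C (p i0) * f + C (q i0) * g := ⟨_, rfl⟩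
  rw [← hh0] at hκ
  have hh0ne : h0 ≠ 0 := by
    intro h
    rw [hh0] at h
    have := hD.hfg _ _ h
    rcases hD.hpq i0 with h1 | h1
    · exact h1 this.1
    · exact h1 this.2
  have hκ0 : κ ≠ 0 := by
    rintro rfl
    exact hh0ne (by rw [hκ, mul_zero])
  have hh0deg : h0.natDegree ≤ d := by
    rw [hh0]
    refine (natDegree_add_le _ _).trans (max_le ?_ ?_)
    · exact (natDegree_C_mul_le _ _).trans hD.hf
    · exact (natDegree_C_mul_le _ _).trans hD.hg
  have hκdeg : m i0 + 1 + κ.natDegree = h0.natDegree := by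
    rw [hκ, natDegree_mul (pow_ne_zero _ hL0) hκ0, natDegree_pow, hLdeg, mul_one]
  -- the sum
  have hEk : ∀ k ∈ Finset.univ.erase i0, Ek x m k = L ^ (m i0 + 1) *
      ∏ j ∈ (Finset.univ.erase i0).erase k, (X - C (xc x j)) ^ (m j + 1) := by
    intro k hk
    have hmem : i0 ∈ Finset.univ.erase k :=
      Finset.mem_erase.mpr ⟨(Finset.ne_of_mem_erase hk).symm, Finset.mem_univ _⟩
    rw [Ek, ← Finset.mul_prod_erase _ _ hmem, ← hLdef, Finset.erase_right_comm]
  have hNh0 : N * h0 = ∑ k ∈ Finset.univ.erase i0,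
      C (p i0 * q k - q i0 * p k) * (Ek x m k * r k) := by
    have e1 : N * h0 = ∑ k, C (p i0 * q k - q i0 * p k) * (Ek x m k * r k) := by
      have : N * h0 = C (p i0) * (N * f) + C (q i0) * (N * g) := by rw [hh0]; ring
      rw [this, hN.hf, hN.hg, mul_neg, Finset.mul_sum, Finset.mul_sum, ← sub_eq_add_neg,
        ← Finset.sum_sub_distrib]
      refine Finset.sum_congr rfl fun k _ => ?_
      rw [C_sub, C_mul, C_mul]; ring
    rw [e1, ← Finset.sum_erase_add _ _ (Finset.mem_univ i0)]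
    have : p i0 * q i0 - q i0 * p i0 = 0 := by ring
    rw [this, C_0, zero_mul, add_zero]
  have hNκ : N * κ = ∑ k ∈ Finset.univ.erase i0, C (p i0 * q k - q i0 * p k) * r k *
      ∏ j ∈ (Finset.univ.erase i0).erase k, (X - C (xc x j)) ^ (m j + 1) := by
    apply mul_left_cancel₀ (pow_ne_zero (m i0 + 1) hL0)
    calc L ^ (m i0 + 1) * (N * κ) = N * h0 := by rw [hκ]; ring
      _ = _ := by
        rw [hNh0, Finset.mul_sum]
        refine Finset.sum_congr rfl fun k hk => ?_
        rw [hEk k hk]; ring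
  -- residues
  obtain ⟨U, hU⟩ := prim (Finset.univ.erase i0) (xc x) m (fun k _ => hm k)
    (fun k => C (p i0 * q k - q i0 * p k) * r k * h0) (by
      intro k _
      have : C (p i0 * q k - q i0 * p k) * r k * h0 =
          C ((p i0 * q k - q i0 * p k) * p i0) * (r k * f) +
            C ((p i0 * q k - q i0 * p k) * q i0) * (r k * g) := by
        rw [hh0, C_mul, C_mul]; ring
      show (taylor (xc x k) (C (p i0 * q k - q i0 * p k) * r k * h0)).coeff (m k) = 0
      rw [this, map_add, taylor_mul _ (C _), taylor_mul _ (C _) (r k * g), taylor_C, taylor_C,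
        coeff_add, coeff_C_mul, coeff_C_mul, hN.hrf, hN.hrg]
      ring)
  rw [← hDdef, ← hQdef] at hU
  have hU2 : derivative U * D - U * derivative D = N * κ * h0 * Q := by
    rw [hU, hNκ]
    congr 1
    rw [Finset.sum_mul]
    exact Finset.sum_congr rfl fun k _ => by ring
  have hRdeg : (N * κ * h0 * Q).natDegree + 2 ≤ 2 * D.natDegree := by
    have hN5 := hN.hdeg
    have e1 : (N * κ * h0 * Q).natDegree =
        N.natDegree + κ.natDegree + h0.natDegree + Q.natDegree := by
      rw [natDegree_mul (mul_ne_zero (mul_ne_zero hN.hN hκ0) hh0ne) hQmon.ne_zero,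
        natDegree_mul (mul_ne_zero hN.hN hκ0) hh0ne, natDegree_mul hN.hN hκ0]
    rw [e1]
    omega
  have hR0 : N * κ * h0 * Q ≠ 0 :=
    mul_ne_zero (mul_ne_zero (mul_ne_zero hN.hN hκ0) hh0ne) hQmon.ne_zero
  have hUdeg : U.natDegree ≤ D.natDegree := by
    by_contra hlt
    push Not at hlt
    have hn1 : 1 ≤ D.natDegree := by omega
    have hc : (derivative U * D - U * derivative D).coeff (U.natDegree + D.natDegree - 1) =
        ((U.natDegree : ℂ) - D.natDegree) * (U.leadingCoeff * D.leadingCoeff) := by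
      rw [coeff_sub]
      have i1 : U.natDegree + D.natDegree - 1 = (U.natDegree - 1) + D.natDegree := by omega
      have c1 : (derivative U * D).coeff (U.natDegree + D.natDegree - 1) =
          (U.natDegree : ℂ) * (U.leadingCoeff * D.leadingCoeff) := by
        rw [i1, coeff_mul_add_eq_of_natDegree_le (natDegree_derivative_le U) le_rfl, coeff_derivative]
        have : U.natDegree - 1 + 1 = U.natDegree := by omega
        rw [this]
        have h3 : ((U.natDegree - 1 : ℕ) : ℂ) + 1 = (U.natDegree : ℂ) := by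
          rw [← Nat.cast_succ]; congr 1
        rw [h3]
        simp only [leadingCoeff]
        ring
      have i2 : U.natDegree + D.natDegree - 1 = U.natDegree + (D.natDegree - 1) := by omega
      have c2 : (U * derivative D).coeff (U.natDegree + D.natDegree - 1) =
          (D.natDegree : ℂ) * (U.leadingCoeff * D.leadingCoeff) := by
        rw [i2, coeff_mul_add_eq_of_natDegree_le le_rfl (natDegree_derivative_le D), coeff_derivative]
        have : D.natDegree - 1 + 1 = D.natDegree := by omega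
        rw [this]
        have h3 : ((D.natDegree - 1 : ℕ) : ℂ) + 1 = (D.natDegree : ℂ) := by
          rw [← Nat.cast_succ]; congr 1
        rw [h3]
        simp only [leadingCoeff]
        ring
      rw [c1, c2]; ring
    have hU0 : U ≠ 0 := by
      rintro rfl
      simp at hlt
    have hne : (derivative U * D - U * derivative D).coeff (U.natDegree + D.natDegree - 1) ≠ 0 := by
      rw [hc]
      refine mul_ne_zero ?_ (mul_ne_zero (leadingCoeff_ne_zero.mpr hU0)
        (leadingCoeff_ne_zero.mpr hDmon.ne_zero))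
      intro h
      have := sub_eq_zero.mp h
      have : U.natDegree = D.natDegree := by exact_mod_cast this
      omega
    rw [hU2] at hne
    have := le_natDegree_of_ne_zero hne
    omega
  -- normalise U
  obtain ⟨U1, hU1, hU1deg, hU1ev⟩ : ∃ U1 : ℂ[X],
      derivative U1 * D - U1 * derivative D = N * κ * h0 * Q ∧ U1.natDegree ≤ D.natDegree ∧
        U1.eval (xc x i0) = 0 := by
    refine ⟨U - C (U.eval (xc x i0) / D.eval (xc x i0)) * D, ?_, ?_, ?_⟩
    · rw [← hU2, derivative_sub, derivative_C_mul]; ring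
    · refine (natDegree_sub_le _ _).trans (max_le hUdeg (natDegree_C_mul_le _ _))
    · rw [eval_sub, eval_mul, eval_C, div_mul_cancel₀ _ hDev, sub_self]
  have hU10 : U1 ≠ 0 := by
    rintro rfl
    rw [derivative_zero, zero_mul, zero_mul, sub_zero] at hU1
    exact hR0 hU1.symm
  -- multiplicity
  have hLU : L ^ (m i0 + 2) ∣ U1 := by
    have key : ∀ μ, 1 ≤ μ → μ ≤ m i0 + 2 → L ^ μ ∣ U1 := by
      intro μ
      induction μ with
      | zero => intro h; omega
      | succ μ ih =>
        intro _ h2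
        rcases Nat.eq_zero_or_pos μ with rfl | hμ
        · rw [zero_add, pow_one, hLdef]; exact dvd_iff_isRoot.mpr hU1ev
        · obtain ⟨Z, hZ⟩ := ih hμ (by omega)
          obtain ⟨ν, rfl⟩ : ∃ ν, μ = ν + 1 := ⟨μ - 1, by omega⟩
          have e1 : derivative U1 * D - U1 * derivative D =
              L ^ ν * (C ((ν : ℂ) + 1) * Z * D + L * (derivative Z * D - Z * derivative D)) := by
            rw [hZ, derivative_mul, derivative_pow_succ, hLder, mul_one, pow_succ]
            ring
          have e2 : L ^ (ν + 1) ∣ N * κ * h0 * Q := by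
            rw [hκ]
            have : L ^ (ν + 1) ∣ L ^ (m i0 + 1) := pow_dvd_pow _ (by omega)
            exact ((this.mul_right κ).mul_left (N * κ)).mul_right Q
          rw [← hU1, e1, pow_succ] at e2
          have e3 := (mul_dvd_mul_iff_left (pow_ne_zero ν hL0)).mp e2
          have e4 : L ∣ C ((ν : ℂ) + 1) * Z * D := by
            have := dvd_sub e3 (Dvd.intro (derivative Z * D - Z * derivative D) rfl)
            simpa using this
          have e5 : (C ((ν : ℂ) + 1) * Z * D).eval (xc x i0) = 0 := by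
            rw [hLdef] at e4
            exact dvd_iff_isRoot.mp e4
          rw [eval_mul, eval_mul, eval_C] at e5
          have hν : (ν : ℂ) + 1 ≠ 0 := by exact_mod_cast Nat.succ_ne_zero ν
          have e6 : Z.eval (xc x i0) = 0 := by
            rcases mul_eq_zero.mp e5 with h | h
            · rcases mul_eq_zero.mp h with h | h
              · exact absurd h hν
              · exact h
            · exact absurd h hDev
          have e7 : L ∣ Z := by rw [hLdef]; exact dvd_iff_isRoot.mpr e6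
          rw [hZ, pow_succ L (ν + 1)]
          exact mul_dvd_mul_left _ e7
    exact key _ (by omega) le_rfl
  obtain ⟨Y, hY⟩ := hLU
  have hY0 : Y ≠ 0 := by
    rintro rfl
    exact hU10 (by rw [hY, mul_zero])
  have hYdeg : m i0 + 2 + Y.natDegree = U1.natDegree := by
    rw [hY, natDegree_mul (pow_ne_zero _ hL0) hY0, natDegree_pow, hLdeg, mul_one]
  refine ⟨by omega, κ, Y, hκ0, hY0, by omega, by omega, ?_⟩
  rw [← hLdef]
  apply mul_left_cancel₀ (pow_ne_zero (m i0 + 1) hL0)
  have e1 : derivative U1 * D - U1 * derivative D = L ^ (m i0 + 1) *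
      (L * derivative Y * D + C ((m i0 : ℂ) + 2) * Y * D - L * Y * derivative D) := by
    have : (C ((m i0 : ℂ) + 2) : ℂ[X]) = C (((m i0 + 1 : ℕ) : ℂ) + 1) := by
      congr 1; push_cast; ring
    rw [hY, derivative_mul, show m i0 + 2 = (m i0 + 1) + 1 from rfl, derivative_pow_succ, hLder,
      mul_one, this, pow_succ L (m i0 + 1)]
    ring
  rw [← e1, hU1, hκ]
  ring

end Pool.Agent.Lib.MP_0ae92b_ag.G26
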