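import Pool.Agent.Lib.MP_0ae92b_ag.G26.Vec

set_option autoImplicit false

/-!
# Choice of the index `j` and of the linear form `R`

PROOF.  Case 1: `qv n (x k)` has the same sign for all `k`: take `j` with `x j` maximal and `R = ∓1` (constant):
`x k - x j < 0` for `k ≠ j`.
Case 2: `qv n (x k) < 0 < qv n (x k')` for some `k, k'`.  By the intermediate value theorem `qv n` has a real zero `y`, so
`qv n z = (z - y) * lv R z` with `R = (n.1, n.2.1 + n.1 * y)`.  `y ≠ x k` for all `k`.  If some `x k < y` let `x j` be the largest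
point below `y`, otherwise let `x j` be the smallest of all points.  Then for `k ≠ j` the numbers `x k - x j` and
`x k - y` have the same sign, and `qv n (x k) * lv R (x k) * (x k - x j) = (x k - y) (x k - x j) (lv R (x k))² > 0`
(`lv R (x k) ≠ 0` since `qv n (x k) ≠ 0`).
-/

namespace Pool.Agent.Lib.MP_0ae92b_ag.G26

variable {ι : Type} [Fintype ι] [DecidableEq ι]

private theorem b1sel_zero (n : ℝ × ℝ × ℝ) {u v : ℝ} (hu : qv n u < 0) (hv : 0 < qv n v) :
    ∃ y : ℝ, qv n y = 0 := by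
  have hc : Continuous fun z => qv n z := by
    unfold qv
    fun_prop
  obtain ⟨y, hy⟩ := mem_range_of_exists_le_of_exists_ge hc ⟨u, hu.le⟩ ⟨v, hv.le⟩
  exact ⟨y, hy⟩

theorem B1sel [Nonempty ι] (x : ι → ℝ) (hx : Function.Injective x) (n : ℝ × ℝ × ℝ)
    (hN : ∀ k, qv n (x k) ≠ 0) :
    ∃ (j : ι) (R : ℝ × ℝ), ∀ k, k ≠ j → 0 < qv n (x k) * lv R (x k) * (x k - x j) := by
  obtain ⟨j, -, hj⟩ := Finset.exists_max_image Finset.univ x Finset.univ_nonempty
  have hjlt : ∀ k, k ≠ j → x k - x j < 0 := fun k hk =>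
    sub_neg.2 (lt_of_le_of_ne (hj k (Finset.mem_univ k)) fun he => hk (hx he))
  by_cases hpos : ∀ k, 0 < qv n (x k)
  · refine ⟨j, (0, -1), fun k hk => ?_⟩
    have h1 := hpos k
    have h2 := hjlt k hk
    have h3 : lv ((0 : ℝ), (-1 : ℝ)) (x k) = -1 := by simp [lv]
    rw [h3]
    nlinarith [mul_pos h1 (neg_pos.2 h2)]
  by_cases hneg : ∀ k, qv n (x k) < 0
  · refine ⟨j, (0, 1), fun k hk => ?_⟩
    have h1 := hneg k
    have h2 := hjlt k hk
    have h3 : lv ((0 : ℝ), (1 : ℝ)) (x k) = 1 := by simp [lv]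
    rw [h3]
    nlinarith [mul_pos (neg_pos.2 h1) (neg_pos.2 h2)]
  push Not at hpos hneg
  obtain ⟨k1, hk1⟩ := hpos
  obtain ⟨k2, hk2⟩ := hneg
  obtain ⟨y, hy⟩ := b1sel_zero n (lt_of_le_of_ne hk1 (hN k1)) (lt_of_le_of_ne hk2 (hN k2).symm)
  have hyk : ∀ k, x k ≠ y := fun k he => hN k (by rw [he, hy])
  -- factorisation
  have hfac : ∀ z, qv n z = (z - y) * lv (n.1, n.2.1 + n.1 * y) z := by
    intro z
    have : qv n z = qv n z - qv n y := by rw [hy, sub_zero]
    rw [this]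
    simp only [qv, lv]
    ring
  have hsel : ∃ j, ∀ k, k ≠ j → 0 < (x k - x j) * (x k - y) := by
    by_cases hex : ∃ k, x k < y
    · have hne : (Finset.univ.filter fun k => x k < y).Nonempty := by
        obtain ⟨k, hk⟩ := hex
        exact ⟨k, by simp [hk]⟩
      obtain ⟨i, hi, hmax⟩ := Finset.exists_max_image _ x hne
      rw [Finset.mem_filter] at hi
      refine ⟨i, fun k hk => ?_⟩
      rcases lt_or_gt_of_ne (hyk k) with h | h
      · have h1 : x k ≤ x i := hmax k (by simp [h])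
        have h2 : x k < x i := lt_of_le_of_ne h1 fun he => hk (hx he)
        exact mul_pos_of_neg_of_neg (sub_neg.2 h2) (sub_neg.2 h)
      · exact mul_pos (sub_pos.2 (hi.2.trans h)) (sub_pos.2 h)
    · push Not at hex
      obtain ⟨i, -, hmin⟩ := Finset.exists_min_image Finset.univ x Finset.univ_nonempty
      refine ⟨i, fun k hk => ?_⟩
      have h1 : x i < x k := lt_of_le_of_ne (hmin k (Finset.mem_univ k)) fun he => hk (hx he).symm
      have h2 : y < x k := lt_of_le_of_ne (hex k) (hyk k).symm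
      exact mul_pos (sub_pos.2 h1) (sub_pos.2 h2)
  obtain ⟨i, hi⟩ := hsel
  refine ⟨i, (n.1, n.2.1 + n.1 * y), fun k hk => ?_⟩
  have hR0 : lv (n.1, n.2.1 + n.1 * y) (x k) ≠ 0 := by
    intro h0
    apply hN k
    rw [hfac, h0, mul_zero]
  have h1 := mul_pos (hi k hk) (pow_pos (abs_pos.2 hR0) 2)
  rw [sq_abs] at h1
  rw [hfac]
  calc (0 : ℝ) < _ := h1
    _ = _ := by ring

end Pool.Agent.Lib.MP_0ae92b_ag.G26
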