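import Pool.Agent.Lib.MP_0ae92b_ag.G26.B1id
import Pool.Agent.Lib.MP_0ae92b_ag.G26.B1sel

set_option autoImplicit false

/-!
# The real case

PROOF.  `B1sel` gives `j`, `R`; take `b` for this `j`.  By `B1id` the sum of the terms
`N_k R_k (x_k - x_j)⁻³ b_k² = N_k R_k (x_k - x_j) · ((x_k - x_j)⁻²)² b_k²` is zero; all are nonnegative, so all vanish and `b_k = 0` for
`k ≠ j`; also `b_j = 0`: contradiction.
-/

namespace Pool.Agent.Lib.MP_0ae92b_ag.G26

variable {ι : Type} [Fintype ι] [DecidableEq ι]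

theorem B1 [Nonempty ι] (x : ι → ℝ) (hx : Function.Injective x) (n : ℝ × ℝ × ℝ)
    (hN : ∀ k, qv n (x k) ≠ 0)
    (h : ∀ j, ∃ b : ι → ℝ, b ≠ 0 ∧ b j = 0 ∧ Cau x b j = 0 ∧ ∑ k, b k = 0 ∧
      ∀ k, qv n (x k) * Cau x b k + qd n (x k) / 2 * b k = 0) : False := by
  obtain ⟨j, R, hR⟩ := B1sel x hx n hN
  obtain ⟨b, hb, hj, hCj, hs, hrel⟩ := h j
  have hsum := B1id x hx n j b hj hCj hs hrel R
  have hnn : ∀ k ∈ Finset.univ, 0 ≤ qv n (x k) * lv R (x k) * ((x k - x j)⁻¹) ^ 3 * b k ^ 2 := by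
    intro k _
    by_cases hk : k = j
    · rw [hk, hj]; simp
    · have h1 := hR k hk
      have hne : x k - x j ≠ 0 := sub_ne_zero.2 (hx.ne hk)
      have e1 : qv n (x k) * lv R (x k) * ((x k - x j)⁻¹) ^ 3 * b k ^ 2 =
          qv n (x k) * lv R (x k) * (x k - x j) * (((x k - x j)⁻¹) ^ 2 * b k) ^ 2 := by
        field_simp
      rw [e1]
      positivity
  have hz := (Finset.sum_eq_zero_iff_of_nonneg hnn).1 hsum
  apply hb
  funext k
  by_cases hk : k = j
  · rw [hk, hj]; rfl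
  · have h1 := hR k hk
    have hne : x k - x j ≠ 0 := sub_ne_zero.2 (hx.ne hk)
    have h2 := hz k (Finset.mem_univ k)
    have h3 : qv n (x k) * lv R (x k) ≠ 0 := by
      intro h0; rw [h0, zero_mul] at h1; exact lt_irrefl _ h1
    have h4 : ((x k - x j)⁻¹) ^ 3 ≠ 0 := pow_ne_zero _ (inv_ne_zero hne)
    have h5 : b k ^ 2 = 0 := by
      rcases mul_eq_zero.1 h2 with h6 | h6
      · rcases mul_eq_zero.1 h6 with h7 | h7
        · exact absurd h7 h3
        · exact absurd h7 h4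
      · exact h6
    simpa using pow_eq_zero_iff (n := 2) (by norm_num) |>.1 h5

end Pool.Agent.Lib.MP_0ae92b_ag.G26
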