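import Pool.Agent.Lib.MP_0ae92b_ag.G26.BNlem

set_option autoImplicit false

/-!
# The two relations at a double zero

`φ_k = (x_k - x_j)⁻¹` (`φ_j = 0`), `N_k = qv n (x k)`.

PROOF.  The claim is linear in `R` and `lv R (x_k) = R.1 (x_k - x_j) + lv R (x_j)`, so it follows from (the terms `k = j` vanish as `b_j = 0`)
(R2) `∑_k N_k b_k² φ_k² = 0` and (R3) `∑_k N_k b_k² φ_k³ = 0`.
Multiply the relation at `k` by `b_k φ_k^i`, `i = 1, 2`, and sum over `k ≠ j`:
`∑_k N_k φ_k^i b_k (C b)_k + (1/2) ∑_k N'_k φ_k^i b_k² = 0`.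
Antisymmetrise the first sum (over pairs `k ≠ l`, both different from `j`): it is `(1/2) ∑_{k≠l} b_k b_l (ψ_k - ψ_l)/(x_k - x_l)` with
`ψ = N φ^i`, a Laurent polynomial in `z - x_j`: `N = N_j + N'_j (z - x_j) + n_2 (z - x_j)²`.
`i = 1`: `(ψ_k - ψ_l)/(x_k - x_l) = -N_j φ_k φ_l + n_2`; summed over all pairs (including `k = l`) against `b_k b_l` this is
`-N_j (∑ φ b)² + n_2 (∑ b)² = 0` because `∑_k φ_k b_k = -(C b)_j = 0` and `∑ b = 0`; subtracting the diagonal `k = l`
(value `-N_j φ_k² + n_2 = ψ'(x_k)`), and `-ψ' + N' φ = N φ²`, gives (R2).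
`i = 2`: `(ψ_k - ψ_l)/(x_k-x_l) = -N_j φ_k φ_l (φ_k + φ_l) - N'_j φ_k φ_l`, again zero when summed over all pairs, the diagonal is
`ψ'(x_k)` and `-ψ' + N' φ² = 2 N φ³` gives (R3).
(Any other proof is fine, for example with the polynomial identity `∑_k N_k b_k² ∏_{l≠k}(z-x_l)² = N(z) h(z)²`,
`h = ∑ b_k ∏_{l≠k}(X-x_l)`, evaluated to second order at `z = x_j`.)
-/

namespace Pool.Agent.Lib.MP_0ae92b_ag.G26

variable {ι : Type} [Fintype ι] [DecidableEq ι]

omit [DecidableEq ι] in
private theorem B1id_anti (x b : ι → ℝ) (a : ι → ℝ) :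
    2 * ∑ k, a k * b k * Cau x b k =
      ∑ k, ∑ l, (a k - a l) * (x k - x l)⁻¹ * (b k * b l) := by
  have h1 : ∑ k, a k * b k * Cau x b k = ∑ k, ∑ l, a k * (x k - x l)⁻¹ * (b k * b l) := by
    refine Finset.sum_congr rfl fun k _ => ?_
    rw [Cau, Finset.mul_sum]
    refine Finset.sum_congr rfl fun l _ => ?_
    ring
  have h2 : ∑ k, ∑ l, a k * (x k - x l)⁻¹ * (b k * b l) =
      - ∑ k, ∑ l, a l * (x k - x l)⁻¹ * (b k * b l) := by
    rw [Finset.sum_comm, ← Finset.sum_neg_distrib]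
    refine Finset.sum_congr rfl fun k _ => ?_
    rw [← Finset.sum_neg_distrib]
    refine Finset.sum_congr rfl fun l _ => ?_
    rw [show x l - x k = -(x k - x l) by ring, inv_neg]; ring
  have h3 : ∑ k, ∑ l, (a k - a l) * (x k - x l)⁻¹ * (b k * b l) =
      ∑ k, ∑ l, a k * (x k - x l)⁻¹ * (b k * b l) -
        ∑ k, ∑ l, a l * (x k - x l)⁻¹ * (b k * b l) := by
    rw [← Finset.sum_sub_distrib]
    refine Finset.sum_congr rfl fun k _ => ?_
    rw [← Finset.sum_sub_distrib]
    refine Finset.sum_congr rfl fun l _ => ?_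
    ring
  rw [h1, h3]; linarith

private theorem B1id_main (x b : ι → ℝ) (j : ι) (hj : b j = 0) (a : ι → ℝ) (K : ι → ι → ℝ)
    (hK : ∀ k l, k ≠ l → k ≠ j → l ≠ j → (a k - a l) * (x k - x l)⁻¹ = K k l)
    (h0 : ∑ k, ∑ l, K k l * (b k * b l) = 0) :
    2 * ∑ k, a k * b k * Cau x b k = - ∑ k, K k k * b k ^ 2 := by
  rw [B1id_anti]
  have e : ∀ k l, (a k - a l) * (x k - x l)⁻¹ * (b k * b l) =
      K k l * (b k * b l) - (if k = l then K k k * b k ^ 2 else 0) := by
    intro k l
    by_cases hkl : k = l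
    · subst hkl
      rw [if_pos rfl]; ring
    · rw [if_neg hkl, sub_zero]
      by_cases hkj : k = j
      · rw [hkj, hj]; ring
      · by_cases hlj : l = j
        · rw [hlj, hj]; ring
        · rw [hK k l hkl hkj hlj]
  simp only [e, Finset.sum_sub_distrib, h0, Finset.sum_ite_eq, Finset.mem_univ, if_true, zero_sub]

theorem B1id (x : ι → ℝ) (hx : Function.Injective x) (n : ℝ × ℝ × ℝ) (j : ι) (b : ι → ℝ)
    (hj : b j = 0) (hCj : Cau x b j = 0) (hs : ∑ k, b k = 0)
    (hrel : ∀ k, qv n (x k) * Cau x b k + qd n (x k) / 2 * b k = 0) (R : ℝ × ℝ) :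
    ∑ k, qv n (x k) * lv R (x k) * ((x k - x j)⁻¹) ^ 3 * b k ^ 2 = 0 := by
  obtain ⟨φ, hφ⟩ : ∃ φ : ι → ℝ, ∀ k, φ k = (x k - x j)⁻¹ := ⟨_, fun k => rfl⟩
  have hz : ∀ k, k ≠ j → x k - x j ≠ 0 := fun k hk => sub_ne_zero.2 (hx.ne hk)
  have hφb : ∑ k, φ k * b k = 0 := by
    have : Cau x b j = - ∑ k, φ k * b k := by
      rw [Cau, ← Finset.sum_neg_distrib]
      refine Finset.sum_congr rfl fun l _ => ?_
      rw [hφ, show x j - x l = -(x l - x j) by ring, inv_neg]; ring
    linarith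
  have hr : ∀ α : ι → ℝ, 2 * ∑ k, (qv n (x k) * α k) * b k * Cau x b k =
      - ∑ k, qd n (x k) * α k * b k ^ 2 := by
    intro α
    rw [Finset.mul_sum, ← Finset.sum_neg_distrib]
    refine Finset.sum_congr rfl fun k _ => ?_
    have := hrel k
    linear_combination 2 * α k * b k * this
  have key : ∀ (α β : ι → ℝ), (∀ k, k ≠ j → α k = β k) →
      ∑ k, α k * b k ^ 2 = ∑ k, β k * b k ^ 2 := by
    intro α β h
    refine Finset.sum_congr rfl fun k _ => ?_
    by_cases hk : k = j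
    · rw [hk, hj]; ring
    · rw [h k hk]
  -- the relation with square
  have R2 : ∑ k, qv n (x k) * φ k ^ 2 * b k ^ 2 = 0 := by
    have h1 := B1id_main x b j hj (fun k => qv n (x k) * φ k)
      (fun k l => - qv n (x j) * (φ k * φ l) + n.1) (by
        intro k l hkl hk hl
        have h1 := hz k hk
        have h2 := hz l hl
        have h3 : x k - x l ≠ 0 := sub_ne_zero.2 (hx.ne hkl)
        simp only [hφ, qv]
        field_simp
        ring) (by
        have e : ∀ k l, (- qv n (x j) * (φ k * φ l) + n.1) * (b k * b l) =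
            - qv n (x j) * ((φ k * b k) * (φ l * b l)) + n.1 * (b k * b l) := by
          intro k l; ring
        simp only [e, Finset.sum_add_distrib, ← Finset.mul_sum, hφb, hs, mul_zero, add_zero,
          Finset.sum_const_zero])
    have h2 := hr φ
    have h3 : ∑ k, (qd n (x k) * φ k + qv n (x j) * (φ k * φ k) - n.1) * b k ^ 2 = 0 := by
      have e : ∀ k, (qd n (x k) * φ k + qv n (x j) * (φ k * φ k) - n.1) * b k ^ 2 =
          qd n (x k) * φ k * b k ^ 2 - (- qv n (x j) * (φ k * φ k) + n.1) * b k ^ 2 := by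
        intro k; ring
      simp only [e, Finset.sum_sub_distrib]
      linarith
    rw [← h3]
    apply key
    intro k hk
    have h1 := hz k hk
    simp only [hφ, qv, qd]
    field_simp
    ring
  have R3 : ∑ k, qv n (x k) * φ k ^ 3 * b k ^ 2 = 0 := by
    have h1 := B1id_main x b j hj (fun k => qv n (x k) * φ k ^ 2)
      (fun k l => - qv n (x j) * (φ k * φ l * (φ k + φ l)) - qd n (x j) * (φ k * φ l)) (by
        intro k l hkl hk hl
        have h1 := hz k hk
        have h2 := hz l hl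
        have h3 : x k - x l ≠ 0 := sub_ne_zero.2 (hx.ne hkl)
        simp only [hφ, qv, qd]
        field_simp
        ring) (by
        have e : ∀ k l, (- qv n (x j) * (φ k * φ l * (φ k + φ l)) - qd n (x j) * (φ k * φ l)) *
            (b k * b l) =
            - qv n (x j) * ((φ k ^ 2 * b k) * (φ l * b l)) +
              (- qv n (x j) * ((φ l ^ 2 * b l) * (φ k * b k)) -
              qd n (x j) * ((φ k * b k) * (φ l * b l))) := by
          intro k l; ring
        simp only [e, Finset.sum_add_distrib, Finset.sum_sub_distrib, ← Finset.mul_sum, hφb,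
          ← Finset.sum_mul, mul_zero, add_zero, sub_zero, Finset.sum_const_zero])
    have h2 := hr (fun k => φ k ^ 2)
    have h3 : ∑ k, (qd n (x k) * φ k ^ 2 + qv n (x j) * (φ k * φ k * (φ k + φ k)) +
        qd n (x j) * (φ k * φ k)) * b k ^ 2 = 0 := by
      have e : ∀ k, (qd n (x k) * φ k ^ 2 + qv n (x j) * (φ k * φ k * (φ k + φ k)) +
          qd n (x j) * (φ k * φ k)) * b k ^ 2 =
          qd n (x k) * φ k ^ 2 * b k ^ 2 - (- qv n (x j) * (φ k * φ k * (φ k + φ k)) -
            qd n (x j) * (φ k * φ k)) * b k ^ 2 := by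
        intro k; ring
      simp only [e, Finset.sum_sub_distrib]
      linarith
    have h4 : ∑ k, (2 * (qv n (x k) * φ k ^ 3)) * b k ^ 2 = 0 := by
      rw [← h3]
      apply key
      intro k hk
      have h1 := hz k hk
      simp only [hφ, qv, qd]
      field_simp
      ring
    have e : ∀ k, (2 * (qv n (x k) * φ k ^ 3)) * b k ^ 2 =
        2 * (qv n (x k) * φ k ^ 3 * b k ^ 2) := by
      intro k; ring
    simp only [e, ← Finset.mul_sum] at h4
    linarith
  have h5 : ∑ k, qv n (x k) * lv R (x k) * ((x k - x j)⁻¹) ^ 3 * b k ^ 2 =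
      ∑ k, (R.1 * (qv n (x k) * φ k ^ 2) + lv R (x j) * (qv n (x k) * φ k ^ 3)) * b k ^ 2 := by
    apply key
    intro k hk
    have h1 := hz k hk
    simp only [hφ, lv]
    field_simp
    ring
  have e : ∀ k, (R.1 * (qv n (x k) * φ k ^ 2) + lv R (x j) * (qv n (x k) * φ k ^ 3)) * b k ^ 2 =
      R.1 * (qv n (x k) * φ k ^ 2 * b k ^ 2) +
        lv R (x j) * (qv n (x k) * φ k ^ 3 * b k ^ 2) := by
    intro k; ring
  rw [h5]
  simp only [e, Finset.sum_add_distrib, ← Finset.mul_sum, R2, R3, mul_zero, add_zero]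

end Pool.Agent.Lib.MP_0ae92b_ag.G26
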