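import Pool.Agent.Lib.MP_0ae92b_ag.G26.WrZero

set_option autoImplicit false

/-!
# The solution space has dimension two

PROOF.  The three Wronskians `Wr f g`, `Wr f e`, `Wr g e` have degree at most `2δ - 2 ≤ card ι + 1` (`wr_natDegree`) and vanish at the `card ι` points, so
they are `D ℓ_1, D ℓ_2, D ℓ_3` with `D = ∏ (X - x_k)` and `deg ℓ_i ≤ 1`.  Three elements of the two-dimensional space of polynomials of degree at most `1` are
dependent: `a1 ℓ_1 + a2 ℓ_2 + a3 ℓ_3 = 0`, not all `a_i = 0`, so `a1 Wr f g + a2 Wr f e + a3 Wr g e = 0`.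
If `a2 ≠ 0`: this is `Wr (a2 f + a3 g) (a2 e + a1 g) / a2`, so by `wr_zero` `a2 f + a3 g` and `a2 e + a1 g` are dependent; as `f, g` are
independent, `a2 f + a3 g ≠ 0`, so `a2 e + a1 g` is a multiple of it and `e` is in the span of `f, g`.
If `a2 = 0`: it is `Wr g (a3 e - a1 f) = 0`: `g` and `a3 e - a1 f` are dependent, `g ≠ 0`, so `a3 e - a1 f = c g`; `a3 ≠ 0` (otherwise `a1 f + c g = 0`,
`a1 = 0`), so again `e` is in the span.
-/

namespace Pool.Agent.Lib.MP_0ae92b_ag.G26

open Polynomial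

variable {ι : Type} [Fintype ι] [DecidableEq ι]

private theorem B3dim_fac (x : ι → ℂ) (hx : Function.Injective x) (P : ℂ[X])
    (hP : P.natDegree ≤ Fintype.card ι + 1) (h : ∀ k, P.eval (x k) = 0) :
    ∃ a b : ℂ, P = (∏ k, (X - C (x k))) * (C a + C b * X) := by
  have hdvd : (∏ k, (X - C (x k))) ∣ P := by
    apply Finset.prod_dvd_of_coprime
    · intro k _ l _ hkl
      exact pairwise_coprime_X_sub_C hx hkl
    · intro k _
      exact dvd_iff_isRoot.2 (h k)
  obtain ⟨l, hl⟩ := hdvd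
  have hD : (∏ k, (X - C (x k))).Monic := monic_prod_of_monic _ _ (fun k _ => monic_X_sub_C _)
  have hDdeg : (∏ k, (X - C (x k))).natDegree = Fintype.card ι := by
    rw [natDegree_prod_of_monic _ _ (fun k _ => monic_X_sub_C _)]
    simp
  have hl1 : l.natDegree ≤ 1 := by
    by_cases hl0 : l = 0
    · rw [hl0]; simp
    · rw [hl, hD.natDegree_mul' hl0, hDdeg] at hP
      omega
  refine ⟨l.coeff 0, l.coeff 1, ?_⟩
  rw [hl]
  congr 1
  rw [add_comm]
  exact eq_X_add_C_of_natDegree_le_one hl1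

private theorem B3dim_rel (u v : Fin 3 → ℂ) : ∃ c : Fin 3 → ℂ, c ≠ 0 ∧
    ∑ i, c i * u i = 0 ∧ ∑ i, c i * v i = 0 := by
  have hn : ¬ LinearIndependent ℂ (fun i : Fin 3 => ((u i, v i) : ℂ × ℂ)) := by
    intro h
    have := h.fintype_card_le_finrank
    simp at this
  obtain ⟨c, hc, i, hi⟩ := Fintype.not_linearIndependent_iff.1 hn
  refine ⟨c, fun h => hi (by rw [h]; rfl), ?_, ?_⟩
  · have := congrArg Prod.fst hc
    simpa [Prod.fst_sum] using this
  · have := congrArg Prod.snd hc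
    simpa [Prod.snd_sum] using this

theorem B3dim (x : ι → ℂ) (hx : Function.Injective x) (δ : ℕ) (hδ : 2 * δ ≤ Fintype.card ι + 3)
    (f g e : ℂ[X]) (hf : f.natDegree ≤ δ) (hg : g.natDegree ≤ δ) (he : e.natDegree ≤ δ)
    (hfg : Indep f g) (h1 : ∀ k, (Wr f g).eval (x k) = 0) (h2 : ∀ k, (Wr f e).eval (x k) = 0)
    (h3 : ∀ k, (Wr g e).eval (x k) = 0) : ∃ p q : ℂ, e = C p * f + C q * g := by
  have hdeg : ∀ u v : ℂ[X], u.natDegree ≤ δ → v.natDegree ≤ δ →
      (Wr u v).natDegree ≤ Fintype.card ι + 1 := by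
    intro u v hu hv
    have := wr_natDegree u v δ hu hv
    omega
  obtain ⟨a1, b1, e1⟩ := B3dim_fac x hx _ (hdeg f g hf hg) h1
  obtain ⟨a2, b2, e2⟩ := B3dim_fac x hx _ (hdeg f e hf he) h2
  obtain ⟨a3, b3, e3⟩ := B3dim_fac x hx _ (hdeg g e hg he) h3
  obtain ⟨c, hc0, hca, hcb⟩ := B3dim_rel ![a1, a2, a3] ![b1, b2, b3]
  simp only [Fin.sum_univ_three, Matrix.cons_val_zero, Matrix.cons_val_one, Matrix.cons_val_two,
    Matrix.cons_val, Matrix.head_cons, Matrix.tail_cons] at hca hcb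
  set s1 := c 0 with hs1
  set s2 := c 1 with hs2
  set s3 := c 2 with hs3
  have hs : s1 ≠ 0 ∨ s2 ≠ 0 ∨ s3 ≠ 0 := by
    by_contra hcon
    push Not at hcon
    apply hc0
    funext i
    fin_cases i
    · exact hcon.1
    · exact hcon.2.1
    · exact hcon.2.2
  have hrel : C s1 * Wr f g + C s2 * Wr f e + C s3 * Wr g e = 0 := by
    rw [e1, e2, e3]
    have ha' : C s1 * C a1 + C s2 * C a2 + C s3 * C a3 = (0 : ℂ[X]) := by
      rw [← C_mul, ← C_mul, ← C_mul, ← C_add, ← C_add, hca, C_0]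
    have hb' : C s1 * C b1 + C s2 * C b2 + C s3 * C b3 = (0 : ℂ[X]) := by
      rw [← C_mul, ← C_mul, ← C_mul, ← C_add, ← C_add, hcb, C_0]
    linear_combination (∏ k, (X - C (x k))) * ha' + (∏ k, (X - C (x k))) * X * hb'
  by_cases hs2' : s2 = 0
  · -- a2 = 0
    have hW : Wr g (C s3 * e - C s1 * f) = 0 := by
      rw [hs2', C_0, zero_mul, add_zero] at hrel
      rw [← hrel]
      simp only [Wr, derivative_sub, derivative_mul, derivative_C, zero_mul, zero_add]
      ring
    obtain ⟨c1, c2, hc12, hc⟩ := wr_zero _ _ hW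
    have hg0 : g ≠ 0 := by
      intro h
      have := (hfg 0 1 (by rw [h]; simp)).2
      exact one_ne_zero this
    have hc2 : c2 ≠ 0 := by
      intro h
      rw [h, C_0, zero_mul, add_zero] at hc
      rcases hc12 with h' | h'
      · rcases mul_eq_zero.1 hc with h'' | h''
        · exact h' (C_eq_zero.1 h'')
        · exact hg0 h''
      · exact h' h
    have hs3' : s3 ≠ 0 := by
      intro h
      rw [h, C_0, zero_mul, zero_sub] at hc
      have h1' := hfg (-(c2 * s1)) c1 (by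
        rw [C_neg, C_mul]
        linear_combination hc)
      have h2' : s1 = 0 := by
        rcases mul_eq_zero.1 (neg_eq_zero.1 h1'.1) with h' | h'
        · exact absurd h' hc2
        · exact h'
      rcases hs with h' | h' | h'
      · exact h' h2'
      · exact h' hs2'
      · exact h' h
    refine ⟨s1 / s3, -(c1 / (c2 * s3)), ?_⟩
    have hcs : C (c2 * s3) ≠ (0 : ℂ[X]) := by
      rw [Ne, C_eq_zero]; exact mul_ne_zero hc2 hs3'
    apply mul_left_cancel₀ hcs
    have k1 : C (c2 * s3) * C (s1 / s3) = (C (c2 * s1) : ℂ[X]) := by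
      rw [← C_mul]; congr 1; field_simp
    have k2 : C (c2 * s3) * C (-(c1 / (c2 * s3))) = (-C c1 : ℂ[X]) := by
      rw [← C_mul, ← C_neg]; congr 1; field_simp
    rw [mul_add, ← mul_assoc, ← mul_assoc, k1, k2, C_mul, C_mul]
    linear_combination hc
  · have hW : Wr (C s2 * f + C s3 * g) (C s2 * e + C s1 * g) = 0 := by
      have : Wr (C s2 * f + C s3 * g) (C s2 * e + C s1 * g)
          = C s2 * (C s1 * Wr f g + C s2 * Wr f e + C s3 * Wr g e) := by
        simp only [Wr, derivative_add, derivative_mul, derivative_C, zero_mul, zero_add]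
        ring
      rw [this, hrel, mul_zero]
    obtain ⟨c1, c2, hc12, hc⟩ := wr_zero _ _ hW
    have hc2 : c2 ≠ 0 := by
      intro h
      rw [h, C_0, zero_mul, add_zero] at hc
      rcases hc12 with h' | h'
      · rcases mul_eq_zero.1 hc with h'' | h''
        · exact h' (C_eq_zero.1 h'')
        · exact hs2' (hfg s2 s3 h'').1
      · exact h' h
    refine ⟨-(c1 / c2), -((c1 * s3 + c2 * s1) / (c2 * s2)), ?_⟩
    have hcs : C (c2 * s2) ≠ (0 : ℂ[X]) := by
      rw [Ne, C_eq_zero]; exact mul_ne_zero hc2 hs2'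
    apply mul_left_cancel₀ hcs
    have k1 : C (c2 * s2) * C (-(c1 / c2)) = (-C (c1 * s2) : ℂ[X]) := by
      rw [← C_mul, ← C_neg]; congr 1; field_simp
    have k2 : C (c2 * s2) * C (-((c1 * s3 + c2 * s1) / (c2 * s2)))
        = (-C (c1 * s3 + c2 * s1) : ℂ[X]) := by
      rw [← C_mul, ← C_neg]; congr 1; field_simp
    rw [mul_add, ← mul_assoc, ← mul_assoc, k1, k2]
    simp only [C_mul, C_add]
    linear_combination hc

end Pool.Agent.Lib.MP_0ae92b_ag.G26
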