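import Pool.Agent.Lib.MP_0ae92b_ag.G26.Vec

set_option autoImplicit false

/-!
# The sum of `P(x_k)/D'(x_k)` vanishes for `deg P ≤ n - 2`

PROOF.  `lagSum`: Lagrange interpolation, `P = ∑_k P(x_k) ∏_{j≠k} (X - x_j)/(x_k - x_j)` (degree of `P` less than `n`),
compare the coefficients of `X^(n-1)`.
`lag_zero`: `P(x_k)/D'(x_k) = P(x_k) q_k / (q_k D'(x_k)) ≥ 0` for every `k` and the sum is `0`, so all terms vanish.
-/

namespace Pool.Agent.Lib.MP_0ae92b_ag.G26

open Polynomial

variable {ι : Type} [Fintype ι] [DecidableEq ι]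

theorem lagSum {K : Type} [Field K] (x : ι → K) (hx : Function.Injective x) (P : K[X])
    (hP : P.natDegree + 2 ≤ Fintype.card ι) : ∑ k, P.eval (x k) * (Dp x k)⁻¹ = 0 := by
  have hinj : Set.InjOn x (Finset.univ : Finset ι) := fun a _ b _ h => hx h
  have hdeg : P.degree < (Finset.univ : Finset ι).card := by
    rw [Finset.card_univ]
    refine (degree_le_natDegree).trans_lt ?_
    exact_mod_cast (by omega : P.natDegree < Fintype.card ι)
  have h1 := Lagrange.eq_interpolate hinj hdeg
  have hcoef : P.coeff (Fintype.card ι - 1) = 0 :=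
    coeff_eq_zero_of_natDegree_lt (by omega)
  rw [h1, Lagrange.interpolate_apply, finset_sum_coeff] at hcoef
  rw [← hcoef]
  refine Finset.sum_congr rfl fun k _ => ?_
  have hb : (Lagrange.basis Finset.univ x k).coeff (Fintype.card ι - 1) = (Dp x k)⁻¹ := by
    have e1 : Lagrange.basis Finset.univ x k =
        C ((Dp x k)⁻¹) * ∏ j ∈ Finset.univ.erase k, (X - C (x j)) := by
      rw [Lagrange.basis, Dp, ← Finset.prod_inv_distrib, map_prod, ← Finset.prod_mul_distrib]
      rfl
    have hm : (∏ j ∈ Finset.univ.erase k, (X - C (x j))).Monic :=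
      monic_prod_of_monic _ _ fun j _ => monic_X_sub_C _
    have hn : (∏ j ∈ Finset.univ.erase k, (X - C (x j))).natDegree = Fintype.card ι - 1 := by
      rw [natDegree_prod_of_monic _ _ fun j _ => monic_X_sub_C _]
      simp [Finset.card_erase_of_mem]
    rw [e1, coeff_C_mul, ← hn, hm.coeff_natDegree, mul_one]
  rw [coeff_C_mul, hb]

theorem lag_zero (x : ι → ℝ) (hx : Function.Injective x) (P : ℝ[X])
    (hP : P.natDegree + 2 ≤ Fintype.card ι) (q : ι → ℝ) (hq : ∀ k, 0 < q k * Dp x k)
    (hPq : ∀ k, 0 ≤ P.eval (x k) * q k) : ∀ k, P.eval (x k) = 0 := by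
  have hs := lagSum x hx P hP
  have hD : ∀ k, Dp x k ≠ 0 := fun k h => by
    have := hq k; rw [h, mul_zero] at this; exact lt_irrefl _ this
  have hq0 : ∀ k, q k ≠ 0 := fun k h => by
    have := hq k; rw [h, zero_mul] at this; exact lt_irrefl _ this
  have hnn : ∀ k ∈ Finset.univ, 0 ≤ P.eval (x k) * (Dp x k)⁻¹ := by
    intro k _
    have e : P.eval (x k) * (Dp x k)⁻¹ = (P.eval (x k) * q k) * (q k * Dp x k) *
        ((q k * Dp x k)⁻¹) ^ 2 * 1 := by
      have h1 := hD k
      have h2 := hq0 k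
      field_simp
    rw [e]
    have := hq k
    have := hPq k
    positivity
  intro k
  have h := (Finset.sum_eq_zero_iff_of_nonneg hnn).1 hs k (Finset.mem_univ k)
  exact (mul_eq_zero.1 h).resolve_right (inv_ne_zero (hD k))

end Pool.Agent.Lib.MP_0ae92b_ag.G26
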