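import Pool.Agent.Lib.MP_0ae92b_ag.G26.BNlem
import Pool.Agent.Lib.MP_0ae92b_ag.G26.Lag

set_option autoImplicit false

/-!
# Final step of case (i): two real squares

PROOF.  Write `g_i` for `lv g_i (x k)`, `τ_i = ∑ u_i`, `w = wd g1 g2`.  `Cau_comm` (with `b = u1`, and `C(g1 u1) = ε1 C q = 0`) gives
`g1 C(g2 u1) = w (τ1 - u1)`, so for `ω1 = g2 C(g2 u1)`: `g1² ω1 = w g2 (τ1 g1 - ε1 q)`.
In the same way (`b = u2`) for `ω2 = g1 C(g1 u2)`: `g2² ω2 = - w g1 (τ2 g2 - ε2 q)`.
Multiply `c1 ω1 + c2 ω2 = 0` by `g1² g2² / w`: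
(*) `q (c2 ε2 g1³ - c1 ε1 g2³) = g1 g2 (c2 τ2 g1² - c1 τ1 g2²)` at every `x_k`.
Let `a, b` be the real cube roots of `c2 ε2`, `c1 ε1`, and `P = (a g1 - b g2) g1 g2 (c2 τ2 g1² - c1 τ1 g2²)`, a real
polynomial of degree at most `5`.  With `A = a g1(x_k)`, `B = b g2(x_k)`, (*) gives `P(x_k) q_k = q_k² (A - B)(A³ - B³) ≥ 0`.
`lag_zero` gives `P(x_k) = 0`, so `A = B` (`q_k ≠ 0`), for all seven `k`: the linear form `a g1 - b g2` vanishes at all `x_k`, is zero,
and `w ≠ 0` gives `a = b = 0`, i.e. `c2 ε2 = 0 = c1 ε1`.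
* `ε1 = ε2 = 1`: contradiction to `c1 ≠ 0 ∨ c2 ≠ 0`.
* `ε1 = 0`, `ε2 = 1`: `c2 = 0`, so `ω1 = 0` and `0 = g1² ω1 = w g2 (1 · g1 - 0)`, so `g1 g2` vanishes at seven points, but it is a nonzero
  polynomial of degree at most `2`.  Same for `ε1 = 1`, `ε2 = 0`.
* `ε1 = ε2 = 0`: `τ1 = τ2 = 1` and (*) says that the polynomial `g1 g2 (c2 g1² - c1 g2²)` of degree at most `4` vanishes at the seven points, so it is
  zero; `g1, g2 ≠ 0` as polynomials, and `c2 g1² = c1 g2²` forces `c1 = c2 = 0` (evaluate where `g1 = 0` resp. compare; `w ≠ 0`).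
-/

namespace Pool.Agent.Lib.MP_0ae92b_ag.G26

open Polynomial

variable {ι : Type} [Fintype ι] [DecidableEq ι]

private theorem B4i_cbrt (t : ℝ) : ∃ a : ℝ, a ^ 3 = t := by
  have key : ∀ s : ℝ, 0 ≤ s → (s ^ ((1 : ℝ) / 3)) ^ 3 = s := by
    intro s hs
    rw [← Real.rpow_natCast, ← Real.rpow_mul hs]
    norm_num
  rcases le_total 0 t with ht | ht
  · exact ⟨t ^ ((1 : ℝ) / 3), key t ht⟩
  · refine ⟨-((-t) ^ ((1 : ℝ) / 3)), ?_⟩
    have := key (-t) (by linarith)
    linear_combination -this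

/-- A linear form vanishing at two points vanishes. -/
private theorem B4i_lin (l : ℝ × ℝ) (s t : ℝ) (hst : s ≠ t) (h1 : lv l s = 0) (h2 : lv l t = 0) :
    l.1 = 0 ∧ l.2 = 0 := by
  simp only [lv] at h1 h2
  have h3 : l.1 * (s - t) = 0 := by linear_combination h1 - h2
  have h4 : l.1 = 0 := (mul_eq_zero.1 h3).resolve_right (sub_ne_zero.2 hst)
  refine ⟨h4, ?_⟩
  rw [h4] at h1
  linear_combination h1

theorem B4i (hι : Fintype.card ι = 7) (x : ι → ℝ) (hx : Function.Injective x) (q : ι → ℝ)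
    (hqC : ∀ k, Cau x q k = 0) (hq : ∀ k, 0 < q k * Dp x k) (g1 g2 : ℝ × ℝ) (hw : wd g1 g2 ≠ 0)
    (u1 u2 : ι → ℝ) (ε1 ε2 : ℝ) (hε1 : ε1 = 1 ∨ (ε1 = 0 ∧ ∑ k, u1 k = 1))
    (hε2 : ε2 = 1 ∨ (ε2 = 0 ∧ ∑ k, u2 k = 1)) (h1 : ∀ k, lv g1 (x k) * u1 k = ε1 * q k)
    (h2 : ∀ k, lv g2 (x k) * u2 k = ε2 * q k) (c1 c2 : ℝ) (hc : c1 ≠ 0 ∨ c2 ≠ 0)
    (hω : ∀ k, c1 * (lv g2 (x k) * Cau x (fun l => lv g2 (x l) * u1 l) k) +
      c2 * (lv g1 (x k) * Cau x (fun l => lv g1 (x l) * u2 l) k) = 0) : False := by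
  have hq0 : ∀ k, q k ≠ 0 := fun k h => by
    have := hq k; rw [h, zero_mul] at this; exact lt_irrefl _ this
  set τ1 := ∑ l, u1 l with hτ1
  set τ2 := ∑ l, u2 l with hτ2
  have hg1u : (fun l => lv g1 (x l) * u1 l) = fun l => ε1 * q l := funext h1
  have hg2u : (fun l => lv g2 (x l) * u2 l) = fun l => ε2 * q l := funext h2
  have e1 : ∀ k, lv g1 (x k) * Cau x (fun l => lv g2 (x l) * u1 l) k = wd g1 g2 * (τ1 - u1 k) := by
    intro k
    have h := Cau_comm x hx g1 g2 u1 k
    rw [hg1u, Cau_smul, hqC k] at h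
    linear_combination h
  have e2 : ∀ k, lv g2 (x k) * Cau x (fun l => lv g1 (x l) * u2 l) k =
      -wd g1 g2 * (τ2 - u2 k) := by
    intro k
    have h := Cau_comm x hx g2 g1 u2 k
    rw [hg2u, Cau_smul, hqC k] at h
    have hwd : wd g2 g1 = -wd g1 g2 := by simp only [wd]; ring
    rw [hwd] at h
    linear_combination h
  -- the main relation
  have e3 : ∀ k, q k * (c2 * ε2 * lv g1 (x k) ^ 3 - c1 * ε1 * lv g2 (x k) ^ 3) =
      lv g1 (x k) * lv g2 (x k) * (c2 * τ2 * lv g1 (x k) ^ 2 - c1 * τ1 * lv g2 (x k) ^ 2) := by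
    intro k
    have hA := e1 k
    have hB := e2 k
    have hr := hω k
    have hu := h1 k
    have hu' := h2 k
    set G := lv g1 (x k)
    set H := lv g2 (x k)
    have key : wd g1 g2 * (q k * (c2 * ε2 * G ^ 3 - c1 * ε1 * H ^ 3) -
        G * H * (c2 * τ2 * G ^ 2 - c1 * τ1 * H ^ 2)) = 0 := by
      linear_combination (G ^ 2 * H ^ 2) * hr - (c1 * G * H ^ 3) * hA - (c2 * G ^ 3 * H) * hB +
        (wd g1 g2 * c1 * H ^ 3) * hu - (wd g1 g2 * c2 * G ^ 3) * hu'
    rcases mul_eq_zero.1 key with h0 | h0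
    · exact absurd h0 hw
    · linear_combination h0
  obtain ⟨a, ha⟩ := B4i_cbrt (c2 * ε2)
  obtain ⟨b, hb⟩ := B4i_cbrt (c1 * ε1)
  -- two different indices
  obtain ⟨i, j, hij⟩ : ∃ i j : ι, i ≠ j := by
    have : 1 < Fintype.card ι := by omega
    exact Fintype.exists_ne_of_one_lt_card this |> fun h => by
      obtain ⟨i0⟩ : Nonempty ι := Fintype.card_pos_iff.1 (by omega)
      obtain ⟨j, hj⟩ := h i0
      exact ⟨j, i0, hj⟩
  let G1 : ℝ[X] := C g1.1 * X + C g1.2
  let G2 : ℝ[X] := C g2.1 * X + C g2.2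
  have hG1d : G1.natDegree ≤ 1 := natDegree_linear_le
  have hG2d : G2.natDegree ≤ 1 := natDegree_linear_le
  have ev1 : ∀ z, G1.eval z = lv g1 z := fun z => by simp [G1, lv]
  have ev2 : ∀ z, G2.eval z = lv g2 z := fun z => by simp [G2, lv]
  let L : ℝ[X] := C a * G1 - C b * G2
  let R : ℝ[X] := C (c2 * τ2) * G1 ^ 2 - C (c1 * τ1) * G2 ^ 2
  have hLd : L.natDegree ≤ 1 :=
    (natDegree_sub_le _ _).trans (max_le ((natDegree_C_mul_le _ _).trans hG1d)
      ((natDegree_C_mul_le _ _).trans hG2d))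
  have hRd : R.natDegree ≤ 2 := by
    have t1 := (natDegree_pow_le (p := G1) (n := 2))
    have t2 := (natDegree_pow_le (p := G2) (n := 2))
    exact (natDegree_sub_le _ _).trans (max_le ((natDegree_C_mul_le _ _).trans (by omega))
      ((natDegree_C_mul_le _ _).trans (by omega)))
  have hPd : (L * (G1 * G2 * R)).natDegree ≤ 5 := by
    have t1 := (natDegree_mul_le (p := L) (q := G1 * G2 * R))
    have t2 := (natDegree_mul_le (p := G1 * G2) (q := R))
    have t3 := (natDegree_mul_le (p := G1) (q := G2))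
    omega
  have evP : ∀ k, (L * (G1 * G2 * R)).eval (x k) = (a * lv g1 (x k) - b * lv g2 (x k)) *
      (lv g1 (x k) * lv g2 (x k) * (c2 * τ2 * lv g1 (x k) ^ 2 - c1 * τ1 * lv g2 (x k) ^ 2)) := by
    intro k
    simp [L, R, ev1, ev2]
  have hcube : ∀ A B : ℝ, 0 ≤ (A - B) * (A ^ 3 - B ^ 3) ∧
      ((A - B) * (A ^ 3 - B ^ 3) = 0 → A = B) := by
    intro A B
    have e : (A - B) * (A ^ 3 - B ^ 3) = (A - B) ^ 2 * ((A + B / 2) ^ 2 + 3 / 4 * B ^ 2) := by ring
    constructor
    · rw [e]; positivity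
    · intro h
      rw [e] at h
      rcases mul_eq_zero.1 h with h0 | h0
      · have := pow_eq_zero_iff (n := 2) (by norm_num) |>.1 h0
        linarith
      · have hB : B = 0 := by nlinarith [sq_nonneg (A + B / 2), sq_nonneg B]
        have hA : A = 0 := by rw [hB] at h0; nlinarith
        rw [hA, hB]
  have hPq : ∀ k, (L * (G1 * G2 * R)).eval (x k) * q k =
      q k ^ 2 * ((a * lv g1 (x k) - b * lv g2 (x k)) *
        ((a * lv g1 (x k)) ^ 3 - (b * lv g2 (x k)) ^ 3)) := by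
    intro k
    rw [evP k, ← e3 k, ← ha, ← hb]
    ring
  have hz := lag_zero x hx (L * (G1 * G2 * R)) (by omega) q hq (fun k => by
    rw [hPq k]
    exact mul_nonneg (sq_nonneg _) (hcube _ _).1)
  have hab : ∀ k, a * lv g1 (x k) = b * lv g2 (x k) := by
    intro k
    have h := hz k
    have h' := hPq k
    rw [h, zero_mul] at h'
    have h'' := (mul_eq_zero.1 h'.symm).resolve_left (pow_ne_zero 2 (hq0 k))
    exact (hcube _ _).2 h''
  have hl := B4i_lin (a * g1.1 - b * g2.1, a * g1.2 - b * g2.2) (x i) (x j) (hx.ne hij)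
    (by have := hab i; simp only [lv] at this ⊢; linear_combination this)
    (by have := hab j; simp only [lv] at this ⊢; linear_combination this)
  have ha0 : a = 0 := by
    have : a * wd g1 g2 = 0 := by
      simp only [wd]
      linear_combination g2.2 * hl.1 - g2.1 * hl.2
    exact (mul_eq_zero.1 this).resolve_right hw
  have hb0 : b = 0 := by
    have : b * wd g1 g2 = 0 := by
      simp only [wd]
      linear_combination g1.2 * hl.1 - g1.1 * hl.2
    exact (mul_eq_zero.1 this).resolve_right hw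
  have hc2 : c2 * ε2 = 0 := by rw [← ha, ha0]; ring
  have hc1 : c1 * ε1 = 0 := by rw [← hb, hb0]; ring
  -- a product of two nonzero linear forms does not vanish at all points
  have hG1 : G1 ≠ 0 := by
    intro h0
    have hl := B4i_lin g1 (x i) (x j) (hx.ne hij) (by rw [← ev1, h0, eval_zero])
      (by rw [← ev1, h0, eval_zero])
    apply hw; simp only [wd]; rw [hl.1, hl.2]; ring
  have hG2 : G2 ≠ 0 := by
    intro h0
    have hl := B4i_lin g2 (x i) (x j) (hx.ne hij) (by rw [← ev2, h0, eval_zero])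
      (by rw [← ev2, h0, eval_zero])
    apply hw; simp only [wd]; rw [hl.1, hl.2]; ring
  have hprod : ¬ ∀ k, lv g1 (x k) * lv g2 (x k) = 0 := by
    intro h0
    have : G1 * G2 = 0 := by
      apply eq_zero_of_natDegree_lt_card_of_eval_eq_zero (G1 * G2) hx
      · intro k; rw [eval_mul, ev1, ev2]; exact h0 k
      · have := (natDegree_mul_le (p := G1) (q := G2)); omega
    exact (mul_ne_zero hG1 hG2) this
  rcases hε1 with hε1 | ⟨hε1, hs1⟩
  · rcases hε2 with hε2 | ⟨hε2, hs2⟩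
    · rw [hε1, mul_one] at hc1
      rw [hε2, mul_one] at hc2
      rcases hc with h | h
      · exact h hc1
      · exact h hc2
    · -- `ε1 = 1`, `ε2 = 0`
      rw [hε1, mul_one] at hc1
      have hc2' : c2 ≠ 0 := hc.resolve_left (fun h => h hc1)
      apply hprod
      intro k
      have hr := hω k
      rw [hc1, zero_mul, zero_add] at hr
      have hr' := (mul_eq_zero.1 hr).resolve_left hc2'
      have hB := e2 k
      have hu' := h2 k
      rw [hε2, zero_mul] at hu'
      have hs : τ2 = 1 := hs2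
      rw [hs] at hB
      have : wd g1 g2 * (lv g1 (x k) * lv g2 (x k)) = 0 := by
        linear_combination (lv g1 (x k) * lv g2 (x k)) * hB - (lv g2 (x k)) ^ 2 * hr' +
          (wd g1 g2 * lv g1 (x k)) * hu'
      exact (mul_eq_zero.1 this).resolve_left hw
  · rcases hε2 with hε2 | ⟨hε2, hs2⟩
    · rw [hε2, mul_one] at hc2
      have hc1' : c1 ≠ 0 := hc.resolve_right (fun h => h hc2)
      apply hprod
      intro k
      have hr := hω k
      rw [hc2, zero_mul, add_zero] at hr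
      have hr' := (mul_eq_zero.1 hr).resolve_left hc1'
      have hA := e1 k
      have hu := h1 k
      rw [hε1, zero_mul] at hu
      have hs : τ1 = 1 := hs1
      rw [hs] at hA
      have : wd g1 g2 * (lv g1 (x k) * lv g2 (x k)) = 0 := by
        linear_combination (-lv g1 (x k) * lv g2 (x k)) * hA + (lv g1 (x k)) ^ 2 * hr' +
          (wd g1 g2 * lv g2 (x k)) * hu
      exact (mul_eq_zero.1 this).resolve_left hw
    · -- both `ε` are `0`
      have hR0 : G1 * G2 * R = 0 := by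
        apply eq_zero_of_natDegree_lt_card_of_eval_eq_zero (G1 * G2 * R) hx
        · intro k
          have h := e3 k
          rw [hε1, hε2] at h
          simp only [eval_mul, R, eval_sub, eval_pow, eval_C, ev1, ev2]
          linear_combination -h
        · have t2 := (natDegree_mul_le (p := G1 * G2) (q := R))
          have t3 := (natDegree_mul_le (p := G1) (q := G2))
          omega
      have hR : R = 0 := (mul_eq_zero.1 hR0).resolve_left (mul_ne_zero hG1 hG2)
      have hs1' : τ1 = 1 := hs1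
      have hs2' : τ2 = 1 := hs2
      have hRz : ∀ z : ℝ, c2 * lv g1 z ^ 2 = c1 * lv g2 z ^ 2 := by
        intro z
        have : R.eval z = 0 := by rw [hR, eval_zero]
        simp only [R, eval_sub, eval_mul, eval_pow, eval_C, ev1, ev2, hs1', hs2', mul_one] at this
        linear_combination this
      -- coefficients
      have k0 := hRz 0
      have k1 := hRz 1
      have k2 := hRz (-1)
      simp only [lv] at k0 k1 k2
      have q2 : c2 * g1.1 ^ 2 = c1 * g2.1 ^ 2 := by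
        linear_combination (1 / 2 : ℝ) * k1 + (1 / 2 : ℝ) * k2 - k0
      have q1 : c2 * (g1.1 * g1.2) = c1 * (g2.1 * g2.2) := by
        linear_combination (1 / 4 : ℝ) * k1 - (1 / 4 : ℝ) * k2
      have q0 : c2 * g1.2 ^ 2 = c1 * g2.2 ^ 2 := by
        linear_combination k0
      have hw2 : wd g1 g2 ^ 2 ≠ 0 := pow_ne_zero 2 hw
      have hc1'' : c2 * wd g1 g2 ^ 2 = 0 := by
        simp only [wd]
        linear_combination (g2.2 ^ 2) * q2 - (2 * g2.1 * g2.2) * q1 + (g2.1 ^ 2) * q0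
      have hc2'' : c1 * wd g1 g2 ^ 2 = 0 := by
        simp only [wd]
        linear_combination (-g1.2 ^ 2) * q2 + (2 * g1.1 * g1.2) * q1 - (g1.1 ^ 2) * q0
      rcases hc with h | h
      · exact h ((mul_eq_zero.1 hc2'').resolve_right hw2)
      · exact h ((mul_eq_zero.1 hc1'').resolve_right hw2)

end Pool.Agent.Lib.MP_0ae92b_ag.G26
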