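import Mathlib

set_option autoImplicit false

/-!
# Two skew forms on a space of dimension seven

PROOF.  (a) Parity: if `A` is an antisymmetric complex matrix on `ι` with `card ι = 7` and two linearly independent kernel
vectors, then `finrank (ker A) ≥ 3`.  Indeed otherwise the kernel has dimension exactly `2`, and `A` induces a
non-degenerate alternating bilinear form on the five-dimensional quotient (or on a complement of the kernel); its
matrix `M` satisfies `Mᵀ = -M`, so `det M = (-1)^5 det M = 0`, contradiction.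
(Other route: the rank of an antisymmetric matrix is even.)
(b) Let `K1, K2` be the kernels of `A1, A2`: both have dimension at least `3` and meet in `0`, so
`finrank (K1 ⊔ K2) ≥ 6`.  The space of all `ω` with `κ ⬝ᵥ ω = 0` for all `κ ∈ K1 ⊔ K2` has dimension at most `7 - 6 = 1` (the
annihilator), so `ω1` and `ω2` are linearly dependent.
-/

namespace Pool.Agent.Lib.MP_0ae92b_ag.G26

open Matrix

variable {ι : Type} [Fintype ι] [DecidableEq ι]

theorem skew_ker_three (hι : Fintype.card ι = 7) (A : Matrix ι ι ℂ) (hA : Aᵀ = -A) (a b : ι → ℂ)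
    (hab : LinearIndependent ℂ ![a, b]) (ha : A *ᵥ a = 0) (hb : A *ᵥ b = 0) :
    3 ≤ Module.finrank ℂ (LinearMap.ker A.mulVecLin) := by
  set K : Submodule ℂ (ι → ℂ) := LinearMap.ker A.mulVecLin with hK
  have hmem : ∀ v, v ∈ K ↔ A *ᵥ v = 0 := by
    intro v; rw [hK, LinearMap.mem_ker, Matrix.mulVecLin_apply]
  have hskew : ∀ x y : ι → ℂ, x ⬝ᵥ (A *ᵥ y) = - (y ⬝ᵥ (A *ᵥ x)) := by
    intro x y
    rw [Matrix.dotProduct_mulVec, ← Matrix.mulVec_transpose, hA, Matrix.neg_mulVec,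
      neg_dotProduct, dotProduct_comm]
  have h2 : 2 ≤ Module.finrank ℂ K := by
    have hspan : Submodule.span ℂ (Set.range ![a, b]) ≤ K := by
      rw [Submodule.span_le]
      rintro x ⟨i, rfl⟩
      fin_cases i
      · exact (hmem a).2 ha
      · exact (hmem b).2 hb
    have h3 := finrank_span_eq_card hab
    have h4 : Module.finrank ℂ (Submodule.span ℂ (Set.range ![a, b])) = 2 := by
      rw [h3]; rfl
    rw [← h4]
    exact Submodule.finrank_mono hspan
  by_contra hlt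
  have hK2 : Module.finrank ℂ K = 2 := by omega
  obtain ⟨C, hC⟩ := Submodule.exists_isCompl K
  have hC5 : Module.finrank ℂ C = 5 := by
    have h3 := Submodule.finrank_add_eq_of_isCompl hC
    rw [hK2, Module.finrank_fintype_fun_eq_card, hι] at h3
    omega
  let c : Module.Basis (Fin 5) ℂ C := Module.finBasisOfFinrankEq ℂ C hC5
  let M : Matrix (Fin 5) (Fin 5) ℂ := Matrix.of fun i j => (c i : ι → ℂ) ⬝ᵥ (A *ᵥ (c j : ι → ℂ))
  have hMT : Mᵀ = -M := by
    ext i j
    simp only [M, Matrix.transpose_apply, Matrix.neg_apply, Matrix.of_apply]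
    rw [hskew]
  have hdet : M.det = 0 := by
    have h3 : M.det = (-M).det := by rw [← hMT, Matrix.det_transpose]
    rw [Matrix.det_neg, Fintype.card_fin] at h3
    have h5 : (2 : ℂ) * M.det = 0 := by linear_combination h3
    simpa using h5
  obtain ⟨v, hv0, hv⟩ := Matrix.exists_mulVec_eq_zero_iff.2 hdet
  set y : C := ∑ j, v j • c j with hy
  have hyc : (y : ι → ℂ) = ∑ j, v j • (c j : ι → ℂ) := by
    rw [hy]; simp
  have hAy : A *ᵥ (y : ι → ℂ) = ∑ j, v j • (A *ᵥ (c j : ι → ℂ)) := by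
    rw [hyc, Matrix.mulVec_sum]
    apply Finset.sum_congr rfl
    intro j _
    rw [Matrix.mulVec_smul]
  have hci : ∀ i, (c i : ι → ℂ) ⬝ᵥ (A *ᵥ (y : ι → ℂ)) = 0 := by
    intro i
    rw [hAy, dotProduct_sum]
    have h3 : ∑ j, M i j * v j = 0 := congrFun hv i
    rw [← h3]
    apply Finset.sum_congr rfl
    intro j _
    rw [dotProduct_smul, smul_eq_mul, mul_comm]
    rfl
  have hCx : ∀ x : C, (x : ι → ℂ) ⬝ᵥ (A *ᵥ (y : ι → ℂ)) = 0 := by
    intro x
    have h3 : (x : ι → ℂ) = ∑ i, c.repr x i • (c i : ι → ℂ) := by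
      have h4 : (x : ι → ℂ) = ((∑ i, c.repr x i • c i : C) : ι → ℂ) := by rw [c.sum_repr]
      rw [h4, Submodule.coe_sum]
      rfl
    rw [h3, sum_dotProduct]
    apply Finset.sum_eq_zero
    intro i _
    rw [smul_dotProduct, hci, smul_zero]
  have hall : ∀ x : ι → ℂ, x ⬝ᵥ (A *ᵥ (y : ι → ℂ)) = 0 := by
    intro x
    have hx : x ∈ K ⊔ C := by rw [hC.sup_eq_top]; trivial
    obtain ⟨k, hk, z, hz, rfl⟩ := Submodule.mem_sup.1 hx
    rw [add_dotProduct, hCx ⟨z, hz⟩, hskew, (hmem k).1 hk, dotProduct_zero, neg_zero, add_zero]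
  have hy0 : A *ᵥ (y : ι → ℂ) = 0 := by
    funext i
    have h3 := hall (Pi.single i 1)
    rwa [single_one_dotProduct] at h3
  have hyK : (y : ι → ℂ) ∈ K := (hmem _).2 hy0
  have hybot : (y : ι → ℂ) = 0 := by
    have h3 : (y : ι → ℂ) ∈ K ⊓ C := ⟨hyK, y.2⟩
    rw [hC.inf_eq_bot] at h3
    exact (Submodule.mem_bot ℂ).1 h3
  have hy00 : y = 0 := Subtype.ext hybot
  apply hv0
  funext j
  have h3 := Fintype.linearIndependent_iff.1 c.linearIndependent v (by rw [← hy, hy00])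
  exact h3 j

theorem line (hι : Fintype.card ι = 7) (A1 A2 : Matrix ι ι ℂ) (hA1 : A1ᵀ = -A1) (hA2 : A2ᵀ = -A2)
    (a1 b1 a2 b2 : ι → ℂ) (hab1 : LinearIndependent ℂ ![a1, b1])
    (hab2 : LinearIndependent ℂ ![a2, b2]) (ha1 : A1 *ᵥ a1 = 0) (hb1 : A1 *ᵥ b1 = 0)
    (ha2 : A2 *ᵥ a2 = 0) (hb2 : A2 *ᵥ b2 = 0) (hker : ∀ κ, A1 *ᵥ κ = 0 → A2 *ᵥ κ = 0 → κ = 0)
    (ω1 ω2 : ι → ℂ) (hω : ∀ κ : ι → ℂ, A1 *ᵥ κ = 0 ∨ A2 *ᵥ κ = 0 → κ ⬝ᵥ ω1 = 0 ∧ κ ⬝ᵥ ω2 = 0) :
    ∃ c1 c2 : ℂ, (c1 ≠ 0 ∨ c2 ≠ 0) ∧ ∀ k, c1 * ω1 k + c2 * ω2 k = 0 := by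
  have h1 := skew_ker_three hι A1 hA1 a1 b1 hab1 ha1 hb1
  have h2 := skew_ker_three hι A2 hA2 a2 b2 hab2 ha2 hb2
  set K1 : Submodule ℂ (ι → ℂ) := LinearMap.ker A1.mulVecLin with hK1
  set K2 : Submodule ℂ (ι → ℂ) := LinearMap.ker A2.mulVecLin with hK2
  have hm1 : ∀ v, v ∈ K1 ↔ A1 *ᵥ v = 0 := by
    intro v; rw [hK1, LinearMap.mem_ker, Matrix.mulVecLin_apply]
  have hm2 : ∀ v, v ∈ K2 ↔ A2 *ᵥ v = 0 := by
    intro v; rw [hK2, LinearMap.mem_ker, Matrix.mulVecLin_apply]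
  have hinf : K1 ⊓ K2 = ⊥ := by
    rw [Submodule.eq_bot_iff]
    intro x hx
    exact hker x ((hm1 x).1 hx.1) ((hm2 x).1 hx.2)
  have hsup := Submodule.finrank_sup_add_finrank_inf_eq K1 K2
  rw [hinf, finrank_bot] at hsup
  let Ω : Matrix (Fin 2) ι ℂ := Matrix.of ![ω1, ω2]
  let L := Ω.mulVecLin
  have hL0 : ∀ κ, (L κ) 0 = ω1 ⬝ᵥ κ := by intro κ; rfl
  have hL1 : ∀ κ, (L κ) 1 = ω2 ⬝ᵥ κ := by intro κ; rfl
  have hle : K1 ⊔ K2 ≤ LinearMap.ker L := by
    rw [sup_le_iff]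
    constructor
    · intro x hx
      rw [LinearMap.mem_ker]
      have h3 := hω x (Or.inl ((hm1 x).1 hx))
      funext i
      fin_cases i
      · change (L x) 0 = 0
        rw [hL0, dotProduct_comm]; exact h3.1
      · change (L x) 1 = 0
        rw [hL1, dotProduct_comm]; exact h3.2
    · intro x hx
      rw [LinearMap.mem_ker]
      have h3 := hω x (Or.inr ((hm2 x).1 hx))
      funext i
      fin_cases i
      · change (L x) 0 = 0
        rw [hL0, dotProduct_comm]; exact h3.1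
      · change (L x) 1 = 0
        rw [hL1, dotProduct_comm]; exact h3.2
  have hker6 := Submodule.finrank_mono hle
  have hrn := LinearMap.finrank_range_add_finrank_ker L
  rw [Module.finrank_fintype_fun_eq_card, hι] at hrn
  have hlt : LinearMap.range L < ⊤ := by
    rw [lt_top_iff_ne_top]
    intro htop
    have h3 : Module.finrank ℂ (LinearMap.range L) = 2 := by
      rw [htop, finrank_top, Module.finrank_fintype_fun_eq_card, Fintype.card_fin]
    omega
  obtain ⟨f, hf0, hf⟩ := Submodule.exists_le_ker_of_lt_top _ hlt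
  have hfv : ∀ v : Fin 2 → ℂ, f v = f (Pi.single 0 1) * v 0 + f (Pi.single 1 1) * v 1 := by
    intro v
    have h3 : v = v 0 • (Pi.single 0 1 : Fin 2 → ℂ) + v 1 • (Pi.single 1 1 : Fin 2 → ℂ) := by
      funext i
      fin_cases i <;> simp
    conv_lhs => rw [h3]
    rw [map_add, map_smul, map_smul, smul_eq_mul, smul_eq_mul]
    ring
  refine ⟨f (Pi.single 0 1), f (Pi.single 1 1), ?_, ?_⟩
  · by_contra hcon
    push Not at hcon
    apply hf0
    apply LinearMap.ext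
    intro v
    rw [hfv, hcon.1, hcon.2]
    simp
  · intro k
    have h3 : f (L (Pi.single k 1)) = 0 := by
      have h4 : L (Pi.single k 1) ∈ LinearMap.ker f := hf (LinearMap.mem_range_self L _)
      exact h4
    rw [hfv, hL0, hL1, dotProduct_single_one, dotProduct_single_one] at h3
    exact h3

end Pool.Agent.Lib.MP_0ae92b_ag.G26
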