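import Pool.Agent.Lib.MP_0ae92b_ag.G26.BNlem
import Pool.Agent.Lib.MP_0ae92b_ag.G26.Lag
import Pool.Agent.Lib.MP_0ae92b_ag.G26.Line

set_option autoImplicit false

/-!
# Case (ii): the tangent pencil `g · (linear forms)`

PROOF.  All vectors are functions of `k`; `g`, `m` stand for the vectors `lv g (x_k)`, `lv m (x_k)`; `g_k ≠ 0` for all `k`.  `δ = wd g m`.
`B1 = B(g²) : b ↦ g C(g b)`, `B2 = B(g m) : b ↦ (g C(m b) + m C(g b))/2`, both antisymmetric (`Cau_skew`).
`BN x n = s1 B1 + s2 B2`, `BN x n' = t1 B1 + t2 B2`.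
(1) `s2 ≠ 0`, `t2 ≠ 0`: if `s2 = 0` then `s1 ≠ 0`, and `a`, `b` satisfy `C(g a) = 0 = C(g b)`, so `g a`, `g b` are multiples of `q` (`hker`) and `a, b` are
dependent.
(2) `u = q / g`: `B1 u = 0`, and by `Cau_comm` (`b = u`, `C(g u) = C q = 0`): `g C(m u) = δ (τ - u)`, `τ = ∑ u`, so `B2 u = δ (τ - u)/2 =: ω`.
`ω ≠ 0`: otherwise `u_k = τ` and `q_k = τ g(x_k)` for all `k`; `u` is real; the real polynomial `P = τ g` has degree at most `1` and
`P(x_k) q_k = q_k² ≥ 0`, so `lag_zero` gives `q_k = 0`, contradiction.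
(3) Common kernel of `BN x n`, `BN x n'` is that of `B1`, `B2` (`hst`): `B1 κ = 0` gives `κ = c u`, `B2 κ = c ω = 0` gives `c = 0`.  So it is `0`.
(4) There is `b0` with `B1 b0 = -ω`: `ω` is orthogonal to `u` (`∑ u B2 u = 0` by antisymmetry), so `v = -ω/g` satisfies `∑ q_k v_k = 0`; the range of
the antisymmetric matrix `C` is the orthogonal complement of its kernel `⟨q⟩` (dimension count), so `v = C(β)`, `b0 = β/g`.
(5) For `κ` with `BN x n κ = 0`: `B2 κ = -z B1 κ`, `z = s1/s2`; then `∑ κ ω = ∑ κ B2 u = -∑ (B2 κ) u = z ∑ (B1 κ) u = -z ∑ κ B1 u = 0` and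
`∑ κ B2 b0 = -∑ (B2 κ) b0 = z ∑ (B1 κ) b0 = -z ∑ κ B1 b0 = z ∑ κ ω = 0`.  Same for `n'`.
(6) `line` applied to `A1, A2` (matrices of `BN x n`, `BN x n'`) and the vectors `B2 b0`, `ω`: `c1 B2 b0 + c2 ω = 0`, and `c1 ≠ 0` since `ω ≠ 0`.
So `b = b0 + (c2/c1) u` satisfies `B2 b = 0` and `B1 b = -ω`.
(7) Put `σ = ∑ b`.  `Cau_comm`: `g C(m b) - m C(g b) = δ (σ - b)`, with `B2 b = 0`: `2 m C(g b) = -δ (σ - b)`; times `g`: `2 m B1 b = -δ g (σ - b)`, and
`2 B1 b = -δ (τ - u)`, so `m (τ - u) = g (σ - b)`, i.e. `g b = σ g - τ m + m u`.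
(8) `C(g b) = σ C g - τ C m + C(m u)` (here `C g` means `Cau x` of the vector `g`); times `g`, with `g C(m u) = δ (τ - u)` and
`g C(g b) = B1 b = -δ (τ - u)/2`: `(3/2) δ (τ - u) = τ g C m - σ g C g`.
(9) Sum over `k`: `∑ (τ - u) = 6 τ`; `∑ g_k (C g)_k = 0` (antisymmetry); `∑ g_k (C m)_k = 21 δ` (because
`∑_k (g C m - m C g) = ∑_k δ (7 - 1) = 42 δ` by `Cau_comm` with `b = 1`, and `∑ m C g = -∑ g C m`).  So `9 δ τ = 21 δ τ`, `τ = 0`.
(10) Then `(3/2) δ u = σ g (C g)`; `u ≠ 0` so `σ ≠ 0`; `q = g u = (2σ/3δ) g² (C g)` and `0 = -∑ (C q)_k g_k = ∑ q_k (C g)_k = (2σ/3δ) ∑ (g_k (C g)_k)²`; the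
numbers `g_k (C g)_k` are real, so they all vanish, `u = 0`, `q = 0`, contradiction to `hq`.
-/

namespace Pool.Agent.Lib.MP_0ae92b_ag.G26

open Polynomial

variable {ι : Type} [Fintype ι] [DecidableEq ι]

omit [Fintype ι] [DecidableEq ι] in
private theorem B4ii_dep (a b u : ι → ℂ) (hab : LinearIndependent ℂ ![a, b])
    (ha : ∃ c : ℂ, ∀ k, a k = c * u k) (hb : ∃ c : ℂ, ∀ k, b k = c * u k) : False := by
  obtain ⟨c, hc⟩ := ha
  obtain ⟨c', hc'⟩ := hb
  rw [LinearIndependent.pair_iff] at hab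
  have h1 := hab c' (-c) (by
    funext k
    simp only [Pi.add_apply, Pi.smul_apply, smul_eq_mul, Pi.zero_apply, hc k, hc' k]
    ring)
  have hc0 : c = 0 := by simpa using h1.2
  have h2 := hab 1 0 (by
    funext k
    simp only [Pi.add_apply, Pi.smul_apply, smul_eq_mul, Pi.zero_apply, hc k, hc0]
    ring)
  exact one_ne_zero h2.1

omit [DecidableEq ι] in
private theorem B4ii_mat (X : ι → ℂ) (n : ℂ × ℂ × ℂ) :
    ∃ A : Matrix ι ι ℂ, A.transpose = -A ∧ ∀ b : ι → ℂ, A.mulVec b = fun k => BN X n b k := by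
  refine ⟨Matrix.of fun k l => (n.1 * X k * X l + n.2.1 * (X k + X l) / 2 + n.2.2) *
    (X k - X l)⁻¹, ?_, ?_⟩
  · ext k l
    simp only [Matrix.transpose_apply, Matrix.of_apply, Matrix.neg_apply]
    rw [show X l - X k = -(X k - X l) by ring, inv_neg]
    ring
  · intro b
    funext k
    simp only [Matrix.mulVec, dotProduct, Matrix.of_apply, BN]

private theorem B4ii_solve (hι : Fintype.card ι = 7) (X : ι → ℂ) (Q : ι → ℂ) (hQ : ∃ k, Q k ≠ 0)
    (hQC : ∀ k, Cau X Q k = 0)
    (hker : ∀ b : ι → ℂ, (∀ k, Cau X b k = 0) → ∃ c : ℂ, ∀ k, b k = c * Q k) (v : ι → ℂ)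
    (hv : ∑ k, Q k * v k = 0) : ∃ β : ι → ℂ, ∀ k, Cau X β k = v k := by
  let L : (ι → ℂ) →ₗ[ℂ] (ι → ℂ) :=
    { toFun := fun b k => Cau X b k
      map_add' := fun a b => by funext k; exact Cau_add X a b k
      map_smul' := fun c b => by
        funext k
        exact Cau_smul X b c k }
  let F : (ι → ℂ) →ₗ[ℂ] ℂ :=
    { toFun := fun v => ∑ k, Q k * v k
      map_add' := fun a b => by simp [mul_add, Finset.sum_add_distrib]
      map_smul' := fun c b => by
        simp only [Pi.smul_apply, smul_eq_mul, RingHom.id_apply, Finset.mul_sum]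
        exact Finset.sum_congr rfl fun k _ => by ring }
  have hle : LinearMap.range L ≤ LinearMap.ker F := by
    rintro _ ⟨b, rfl⟩
    rw [LinearMap.mem_ker]
    change ∑ k, Q k * Cau X b k = 0
    rw [Cau_skew]
    simp [hQC]
  have hkerL : LinearMap.ker L ≤ Submodule.span ℂ {Q} := by
    intro b hb
    rw [LinearMap.mem_ker] at hb
    obtain ⟨c, hc⟩ := hker b (fun k => congrFun hb k)
    rw [Submodule.mem_span_singleton]
    exact ⟨c, by funext k; simp [hc k]⟩
  have h1 : Module.finrank ℂ (LinearMap.ker L) ≤ 1 :=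
    (Submodule.finrank_mono hkerL).trans (by
      rw [finrank_span_singleton (fun h0 => by
        obtain ⟨k0, hk0⟩ := hQ
        exact hk0 (congrFun h0 k0))])
  have h2 := LinearMap.finrank_range_add_finrank_ker L
  have h3 := LinearMap.finrank_range_add_finrank_ker F
  rw [Module.finrank_fintype_fun_eq_card, hι] at h2 h3
  have h4 : 1 ≤ Module.finrank ℂ (LinearMap.range F) := by
    obtain ⟨k0, hk0⟩ := hQ
    rw [Nat.one_le_iff_ne_zero]
    intro h0
    rw [Submodule.finrank_eq_zero] at h0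
    have : F (Pi.single k0 1) ∈ LinearMap.range F := ⟨_, rfl⟩
    rw [h0, Submodule.mem_bot] at this
    change ∑ k, Q k * (Pi.single k0 (1 : ℂ) : ι → ℂ) k = 0 at this
    rw [Finset.sum_eq_single k0] at this
    · simp at this; exact hk0 this
    · intro k _ hk; simp [Pi.single_eq_of_ne hk]
    · simp
  have h5 : LinearMap.range L = LinearMap.ker F :=
    Submodule.eq_of_le_of_finrank_le hle (by omega)
  have h6 : v ∈ LinearMap.ker F := hv
  rw [← h5] at h6
  obtain ⟨β, hβ⟩ := h6
  exact ⟨β, fun k => congrFun hβ k⟩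

/-- The algebra after the vector `b` has been found. -/
private theorem B4ii_final (hι : Fintype.card ι = 7) (X : ι → ℂ) (hX : Function.Injective X)
    (g m : ℂ × ℂ) (hw : wd g m ≠ 0) (Q u b : ι → ℂ) (hQC : ∀ k, Cau X Q k = 0)
    (hu : ∀ k, lv g (X k) * u k = Q k)
    (h1 : ∀ k, lv g (X k) * Cau X (fun l => lv g (X l) * b l) k =
      -(wd g m * (∑ l, u l - u k) / 2))
    (h2 : ∀ k, lv g (X k) * Cau X (fun l => lv m (X l) * b l) k +
      lv m (X k) * Cau X (fun l => lv g (X l) * b l) k = 0) :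
    ∃ c : ℂ, ∀ k, u k = c * (lv g (X k) * Cau X (fun l => lv g (X l)) k) := by
  set δ := wd g m with hδ
  set τ := ∑ l, u l with hτ
  set σ := ∑ l, b l with hσ
  have hgu : (fun l => lv g (X l) * u l) = Q := funext hu
  -- `g C(m u) = δ (τ - u)`
  have e1 : ∀ k, lv g (X k) * Cau X (fun l => lv m (X l) * u l) k = δ * (τ - u k) := by
    intro k
    have h := Cau_comm X hX g m u k
    rw [hgu, hQC k] at h
    linear_combination h
  -- `m (τ - u) = g (σ - b)`
  have e2 : ∀ k, lv m (X k) * (τ - u k) = lv g (X k) * (σ - b k) := by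
    intro k
    have h := Cau_comm X hX g m b k
    have h' : 2 * (lv m (X k) * Cau X (fun l => lv g (X l) * b l) k) = -(δ * (σ - b k)) := by
      linear_combination h2 k - h
    have h'' : δ * (lv m (X k) * (τ - u k) - lv g (X k) * (σ - b k)) = 0 := by
      linear_combination (2 * lv m (X k)) * h1 k - lv g (X k) * h'
    rcases mul_eq_zero.1 h'' with h0 | h0
    · exact absurd h0 hw
    · linear_combination h0
  have e3 : (fun l => lv g (X l) * b l) =
      fun l => σ * lv g (X l) + (-τ) * lv m (X l) + lv m (X l) * u l := by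
    funext l
    linear_combination e2 l
  have e4 : ∀ k, Cau X (fun l => lv g (X l) * b l) k = σ * Cau X (fun l => lv g (X l)) k +
      (-τ) * Cau X (fun l => lv m (X l)) k + Cau X (fun l => lv m (X l) * u l) k := by
    intro k
    rw [e3]
    simp only [Cau, Finset.mul_sum, ← Finset.sum_add_distrib]
    exact Finset.sum_congr rfl fun l _ => by ring
  have e5 : ∀ k, 3 / 2 * δ * (τ - u k) = τ * (lv g (X k) * Cau X (fun l => lv m (X l)) k) -
      σ * (lv g (X k) * Cau X (fun l => lv g (X l)) k) := by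
    intro k
    have h := h1 k
    rw [e4 k] at h
    linear_combination h - e1 k
  -- sum over `k`
  have e6 : ∑ k, lv g (X k) * Cau X (fun l => lv g (X l)) k = 0 := by
    have h := Cau_skew X (fun l => lv g (X l)) (fun l => lv g (X l))
    have h' : ∑ k, Cau X (fun l => lv g (X l)) k * lv g (X k) =
        ∑ k, lv g (X k) * Cau X (fun l => lv g (X l)) k :=
      Finset.sum_congr rfl fun k _ => mul_comm _ _
    rw [h'] at h
    linear_combination (1 / 2 : ℂ) * h
  have e7 : ∑ k, lv g (X k) * Cau X (fun l => lv m (X l)) k = 21 * δ := by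
    have h : ∑ k, (lv g (X k) * Cau X (fun l => lv m (X l) * 1) k -
        lv m (X k) * Cau X (fun l => lv g (X l) * 1) k) = ∑ _k : ι, δ * (7 - 1) := by
      refine Finset.sum_congr rfl fun k _ => ?_
      have h := Cau_comm X hX g m (fun _ => 1) k
      simp only [Finset.sum_const, Finset.card_univ, hι, nsmul_eq_mul, mul_one] at h
      simp only [mul_one]
      rw [h, hδ]
      norm_num
    simp only [mul_one, Finset.sum_sub_distrib, Finset.sum_const, Finset.card_univ, hι,
      nsmul_eq_mul] at h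
    have h' := Cau_skew X (fun l => lv m (X l)) (fun l => lv g (X l))
    have h'' : ∑ k, Cau X (fun l => lv m (X l)) k * lv g (X k) =
        ∑ k, lv g (X k) * Cau X (fun l => lv m (X l)) k :=
      Finset.sum_congr rfl fun k _ => mul_comm _ _
    rw [h''] at h'
    push_cast at h
    linear_combination (1 / 2 : ℂ) * h + (1 / 2 : ℂ) * h'
  have e8 : τ = 0 := by
    have h : ∑ k, 3 / 2 * δ * (τ - u k) = ∑ k, (τ * (lv g (X k) * Cau X (fun l => lv m (X l)) k) -
      σ * (lv g (X k) * Cau X (fun l => lv g (X l)) k)) := Finset.sum_congr rfl fun k _ => e5 k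
    rw [Finset.sum_sub_distrib, ← Finset.mul_sum, ← Finset.mul_sum, ← Finset.mul_sum, e6, e7,
      Finset.sum_sub_distrib, ← hτ] at h
    simp only [Finset.sum_const, Finset.card_univ, hι, nsmul_eq_mul] at h
    push_cast at h
    have h' : δ * τ = 0 := by linear_combination (-1 / 12 : ℂ) * h
    rcases mul_eq_zero.1 h' with h0 | h0
    · exact absurd h0 hw
    · exact h0
  refine ⟨σ / (3 / 2 * δ), fun k => ?_⟩
  have h := e5 k
  rw [e8] at h
  have hw' : (3 / 2 * δ) ≠ 0 := mul_ne_zero (by norm_num) hw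
  field_simp
  linear_combination (-2 : ℂ) * h

theorem B4ii (hι : Fintype.card ι = 7) (x : ι → ℝ) (hx : Function.Injective x) (q : ι → ℝ)
    (hqC : ∀ k, Cau x q k = 0) (hq : ∀ k, 0 < q k * Dp x k)
    (hker : ∀ b : ι → ℂ, (∀ k, Cau (xc x) b k = 0) → ∃ c : ℂ, ∀ k, b k = c * (q k : ℂ))
    (g m : ℝ × ℝ) (hw : wd g m ≠ 0) (hg : ∀ k, lv g (x k) ≠ 0)
    (n n' : ℂ × ℂ × ℂ) (s1 s2 t1 t2 : ℂ)
    (hn : n = s1 • lm ((g.1 : ℂ), (g.2 : ℂ)) ((g.1 : ℂ), (g.2 : ℂ)) +
      s2 • lm ((g.1 : ℂ), (g.2 : ℂ)) ((m.1 : ℂ), (m.2 : ℂ)))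
    (hn' : n' = t1 • lm ((g.1 : ℂ), (g.2 : ℂ)) ((g.1 : ℂ), (g.2 : ℂ)) +
      t2 • lm ((g.1 : ℂ), (g.2 : ℂ)) ((m.1 : ℂ), (m.2 : ℂ))) (hst : s1 * t2 - s2 * t1 ≠ 0)
    (a b a' b' : ι → ℂ) (hab : LinearIndependent ℂ ![a, b]) (hab' : LinearIndependent ℂ ![a', b'])
    (ha : ∀ k, BN (xc x) n a k = 0) (hb : ∀ k, BN (xc x) n b k = 0)
    (ha' : ∀ k, BN (xc x) n' a' k = 0) (hb' : ∀ k, BN (xc x) n' b' k = 0) : False := by
  have hX : Function.Injective (xc x) := fun i j h => hx (by simpa [xc] using h)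
  have hq0 : ∀ k, q k ≠ 0 := fun k h => by have := hq k; rw [h, zero_mul] at this; exact lt_irrefl _ this
  set gc : ℂ × ℂ := ((g.1 : ℂ), (g.2 : ℂ)) with hgc
  set mc : ℂ × ℂ := ((m.1 : ℂ), (m.2 : ℂ)) with hmc
  have hlv : ∀ (w : ℝ × ℝ) k, lv ((w.1 : ℂ), (w.2 : ℂ)) (xc x k) = ((lv w (x k) : ℝ) : ℂ) := by
    intro w k
    simp [lv, xc]
  have hG0 : ∀ k, lv gc (xc x k) ≠ 0 := by
    intro k
    rw [hgc, hlv]
    exact_mod_cast hg k
  have hwc : wd gc mc ≠ 0 := by
    have : wd gc mc = ((wd g m : ℝ) : ℂ) := by simp [wd, hgc, hmc]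
    rw [this]
    exact_mod_cast hw
  -- kernel vector
  have hQC : ∀ k, Cau (xc x) (fun l => (q l : ℂ)) k = 0 := by
    intro k
    have h := hqC k
    have h' : Cau (xc x) (fun l => (q l : ℂ)) k = ((Cau x q k : ℝ) : ℂ) := by
      simp [Cau, xc]
    rw [h', h, Complex.ofReal_zero]
  set u : ι → ℂ := fun k => (q k : ℂ) / lv gc (xc x k) with hu
  have hgu : ∀ k, lv gc (xc x k) * u k = (q k : ℂ) := fun k => by
    rw [hu]; field_simp [hG0 k]
  have hgu' : (fun l => lv gc (xc x l) * u l) = fun l => (q l : ℂ) := funext hgu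
  -- forms
  have hBN : ∀ (c1 c2 : ℂ) (w : ι → ℂ) k, BN (xc x) (c1 • lm gc gc + c2 • lm gc mc) w k =
      c1 * (lv gc (xc x k) * Cau (xc x) (fun l => lv gc (xc x l) * w l) k) +
      c2 * ((lv gc (xc x k) * Cau (xc x) (fun l => lv mc (xc x l) * w l) k +
        lv mc (xc x k) * Cau (xc x) (fun l => lv gc (xc x l) * w l) k) / 2) := by
    intro c1 c2 w k
    rw [BN_add, BN_smul, BN_smul, BN_sq two_ne_zero, BN_lm two_ne_zero]
  -- a vector killed by `g C g` is a multiple of `u`
  have hk1 : ∀ κ : ι → ℂ, (∀ k, lv gc (xc x k) * Cau (xc x) (fun l => lv gc (xc x l) * κ l) k = 0) →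
      ∃ c : ℂ, ∀ k, κ k = c * u k := by
    intro κ hκ
    obtain ⟨c, hc⟩ := hker (fun l => lv gc (xc x l) * κ l) (fun k =>
      (mul_eq_zero.1 (hκ k)).resolve_left (hG0 k))
    refine ⟨c, fun k => ?_⟩
    have h1 := hc k
    rw [← hgu k] at h1
    have h2 : lv gc (xc x k) * (κ k - c * u k) = 0 := by linear_combination h1
    rcases mul_eq_zero.1 h2 with h3 | h3
    · exact absurd h3 (hG0 k)
    · linear_combination h3
  have hs2 : s2 ≠ 0 := by
    intro h0
    have hs1 : s1 ≠ 0 := by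
      intro h1; apply hst; rw [h0, h1]; ring
    have key : ∀ w : ι → ℂ, (∀ k, BN (xc x) n w k = 0) → ∃ c : ℂ, ∀ k, w k = c * u k := by
      intro w hw'
      apply hk1
      intro k
      have h := hw' k
      rw [hn, hBN, h0, zero_mul, add_zero] at h
      exact (mul_eq_zero.1 h).resolve_left hs1
    exact B4ii_dep a b u hab (key a ha) (key b hb)
  have ht2 : t2 ≠ 0 := by
    intro h0
    have ht1 : t1 ≠ 0 := by
      intro h1; apply hst; rw [h0, h1]; ring
    have key : ∀ w : ι → ℂ, (∀ k, BN (xc x) n' w k = 0) → ∃ c : ℂ, ∀ k, w k = c * u k := by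
      intro w hw'
      apply hk1
      intro k
      have h := hw' k
      rw [hn', hBN, h0, zero_mul, add_zero] at h
      exact (mul_eq_zero.1 h).resolve_left ht1
    exact B4ii_dep a' b' u hab' (key a' ha') (key b' hb')
  set δ := wd gc mc with hδ
  set τ := ∑ l, u l with hτ
  have e1 : ∀ k, lv gc (xc x k) * Cau (xc x) (fun l => lv mc (xc x l) * u l) k =
      δ * (τ - u k) := by
    intro k
    have h := Cau_comm (xc x) hX gc mc u k
    rw [hgu', hQC k] at h
    linear_combination h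
  -- the two forms as functions
  set B1 : (ι → ℂ) → ι → ℂ := fun w k =>
    lv gc (xc x k) * Cau (xc x) (fun l => lv gc (xc x l) * w l) k with hB1
  set B2 : (ι → ℂ) → ι → ℂ := fun w k =>
    (lv gc (xc x k) * Cau (xc x) (fun l => lv mc (xc x l) * w l) k +
        lv mc (xc x k) * Cau (xc x) (fun l => lv gc (xc x l) * w l) k) / 2 with hB2
  have hB1u : ∀ k, B1 u k = 0 := by
    intro k
    simp only [hB1]
    rw [hgu', hQC k, mul_zero]
  have hB2u : ∀ k, B2 u k = δ * (τ - u k) / 2 := by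
    intro k
    simp only [hB2]
    rw [hgu', hQC k, e1 k]
    ring
  have sk1 : ∀ v w : ι → ℂ, ∑ k, v k * B1 w k = -∑ k, B1 v k * w k := by
    intro v w
    have h := Cau_skew (xc x) (fun l => lv gc (xc x l) * v l) (fun l => lv gc (xc x l) * w l)
    simp only [hB1]
    have h1 : ∑ k, v k * (lv gc (xc x k) * Cau (xc x) (fun l => lv gc (xc x l) * w l) k) =
        ∑ k, lv gc (xc x k) * v k * Cau (xc x) (fun l => lv gc (xc x l) * w l) k :=
      Finset.sum_congr rfl fun k _ => by ring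
    have h2 : ∑ k, lv gc (xc x k) * Cau (xc x) (fun l => lv gc (xc x l) * v l) k * w k =
        ∑ k, Cau (xc x) (fun l => lv gc (xc x l) * v l) k * (lv gc (xc x k) * w k) :=
      Finset.sum_congr rfl fun k _ => by ring
    rw [h1, h2, h]
  have sk2 : ∀ v w : ι → ℂ, ∑ k, v k * B2 w k = -∑ k, B2 v k * w k := by
    intro v w
    have ha1 := Cau_skew (xc x) (fun l => lv gc (xc x l) * v l) (fun l => lv mc (xc x l) * w l)
    have ha2 := Cau_skew (xc x) (fun l => lv mc (xc x l) * v l) (fun l => lv gc (xc x l) * w l)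
    simp only [hB2]
    have h1 : ∑ k, v k * ((lv gc (xc x k) * Cau (xc x) (fun l => lv mc (xc x l) * w l) k +
        lv mc (xc x k) * Cau (xc x) (fun l => lv gc (xc x l) * w l) k) / 2) =
        (∑ k, lv gc (xc x k) * v k * Cau (xc x) (fun l => lv mc (xc x l) * w l) k +
        ∑ k, lv mc (xc x k) * v k * Cau (xc x) (fun l => lv gc (xc x l) * w l) k) / 2 := by
      rw [← Finset.sum_add_distrib, Finset.sum_div]
      exact Finset.sum_congr rfl fun k _ => by ring
    have h2 : ∑ k, (lv gc (xc x k) * Cau (xc x) (fun l => lv mc (xc x l) * v l) k +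
        lv mc (xc x k) * Cau (xc x) (fun l => lv gc (xc x l) * v l) k) / 2 * w k =
        (∑ k, Cau (xc x) (fun l => lv mc (xc x l) * v l) k * (lv gc (xc x k) * w k) +
        ∑ k, Cau (xc x) (fun l => lv gc (xc x l) * v l) k * (lv mc (xc x k) * w k)) / 2 := by
      rw [← Finset.sum_add_distrib, Finset.sum_div]
      exact Finset.sum_congr rfl fun k _ => by ring
    rw [h1, h2, ha1, ha2]
    ring
  have hω0 : ¬ ∀ k, B2 u k = 0 := by
    intro h0
    have h1 : ∀ k, u k = τ := by
      intro k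
      have h := h0 k
      rw [hB2u k] at h
      have h' : δ * (τ - u k) = 0 := by linear_combination 2 * h
      rcases mul_eq_zero.1 h' with h3 | h3
      · exact absurd h3 hwc
      · linear_combination -h3
    have hur : ∀ k, u k = ((q k / lv g (x k) : ℝ) : ℂ) := by
      intro k
      rw [hu]
      simp only
      rw [hgc, hlv, Complex.ofReal_div]
    have hτr : τ = ((∑ k, q k / lv g (x k) : ℝ) : ℂ) := by
      rw [hτ, Complex.ofReal_sum]
      exact Finset.sum_congr rfl fun k _ => hur k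
    have h2 : ∀ k, q k = (∑ j, q j / lv g (x j)) * lv g (x k) := by
      intro k
      have h := h1 k
      rw [hur k, hτr] at h
      have h' : q k / lv g (x k) = ∑ j, q j / lv g (x j) := by exact_mod_cast h
      rw [← h']
      field_simp [hg k]
    set τr : ℝ := ∑ j, q j / lv g (x j)
    have hev : ∀ k, (C (τr * g.1) * X + C (τr * g.2) : ℝ[X]).eval (x k) = q k := by
      intro k
      rw [h2 k]
      simp [lv]
      ring
    have hdeg : (C (τr * g.1) * X + C (τr * g.2) : ℝ[X]).natDegree + 2 ≤ Fintype.card ι := by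
      have := natDegree_linear_le (a := τr * g.1) (b := τr * g.2)
      omega
    have hz := lag_zero x hx _ hdeg q hq (fun k => by rw [hev k]; exact mul_self_nonneg _)
    have hne : Nonempty ι := Fintype.card_pos_iff.1 (by omega)
    obtain ⟨k⟩ := hne
    have := hz k
    rw [hev k] at this
    exact hq0 k this
  -- common kernel
  have hcommon : ∀ κ : ι → ℂ, (∀ k, BN (xc x) n κ k = 0) → (∀ k, BN (xc x) n' κ k = 0) → κ = 0 := by
    intro κ h1 h2
    have hb1 : ∀ k, B1 κ k = 0 := by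
      intro k
      have e1 := h1 k
      have e2 := h2 k
      rw [hn, hBN] at e1
      rw [hn', hBN] at e2
      have e3 : (s1 * t2 - s2 * t1) * B1 κ k = 0 := by
        simp only [hB1]
        linear_combination t2 * e1 - s2 * e2
      exact (mul_eq_zero.1 e3).resolve_left hst
    have hb2 : ∀ k, B2 κ k = 0 := by
      intro k
      have e1 := h1 k
      have e2 := h2 k
      rw [hn, hBN] at e1
      rw [hn', hBN] at e2
      have e3 : (s1 * t2 - s2 * t1) * B2 κ k = 0 := by
        simp only [hB2]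
        linear_combination s1 * e2 - t1 * e1
      exact (mul_eq_zero.1 e3).resolve_left hst
    obtain ⟨c, hc⟩ := hk1 κ hb1
    by_cases hc0 : c = 0
    · funext k
      rw [hc k, hc0, zero_mul]; rfl
    · exfalso
      apply hω0
      intro k
      have h := hb2 k
      have hκ : κ = fun k => c * u k := funext hc
      have : B2 κ k = c * B2 u k := by
        rw [hκ]
        simp only [hB2]
        have e1 : (fun l => lv mc (xc x l) * (c * u l)) = fun l => c * (lv mc (xc x l) * u l) := by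
          funext l; ring
        have e2 : (fun l => lv gc (xc x l) * (c * u l)) = fun l => c * (lv gc (xc x l) * u l) := by
          funext l; ring
        rw [e1, e2, Cau_smul, Cau_smul]
        ring
      rw [this] at h
      exact (mul_eq_zero.1 h).resolve_left hc0
  -- the vector `b0`
  have hsolve : ∃ b0 : ι → ℂ, ∀ k, B1 b0 k = -B2 u k := by
    have hne : Nonempty ι := Fintype.card_pos_iff.1 (by omega)
    obtain ⟨k0⟩ := hne
    obtain ⟨β, hβ⟩ := B4ii_solve hι (xc x) (fun l => (q l : ℂ))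
      ⟨k0, by exact_mod_cast hq0 k0⟩ hQC hker (fun k => -(B2 u k) / lv gc (xc x k)) (by
        have h : ∑ k, u k * B2 u k = 0 := by
          have h := sk2 u u
          have h' : ∑ k, B2 u k * u k = ∑ k, u k * B2 u k :=
            Finset.sum_congr rfl fun k _ => mul_comm _ _
          rw [h'] at h
          linear_combination (1 / 2 : ℂ) * h
        have h2 : ∑ k, (q k : ℂ) * (-(B2 u k) / lv gc (xc x k)) = -∑ k, u k * B2 u k := by
          rw [← Finset.sum_neg_distrib]
          refine Finset.sum_congr rfl fun k _ => ?_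
          rw [← hgu k]
          field_simp [hG0 k]
        rw [h2, h, neg_zero])
    refine ⟨fun k => β k / lv gc (xc x k), fun k => ?_⟩
    simp only [hB1]
    have e : (fun l => lv gc (xc x l) * (β l / lv gc (xc x l))) = β := by
      funext l
      field_simp [hG0 l]
    rw [e, hβ k]
    field_simp [hG0 k]
  obtain ⟨b0, hb0⟩ := hsolve
  -- orthogonality
  have horth : ∀ (c1 c2 : ℂ), c2 ≠ 0 → ∀ κ : ι → ℂ, (∀ k, c1 * B1 κ k + c2 * B2 κ k = 0) →
      ∑ k, κ k * B2 b0 k = 0 ∧ ∑ k, κ k * B2 u k = 0 := by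
    intro c1 c2 hc2 κ hκ
    have h2 : ∀ k, B2 κ k = -(c1 / c2) * B1 κ k := by
      intro k
      have h := hκ k
      field_simp
      linear_combination h
    have hA : ∑ k, κ k * B2 u k = 0 := by
      rw [sk2]
      have e1 : ∑ k, B2 κ k * u k = -(c1 / c2) * ∑ k, B1 κ k * u k := by
        rw [Finset.mul_sum]
        exact Finset.sum_congr rfl fun k _ => by rw [h2 k]; ring
      have e2 : ∑ k, B1 κ k * u k = 0 := by
        have h := sk1 κ u
        simp only [hB1u, mul_zero, Finset.sum_const_zero] at h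
        linear_combination h
      rw [e1, e2]; ring
    refine ⟨?_, hA⟩
    rw [sk2]
    have e1 : ∑ k, B2 κ k * b0 k = -(c1 / c2) * ∑ k, B1 κ k * b0 k := by
      rw [Finset.mul_sum]
      exact Finset.sum_congr rfl fun k _ => by rw [h2 k]; ring
    have e2 : ∑ k, B1 κ k * b0 k = 0 := by
      have h := sk1 κ b0
      have h3 : ∑ k, κ k * B1 b0 k = -∑ k, κ k * B2 u k := by
        rw [← Finset.sum_neg_distrib]
        exact Finset.sum_congr rfl fun k _ => by rw [hb0 k]; ring
      rw [h3, hA] at h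
      linear_combination h
    rw [e1, e2]; ring
  obtain ⟨A1, hA1, hA1m⟩ := B4ii_mat (xc x) n
  obtain ⟨A2, hA2, hA2m⟩ := B4ii_mat (xc x) n'
  obtain ⟨c1, c2, hc, hrel⟩ := line hι A1 A2 hA1 hA2 a b a' b' hab hab'
    (by rw [hA1m]; exact funext ha) (by rw [hA1m]; exact funext hb)
    (by rw [hA2m]; exact funext ha') (by rw [hA2m]; exact funext hb')
    (fun κ h1 h2 => hcommon κ (fun k => by rw [hA1m] at h1; exact congrFun h1 k)
      (fun k => by rw [hA2m] at h2; exact congrFun h2 k))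
    (B2 b0) (B2 u) (by
      intro κ hκ
      rcases hκ with hκ | hκ
      · rw [hA1m] at hκ
        exact horth s1 s2 hs2 κ (fun k => by
          have h := congrFun hκ k
          simp only [Pi.zero_apply] at h
          rw [hn, hBN] at h
          exact h)
      · rw [hA2m] at hκ
        exact horth t1 t2 ht2 κ (fun k => by
          have h := congrFun hκ k
          simp only [Pi.zero_apply] at h
          rw [hn', hBN] at h
          exact h))
  have hc1 : c1 ≠ 0 := by
    intro h0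
    have hc2 : c2 ≠ 0 := hc.resolve_left (fun h => h h0)
    apply hω0
    intro k
    have h := hrel k
    rw [h0, zero_mul, zero_add] at h
    exact (mul_eq_zero.1 h).resolve_left hc2
  -- the corrected vector
  set bb : ι → ℂ := fun k => b0 k + c2 / c1 * u k with hbb
  have hB1add : ∀ k, B1 bb k = B1 b0 k + c2 / c1 * B1 u k := by
    intro k
    simp only [hB1, hbb, Cau, Finset.mul_sum, ← Finset.sum_add_distrib]
    exact Finset.sum_congr rfl fun l _ => by ring
  have hB2add : ∀ k, B2 bb k = B2 b0 k + c2 / c1 * B2 u k := by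
    intro k
    simp only [hB2, hbb, Cau, Finset.mul_sum, Finset.sum_div, ← Finset.sum_add_distrib]
    exact Finset.sum_congr rfl fun l _ => by ring
  have h1 : ∀ k, lv gc (xc x k) * Cau (xc x) (fun l => lv gc (xc x l) * bb l) k =
      -(wd gc mc * (∑ l, u l - u k) / 2) := by
    intro k
    have h := hB1add k
    rw [hB1u k, hb0 k, hB2u k] at h
    simp only [hB1] at h
    linear_combination h
  have h2 : ∀ k, lv gc (xc x k) * Cau (xc x) (fun l => lv mc (xc x l) * bb l) k +
      lv mc (xc x k) * Cau (xc x) (fun l => lv gc (xc x l) * bb l) k = 0 := by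
    intro k
    have h := hB2add k
    have h' : B2 b0 k + c2 / c1 * B2 u k = 0 := by
      have := hrel k
      field_simp
      linear_combination this
    rw [h'] at h
    simp only [hB2] at h
    linear_combination 2 * h
  obtain ⟨c, hcu⟩ := B4ii_final hι (xc x) hX gc mc hwc (fun l => (q l : ℂ)) u bb hQC hgu h1 h2
  -- conclusion
  set γ : ι → ℝ := fun k => lv g (x k) * Cau x (fun l => lv g (x l)) k with hγ
  have hγc : ∀ k, lv gc (xc x k) * Cau (xc x) (fun l => lv gc (xc x l)) k = (γ k : ℂ) := by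
    intro k
    rw [hγ]
    simp only [hgc, hlv]
    simp [Cau, xc]
  have hsum0 : c * ∑ k, ((γ k : ℂ)) ^ 2 = 0 := by
    have h := Cau_skew (xc x) (fun l => (q l : ℂ)) (fun l => lv gc (xc x l))
    simp only [hQC, zero_mul, Finset.sum_const_zero, neg_zero] at h
    rw [Finset.mul_sum, ← h]
    refine Finset.sum_congr rfl fun k _ => ?_
    rw [← hgu k, hcu k, ← hγc k]
    ring
  have hne : Nonempty ι := Fintype.card_pos_iff.1 (by omega)
  obtain ⟨k0⟩ := hne
  have hu0 : ∀ k, u k ≠ 0 := fun k h0 => by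
    have := hgu k
    rw [h0, mul_zero] at this
    exact hq0 k (by exact_mod_cast this.symm)
  have hc0 : c ≠ 0 := by
    intro h0
    apply hu0 k0
    rw [hcu k0, h0, zero_mul]
  have hs : ∑ k, (γ k) ^ 2 = 0 := by
    have := (mul_eq_zero.1 hsum0).resolve_left hc0
    exact_mod_cast this
  have hz := (Finset.sum_eq_zero_iff_of_nonneg (fun k _ => sq_nonneg (γ k))).1 hs k0
    (Finset.mem_univ k0)
  have hγ0 : γ k0 = 0 := by simpa using hz
  apply hu0 k0
  rw [hcu k0, hγc k0, hγ0]
  simp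

end Pool.Agent.Lib.MP_0ae92b_ag.G26
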