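import Pool.Agent.Lib.MP_0ae92b_ag.G26.BNlem
import Pool.Agent.Lib.MP_0ae92b_ag.G26.Lag

set_option autoImplicit false

/-!
# Final step of case (iii): two conjugate squares

Here `g2 = ḡ1`, `u1 = u`, `u2 = ū`, `ε1 = ε2 = 1`.

PROOF.  As in `B4i` (complex version, `w = wd g ḡ`, `τ = ∑ u`, the points are real so that `lv ḡ (x_k)` is the conjugate of
`lv g (x_k)` and `Cau` commutes with conjugation): with `ω = ḡ C(ḡ u)` one has `g² ω = w ḡ (τ g - q)`, and the second vector is `ω̄`
(`w̄ = -w`).  So `c1 ω + c2 ω̄ = 0`.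
(0) We may assume `c2 = c̄1 =: c̄ ≠ 0`: the conjugate relation is `c̄2 ω + c̄1 ω̄ = 0`; adding, `(c1 + c̄2) ω + conj(c1 + c̄2) ω̄ = 0`,
and if `c1 + c̄2 = 0` then multiply the relation by `i`: `(i c1) ω + conj(i c1) ω̄ = 0` (here `c1 ≠ 0`).
(1) Multiply `c ω + c̄ ω̄ = 0` by `g² ḡ² / w`: `q (c̄ g³ - c ḡ³) = g ḡ (c̄ τ̄ g² - c τ ḡ²)` at every `x_k`, that is
`q Im(c̄ g³) = |g|² Im(c̄ τ̄ g²)`.
(2) `Q3 = Im(c̄ g³)` and `Q2 = Im(c̄ τ̄ g²)` are real polynomials in `x` of degree at most `3` and `2` (take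
imaginary parts of the coefficients).  `P = Q3 Q2` has degree at most `5` and `P(x_k) q_k = |g(x_k)|² Q2(x_k)² ≥ 0`, so by `lag_zero` `P(x_k) = 0`, and with
`q Q3 = |g|² Q2`, `q_k ≠ 0`, we get `Q3(x_k) = 0` for all seven `k`.  So `Q3 = 0`, i.e. `c̄ g³ = c ḡ³` as polynomials.
(3) `g` is not constant (else `wd g ḡ = 0`); at the zero `z` of `g` the form `ḡ` does not vanish (`wd g ḡ ≠ 0`), so `c ḡ(z)³ = 0` gives
`c = 0`, contradiction.
-/

namespace Pool.Agent.Lib.MP_0ae92b_ag.G26

open Polynomial ComplexConjugate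

variable {ι : Type} [Fintype ι] [DecidableEq ι]

/-- The identity at one point, for real `a`, `b`, `cr`, `ci`. -/
private theorem B4iii_alg (a b cr ci er ei q : ℝ)
    (h : (q : ℂ) * (conj ((cr : ℂ) + Complex.I * ci) * ((a : ℂ) + Complex.I * b) ^ 3 -
        ((cr : ℂ) + Complex.I * ci) * ((a : ℂ) - Complex.I * b) ^ 3) =
      ((a : ℂ) + Complex.I * b) * ((a : ℂ) - Complex.I * b) *
        (((er : ℂ) + Complex.I * ei) * ((a : ℂ) + Complex.I * b) ^ 2 -
          conj ((er : ℂ) + Complex.I * ei) * ((a : ℂ) - Complex.I * b) ^ 2)) :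
    q * (cr * (3 * a ^ 2 * b - b ^ 3) - ci * (a ^ 3 - 3 * a * b ^ 2)) =
      (a ^ 2 + b ^ 2) * (er * (2 * a * b) + ei * (a ^ 2 - b ^ 2)) := by
  have hI : Complex.I ^ 2 = -1 := Complex.I_sq
  simp only [map_add, map_mul, Complex.conj_ofReal, Complex.conj_I] at h
  have h2 : (2 * Complex.I) * ((q * (cr * (3 * a ^ 2 * b - b ^ 3) - ci * (a ^ 3 - 3 * a * b ^ 2)) -
      (a ^ 2 + b ^ 2) * (er * (2 * a * b) + ei * (a ^ 2 - b ^ 2)) : ℝ) : ℂ) = 0 := by
    push_cast
    have hI3 : Complex.I ^ 3 = -Complex.I := by rw [pow_succ, hI]; ring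
    have hI4 : Complex.I ^ 4 = 1 := by
      rw [show Complex.I ^ 4 = (Complex.I ^ 2) ^ 2 by ring, hI]; norm_num
    have hI5 : Complex.I ^ 5 = Complex.I := by rw [pow_succ, hI4]; ring
    ring_nf at h ⊢
    simp only [hI3, hI5] at h ⊢
    linear_combination h
  have h3 := (mul_eq_zero.1 h2).resolve_left
    (mul_ne_zero two_ne_zero Complex.I_ne_zero)
  have h4 : q * (cr * (3 * a ^ 2 * b - b ^ 3) - ci * (a ^ 3 - 3 * a * b ^ 2)) -
      (a ^ 2 + b ^ 2) * (er * (2 * a * b) + ei * (a ^ 2 - b ^ 2)) = 0 := by exact_mod_cast h3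
  linarith

theorem B4iii (hι : Fintype.card ι = 7) (x : ι → ℝ) (hx : Function.Injective x) (q : ι → ℝ)
    (hqC : ∀ k, Cau x q k = 0) (hq : ∀ k, 0 < q k * Dp x k) (g : ℂ × ℂ)
    (hw : wd g (conj g.1, conj g.2) ≠ 0) (u : ι → ℂ)
    (h1 : ∀ k, lv g (xc x k) * u k = (q k : ℂ)) (c1 c2 : ℂ) (hc : c1 ≠ 0 ∨ c2 ≠ 0)
    (hω : ∀ k, c1 * (lv (conj g.1, conj g.2) (xc x k) *
        Cau (xc x) (fun l => lv (conj g.1, conj g.2) (xc x l) * u l) k) +
      c2 * (lv g (xc x k) * Cau (xc x) (fun l => lv g (xc x l) * conj (u l)) k) = 0) : False := by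
  have hX : Function.Injective (xc x) := fun i j h => hx (by simpa [xc] using h)
  have hq0 : ∀ k, q k ≠ 0 := fun k h => by
    have := hq k; rw [h, zero_mul] at this; exact lt_irrefl _ this
  set gb : ℂ × ℂ := (conj g.1, conj g.2) with hgb
  have hcj : ∀ k, lv gb (xc x k) = conj (lv g (xc x k)) := by
    intro k
    simp [lv, xc, hgb]
  have hQC : ∀ k, Cau (xc x) (fun l => (q l : ℂ)) k = 0 := by
    intro k
    have h := hqC k
    have h' : Cau (xc x) (fun l => (q l : ℂ)) k = ((Cau x q k : ℝ) : ℂ) := by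
      simp [Cau, xc]
    rw [h', h, Complex.ofReal_zero]
  set τ := ∑ l, u l with hτ
  have hgu : (fun l => lv g (xc x l) * u l) = fun l => (q l : ℂ) := funext h1
  have h1' : ∀ k, lv gb (xc x k) * conj (u k) = (q k : ℂ) := by
    intro k
    rw [hcj, ← map_mul, h1 k, Complex.conj_ofReal]
  have hgu' : (fun l => lv gb (xc x l) * conj (u l)) = fun l => (q l : ℂ) := funext h1'
  have hτ' : ∑ l, conj (u l) = conj τ := by rw [hτ, map_sum]
  have e1 : ∀ k, lv g (xc x k) * Cau (xc x) (fun l => lv gb (xc x l) * u l) k =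
      wd g gb * (τ - u k) := by
    intro k
    have h := Cau_comm (xc x) hX g gb u k
    rw [hgu, hQC k] at h
    linear_combination h
  have e2 : ∀ k, lv gb (xc x k) * Cau (xc x) (fun l => lv g (xc x l) * conj (u l)) k =
      -wd g gb * (conj τ - conj (u k)) := by
    intro k
    have h := Cau_comm (xc x) hX gb g (fun l => conj (u l)) k
    rw [hgu', hQC k, hτ'] at h
    have hwd : wd gb g = -wd g gb := by simp only [wd]; ring
    rw [hwd] at h
    linear_combination h
  -- the main relation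
  have e3 : ∀ k, (q k : ℂ) * (c2 * lv g (xc x k) ^ 3 - c1 * lv gb (xc x k) ^ 3) =
      lv g (xc x k) * lv gb (xc x k) *
        (c2 * conj τ * lv g (xc x k) ^ 2 - c1 * τ * lv gb (xc x k) ^ 2) := by
    intro k
    set G := lv g (xc x k) with hG
    set H := lv gb (xc x k) with hH
    have hA := e1 k
    have hB := e2 k
    rw [← hG] at hA
    rw [← hH] at hB
    have hr := hω k
    rw [← hG, ← hH] at hr
    have hu := h1 k
    have hu' := h1' k
    rw [← hG] at hu
    rw [← hH] at hu'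
    have key : wd g gb * ((q k : ℂ) * (c2 * G ^ 3 - c1 * H ^ 3) -
        G * H * (c2 * conj τ * G ^ 2 - c1 * τ * H ^ 2)) = 0 := by
      linear_combination (G ^ 2 * H ^ 2) * hr - (c1 * G * H ^ 3) * hA - (c2 * G ^ 3 * H) * hB +
        (wd g gb * c1 * H ^ 3) * hu - (wd g gb * c2 * G ^ 3) * hu'
    rcases mul_eq_zero.1 key with h0 | h0
    · exact absurd h0 hw
    · linear_combination h0
  -- symmetrisation
  obtain ⟨c, hc0, e4⟩ : ∃ c : ℂ, c ≠ 0 ∧ ∀ k,
      (q k : ℂ) * (conj c * lv g (xc x k) ^ 3 - c * lv gb (xc x k) ^ 3) =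
      lv g (xc x k) * lv gb (xc x k) *
        (conj c * conj τ * lv g (xc x k) ^ 2 - c * τ * lv gb (xc x k) ^ 2) := by
    by_cases hs : c1 + conj c2 = 0
    · have h2 : c2 = -conj c1 := by
        have := congrArg conj hs
        rw [map_add, Complex.conj_conj, map_zero] at this
        linear_combination this
      have hc1 : c1 ≠ 0 := by
        intro h0
        rcases hc with h | h
        · exact h h0
        · apply h; rw [h2, h0]; simp
      refine ⟨Complex.I * c1, mul_ne_zero Complex.I_ne_zero hc1, fun k => ?_⟩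
      have h := e3 k
      rw [h2] at h
      rw [map_mul, Complex.conj_I]
      linear_combination Complex.I * h
    · refine ⟨c1 + conj c2, hs, fun k => ?_⟩
      have h := e3 k
      have h' := congrArg conj h
      rw [hcj] at h h'
      simp only [map_mul, map_sub, map_pow, Complex.conj_conj, Complex.conj_ofReal] at h'
      rw [map_add, Complex.conj_conj, hcj]
      linear_combination h - h'
  -- real polynomials
  set ar : ℝ × ℝ := (g.1.re, g.2.re) with har
  set br : ℝ × ℝ := (g.1.im, g.2.im) with hbr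
  have hgab : ∀ z : ℂ, lv g z = ((g.1.re : ℂ) * z + g.2.re) +
      Complex.I * ((g.1.im : ℂ) * z + g.2.im) := by
    intro z
    have e1 := Complex.re_add_im g.1
    have e2 := Complex.re_add_im g.2
    simp only [lv]
    linear_combination (-z) * e1 - e2
  have hgbab : ∀ z : ℂ, lv gb z = ((g.1.re : ℂ) * z + g.2.re) -
      Complex.I * ((g.1.im : ℂ) * z + g.2.im) := by
    intro z
    have e1 : conj g.1 = (g.1.re : ℂ) - g.1.im * Complex.I := by
      conv_lhs => rw [← Complex.re_add_im g.1]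
      simp only [map_add, map_mul, Complex.conj_ofReal, Complex.conj_I]
      ring
    have e2 : conj g.2 = (g.2.re : ℂ) - g.2.im * Complex.I := by
      conv_lhs => rw [← Complex.re_add_im g.2]
      simp only [map_add, map_mul, Complex.conj_ofReal, Complex.conj_I]
      ring
    simp only [lv, hgb]
    rw [e1, e2]
    ring
  have hcri : c = (c.re : ℂ) + Complex.I * c.im := by
    conv_lhs => rw [← Complex.re_add_im c]
    ring
  set e := conj c * conj τ with he
  have heri : e = (e.re : ℂ) + Complex.I * e.im := by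
    conv_lhs => rw [← Complex.re_add_im e]
    ring
  let A : ℝ[X] := C g.1.re * X + C g.2.re
  let B : ℝ[X] := C g.1.im * X + C g.2.im
  let P3 : ℝ[X] := C c.re * (3 * A ^ 2 * B - B ^ 3) - C c.im * (A ^ 3 - 3 * A * B ^ 2)
  let P2 : ℝ[X] := C e.re * (2 * A * B) + C e.im * (A ^ 2 - B ^ 2)
  have hAd : A.natDegree ≤ 1 := natDegree_linear_le
  have hBd : B.natDegree ≤ 1 := natDegree_linear_le
  have hP3d : P3.natDegree ≤ 3 := by
    have h3 : (3 : ℝ[X]).natDegree = 0 := natDegree_ofNat 3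
    have t1 : (3 * A ^ 2 * B).natDegree ≤ 3 := by
      refine natDegree_mul_le.trans ?_
      have := (natDegree_mul_le (p := (3 : ℝ[X])) (q := A ^ 2))
      have := (natDegree_pow_le (p := A) (n := 2))
      omega
    have t2 : (B ^ 3).natDegree ≤ 3 := by
      have := (natDegree_pow_le (p := B) (n := 3)); omega
    have t3 : (A ^ 3).natDegree ≤ 3 := by
      have := (natDegree_pow_le (p := A) (n := 3)); omega
    have t4 : (3 * A * B ^ 2).natDegree ≤ 3 := by
      refine natDegree_mul_le.trans ?_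
      have := (natDegree_mul_le (p := (3 : ℝ[X])) (q := A))
      have := (natDegree_pow_le (p := B) (n := 2))
      omega
    refine (natDegree_sub_le _ _).trans (max_le ?_ ?_)
    · exact (natDegree_C_mul_le _ _).trans ((natDegree_sub_le _ _).trans (max_le t1 t2))
    · exact (natDegree_C_mul_le _ _).trans ((natDegree_sub_le _ _).trans (max_le t3 t4))
  have hP2d : P2.natDegree ≤ 2 := by
    have h3 : (2 : ℝ[X]).natDegree = 0 := natDegree_ofNat 2
    have t1 : (2 * A * B).natDegree ≤ 2 := by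
      refine natDegree_mul_le.trans ?_
      have := (natDegree_mul_le (p := (2 : ℝ[X])) (q := A))
      omega
    have t2 : (A ^ 2).natDegree ≤ 2 := by
      have := (natDegree_pow_le (p := A) (n := 2)); omega
    have t3 : (B ^ 2).natDegree ≤ 2 := by
      have := (natDegree_pow_le (p := B) (n := 2)); omega
    refine (natDegree_add_le _ _).trans (max_le ?_ ?_)
    · exact (natDegree_C_mul_le _ _).trans t1
    · exact (natDegree_C_mul_le _ _).trans ((natDegree_sub_le _ _).trans (max_le t2 t3))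
  have hrel : ∀ k, q k * P3.eval (x k) =
      (lv ar (x k) ^ 2 + lv br (x k) ^ 2) * P2.eval (x k) := by
    intro k
    have h := e4 k
    have hz1 : lv g (xc x k) = ((lv ar (x k) : ℝ) : ℂ) + Complex.I * ((lv br (x k) : ℝ) : ℂ) := by
      rw [hgab]; simp [lv, xc, har, hbr]
    have hz2 : lv gb (xc x k) = ((lv ar (x k) : ℝ) : ℂ) - Complex.I * ((lv br (x k) : ℝ) : ℂ) := by
      rw [hgbab]; simp [lv, xc, har, hbr]
    have he' : c * τ = conj e := by rw [he, map_mul, Complex.conj_conj, Complex.conj_conj]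
    rw [hz1, hz2, he'] at h
    have h' := B4iii_alg (lv ar (x k)) (lv br (x k)) c.re c.im e.re e.im (q k) (by
      rw [← hcri, ← heri]; exact h)
    have ev3 : P3.eval (x k) = c.re * (3 * lv ar (x k) ^ 2 * lv br (x k) - lv br (x k) ^ 3) -
        c.im * (lv ar (x k) ^ 3 - 3 * lv ar (x k) * lv br (x k) ^ 2) := by
      simp [P3, A, B, lv, har, hbr]
    have ev2 : P2.eval (x k) = e.re * (2 * lv ar (x k) * lv br (x k)) +
        e.im * (lv ar (x k) ^ 2 - lv br (x k) ^ 2) := by
      simp [P2, A, B, lv, har, hbr]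
    rw [ev3, ev2]
    exact h'
  have hPd : (P3 * P2).natDegree + 2 ≤ Fintype.card ι := by
    have := (natDegree_mul_le (p := P3) (q := P2))
    omega
  have hz := lag_zero x hx (P3 * P2) hPd q hq (fun k => by
    rw [eval_mul]
    have h := hrel k
    have : P3.eval (x k) * P2.eval (x k) * q k =
        (lv ar (x k) ^ 2 + lv br (x k) ^ 2) * P2.eval (x k) ^ 2 := by
      linear_combination (P2.eval (x k)) * h
    rw [this]
    positivity)
  have hP3z : ∀ k, P3.eval (x k) = 0 := by
    intro k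
    have h := hz k
    rw [eval_mul] at h
    rcases mul_eq_zero.1 h with h0 | h0
    · exact h0
    · have h' := hrel k
      rw [h0, mul_zero] at h'
      exact (mul_eq_zero.1 h').resolve_left (hq0 k)
  have hP30 : P3 = 0 :=
    eq_zero_of_natDegree_lt_card_of_eval_eq_zero P3 hx hP3z (by omega)
  -- the complex zero of `g`
  have hg1 : g.1 ≠ 0 := by
    intro h0
    apply hw
    simp only [wd, hgb, h0, map_zero]
    ring
  set z : ℂ := -g.2 / g.1 with hz0
  have hgz : lv g z = 0 := by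
    simp only [lv, hz0]; field_simp; ring
  have hgbz : lv gb z ≠ 0 := by
    intro h0
    apply hw
    simp only [lv] at h0 hgz
    simp only [wd]
    linear_combination g.1 * h0 - gb.1 * hgz
  have hev : (P3.map (algebraMap ℝ ℂ)).eval z = 0 := by rw [hP30]; simp
  have hev2 : (P3.map (algebraMap ℝ ℂ)).eval z = (c.re : ℂ) *
      (3 * ((g.1.re : ℂ) * z + g.2.re) ^ 2 * ((g.1.im : ℂ) * z + g.2.im) -
        ((g.1.im : ℂ) * z + g.2.im) ^ 3) -
      (c.im : ℂ) * (((g.1.re : ℂ) * z + g.2.re) ^ 3 -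
        3 * ((g.1.re : ℂ) * z + g.2.re) * ((g.1.im : ℂ) * z + g.2.im) ^ 2) := by
    simp [P3, A, B, Polynomial.map_sub, Polynomial.map_mul, Polynomial.map_add, Polynomial.map_pow]
  rw [hev2] at hev
  have hfin : c * lv gb z ^ 3 = 0 := by
    have hcc : conj c = (c.re : ℂ) - Complex.I * c.im := by
      conv_lhs => rw [hcri]
      simp only [map_add, map_mul, Complex.conj_ofReal, Complex.conj_I]
      ring
    have hpol : ∀ a b : ℂ, ((c.re : ℂ) - Complex.I * c.im) * (a + Complex.I * b) ^ 3 -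
        ((c.re : ℂ) + Complex.I * c.im) * (a - Complex.I * b) ^ 3 =
        2 * Complex.I * ((c.re : ℂ) * (3 * a ^ 2 * b - b ^ 3) -
          (c.im : ℂ) * (a ^ 3 - 3 * a * b ^ 2)) := by
      intro a b
      have hI : Complex.I ^ 2 = -1 := Complex.I_sq
      have hI3 : Complex.I ^ 3 = -Complex.I := by rw [pow_succ, hI]; ring
      ring_nf
      simp only [hI3]
      ring
    have h := hpol ((g.1.re : ℂ) * z + g.2.re) ((g.1.im : ℂ) * z + g.2.im)
    rw [hev, ← hgab, ← hgbab, hgz, ← hcri] at h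
    linear_combination -h
  rcases mul_eq_zero.1 hfin with h0 | h0
  · exact hc0 h0
  · exact hgbz (pow_eq_zero_iff (by norm_num) |>.1 h0)

end Pool.Agent.Lib.MP_0ae92b_ag.G26
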