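import Pool.Agent.Lib.MP_0ae92b_ag.G26.BNlem
import Pool.Agent.Lib.MP_0ae92b_ag.G26.Line

set_option autoImplicit false

/-!
# Two squares in the pencil: two explicit vectors in one line

PROOF.  Let `A1, A2` be the matrices with entries `N(x_k,x_l)/(x_k-x_l)`, `N'(x_k,x_l)/(x_k-x_l)`
(`Matrix.of fun k l => (polarisation) * (x k - x l)⁻¹`, so `(A *ᵥ b) k = BN x n b k`); they are antisymmetric.
By `BN_add, BN_smul, BN_sq`: `BN x n κ = s1 g1 C(g1 κ) + s2 g2 C(g2 κ)`, same for `n'` with `t1, t2`.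
(1) `s1, s2, t1, t2 ≠ 0`: if for instance `s2 = 0` then (`s1 ≠ 0` as `s1 t2 - s2 t1 ≠ 0`) `a` and `b` satisfy `g1 C(g1 ·) = 0`, so both are
multiples of `u1` (`hk1`), contradicting the independence of `a, b`.  Similarly the others.
(2) Common kernel: if `κ` is killed by both then `g1 C(g1 κ) = 0 = g2 C(g2 κ)` (solve the `2 × 2` system), so `κ = c u1 = c' u2`.
If `κ ≠ 0` then `c, c' ≠ 0` and `u1` is a nonzero multiple `c'' u2` of `u2`; then `g1 g2 u1 = ε1 g2 q = c'' ε2 g1 q`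
at all `x_k`, so (`q_k ≠ 0`) the linear form `ε1 g2 - c'' ε2 g1` vanishes at all seven points, is zero, and as `wd g1 g2 ≠ 0` we get `ε1 = 0`
and `ε2 = 0`; then `g1(x_k) u1_k = 0 = g2(x_k) u1_k` for all `k`, and since `wd g1 g2 ≠ 0` the forms have no common zero, so `u1 = 0`, contradiction.
(3) `ω1 = g2 C(g2 u1)` is orthogonal to the kernels: `C(g1 u1) = ε1 C q = 0`.  If `s1 g1 C(g1 κ) + s2 g2 C(g2 κ) = 0` then by `Cau_skew`
`s2 ∑ κ g2 C(g2 u1) = -s2 ∑ C(g2 κ) g2 u1 = s1 ∑ u1 g1 C(g1 κ) = -s1 ∑ C(g1 u1) g1 κ = 0`.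
Same for `ω2 = g1 C(g1 u2)` with `s1`, and for `n'`.
(4) Apply `line`.
-/

namespace Pool.Agent.Lib.MP_0ae92b_ag.G26

variable {ι : Type} [Fintype ι] [DecidableEq ι]

omit [DecidableEq ι] [Fintype ι] in
theorem b4sq_dep {a b u : ι → ℂ} {c c' : ℂ} (ha : ∀ k, a k = c * u k) (hb : ∀ k, b k = c' * u k)
    (hab : LinearIndependent ℂ ![a, b]) : False := by
  rw [LinearIndependent.pair_iff] at hab
  have h := hab c' (-c) (by
    ext k
    simp only [Pi.add_apply, Pi.smul_apply, smul_eq_mul, ha, hb, Pi.zero_apply]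
    ring)
  have hc : c = 0 := neg_eq_zero.1 h.2
  have h2 := hab 1 0 (by
    ext k
    simp only [Pi.add_apply, Pi.smul_apply, smul_eq_mul, ha, hc, Pi.zero_apply]
    ring)
  exact one_ne_zero h2.1

omit [DecidableEq ι] in
theorem b4sq_orth (x : ι → ℂ) (g g' : ℂ × ℂ) (u κ : ι → ℂ) (s s' : ℂ) (hs' : s' ≠ 0)
    (hu : ∀ k, Cau x (fun l => lv g (x l) * u l) k = 0)
    (hκ : ∀ k, s * (lv g (x k) * Cau x (fun l => lv g (x l) * κ l) k) +
      s' * (lv g' (x k) * Cau x (fun l => lv g' (x l) * κ l) k) = 0) :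
    ∑ k, κ k * (lv g' (x k) * Cau x (fun l => lv g' (x l) * u l) k) = 0 := by
  have e1 := Cau_skew x (fun l => lv g' (x l) * κ l) (fun l => lv g' (x l) * u l)
  have e2 := Cau_skew x (fun l => lv g (x l) * κ l) (fun l => lv g (x l) * u l)
  have e3 : ∑ k, (lv g (x k) * κ k) * Cau x (fun l => lv g (x l) * u l) k = 0 :=
    Finset.sum_eq_zero fun k _ => by rw [hu, mul_zero]
  have e4 : s * ∑ k, Cau x (fun l => lv g (x l) * κ l) k * (lv g (x k) * u k) +
      s' * ∑ k, Cau x (fun l => lv g' (x l) * κ l) k * (lv g' (x k) * u k) = 0 := by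
    rw [Finset.mul_sum, Finset.mul_sum, ← Finset.sum_add_distrib]
    refine Finset.sum_eq_zero fun k _ => ?_
    linear_combination u k * hκ k
  have e5 : ∑ k, κ k * (lv g' (x k) * Cau x (fun l => lv g' (x l) * u l) k) =
      ∑ k, (lv g' (x k) * κ k) * Cau x (fun l => lv g' (x l) * u l) k :=
    Finset.sum_congr rfl fun k _ => by ring
  have e6 : s' * ∑ k, κ k * (lv g' (x k) * Cau x (fun l => lv g' (x l) * u l) k) = 0 := by
    rw [e5]
    linear_combination s' * e1 + s * e2 - s * e3 - e4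
  exact (mul_eq_zero.1 e6).resolve_left hs'

/-- The matrix of `BN x n`. -/
noncomputable def BNmat (x : ι → ℂ) (n : ℂ × ℂ × ℂ) : Matrix ι ι ℂ :=
  Matrix.of fun k l =>
    (n.1 * x k * x l + n.2.1 * (x k + x l) / 2 + n.2.2) * (x k - x l)⁻¹

omit [DecidableEq ι] in
theorem BNmat_mulVec (x : ι → ℂ) (n : ℂ × ℂ × ℂ) (b : ι → ℂ) :
    (BNmat x n).mulVec b = BN x n b := by
  ext k
  rfl

omit [Fintype ι] [DecidableEq ι] in
theorem BNmat_skew (x : ι → ℂ) (n : ℂ × ℂ × ℂ) : (BNmat x n).transpose = -BNmat x n := by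
  ext k l
  simp only [BNmat, Matrix.transpose_apply, Matrix.of_apply, Matrix.neg_apply]
  rw [show x l - x k = -(x k - x l) by ring, inv_neg]
  ring

omit [DecidableEq ι] in
theorem BN_two (x : ι → ℂ) (g1 g2 : ℂ × ℂ) (n : ℂ × ℂ × ℂ) (s1 s2 : ℂ)
    (hn : n = s1 • lm g1 g1 + s2 • lm g2 g2) (b : ι → ℂ) (k : ι) :
    BN x n b k = s1 * (lv g1 (x k) * Cau x (fun l => lv g1 (x l) * b l) k) +
      s2 * (lv g2 (x k) * Cau x (fun l => lv g2 (x l) * b l) k) := by
  rw [hn, BN_add, BN_smul, BN_smul, BN_sq two_ne_zero, BN_sq two_ne_zero]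

omit [Fintype ι] [DecidableEq ι] in
theorem b4sq_form (x : ι → ℂ) (hx : Function.Injective x) {i j : ι} (hij : i ≠ j) (g : ℂ × ℂ)
    (hi : lv g (x i) = 0) (hj : lv g (x j) = 0) : g.1 = 0 ∧ g.2 = 0 := by
  have hne : x i - x j ≠ 0 := sub_ne_zero.2 (hx.ne hij)
  simp only [lv] at hi hj
  have h1 : g.1 * (x i - x j) = 0 := by linear_combination hi - hj
  have h2 : g.1 = 0 := (mul_eq_zero.1 h1).resolve_right hne
  refine ⟨h2, ?_⟩
  rw [h2] at hi
  linear_combination hi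

theorem B4sq (hι : Fintype.card ι = 7) (x : ι → ℂ) (hx : Function.Injective x) (q : ι → ℂ)
    (hq : ∀ k, q k ≠ 0) (hqC : ∀ k, Cau x q k = 0) (g1 g2 : ℂ × ℂ) (hw : wd g1 g2 ≠ 0)
    (u1 u2 : ι → ℂ) (ε1 ε2 : ℂ) (hu1 : u1 ≠ 0) (hu2 : u2 ≠ 0)
    (h1 : ∀ k, lv g1 (x k) * u1 k = ε1 * q k) (h2 : ∀ k, lv g2 (x k) * u2 k = ε2 * q k)
    (hk1 : ∀ κ : ι → ℂ, (∀ k, lv g1 (x k) * Cau x (fun l => lv g1 (x l) * κ l) k = 0) →
      ∃ c : ℂ, ∀ k, κ k = c * u1 k)
    (hk2 : ∀ κ : ι → ℂ, (∀ k, lv g2 (x k) * Cau x (fun l => lv g2 (x l) * κ l) k = 0) →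
      ∃ c : ℂ, ∀ k, κ k = c * u2 k)
    (n n' : ℂ × ℂ × ℂ) (s1 s2 t1 t2 : ℂ) (hn : n = s1 • lm g1 g1 + s2 • lm g2 g2)
    (hn' : n' = t1 • lm g1 g1 + t2 • lm g2 g2) (hst : s1 * t2 - s2 * t1 ≠ 0)
    (a b a' b' : ι → ℂ) (hab : LinearIndependent ℂ ![a, b]) (hab' : LinearIndependent ℂ ![a', b'])
    (ha : ∀ k, BN x n a k = 0) (hb : ∀ k, BN x n b k = 0) (ha' : ∀ k, BN x n' a' k = 0)
    (hb' : ∀ k, BN x n' b' k = 0) :
    ∃ c1 c2 : ℂ, (c1 ≠ 0 ∨ c2 ≠ 0) ∧ ∀ k,
      c1 * (lv g2 (x k) * Cau x (fun l => lv g2 (x l) * u1 l) k) +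
        c2 * (lv g1 (x k) * Cau x (fun l => lv g1 (x l) * u2 l) k) = 0 := by
  have hC1 : ∀ k, Cau x (fun l => lv g1 (x l) * u1 l) k = 0 := fun k => by
    rw [show (fun l => lv g1 (x l) * u1 l) = fun l => ε1 * q l from funext h1, Cau_smul, hqC,
      mul_zero]
  have hC2 : ∀ k, Cau x (fun l => lv g2 (x l) * u2 l) k = 0 := fun k => by
    rw [show (fun l => lv g2 (x l) * u2 l) = fun l => ε2 * q l from funext h2, Cau_smul, hqC,
      mul_zero]
  -- (1) all the coefficients are nonzero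
  have key1 : ∀ (m : ℂ × ℂ × ℂ) (r1 r2 : ℂ), m = r1 • lm g1 g1 + r2 • lm g2 g2 →
      (r1 ≠ 0 ∨ r2 ≠ 0) → ∀ a b : ι → ℂ, LinearIndependent ℂ ![a, b] →
      (∀ k, BN x m a k = 0) → (∀ k, BN x m b k = 0) → r1 ≠ 0 ∧ r2 ≠ 0 := by
    intro m r1 r2 hm hr a b hab ha hb
    constructor
    · intro h0
      have hr2 : r2 ≠ 0 := hr.resolve_left (fun h => h h0)
      have hz : ∀ c : ι → ℂ, (∀ k, BN x m c k = 0) → ∃ e : ℂ, ∀ k, c k = e * u2 k := by
        intro c hc
        refine hk2 c fun k => ?_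
        have := hc k
        rw [BN_two x g1 g2 m r1 r2 hm, h0, zero_mul, zero_add] at this
        exact (mul_eq_zero.1 this).resolve_left hr2
      obtain ⟨e, he⟩ := hz a ha
      obtain ⟨e', he'⟩ := hz b hb
      exact b4sq_dep he he' hab
    · intro h0
      have hr1 : r1 ≠ 0 := hr.resolve_right (fun h => h h0)
      have hz : ∀ c : ι → ℂ, (∀ k, BN x m c k = 0) → ∃ e : ℂ, ∀ k, c k = e * u1 k := by
        intro c hc
        refine hk1 c fun k => ?_
        have := hc k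
        rw [BN_two x g1 g2 m r1 r2 hm, h0, zero_mul, add_zero] at this
        exact (mul_eq_zero.1 this).resolve_left hr1
      obtain ⟨e, he⟩ := hz a ha
      obtain ⟨e', he'⟩ := hz b hb
      exact b4sq_dep he he' hab
  obtain ⟨hs1, hs2⟩ := key1 n s1 s2 hn (by
    by_contra hcon
    push Not at hcon
    exact hst (by rw [hcon.1, hcon.2]; ring)) a b hab ha hb
  obtain ⟨ht1, ht2⟩ := key1 n' t1 t2 hn' (by
    by_contra hcon
    push Not at hcon
    exact hst (by rw [hcon.1, hcon.2]; ring)) a' b' hab' ha' hb'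
  -- (2) the common kernel is zero
  have hcard : 1 < Fintype.card ι := by omega
  have key2 : ∀ κ : ι → ℂ, (∀ k, BN x n κ k = 0) → (∀ k, BN x n' κ k = 0) → κ = 0 := by
    intro κ hκ hκ'
    have hz : ∀ k, lv g1 (x k) * Cau x (fun l => lv g1 (x l) * κ l) k = 0 ∧
        lv g2 (x k) * Cau x (fun l => lv g2 (x l) * κ l) k = 0 := by
      intro k
      have e1 := hκ k
      have e2 := hκ' k
      rw [BN_two x g1 g2 n s1 s2 hn] at e1
      rw [BN_two x g1 g2 n' t1 t2 hn'] at e2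
      constructor
      · refine (mul_eq_zero.1 (?_ : (s1 * t2 - s2 * t1) * _ = 0)).resolve_left hst
        linear_combination t2 * e1 - s2 * e2
      · refine (mul_eq_zero.1 (?_ : (s1 * t2 - s2 * t1) * _ = 0)).resolve_left hst
        linear_combination s1 * e2 - t1 * e1
    obtain ⟨c, hc⟩ := hk1 κ fun k => (hz k).1
    obtain ⟨c', hc'⟩ := hk2 κ fun k => (hz k).2
    by_contra hne
    have hcne : c ≠ 0 := by
      rintro rfl
      exact hne (funext fun k => by rw [hc, zero_mul, Pi.zero_apply])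
    have hcne' : c' ≠ 0 := by
      rintro rfl
      exact hne (funext fun k => by rw [hc', zero_mul, Pi.zero_apply])
    have hrel : ∀ k, c * u1 k = c' * u2 k := fun k => by rw [← hc, ← hc']
    have hlin : ∀ k, lv (c * ε1 * g2.1 - c' * ε2 * g1.1, c * ε1 * g2.2 - c' * ε2 * g1.2) (x k)
        = 0 := by
      intro k
      refine (mul_eq_zero.1 (?_ : _ * q k = 0)).resolve_right (hq k)
      have e1 := h1 k
      have e2 := h2 k
      have e3 := hrel k
      simp only [lv] at e1 e2 ⊢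
      linear_combination (-(c * (g2.1 * x k + g2.2))) * e1 + (c' * (g1.1 * x k + g1.2)) * e2 +
        (g1.1 * x k + g1.2) * (g2.1 * x k + g2.2) * e3
    obtain ⟨i, j, hij⟩ := Fintype.exists_pair_of_one_lt_card hcard
    obtain ⟨hA, hB⟩ := b4sq_form x hx hij _ (hlin i) (hlin j)
    simp only at hA hB
    have hε1 : ε1 = 0 := by
      have : c * ε1 * wd g1 g2 = 0 := by
        simp only [wd]
        linear_combination g1.1 * hB - g1.2 * hA
      rcases mul_eq_zero.1 this with h | h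
      · exact (mul_eq_zero.1 h).resolve_left hcne
      · exact absurd h hw
    have hε2 : ε2 = 0 := by
      have : c' * ε2 * wd g1 g2 = 0 := by
        simp only [wd]
        linear_combination g2.1 * hB - g2.2 * hA
      rcases mul_eq_zero.1 this with h | h
      · exact (mul_eq_zero.1 h).resolve_left hcne'
      · exact absurd h hw
    refine hu1 (funext fun k => ?_)
    have e1 := h1 k
    have e2 : lv g2 (x k) * u1 k = 0 := by
      refine (mul_eq_zero.1 (?_ : c * _ = 0)).resolve_left hcne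
      have e3 := h2 k
      rw [hε2, zero_mul] at e3
      linear_combination lv g2 (x k) * hrel k + c' * e3
    rw [hε1, zero_mul] at e1
    simp only [lv] at e1 e2
    refine (mul_eq_zero.1 (?_ : wd g1 g2 * u1 k = 0)).resolve_left hw
    simp only [wd]
    linear_combination g1.1 * e2 - g2.1 * e1
  -- (4)
  have hline := line hι (BNmat x n) (BNmat x n') (BNmat_skew x n) (BNmat_skew x n') a b a' b' hab
    hab' (by rw [BNmat_mulVec]; exact funext ha) (by rw [BNmat_mulVec]; exact funext hb)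
    (by rw [BNmat_mulVec]; exact funext ha') (by rw [BNmat_mulVec]; exact funext hb')
    (fun κ e1 e2 => by
      rw [BNmat_mulVec] at e1 e2
      exact key2 κ (congrFun e1) (congrFun e2))
    (fun k => lv g2 (x k) * Cau x (fun l => lv g2 (x l) * u1 l) k)
    (fun k => lv g1 (x k) * Cau x (fun l => lv g1 (x l) * u2 l) k) (by
      intro κ hκ
      rw [BNmat_mulVec, BNmat_mulVec] at hκ
      rcases hκ with h | h
      · have e1 : ∀ k, s1 * (lv g1 (x k) * Cau x (fun l => lv g1 (x l) * κ l) k) +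
            s2 * (lv g2 (x k) * Cau x (fun l => lv g2 (x l) * κ l) k) = 0 := fun k => by
          rw [← BN_two x g1 g2 n s1 s2 hn, h]; rfl
        exact ⟨b4sq_orth x g1 g2 u1 κ s1 s2 hs2 hC1 e1,
          b4sq_orth x g2 g1 u2 κ s2 s1 hs1 hC2 fun k => by rw [add_comm]; exact e1 k⟩
      · have e1 : ∀ k, t1 * (lv g1 (x k) * Cau x (fun l => lv g1 (x l) * κ l) k) +
            t2 * (lv g2 (x k) * Cau x (fun l => lv g2 (x l) * κ l) k) = 0 := fun k => by
          rw [← BN_two x g1 g2 n' t1 t2 hn', h]; rfl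
        exact ⟨b4sq_orth x g1 g2 u1 κ t1 t2 ht2 hC1 e1,
          b4sq_orth x g2 g1 u2 κ t2 t1 ht1 hC2 fun k => by rw [add_comm]; exact e1 k⟩)
  exact hline

end Pool.Agent.Lib.MP_0ae92b_ag.G26
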