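import Pool.Agent.Lib.MP_0ae92b_ag.G26.Cauchy

set_option autoImplicit false

/-!
# Complex kernel vectors of the Cauchy matrix

PROOF.  `Cauchy.cauchy_real` is the input.
`cauchy_odd`: the matrix `((x_k - x_l)⁻¹)` is antisymmetric of odd size, so its determinant is zero
(`Matrix.exists_mulVec_eq_zero_iff`) and it has a real kernel vector `q ≠ 0`; after a change of sign all
`q_k D'(x_k) > 0`.  If `C b = 0`, `b` complex, choose one index `i` and put `c = b_i / q_i`; real and imaginary
part of `b - c q` are real kernel vectors with `i`-th entry `0`, so they are `0` by `cauchy_real`.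
`cauchy_erase`: restrict to the subtype `{k // k ≠ j}`, of even cardinality: real and imaginary parts of the
restriction of `b` are real kernel vectors of the Cauchy matrix of the remaining points
(the term `l = j` of the sum vanishes as `b_j = 0`), so they vanish by the parity statement.
-/

namespace Pool.Agent.Lib.MP_0ae92b_ag.G26

open Polynomial

variable {ι : Type} [Fintype ι] [DecidableEq ι]

omit [DecidableEq ι] in
theorem CauchyC_re (x : ι → ℝ) (b : ι → ℂ) (k : ι) :
    (Cau (xc x) b k).re = Cau x (fun l => (b l).re) k := by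
  unfold Cau xc
  rw [Complex.re_sum]
  refine Finset.sum_congr rfl fun l _ => ?_
  rw [← Complex.ofReal_sub, ← Complex.ofReal_inv, Complex.re_ofReal_mul]

omit [DecidableEq ι] in
theorem CauchyC_im (x : ι → ℝ) (b : ι → ℂ) (k : ι) :
    (Cau (xc x) b k).im = Cau x (fun l => (b l).im) k := by
  unfold Cau xc
  rw [Complex.im_sum]
  refine Finset.sum_congr rfl fun l _ => ?_
  rw [← Complex.ofReal_sub, ← Complex.ofReal_inv, Complex.im_ofReal_mul]

omit [DecidableEq ι] in
theorem CauchyC_sub (x : ι → ℝ) (a b : ι → ℝ) (c : ℝ) (k : ι) :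
    Cau x (fun l => a l - c * b l) k = Cau x a k - c * Cau x b k := by
  unfold Cau
  rw [Finset.mul_sum, ← Finset.sum_sub_distrib]
  exact Finset.sum_congr rfl fun l _ => by ring

theorem cauchy_odd (x : ι → ℝ) (hx : Function.Injective x) (hι : Odd (Fintype.card ι)) :
    ∃ q : ι → ℝ, (∀ k, Cau x q k = 0) ∧ (∀ k, 0 < q k * Dp x k) ∧
      ∀ b : ι → ℂ, (∀ k, Cau (xc x) b k = 0) → ∃ c : ℂ, ∀ k, b k = c * (q k : ℂ) := by
  -- existence of a kernel vector
  have hker : ∃ q : ι → ℝ, q ≠ 0 ∧ ∀ k, Cau x q k = 0 := by
    set M : Matrix ι ι ℝ := Matrix.of fun k l => (x k - x l)⁻¹ with hM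
    have hT : M.transpose = -M := by
      ext k l
      simp only [hM, Matrix.transpose_apply, Matrix.of_apply, Matrix.neg_apply]
      rw [← neg_sub (x k) (x l), inv_neg]
    have hdet : M.det = 0 := by
      have h1 : M.det = (-1) ^ Fintype.card ι * M.det := by
        conv_lhs => rw [← Matrix.det_transpose, hT, Matrix.det_neg]
      rw [hι.neg_one_pow] at h1
      linarith
    obtain ⟨q, hq, hq2⟩ := Matrix.exists_mulVec_eq_zero_iff.2 hdet
    refine ⟨q, hq, fun k => ?_⟩
    have := congrFun hq2 k
    simpa [Matrix.mulVec, dotProduct, hM, Cau] using this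
  obtain ⟨q0, hq0, hC0⟩ := hker
  have hpos : ∃ q : ι → ℝ, (∀ k, Cau x q k = 0) ∧ (∀ k, 0 < q k * Dp x k) := by
    rcases (cauchy_real x hx q0 hq0 hC0).2 with h | h
    · exact ⟨q0, hC0, h⟩
    · refine ⟨fun l => -q0 l, fun k => ?_, fun k => ?_⟩
      · have := CauchyC_sub x (fun _ => 0) q0 1 k
        simp only [zero_sub, one_mul] at this
        rw [this, hC0]
        simp [Cau]
      · have := h k
        linarith
  obtain ⟨q, hCq, hq⟩ := hpos
  refine ⟨q, hCq, hq, fun b hb => ?_⟩
  have hne : Nonempty ι := by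
    by_contra h
    rw [not_nonempty_iff] at h
    simp at hι
  obtain ⟨i⟩ := hne
  have hqi : q i ≠ 0 := by
    intro h
    have := hq i
    rw [h, zero_mul] at this
    exact lt_irrefl _ this
  -- real kernel vector with a zero entry vanishes
  have hz : ∀ a : ι → ℝ, (∀ k, Cau x a k = 0) → ∀ k, a k = (a i / q i) * q k := by
    intro a ha
    have h1 : (fun l => a l - (a i / q i) * q l) = 0 := by
      by_contra h
      have h2 : ∀ k, Cau x (fun l => a l - (a i / q i) * q l) k = 0 := by
        intro k
        rw [CauchyC_sub, ha, hCq, mul_zero, sub_zero]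
      have h3 := Cauchy_ne x hx _ h h2 i
      apply h3
      show a i - (a i / q i) * q i = 0
      rw [div_mul_cancel₀ _ hqi, sub_self]
    intro k
    have := congrFun h1 k
    simp only [Pi.zero_apply] at this
    linarith
  have hre := hz (fun l => (b l).re) (fun k => by rw [← CauchyC_re, hb]; rfl)
  have him := hz (fun l => (b l).im) (fun k => by rw [← CauchyC_im, hb]; rfl)
  refine ⟨⟨(b i).re / q i, (b i).im / q i⟩, fun k => ?_⟩
  apply Complex.ext
  · rw [Complex.re_mul_ofReal]; exact hre k
  · rw [Complex.im_mul_ofReal]; exact him k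

theorem cauchy_erase (x : ι → ℝ) (hx : Function.Injective x) (hι : Odd (Fintype.card ι))
    (j : ι) (b : ι → ℂ) (hj : b j = 0) (hb : ∀ k, k ≠ j → Cau (xc x) b k = 0) : b = 0 := by
  set κ := {k : ι // k ≠ j}
  have hcard : Fintype.card κ + 1 = Fintype.card ι := by
    have h1 := Fintype.card_subtype_compl (fun k : ι => k = j)
    have h2 : Fintype.card {k : ι // k = j} = 1 := Fintype.card_subtype_eq j
    have h3 : 0 < Fintype.card ι := Fintype.card_pos_iff.2 ⟨j⟩
    have h4 : Fintype.card κ = Fintype.card ι - 1 := by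
      rw [← h2, ← h1]
    omega
  have hne : ¬ Odd (Fintype.card κ) := by
    intro h
    have : Even (Fintype.card ι) := by
      rw [← hcard]; exact h.add_one
    exact (Nat.not_even_iff_odd.2 hι) this
  -- sums over ι with zero j-term
  have hsum : ∀ (a : ι → ℝ), a j = 0 → ∀ k : ι, Cau x a k = ∑ l : κ, (x k - x l)⁻¹ * a l := by
    intro a ha k
    unfold Cau
    rw [← Finset.sum_erase Finset.univ (a := j) (by rw [ha, mul_zero])]
    exact Finset.sum_subtype (Finset.univ.erase j) (fun l => by simp) (fun l => (x k - x l)⁻¹ * a l)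
  have hz : ∀ a : ι → ℝ, a j = 0 → (∀ k, k ≠ j → Cau x a k = 0) → a = 0 := by
    intro a ha hC
    by_contra hane
    have h1 : (fun l : κ => a l) ≠ 0 := by
      intro h
      apply hane
      funext l
      by_cases hl : l = j
      · rw [hl, ha]; rfl
      · exact congrFun h ⟨l, hl⟩
    have h2 := cauchy_real (fun l : κ => x l) (fun a b h => Subtype.ext (hx h)) (fun l : κ => a l) h1 (fun k => by
      have := hC k.1 k.2
      rw [hsum a ha] at this
      exact this)
    exact hne h2.1
  have hre := hz (fun l => (b l).re) (by simp [hj]) (fun k hk => by rw [← CauchyC_re, hb k hk]; rfl)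
  have him := hz (fun l => (b l).im) (by simp [hj]) (fun k hk => by rw [← CauchyC_im, hb k hk]; rfl)
  funext k
  exact Complex.ext (congrFun hre k) (congrFun him k)

end Pool.Agent.Lib.MP_0ae92b_ag.G26
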