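import Pool.Agent.Lib.MP_0ae92b_ag.G26.BNlem
import Pool.Agent.Lib.MP_0ae92b_ag.G26.CauchyC

set_option autoImplicit false

/-!
# The kernel of `B(g²) = g C g` for a real linear form `g`

PROOF.  A nonzero linear form `g` vanishes at most at one of the `x_k` (they are distinct).
* If `g(x_k) ≠ 0` for all `k`: `u_k = q_k / g(x_k)`, `ε = 1`.  If `g C (g κ) = 0` then `C (g κ) = 0`, so `g κ = c q` (`hker`) and `κ = c u`.
* If `g(x_j) = 0`: `u = e_j` (`Pi.single j 1`), `ε = 0`, `∑ u = 1`.  If `g C (g κ) = 0` then `b = g κ` has `b_j = 0` and `(C b)_k = 0` for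
  `k ≠ j`, so `b = 0` by `cauchy_erase`, hence `κ_k = 0` for `k ≠ j` and `κ = κ_j e_j`.
-/

namespace Pool.Agent.Lib.MP_0ae92b_ag.G26

variable {ι : Type} [Fintype ι] [DecidableEq ι]

theorem sqkerR (x : ι → ℝ) (hx : Function.Injective x) (hι : Odd (Fintype.card ι)) (q : ι → ℝ)
    (hq : ∀ k, q k ≠ 0)
    (hker : ∀ b : ι → ℂ, (∀ k, Cau (xc x) b k = 0) → ∃ c : ℂ, ∀ k, b k = c * (q k : ℂ))
    (g : ℝ × ℝ) (hg : g ≠ 0) :
    ∃ (u : ι → ℝ) (ε : ℝ), u ≠ 0 ∧ (ε = 1 ∨ (ε = 0 ∧ ∑ k, u k = 1)) ∧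
      (∀ k, lv g (x k) * u k = ε * q k) ∧
      ∀ κ : ι → ℂ, (∀ k, lv ((g.1 : ℂ), (g.2 : ℂ)) (xc x k) *
          Cau (xc x) (fun l => lv ((g.1 : ℂ), (g.2 : ℂ)) (xc x l) * κ l) k = 0) →
        ∃ c : ℂ, ∀ k, κ k = c * (u k : ℂ) := by
  have hlv : ∀ k, lv ((g.1 : ℂ), (g.2 : ℂ)) (xc x k) = ((lv g (x k) : ℝ) : ℂ) := by
    intro k
    simp [lv, xc]
  by_cases hall : ∀ k, lv g (x k) ≠ 0
  · have hne : Nonempty ι := by
      rw [← Fintype.card_pos_iff]
      exact hι.pos
    obtain ⟨i⟩ := hne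
    refine ⟨fun k => q k / lv g (x k), 1, ?_, Or.inl rfl, ?_, ?_⟩
    · intro h
      have := congrFun h i
      simp only [Pi.zero_apply] at this
      exact (div_ne_zero (hq i) (hall i)) this
    · intro k
      rw [mul_div_cancel₀ _ (hall k), one_mul]
    · intro κ hκ
      have h1 : ∀ k, Cau (xc x) (fun l => lv ((g.1 : ℂ), (g.2 : ℂ)) (xc x l) * κ l) k = 0 := by
        intro k
        rcases mul_eq_zero.1 (hκ k) with h | h
        · rw [hlv k] at h
          exact absurd (Complex.ofReal_eq_zero.1 h) (hall k)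
        · exact h
      obtain ⟨c, hc⟩ := hker _ h1
      refine ⟨c, fun k => ?_⟩
      have h2 := hc k
      simp only [hlv k] at h2
      have h3 : ((lv g (x k) : ℝ) : ℂ) ≠ 0 := by
        exact_mod_cast hall k
      rw [Complex.ofReal_div, mul_div_assoc', ← h2, mul_div_cancel_left₀ _ h3]
  · push Not at hall
    obtain ⟨j, hj⟩ := hall
    have hother : ∀ k, k ≠ j → lv g (x k) ≠ 0 := by
      intro k hk h0
      apply hg
      have h1 : g.1 * (x k - x j) = 0 := by
        simp only [lv] at h0 hj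
        linear_combination h0 - hj
      have h2 : x k - x j ≠ 0 := sub_ne_zero.2 (hx.ne hk)
      have h3 : g.1 = 0 := (mul_eq_zero.1 h1).resolve_right h2
      have h4 : g.2 = 0 := by
        simp only [lv, h3] at hj
        linear_combination hj
      exact Prod.ext h3 h4
    refine ⟨Pi.single j 1, 0, ?_, Or.inr ⟨rfl, ?_⟩, ?_, ?_⟩
    · intro h
      have := congrFun h j
      simp at this
    · rw [Finset.sum_pi_single']
      simp
    · intro k
      rw [zero_mul]
      by_cases hk : k = j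
      · subst hk
        rw [hj, zero_mul]
      · rw [Pi.single_eq_of_ne hk, mul_zero]
    · intro κ hκ
      have hb : (fun l => lv ((g.1 : ℂ), (g.2 : ℂ)) (xc x l) * κ l) = 0 := by
        refine cauchy_erase x hx hι j _ ?_ ?_
        · simp only [hlv j, hj]
          simp
        · intro k hk
          rcases mul_eq_zero.1 (hκ k) with h | h
          · rw [hlv k] at h
            exact absurd (Complex.ofReal_eq_zero.1 h) (hother k hk)
          · exact h
      refine ⟨κ j, fun k => ?_⟩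
      by_cases hk : k = j
      · subst hk
        simp
      · rw [Pi.single_eq_of_ne hk]
        have h2 := congrFun hb k
        simp only [hlv k, Pi.zero_apply] at h2
        have h3 : ((lv g (x k) : ℝ) : ℂ) ≠ 0 := by
          exact_mod_cast hother k hk
        rw [(mul_eq_zero.1 h2).resolve_left h3]
        simp

end Pool.Agent.Lib.MP_0ae92b_ag.G26
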