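import Pool.Agent.Lib.MP_0ae92b_ag.G26.Pencil
import Pool.Agent.Lib.MP_0ae92b_ag.G26.Sqk
import Pool.Agent.Lib.MP_0ae92b_ag.G26.B4sq
import Pool.Agent.Lib.MP_0ae92b_ag.G26.B4i
import Pool.Agent.Lib.MP_0ae92b_ag.G26.B4ii
import Pool.Agent.Lib.MP_0ae92b_ag.G26.B4iii

set_option autoImplicit false

/-!
# Seven real points: `B(N)` has corank one for non-real `N`

`N = r + i s`, with `r`, `s` linearly independent real quadratics and no common zero among the `x_k`.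

PROOF.  `n = r + i s`, `n' = r - i s` (coefficientwise); the conjugates `ā, b̄` are independent kernel vectors of `BN (xc x) n'`.
`q` from `cauchy_odd`.  Apply `pencil`:
(i) `r = c1 g1² + c2 g2²`, `s = c3 g1² + c4 g2²` real: `n = (c1 + i c3) g1² + (c2 + i c4) g2²`, `n' = (c1 - i c3) g1² + (c2 - i c4) g2²`,
`s1 t2 - s2 t1 = -2 i (c1 c4 - c2 c3) ≠ 0` as `r, s` are independent.  `sqkerR` for `g1` and `g2`, then `B4sq`, and since all
vectors are real, the real or the imaginary part of `(c1, c2)` gives real coefficients for `B4i`.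
(iii) `u = q/g` (`g(x_k) ≠ 0` because `wd g ḡ ≠ 0` and `x_k` is real), kernel property from `hker`; `B4sq` with `g1 = g`, `g2 = ḡ`, `u2 = ū`, `ε = 1`, then `B4iii`.
(ii) `g(x_k) ≠ 0` since a zero would be a common zero of `r` and `s`; `B4ii`.
-/

namespace Pool.Agent.Lib.MP_0ae92b_ag.G26

variable {ι : Type} [Fintype ι] [DecidableEq ι]

omit [Fintype ι] [DecidableEq ι] in
private theorem B4_det {K V : Type} [Field K] [AddCommGroup V] [Module K V] {r s e f : V}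
    {c1 c2 c3 c4 : K} (h : LinearIndependent K ![r, s]) (hr : r = c1 • e + c2 • f)
    (hs : s = c3 • e + c4 • f) : c1 * c4 - c2 * c3 ≠ 0 := by
  intro h0
  rw [LinearIndependent.pair_iff] at h
  have e1 := h c4 (-c2) (by
    rw [hr, hs]
    have h1 : c4 • (c1 • e + c2 • f) + -c2 • (c3 • e + c4 • f) =
        (c1 * c4 - c2 * c3) • e := by
      module
    rw [h1, h0, zero_smul])
  have e2 := h c3 (-c1) (by
    rw [hr, hs]
    have h1 : c3 • (c1 • e + c2 • f) + -c1 • (c3 • e + c4 • f) =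
        (-(c1 * c4 - c2 * c3)) • f := by
      module
    rw [h1, h0, neg_zero, zero_smul])
  have h3 : r = 0 := by
    rw [hr, neg_eq_zero.1 e1.2, neg_eq_zero.1 e2.2, zero_smul, zero_smul, add_zero]
  have h4 := h 1 0 (by rw [h3, smul_zero, zero_smul, add_zero])
  exact one_ne_zero h4.1

omit [DecidableEq ι] in
private theorem B4_cau (x b : ι → ℝ) (k : ι) :
    Cau (xc x) (fun l => (b l : ℂ)) k = ((Cau x b k : ℝ) : ℂ) := by
  simp [Cau, xc]

omit [DecidableEq ι] [Fintype ι] in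
private theorem B4_lv (x : ι → ℝ) (g : ℝ × ℝ) (k : ι) :
    lv ((g.1 : ℂ), (g.2 : ℂ)) (xc x k) = ((lv g (x k) : ℝ) : ℂ) := by
  simp [lv, xc]

omit [DecidableEq ι] in
private theorem B4_BN_conj (x : ι → ℝ) (r s : ℝ × ℝ × ℝ) (a : ι → ℂ) (k : ι) :
    BN (xc x) ((r.1 : ℂ) - Complex.I * s.1, (r.2.1 : ℂ) - Complex.I * s.2.1,
      (r.2.2 : ℂ) - Complex.I * s.2.2) (fun l => (starRingEnd ℂ) (a l)) k =
    (starRingEnd ℂ) (BN (xc x) ((r.1 : ℂ) + Complex.I * s.1, (r.2.1 : ℂ) + Complex.I * s.2.1,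
      (r.2.2 : ℂ) + Complex.I * s.2.2) a k) := by
  simp only [BN, map_sum, map_mul, map_inv₀, map_sub, map_add, map_div₀, xc, Complex.conj_ofReal,
    Complex.conj_I, map_ofNat]
  refine Finset.sum_congr rfl fun l _ => ?_
  ring

omit [Fintype ι] [DecidableEq ι] in
private theorem B4_indep {a b : ι → ℂ} (hab : LinearIndependent ℂ ![a, b]) :
    LinearIndependent ℂ ![fun l => (starRingEnd ℂ) (a l), fun l => (starRingEnd ℂ) (b l)] := by
  rw [LinearIndependent.pair_iff] at hab ⊢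
  intro s t hst
  have h1 := hab ((starRingEnd ℂ) s) ((starRingEnd ℂ) t) (by
    funext l
    have h2 := congrArg (starRingEnd ℂ) (congrFun hst l)
    simpa using h2)
  simpa using h1

omit [Fintype ι] [DecidableEq ι] in
private theorem B4_complexify {r s : ℝ × ℝ × ℝ} (hrs : LinearIndependent ℝ ![r, s]) :
    LinearIndependent ℂ ![(((r.1 : ℂ), (r.2.1 : ℂ), (r.2.2 : ℂ)) : ℂ × ℂ × ℂ),
      (((s.1 : ℂ), (s.2.1 : ℂ), (s.2.2 : ℂ)) : ℂ × ℂ × ℂ)] := by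
  rw [LinearIndependent.pair_iff] at hrs ⊢
  intro α β h
  have h1 : α * (r.1 : ℂ) + β * (s.1 : ℂ) = 0 := congrArg Prod.fst h
  have h2 : α * (r.2.1 : ℂ) + β * (s.2.1 : ℂ) = 0 := congrArg (fun z => z.2.1) h
  have h3 : α * (r.2.2 : ℂ) + β * (s.2.2 : ℂ) = 0 := congrArg (fun z => z.2.2) h
  have hre : ∀ (p q : ℝ), α * (p : ℂ) + β * (q : ℂ) = 0 → α.re * p + β.re * q = 0 := by
    intro p q h
    have := congrArg Complex.re h
    simpa using this
  have him : ∀ (p q : ℝ), α * (p : ℂ) + β * (q : ℂ) = 0 → α.im * p + β.im * q = 0 := by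
    intro p q h
    have := congrArg Complex.im h
    simpa using this
  have e1 := hrs α.re β.re (by
    refine Prod.ext (hre _ _ h1) (Prod.ext (hre _ _ h2) (hre _ _ h3)))
  have e2 := hrs α.im β.im (by
    refine Prod.ext (him _ _ h1) (Prod.ext (him _ _ h2) (him _ _ h3)))
  exact ⟨Complex.ext e1.1 e2.1, Complex.ext e1.2 e2.2⟩

omit [Fintype ι] [DecidableEq ι] in
private theorem B4_comb {K : Type} [Field K] (i : K) {R S e f : K × K × K} {c1 c2 c3 c4 : K}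
    (hr : R = c1 • e + c2 • f) (hs : S = c3 • e + c4 • f) :
    R + i • S = (c1 + i * c3) • e + (c2 + i * c4) • f := by
  rw [hr, hs]
  module

omit [Fintype ι] [DecidableEq ι] in
private theorem B4_lv_wd {K : Type} [Field K] {g m : K × K} {z : K} (h1 : lv g z = 0)
    (h2 : lv m z = 0) : wd g m = 0 := by
  simp only [lv, wd] at *
  have e1 : g.2 = -(g.1 * z) := by linear_combination h1
  have e2 : m.2 = -(m.1 * z) := by linear_combination h2
  rw [e1, e2]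
  ring

omit [Fintype ι] [DecidableEq ι] in
private theorem B4_cast {r e f : ℝ × ℝ × ℝ} {c1 c2 : ℝ} (h : r = c1 • e + c2 • f) :
    (((r.1 : ℂ), (r.2.1 : ℂ), (r.2.2 : ℂ)) : ℂ × ℂ × ℂ) =
      (c1 : ℂ) • (((e.1 : ℂ), (e.2.1 : ℂ), (e.2.2 : ℂ)) : ℂ × ℂ × ℂ) +
      (c2 : ℂ) • (((f.1 : ℂ), (f.2.1 : ℂ), (f.2.2 : ℂ)) : ℂ × ℂ × ℂ) := by
  rw [h]
  refine Prod.ext ?_ (Prod.ext ?_ ?_) <;> simp

omit [Fintype ι] [DecidableEq ι] in
private theorem B4_lm_cast (g m : ℝ × ℝ) :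
    ((((lm g m).1 : ℂ), ((lm g m).2.1 : ℂ), ((lm g m).2.2 : ℂ)) : ℂ × ℂ × ℂ) =
      lm ((g.1 : ℂ), (g.2 : ℂ)) ((m.1 : ℂ), (m.2 : ℂ)) := by
  simp [lm]

theorem B4 (hι : Fintype.card ι = 7) (x : ι → ℝ) (hx : Function.Injective x)
    (r s : ℝ × ℝ × ℝ) (hrs : LinearIndependent ℝ ![r, s])
    (hN : ∀ k, qv r (x k) ≠ 0 ∨ qv s (x k) ≠ 0) (n : ℂ × ℂ × ℂ)
    (hn : n = ((r.1 : ℂ) + Complex.I * s.1, (r.2.1 : ℂ) + Complex.I * s.2.1,
      (r.2.2 : ℂ) + Complex.I * s.2.2))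
    (a b : ι → ℂ) (hab : LinearIndependent ℂ ![a, b]) (ha : ∀ k, BN (xc x) n a k = 0)
    (hb : ∀ k, BN (xc x) n b k = 0) : False := by
  have hodd : Odd (Fintype.card ι) := by
    rw [hι]
    exact ⟨3, rfl⟩
  have hX : Function.Injective (xc x) := fun i j h => hx (by simpa [xc] using h)
  obtain ⟨q, hqC, hq, hker⟩ := cauchy_odd x hx hodd
  have hq0 : ∀ k, q k ≠ 0 := fun k h => by
    have := hq k
    rw [h, zero_mul] at this
    exact lt_irrefl _ this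
  have hqc0 : ∀ k, ((q k : ℝ) : ℂ) ≠ 0 := fun k => by exact_mod_cast hq0 k
  have hqCc : ∀ k, Cau (xc x) (fun k => (q k : ℂ)) k = 0 := by
    intro k
    rw [B4_cau, hqC k, Complex.ofReal_zero]
  obtain ⟨R, hR⟩ : ∃ R : ℂ × ℂ × ℂ, R = ((r.1 : ℂ), (r.2.1 : ℂ), (r.2.2 : ℂ)) := ⟨_, rfl⟩
  obtain ⟨S, hS⟩ : ∃ S : ℂ × ℂ × ℂ, S = ((s.1 : ℂ), (s.2.1 : ℂ), (s.2.2 : ℂ)) := ⟨_, rfl⟩
  have hRS : LinearIndependent ℂ ![R, S] := by
    rw [hR, hS]
    exact B4_complexify hrs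
  have hn1 : n = R + Complex.I • S := by
    rw [hn, hR, hS]
    rfl
  obtain ⟨n', hn'⟩ : ∃ n' : ℂ × ℂ × ℂ, n' = R + (-Complex.I) • S := ⟨_, rfl⟩
  have hn'' : n' = ((r.1 : ℂ) - Complex.I * s.1, (r.2.1 : ℂ) - Complex.I * s.2.1,
      (r.2.2 : ℂ) - Complex.I * s.2.2) := by
    rw [hn', hR, hS]
    refine Prod.ext ?_ (Prod.ext ?_ ?_)
    · show (r.1 : ℂ) + -Complex.I * (s.1 : ℂ) = _
      ring
    · show (r.2.1 : ℂ) + -Complex.I * (s.2.1 : ℂ) = _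
      ring
    · show (r.2.2 : ℂ) + -Complex.I * (s.2.2 : ℂ) = _
      ring
  have hab' := B4_indep hab
  have ha' : ∀ k, BN (xc x) n' (fun l => (starRingEnd ℂ) (a l)) k = 0 := by
    intro k
    rw [hn'', B4_BN_conj, ← hn, ha k, map_zero]
  have hb' : ∀ k, BN (xc x) n' (fun l => (starRingEnd ℂ) (b l)) k = 0 := by
    intro k
    rw [hn'', B4_BN_conj, ← hn, hb k, map_zero]
  have hst : ∀ c1 c2 c3 c4 : ℂ, c1 * c4 - c2 * c3 ≠ 0 →
      (c1 + Complex.I * c3) * (c2 + -Complex.I * c4) -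
        (c2 + Complex.I * c4) * (c1 + -Complex.I * c3) ≠ 0 := by
    intro c1 c2 c3 c4 h h0
    apply h
    have h1 : (c1 + Complex.I * c3) * (c2 + -Complex.I * c4) -
        (c2 + Complex.I * c4) * (c1 + -Complex.I * c3) =
        -2 * Complex.I * (c1 * c4 - c2 * c3) := by ring
    rw [h1] at h0
    rcases mul_eq_zero.1 h0 with h2 | h2
    · exact absurd h2 (mul_ne_zero (by norm_num) Complex.I_ne_zero)
    · exact h2
  rcases pencil r s hrs with ⟨g1, g2, hw, ⟨c1, c2, h1⟩, ⟨c3, c4, h2⟩⟩ |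
    ⟨g, hw, ⟨c1, c2, h1⟩, ⟨c3, c4, h2⟩⟩ | ⟨g, m, hw, ⟨c1, c2, h1⟩, ⟨c3, c4, h2⟩⟩
  · -- two real squares
    have hg1 : g1 ≠ 0 := by
      rintro rfl
      apply hw
      simp [wd]
    have hg2 : g2 ≠ 0 := by
      rintro rfl
      apply hw
      simp [wd]
    have hwc : wd ((g1.1 : ℂ), (g1.2 : ℂ)) ((g2.1 : ℂ), (g2.2 : ℂ)) ≠ 0 := by
      have h3 : wd ((g1.1 : ℂ), (g1.2 : ℂ)) ((g2.1 : ℂ), (g2.2 : ℂ)) =
          ((wd g1 g2 : ℝ) : ℂ) := by
        simp [wd]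
      rw [h3]
      exact_mod_cast hw
    have e1 : R = (c1 : ℂ) • lm ((g1.1 : ℂ), (g1.2 : ℂ)) ((g1.1 : ℂ), (g1.2 : ℂ)) +
        (c2 : ℂ) • lm ((g2.1 : ℂ), (g2.2 : ℂ)) ((g2.1 : ℂ), (g2.2 : ℂ)) := by
      rw [hR, B4_cast h1, B4_lm_cast, B4_lm_cast]
    have e2 : S = (c3 : ℂ) • lm ((g1.1 : ℂ), (g1.2 : ℂ)) ((g1.1 : ℂ), (g1.2 : ℂ)) +
        (c4 : ℂ) • lm ((g2.1 : ℂ), (g2.2 : ℂ)) ((g2.1 : ℂ), (g2.2 : ℂ)) := by
      rw [hS, B4_cast h2, B4_lm_cast, B4_lm_cast]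
    obtain ⟨u1, ε1, hu1, hε1, hv1, hk1⟩ := sqkerR x hx hodd q hq0 hker g1 hg1
    obtain ⟨u2, ε2, hu2, hε2, hv2, hk2⟩ := sqkerR x hx hodd q hq0 hker g2 hg2
    have hcast : ∀ (u : ι → ℝ), u ≠ 0 → (fun k => ((u k : ℝ) : ℂ)) ≠ 0 := by
      intro u hu h
      apply hu
      funext k
      have := congrFun h k
      simpa using this
    have hv1' : ∀ k, lv ((g1.1 : ℂ), (g1.2 : ℂ)) (xc x k) * ((u1 k : ℝ) : ℂ) =
        (ε1 : ℂ) * ((q k : ℝ) : ℂ) := by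
      intro k
      rw [B4_lv]
      exact_mod_cast hv1 k
    have hv2' : ∀ k, lv ((g2.1 : ℂ), (g2.2 : ℂ)) (xc x k) * ((u2 k : ℝ) : ℂ) =
        (ε2 : ℂ) * ((q k : ℝ) : ℂ) := by
      intro k
      rw [B4_lv]
      exact_mod_cast hv2 k
    obtain ⟨d1, d2, hd, hrel⟩ := B4sq hι (xc x) hX (fun k => (q k : ℂ)) hqc0 hqCc
      ((g1.1 : ℂ), (g1.2 : ℂ)) ((g2.1 : ℂ), (g2.2 : ℂ)) hwc (fun k => ((u1 k : ℝ) : ℂ))
      (fun k => ((u2 k : ℝ) : ℂ)) ε1 ε2 (hcast u1 hu1) (hcast u2 hu2) hv1' hv2' hk1 hk2 n n' _ _ _ _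
      (by rw [hn1]; exact B4_comb Complex.I e1 e2) (by rw [hn']; exact B4_comb (-Complex.I) e1 e2)
      (hst _ _ _ _ (B4_det hRS e1 e2)) a b _ _ hab hab' ha hb ha' hb'
    have hrel' : ∀ k, d1 * ((lv g2 (x k) * Cau x (fun l => lv g2 (x l) * u1 l) k : ℝ) : ℂ) +
        d2 * ((lv g1 (x k) * Cau x (fun l => lv g1 (x l) * u2 l) k : ℝ) : ℂ) = 0 := by
      intro k
      have h3 := hrel k
      have h4 : ∀ (g : ℝ × ℝ) (u : ι → ℝ), lv ((g.1 : ℂ), (g.2 : ℂ)) (xc x k) *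
          Cau (xc x) (fun l => lv ((g.1 : ℂ), (g.2 : ℂ)) (xc x l) * ((u l : ℝ) : ℂ)) k =
          ((lv g (x k) * Cau x (fun l => lv g (x l) * u l) k : ℝ) : ℂ) := by
        intro g u
        have h5 : (fun l => lv ((g.1 : ℂ), (g.2 : ℂ)) (xc x l) * ((u l : ℝ) : ℂ)) =
            fun l => ((lv g (x l) * u l : ℝ) : ℂ) := by
          funext l
          rw [B4_lv, Complex.ofReal_mul]
        rw [h5, B4_cau, B4_lv, Complex.ofReal_mul]
      rw [h4, h4] at h3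
      exact h3
    have hcase : (d1.re ≠ 0 ∨ d2.re ≠ 0) ∨ (d1.im ≠ 0 ∨ d2.im ≠ 0) := by
      by_contra hc
      push Not at hc
      rcases hd with hd | hd
      · exact hd (Complex.ext hc.1.1 hc.2.1)
      · exact hd (Complex.ext hc.1.2 hc.2.2)
    rcases hcase with hc | hc
    · refine B4i hι x hx q hqC hq g1 g2 hw u1 u2 ε1 ε2 hε1 hε2 hv1 hv2 d1.re d2.re hc ?_
      intro k
      have := congrArg Complex.re (hrel' k)
      simpa using this
    · refine B4i hι x hx q hqC hq g1 g2 hw u1 u2 ε1 ε2 hε1 hε2 hv1 hv2 d1.im d2.im hc ?_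
      intro k
      have := congrArg Complex.im (hrel' k)
      simpa using this
  · -- two conjugate squares
    have hlvc : ∀ k, lv ((starRingEnd ℂ) g.1, (starRingEnd ℂ) g.2) (xc x k) =
        (starRingEnd ℂ) (lv g (xc x k)) := by
      intro k
      simp [lv, xc]
    have hg0 : ∀ k, lv g (xc x k) ≠ 0 := by
      intro k h0
      apply hw
      refine B4_lv_wd h0 ?_
      rw [hlvc, h0, map_zero]
    have hgc0 : ∀ k, lv ((starRingEnd ℂ) g.1, (starRingEnd ℂ) g.2) (xc x k) ≠ 0 := by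
      intro k
      rw [hlvc]
      exact fun h => hg0 k ((map_eq_zero _).1 h)
    rw [← hR] at h1
    rw [← hS] at h2
    have hne : Nonempty ι := Fintype.card_pos_iff.1 (by omega)
    obtain ⟨k0⟩ := hne
    obtain ⟨u, hu⟩ : ∃ u : ι → ℂ, u = fun k => (q k : ℂ) / lv g (xc x k) := ⟨_, rfl⟩
    have hgu : ∀ k, lv g (xc x k) * u k = (q k : ℂ) := by
      intro k
      rw [hu]
      simp only
      rw [mul_div_cancel₀ _ (hg0 k)]
    have hgu' : ∀ k, lv ((starRingEnd ℂ) g.1, (starRingEnd ℂ) g.2) (xc x k) *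
        (starRingEnd ℂ) (u k) = (q k : ℂ) := by
      intro k
      rw [hlvc, ← map_mul, hgu, Complex.conj_ofReal]
    have hu0 : u ≠ 0 := by
      intro h
      have h3 := hgu k0
      rw [h, Pi.zero_apply, mul_zero] at h3
      exact hqc0 k0 h3.symm
    have hu0' : (fun k => (starRingEnd ℂ) (u k)) ≠ 0 := by
      intro h
      have h3 := hgu' k0
      have h4 : (starRingEnd ℂ) (u k0) = 0 := congrFun h k0
      rw [h4, mul_zero] at h3
      exact hqc0 k0 h3.symm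
    have hk1 : ∀ κ : ι → ℂ, (∀ k, lv g (xc x k) * Cau (xc x) (fun l => lv g (xc x l) * κ l) k = 0) →
        ∃ c : ℂ, ∀ k, κ k = c * u k := by
      intro κ hκ
      obtain ⟨c, hc⟩ := hker (fun l => lv g (xc x l) * κ l)
        (fun k => (mul_eq_zero.1 (hκ k)).resolve_left (hg0 k))
      refine ⟨c, fun k => mul_left_cancel₀ (hg0 k) ?_⟩
      have h3 := hc k
      rw [h3, ← hgu k]
      ring
    have hk2 : ∀ κ : ι → ℂ, (∀ k, lv ((starRingEnd ℂ) g.1, (starRingEnd ℂ) g.2) (xc x k) *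
        Cau (xc x) (fun l => lv ((starRingEnd ℂ) g.1, (starRingEnd ℂ) g.2) (xc x l) * κ l) k = 0) →
        ∃ c : ℂ, ∀ k, κ k = c * (starRingEnd ℂ) (u k) := by
      intro κ hκ
      obtain ⟨c, hc⟩ := hker
        (fun l => lv ((starRingEnd ℂ) g.1, (starRingEnd ℂ) g.2) (xc x l) * κ l)
        (fun k => (mul_eq_zero.1 (hκ k)).resolve_left (hgc0 k))
      refine ⟨c, fun k => mul_left_cancel₀ (hgc0 k) ?_⟩
      have h3 := hc k
      rw [h3, ← hgu' k]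
      ring
    obtain ⟨d1, d2, hd, hrel⟩ := B4sq hι (xc x) hX (fun k => (q k : ℂ)) hqc0 hqCc
      g ((starRingEnd ℂ) g.1, (starRingEnd ℂ) g.2) hw u (fun k => (starRingEnd ℂ) (u k)) 1 1
      hu0 hu0' (fun k => by rw [hgu k, one_mul]) (fun k => by rw [hgu' k, one_mul]) hk1 hk2 n n'
      _ _ _ _ (by rw [hn1]; exact B4_comb Complex.I h1 h2)
      (by rw [hn']; exact B4_comb (-Complex.I) h1 h2)
      (hst _ _ _ _ (B4_det hRS h1 h2)) a b _ _ hab hab' ha hb ha' hb'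
    exact B4iii hι x hx q hqC hq g hw u hgu d1 d2 hd hrel
  · -- tangent pencil
    have hqv : ∀ (g m : ℝ × ℝ) (z : ℝ), qv (lm g m) z = lv g z * lv m z := by
      intro g m z
      simp only [qv, lm, lv]
      ring
    have hqv2 : ∀ (c d : ℝ) (e f : ℝ × ℝ × ℝ) (z : ℝ),
        qv (c • e + d • f) z = c * qv e z + d * qv f z := by
      intro c d e f z
      simp only [qv, Prod.fst_add, Prod.snd_add, Prod.smul_fst, Prod.smul_snd, smul_eq_mul]
      ring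
    have hg : ∀ k, lv g (x k) ≠ 0 := by
      intro k h0
      rcases hN k with h3 | h3
      · apply h3
        rw [h1, hqv2, hqv, hqv, h0]
        ring
      · apply h3
        rw [h2, hqv2, hqv, hqv, h0]
        ring
    have e1 : R = (c1 : ℂ) • lm ((g.1 : ℂ), (g.2 : ℂ)) ((g.1 : ℂ), (g.2 : ℂ)) +
        (c2 : ℂ) • lm ((g.1 : ℂ), (g.2 : ℂ)) ((m.1 : ℂ), (m.2 : ℂ)) := by
      rw [hR, B4_cast h1, B4_lm_cast, B4_lm_cast]
    have e2 : S = (c3 : ℂ) • lm ((g.1 : ℂ), (g.2 : ℂ)) ((g.1 : ℂ), (g.2 : ℂ)) +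
        (c4 : ℂ) • lm ((g.1 : ℂ), (g.2 : ℂ)) ((m.1 : ℂ), (m.2 : ℂ)) := by
      rw [hS, B4_cast h2, B4_lm_cast, B4_lm_cast]
    exact B4ii hι x hx q hqC hq hker g m hw hg n n' _ _ _ _
      (by rw [hn1]; exact B4_comb Complex.I e1 e2)
      (by rw [hn']; exact B4_comb (-Complex.I) e1 e2)
      (hst _ _ _ _ (B4_det hRS e1 e2)) a b _ _ hab hab' ha hb ha' hb'

end Pool.Agent.Lib.MP_0ae92b_ag.G26
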