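import Pool.Agent.Lib.MP_0ae92b_ag.G26.Vec

set_option autoImplicit false

/-!
# Elementary identities for the Cauchy matrix and the matrices `B(N)`
-/

namespace Pool.Agent.Lib.MP_0ae92b_ag.G26

open Polynomial

variable {ι : Type} [Fintype ι] {K : Type} [Field K]

/-- The Cauchy matrix is antisymmetric. -/
theorem Cau_skew (x a b : ι → K) : ∑ k, a k * Cau x b k = -∑ k, Cau x a k * b k := by
  simp only [Cau, Finset.mul_sum, Finset.sum_mul]
  rw [Finset.sum_comm, ← Finset.sum_neg_distrib]
  refine Finset.sum_congr rfl fun k _ => ?_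
  rw [← Finset.sum_neg_distrib]
  refine Finset.sum_congr rfl fun l _ => ?_
  rw [show x l - x k = -(x k - x l) by ring, inv_neg]
  ring

/-- `g C m - m C g = (g ∧ m) (J - 1)`. -/
theorem Cau_comm [DecidableEq ι] (x : ι → K) (hx : Function.Injective x) (g m : K × K) (b : ι → K)
    (k : ι) :
    lv g (x k) * Cau x (fun l => lv m (x l) * b l) k -
      lv m (x k) * Cau x (fun l => lv g (x l) * b l) k = wd g m * (∑ l, b l - b k) := by
  have e1 : ∑ l, b l - b k = ∑ l ∈ Finset.univ.erase k, b l := by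
    rw [← Finset.add_sum_erase _ _ (Finset.mem_univ k)]; ring
  simp only [Cau, Finset.mul_sum]
  rw [e1, ← Finset.sum_sub_distrib, ← Finset.add_sum_erase _ _ (Finset.mem_univ k), Finset.mul_sum]
  simp only [sub_self, inv_zero, zero_mul, mul_zero, zero_add]
  refine Finset.sum_congr rfl fun l hl => ?_
  have hne : x k - x l ≠ 0 := sub_ne_zero.2 (hx.ne (Finset.ne_of_mem_erase hl).symm)
  field_simp
  simp only [lv, wd]
  ring

theorem BN_add (x : ι → K) (n n' : K × K × K) (b : ι → K) (k : ι) :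
    BN x (n + n') b k = BN x n b k + BN x n' b k := by
  simp only [BN, ← Finset.sum_add_distrib]
  refine Finset.sum_congr rfl fun l _ => ?_
  simp only [Prod.fst_add, Prod.snd_add]
  ring

theorem BN_smul (x : ι → K) (c : K) (n : K × K × K) (b : ι → K) (k : ι) :
    BN x (c • n) b k = c * BN x n b k := by
  simp only [BN, Finset.mul_sum]
  refine Finset.sum_congr rfl fun l _ => ?_
  simp only [Prod.smul_fst, Prod.smul_snd, smul_eq_mul]
  ring

/-- `B(g m) = (g C m + m C g) / 2`. -/
theorem BN_lm (h2 : (2 : K) ≠ 0) (x : ι → K) (g m : K × K) (b : ι → K) (k : ι) :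
    BN x (lm g m) b k = (lv g (x k) * Cau x (fun l => lv m (x l) * b l) k +
      lv m (x k) * Cau x (fun l => lv g (x l) * b l) k) / 2 := by
  rw [eq_div_iff h2]
  simp only [BN, Cau, Finset.mul_sum, Finset.sum_mul, ← Finset.sum_add_distrib]
  refine Finset.sum_congr rfl fun l _ => ?_
  simp only [lm, lv]
  field_simp
  ring

/-- `B(g²) = g C g`. -/
theorem BN_sq (h2 : (2 : K) ≠ 0) (x : ι → K) (g : K × K) (b : ι → K) (k : ι) :
    BN x (lm g g) b k = lv g (x k) * Cau x (fun l => lv g (x l) * b l) k := by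
  rw [BN_lm h2]
  field_simp
  ring

/-- `N(x_k) (C b)_k + N'(x_k) b_k / 2 = (B(N) b)_k` when `∑ b = 0`. -/
theorem BN_eq [DecidableEq ι] (h2 : (2 : K) ≠ 0) (x : ι → K) (hx : Function.Injective x)
    (n : K × K × K) (b : ι → K) (hb : ∑ l, b l = 0) (k : ι) :
    BN x n b k = qv n (x k) * Cau x b k + qd n (x k) / 2 * b k := by
  have e1 : b k = -∑ l ∈ Finset.univ.erase k, b l := by
    have := Finset.add_sum_erase Finset.univ b (Finset.mem_univ k)
    rw [hb] at this
    linear_combination this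
  rw [BN, Cau, e1, ← Finset.add_sum_erase _ _ (Finset.mem_univ k),
    ← Finset.add_sum_erase Finset.univ (fun l => (x k - x l)⁻¹ * b l) (Finset.mem_univ k)]
  simp only [sub_self, inv_zero, mul_zero, zero_mul, zero_add, Finset.mul_sum,
    ← Finset.sum_neg_distrib, ← Finset.sum_add_distrib]
  refine Finset.sum_congr rfl fun l hl => ?_
  have hne : x k - x l ≠ 0 := sub_ne_zero.2 (hx.ne (Finset.ne_of_mem_erase hl).symm)
  simp only [qv, qd]
  field_simp
  ring

end Pool.Agent.Lib.MP_0ae92b_ag.G26
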