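import Pool.Agent.Lib.MP_0ae92b_ag.G26.Pol

set_option autoImplicit false

/-!
# From polynomials to vectors: `b_k = h(x_k)/D'(x_k)`

PROOF.  `h = ∑_l b_l ∏_{j≠l}(X - x_j)` by Lagrange interpolation (`deg h < card ι`), `b_l = h(x_l)/D'(x_l)`.  Differentiate at `x_k`: the term `l = k` gives
`b_k D'(x_k) ∑_{j≠k} 1/(x_k - x_j) = b_k D'(x_k) S_k` and the term `l ≠ k` gives `b_l ∏_{j≠k,l}(x_k - x_j) = b_l D'(x_k)/(x_k - x_l)`.
So `h'(x_k) = D'(x_k) (S_k b_k + (C b)_k)`.
-/

namespace Pool.Agent.Lib.MP_0ae92b_ag.G26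

open Polynomial

variable {ι : Type} [Fintype ι] [DecidableEq ι]

theorem Conv_der_self {K : Type} [Field K] (x : ι → K) (hx : Function.Injective x) (k : ι) :
    (derivative (∏ j ∈ Finset.univ.erase k, (X - C (x j)))).eval (x k) = Dp x k * Sg x k := by
  rw [derivative_prod_finset, eval_finsetSum, Dp, Sg, Finset.mul_sum,
    ← Finset.sum_erase_add _ _ (Finset.mem_univ k), sub_self, inv_zero, mul_zero, add_zero]
  refine Finset.sum_congr rfl fun i hi => ?_
  have hne : x k - x i ≠ 0 := sub_ne_zero.mpr (hx.ne (Finset.ne_of_mem_erase hi).symm)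
  rw [derivative_X_sub_C, mul_one, eval_prod, ← Finset.mul_prod_erase _ _ hi]
  simp only [eval_sub, eval_X, eval_C]
  field_simp

private theorem der_other {K : Type} [Field K] (x : ι → K) (hx : Function.Injective x) (k l : ι)
    (hkl : k ≠ l) :
    (derivative (∏ j ∈ Finset.univ.erase l, (X - C (x j)))).eval (x k) =
      Dp x k * (x k - x l)⁻¹ := by
  have hne : x k - x l ≠ 0 := sub_ne_zero.mpr (hx.ne hkl)
  have h1 : k ∈ Finset.univ.erase l := Finset.mem_erase.mpr ⟨hkl, Finset.mem_univ _⟩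
  have h2 : l ∈ Finset.univ.erase k := Finset.mem_erase.mpr ⟨hkl.symm, Finset.mem_univ _⟩
  rw [← Finset.mul_prod_erase _ _ h1, derivative_mul, derivative_X_sub_C, eval_add, eval_mul,
    eval_mul, Dp, ← Finset.mul_prod_erase _ _ h2, Finset.erase_right_comm, eval_prod]
  simp only [eval_sub, eval_X, eval_C, sub_self, zero_mul, add_zero, eval_one, one_mul]
  field_simp

theorem conv_Cau {K : Type} [Field K] (x : ι → K) (hx : Function.Injective x) (h : K[X])
    (hdeg : h.natDegree < Fintype.card ι) (k : ι) :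
    Cau x (fun l => h.eval (x l) * (Dp x l)⁻¹) k =
      ((derivative h).eval (x k) - Sg x k * h.eval (x k)) * (Dp x k)⁻¹ := by
  classical
  have hDp : ∀ k, Dp x k ≠ 0 := by
    intro k
    refine Finset.prod_ne_zero_iff.mpr fun l hl => ?_
    exact sub_ne_zero.mpr (hx.ne (Finset.ne_of_mem_erase hl).symm)
  obtain ⟨b, hb⟩ : ∃ b : ι → K, b = fun l => h.eval (x l) * (Dp x l)⁻¹ := ⟨_, rfl⟩
  have hlag : h = ∑ l, C (b l) * ∏ j ∈ Finset.univ.erase l, (X - C (x j)) := by
    have hcard : 0 < Fintype.card ι := Fintype.card_pos_iff.mpr ⟨k⟩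
    have hdegP : (h - ∑ l, C (b l) * ∏ j ∈ Finset.univ.erase l, (X - C (x j))).natDegree <
        Fintype.card ι := by
      refine lt_of_le_of_lt (natDegree_sub_le _ _) (max_lt hdeg ?_)
      refine lt_of_le_of_lt (natDegree_sum_le_of_forall_le Finset.univ _
        (n := Fintype.card ι - 1) fun l _ => ?_) (by omega)
      refine (natDegree_C_mul_le _ _).trans ?_
      rw [natDegree_prod_of_monic _ _ fun j _ => monic_X_sub_C _]
      simp only [natDegree_X_sub_C, Finset.sum_const, smul_eq_mul, mul_one]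
      rw [Finset.card_erase_of_mem (Finset.mem_univ l)]
      rfl
    have := eq_zero_of_natDegree_lt_card_of_eval_eq_zero _ hx (fun i => ?_) hdegP
    · exact sub_eq_zero.mp this
    · rw [eval_sub, eval_finsetSum, Finset.sum_eq_single i]
      · rw [eval_mul, eval_C, eval_prod]
        simp only [eval_sub, eval_X, eval_C]
        rw [hb]
        show h.eval (x i) - h.eval (x i) * (Dp x i)⁻¹ * Dp x i = 0
        rw [mul_assoc, inv_mul_cancel₀ (hDp i), mul_one, sub_self]
      · intro l _ hl
        rw [eval_mul, eval_prod, Finset.prod_eq_zero (i := i), mul_zero]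
        · exact Finset.mem_erase.mpr ⟨hl.symm, Finset.mem_univ _⟩
        · simp
      · intro hi; exact absurd (Finset.mem_univ i) hi
  have hder : (derivative h).eval (x k) = Dp x k * (Sg x k * b k + Cau x b k) := by
    rw [hlag, derivative_sum, eval_finsetSum, ← Finset.sum_erase_add _ _ (Finset.mem_univ k)]
    have e1 : (derivative (C (b k) * ∏ j ∈ Finset.univ.erase k, (X - C (x j)))).eval (x k) =
        b k * (Dp x k * Sg x k) := by
      rw [derivative_C_mul, eval_mul, eval_C, Conv_der_self x hx]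
    have e2 : ∀ l ∈ Finset.univ.erase k,
        (derivative (C (b l) * ∏ j ∈ Finset.univ.erase l, (X - C (x j)))).eval (x k) =
          Dp x k * ((x k - x l)⁻¹ * b l) := by
      intro l hl
      rw [derivative_C_mul, eval_mul, eval_C, der_other x hx k l (Finset.ne_of_mem_erase hl).symm]
      ring
    rw [Finset.sum_congr rfl e2, e1, ← Finset.mul_sum, Cau,
      ← Finset.sum_erase_add Finset.univ (fun l => (x k - x l)⁻¹ * b l) (Finset.mem_univ k)]
    simp only [sub_self, inv_zero, zero_mul, add_zero]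
    ring
  have hbk : b k * Dp x k = h.eval (x k) := by
    rw [hb]
    show h.eval (x k) * (Dp x k)⁻¹ * Dp x k = _
    rw [mul_assoc, inv_mul_cancel₀ (hDp k), mul_one]
  rw [← hb, eq_mul_inv_iff_mul_eq₀ (hDp k), hder, ← hbk]
  ring

end Pool.Agent.Lib.MP_0ae92b_ag.G26
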