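import Pool.Agent.Lib.MP_0ae92b_ag.G26.Cauchy
import Pool.Agent.Lib.MP_0ae92b_ag.G26.Conv
import Pool.Agent.Lib.MP_0ae92b_ag.G26.Lag
import Pool.Agent.Lib.MP_0ae92b_ag.G26.BNlem

set_option autoImplicit false

/-!
# `N` does not vanish at the points

PROOF.  Suppose `N(x_j) = 0`.  `Lrel` at `j` for `h = f` or `g` with `h(x_j) ≠ 0` gives `N'(x_j) = 0`, so `N = c (X - x_j)²`, `c ≠ 0` (degree at most `2`).
For `h` in the span of `f, g` let `b_k = h(x_k)/D'(x_k)`: by `conv_Cau` and `Lrel` (`k ≠ j`): `(x_k - x_j) (C b)_k + b_k = 0`, and `∑ b = 0` (`lagSum`).  Put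
`β_k = (x_k - x_j) b_k` (`β_j = 0`).  Then for `k ≠ j`: `(C β)_k = ∑_{l ≠ k} ((x_l - x_k) + (x_k - x_j)) b_l/(x_k - x_l) = -(∑ b - b_k) + (x_k - x_j)(C b)_k = 0`.
So the restriction of `β` to the points `≠ x_j` is a kernel vector of their Cauchy matrix.  Choose `i ≠ j` and `h ≠ 0` in the span with
`h(x_i) = 0`: then `β_i = 0`; real and imaginary part of `β` (restricted to `k ≠ j`) are real kernel vectors with a zero entry, so they vanish by
`cauchy_real` (all entries of a nonzero real kernel vector are nonzero).  So `b_k = 0` for `k ≠ j`, and `∑ b = 0` gives `b = 0`, so `h` vanishes at `card ι > deg h`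
points, contradiction.
-/

namespace Pool.Agent.Lib.MP_0ae92b_ag.G26

open Polynomial

variable {ι : Type} [Fintype ι] [DecidableEq ι]

omit [DecidableEq ι] in
private theorem lrel_comb (x : ι → ℝ) (N f g : ℂ[X]) (k : ι) (a b : ℂ) (hf : Lrel x N f k)
    (hg : Lrel x N g k) : Lrel x N (C a * f + C b * g) k := by
  unfold Lrel at *
  simp only [derivative_add, derivative_C_mul, eval_add, eval_mul, eval_C]
  linear_combination a * hf + b * hg

private theorem real_part_zero (x : ι → ℝ) (hx : Function.Injective x) (j i : ι) (hij : i ≠ j)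
    (β : ι → ℂ) (T : ℂ →+ ℝ) (hT : ∀ (r : ℝ) (z : ℂ), T ((r : ℂ) * z) = r * T z)
    (hj : β j = 0) (hi : β i = 0) (hC : ∀ k, k ≠ j → Cau (xc x) β k = 0) :
    ∀ k, T (β k) = 0 := by
  have hxs : Function.Injective (fun k : {k : ι // k ≠ j} => x k) := by
    intro a b h
    exact Subtype.ext (hx h)
  have hCr : ∀ k : {k : ι // k ≠ j},
      Cau (fun k : {k : ι // k ≠ j} => x k) (fun l => T (β l)) k = 0 := by
    intro k
    have h1 := congrArg T (hC k k.2)
    rw [map_zero, Cau, map_sum] at h1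
    rw [Cau, ← h1, ← Finset.sum_erase_add _ _ (Finset.mem_univ j), hj]
    rw [mul_zero, map_zero, add_zero]
    rw [← Finset.sum_subtype (Finset.univ.erase j) (p := fun l => l ≠ j) (by simp)
      (fun l => (x k - x l)⁻¹ * T (β l))]
    refine Finset.sum_congr rfl fun l _ => ?_
    rw [← hT]
    congr 2
    simp [xc]
  by_cases hb : (fun l : {k : ι // k ≠ j} => T (β l)) = 0
  · intro k
    by_cases hk : k = j
    · rw [hk, hj, map_zero]
    · exact congrFun hb ⟨k, hk⟩
  · exfalso
    have := (cauchy_real _ hxs _ hb hCr).2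
    have h0 : T (β i) = 0 := by rw [hi, map_zero]
    rcases this with h | h
    · have := h ⟨i, hij⟩
      simp only [h0, zero_mul, lt_self_iff_false] at this
    · have := h ⟨i, hij⟩
      simp only [h0, zero_mul, lt_self_iff_false] at this

theorem nonvan (x : ι → ℝ) (hx : Function.Injective x) (δ : ℕ) (hcard : 2 ≤ Fintype.card ι)
    (hδ2 : δ + 2 ≤ Fintype.card ι) (f g : ℂ[X])
    (hf : f.natDegree ≤ δ) (hg : g.natDegree ≤ δ) (hfg : Indep f g) (N : ℂ[X]) (hN : N ≠ 0)
    (hN2 : N.natDegree ≤ 2) (hnb : ∀ k, f.eval (xc x k) ≠ 0 ∨ g.eval (xc x k) ≠ 0)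
    (hLf : ∀ k, Lrel x N f k) (hLg : ∀ k, Lrel x N g k) : ∀ j, N.eval (xc x j) ≠ 0 := by
  classical
  intro j hNj
  have hxc : Function.Injective (xc x) := by
    intro i k h
    have h2 : ((x i : ℝ) : ℂ) = ((x k : ℝ) : ℂ) := h
    exact hx (by exact_mod_cast h2)
  -- N' vanishes at x_j
  have hN' : (derivative N).eval (xc x j) = 0 := by
    rcases hnb j with h | h
    · have h1 := hLf j
      unfold Lrel at h1
      rw [hNj] at h1
      simp only [zero_mul, mul_zero, add_zero] at h1
      rcases mul_eq_zero.mp h1 with h2 | h2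
      · exact h2
      · exact absurd h2 h
    · have h1 := hLg j
      unfold Lrel at h1
      rw [hNj] at h1
      simp only [zero_mul, mul_zero, add_zero] at h1
      rcases mul_eq_zero.mp h1 with h2 | h2
      · exact h2
      · exact absurd h2 h
  obtain ⟨c, hc0, hNc⟩ : ∃ c : ℂ, c ≠ 0 ∧ N = C c * (X - C (xc x j)) ^ 2 := by
    obtain ⟨M, hM⟩ : (X - C (xc x j)) ∣ N := dvd_iff_isRoot.mpr hNj
    have hM0 : (X - C (xc x j)) ∣ M := by
      rw [dvd_iff_isRoot]
      have : derivative N = M + (X - C (xc x j)) * derivative M := by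
        rw [hM, derivative_mul, derivative_X_sub_C, one_mul]
      rw [this] at hN'
      simpa using hN'
    obtain ⟨M2, hM2⟩ := hM0
    have hNM : N = (X - C (xc x j)) ^ 2 * M2 := by rw [hM, hM2]; ring
    have hM20 : M2 ≠ 0 := by
      rintro rfl
      exact hN (by rw [hNM, mul_zero])
    have hd : M2.natDegree = 0 := by
      rw [hNM, natDegree_mul (pow_ne_zero _ (X_sub_C_ne_zero _)) hM20, natDegree_pow,
        natDegree_X_sub_C] at hN2
      omega
    obtain ⟨c, hc⟩ := natDegree_eq_zero.mp hd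
    refine ⟨c, ?_, ?_⟩
    · rintro rfl
      exact hM20 (by rw [← hc, C_0])
    · rw [hNM, ← hc, mul_comm]
  obtain ⟨i, hij⟩ : ∃ i : ι, i ≠ j := by
    have : 1 < Fintype.card ι := by omega
    haveI : Nontrivial ι := Fintype.one_lt_card_iff_nontrivial.mp this
    exact exists_ne j
  -- the polynomial h
  obtain ⟨h, hh⟩ : ∃ h : ℂ[X], h = C (g.eval (xc x i)) * f + C (-f.eval (xc x i)) * g := ⟨_, rfl⟩
  have hh0 : h ≠ 0 := by
    intro h0
    rw [hh] at h0
    have := hfg _ _ h0
    rcases hnb i with h1 | h1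
    · exact h1 (neg_eq_zero.mp this.2)
    · exact h1 this.1
  have hhdeg : h.natDegree ≤ δ := by
    rw [hh]
    refine (natDegree_add_le _ _).trans (max_le ?_ ?_)
    · exact (natDegree_C_mul_le _ _).trans hf
    · exact (natDegree_C_mul_le _ _).trans hg
  have hhi : h.eval (xc x i) = 0 := by
    rw [hh]; simp only [eval_add, eval_mul, eval_C]; ring
  have hL : ∀ k, Lrel x N h k := by
    intro k
    rw [hh]
    exact lrel_comb x N f g k _ _ (hLf k) (hLg k)
  have hDp : ∀ k, Dp (xc x) k ≠ 0 := by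
    intro k
    refine Finset.prod_ne_zero_iff.mpr fun l hl => ?_
    exact sub_ne_zero.mpr (hxc.ne (Finset.ne_of_mem_erase hl).symm)
  obtain ⟨b, hb⟩ : ∃ b : ι → ℂ, b = fun l => h.eval (xc x l) * (Dp (xc x) l)⁻¹ := ⟨_, rfl⟩
  have hbsum : ∑ l, b l = 0 := by
    rw [hb]; exact lagSum (xc x) hxc h (by omega)
  have hCb : ∀ k, k ≠ j → (xc x k - xc x j) * Cau (xc x) b k + b k = 0 := by
    intro k hk
    have e1 : Cau (xc x) b k = ((derivative h).eval (xc x k) - Sg (xc x) k * h.eval (xc x k)) *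
        (Dp (xc x) k)⁻¹ := by
      rw [hb]; exact conv_Cau (xc x) hxc h (by omega) k
    have e2 := hL k
    have e3 : xc x k - xc x j ≠ 0 := sub_ne_zero.mpr (hxc.ne hk)
    unfold Lrel at e2
    rw [hNc] at e2
    have e4 : (derivative (C c * (X - C (xc x j)) ^ 2)).eval (xc x k) =
        2 * c * (xc x k - xc x j) := by
      simp [derivative_pow]
      ring
    have e5 : (C c * (X - C (xc x j)) ^ 2).eval (xc x k) = c * (xc x k - xc x j) ^ 2 := by
      simp
    rw [e4, e5] at e2
    have e6 : (2 * c * (xc x k - xc x j)) *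
        ((xc x k - xc x j) * ((derivative h).eval (xc x k) - Sg (xc x) k * h.eval (xc x k)) +
          h.eval (xc x k)) = 0 := by
      linear_combination e2
    have e7 := (mul_eq_zero.mp e6).resolve_left
      (mul_ne_zero (mul_ne_zero two_ne_zero hc0) e3)
    rw [e1]
    have e8 : b k = h.eval (xc x k) * (Dp (xc x) k)⁻¹ := by rw [hb]
    rw [e8]
    linear_combination (Dp (xc x) k)⁻¹ * e7
  obtain ⟨β, hβ⟩ : ∃ β : ι → ℂ, β = fun l => (xc x l - xc x j) * b l := ⟨_, rfl⟩
  have hβj : β j = 0 := by rw [hβ]; simp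
  have hβi : β i = 0 := by rw [hβ, hb]; simp [hhi]
  have hCβ : ∀ k, k ≠ j → Cau (xc x) β k = 0 := by
    intro k hk
    have e1 := Cau_comm (xc x) hxc ((1 : ℂ), -xc x j) ((0 : ℂ), (1 : ℂ)) b k
    simp only [lv, wd, one_mul, zero_mul, zero_add, mul_one, mul_zero, sub_zero, hbsum,
      zero_sub] at e1
    have e2 : (fun l => (xc x l + -xc x j) * b l) = β := by
      rw [hβ]; funext l; ring
    rw [e2] at e1
    have e3 := hCb k hk
    linear_combination e3 - e1
  have hre := real_part_zero x hx j i hij β Complex.reAddGroupHom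
    (fun r z => by simp) hβj hβi hCβ
  have him := real_part_zero x hx j i hij β Complex.imAddGroupHom
    (fun r z => by simp) hβj hβi hCβ
  have hβ0 : ∀ k, β k = 0 := fun k => Complex.ext (hre k) (him k)
  have hb0 : ∀ k, k ≠ j → b k = 0 := by
    intro k hk
    have e1 := hβ0 k
    rw [hβ] at e1
    exact (mul_eq_zero.mp e1).resolve_left (sub_ne_zero.mpr (hxc.ne hk))
  have hbj : b j = 0 := by
    rw [← Finset.sum_erase_add _ _ (Finset.mem_univ j)] at hbsum
    rwa [Finset.sum_eq_zero (fun k hk => hb0 k (Finset.ne_of_mem_erase hk)), zero_add] at hbsum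
  have hball : ∀ k, b k = 0 := by
    intro k
    by_cases hk : k = j
    · rw [hk]; exact hbj
    · exact hb0 k hk
  refine hh0 (eq_zero_of_natDegree_lt_card_of_eval_eq_zero h hxc (fun k => ?_) (by omega))
  have e1 := hball k
  rw [hb] at e1
  exact (mul_eq_zero.mp e1).resolve_right (inv_ne_zero (hDp k))

end Pool.Agent.Lib.MP_0ae92b_ag.G26
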