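import Pool.Agent.Lib.MP_0ae92b_ag.G26.B1
import Pool.Agent.Lib.MP_0ae92b_ag.G26.B3dim
import Pool.Agent.Lib.MP_0ae92b_ag.G26.Conv
import Pool.Agent.Lib.MP_0ae92b_ag.G26.Lag

set_option autoImplicit false

/-!
# Real `N`

PROOF.  For any `h1, h2` satisfying `Lrel` at `x_k` (where `N(x_k) ≠ 0`) we get `Wr h1 h2` vanishes at `x_k`.  `Lrel x N` is linear in `h` and, since `N` and the
points are real, it passes to the conjugate polynomial `h.map (starRingEnd ℂ)`.  So `B3dim` gives that the conjugates of `f` and `g` lie in the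
span `V` of `f, g`: `V` is stable under conjugation.
Fix `j`.  Choose `h ≠ 0` in `V` with `h(x_j) = 0` (`h = f(x_j) g - g(x_j) f`, or `h = f` if both values are `0`).  `Lrel` at `j` gives `h'(x_j) = 0`.
`h + h̄` and `(h - h̄)/i` have real coefficients, lie in `V`, vanish at `x_j`, and one of them is `≠ 0`: so there is a nonzero real polynomial `h0`
(map it from `ℝ[X]`) in `V` with `h0(x_j) = h0'(x_j) = 0`, `Lrel` at all `k`, of degree at most `δ ≤ card ι - 2`.
Put `b_k = h0(x_k)/D'(x_k)` (real).  `b ≠ 0` (otherwise `h0` has too many zeros), `b_j = 0`, `∑ b = 0` (`lagSum`), `Cau x b j = 0` and the relation at each `k` by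
`conv_Cau` and `Lrel` divided by `2 D'(x_k)`; `n = (N_2, N_1, N_0)` real parts of the coefficients.  So `B1` applies.
-/

namespace Pool.Agent.Lib.MP_0ae92b_ag.G26

open Polynomial

variable {ι : Type} [Fintype ι] [DecidableEq ι]

/-- A complex polynomial of degree at most `δ` splits in real and imaginary part. -/
theorem RealCase_split (h : ℂ[X]) (δ : ℕ) (hh : h.natDegree ≤ δ) :
    ∃ r s : ℝ[X], r.natDegree ≤ δ ∧ s.natDegree ≤ δ ∧
      h = r.map Complex.ofRealHom + C Complex.I * s.map Complex.ofRealHom := by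
  have key : ∀ (a : ℕ → ℝ) (n : ℕ), (∑ i ∈ Finset.range (δ + 1), monomial i (a i)).coeff n =
      if n < δ + 1 then a n else 0 := by
    intro a n
    rw [finsetSum_coeff]
    simp only [coeff_monomial]
    rw [Finset.sum_ite_eq' (Finset.range (δ + 1)) n a]
    simp
  refine ⟨∑ i ∈ Finset.range (δ + 1), monomial i (h.coeff i).re,
    ∑ i ∈ Finset.range (δ + 1), monomial i (h.coeff i).im, ?_, ?_, ?_⟩
  · rw [natDegree_le_iff_coeff_eq_zero]
    intro n hn
    rw [key (fun i => (h.coeff i).re), if_neg (by omega)]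
  · rw [natDegree_le_iff_coeff_eq_zero]
    intro n hn
    rw [key (fun i => (h.coeff i).im), if_neg (by omega)]
  · ext n
    rw [coeff_add, coeff_C_mul, coeff_map, coeff_map, key (fun i => (h.coeff i).re),
      key (fun i => (h.coeff i).im)]
    by_cases hn : n < δ + 1
    · rw [if_pos hn, if_pos hn]
      apply Complex.ext <;> simp
    · rw [if_neg hn, if_neg hn, coeff_eq_zero_of_natDegree_lt (by omega)]
      simp

omit [Fintype ι] [DecidableEq ι] in
theorem RealCase_eval (x : ι → ℝ) (k : ι) (r : ℝ[X]) :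
    (r.map Complex.ofRealHom).eval (xc x k) = ((r.eval (x k) : ℝ) : ℂ) := by
  have : (xc x k) = Complex.ofRealHom (x k) := rfl
  rw [this, eval_map_apply]
  rfl

omit [Fintype ι] [DecidableEq ι] in
theorem RealCase_N (x : ι → ℝ) (N : ℂ[X]) (hN2 : N.natDegree ≤ 2) (hNr : ∀ i, (N.coeff i).im = 0) (k : ι) :
    N.eval (xc x k) = ((qv ((N.coeff 2).re, (N.coeff 1).re, (N.coeff 0).re) (x k) : ℝ) : ℂ) ∧
    (derivative N).eval (xc x k) = ((qd ((N.coeff 2).re, (N.coeff 1).re, (N.coeff 0).re) (x k) : ℝ) : ℂ) := by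
  have hc : ∀ i, N.coeff i = (((N.coeff i).re : ℝ) : ℂ) := fun i =>
    Complex.ext (by simp) (by simp [hNr i])
  have hN : N = C (N.coeff 2) * X ^ 2 + C (N.coeff 1) * X + C (N.coeff 0) := by
    conv_lhs => rw [N.as_sum_range_C_mul_X_pow' (Nat.lt_succ_of_le hN2)]
    simp only [Finset.sum_range_succ, Finset.sum_range_zero, pow_zero, mul_one, pow_one, zero_add]
    ring
  constructor
  · conv_lhs => rw [hN]
    simp only [eval_add, eval_mul, eval_C, eval_pow, eval_X, xc, qv]
    rw [hc 2, hc 1, hc 0]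
    push_cast
    simp only [Complex.ofReal_re]
  · conv_lhs => rw [hN]
    simp only [derivative_add, derivative_mul, derivative_C, derivative_X_pow, derivative_X, eval_add, eval_mul,
      eval_C, eval_pow, eval_X, xc, qd, eval_zero, eval_one]
    rw [hc 2, hc 1]
    push_cast
    simp only [Complex.ofReal_re]
    ring

omit [DecidableEq ι] in
theorem RealCase_Sg (x : ι → ℝ) (k : ι) : Sg (xc x) k = ((Sg x k : ℝ) : ℂ) := by
  unfold Sg xc
  push_cast
  rfl

theorem real_case (x : ι → ℝ) (hx : Function.Injective x) (δ : ℕ)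
    (hδ : 2 * δ ≤ Fintype.card ι + 3) (hδ2 : δ + 2 ≤ Fintype.card ι) (f g : ℂ[X])
    (hf : f.natDegree ≤ δ) (hg : g.natDegree ≤ δ) (hfg : Indep f g) (N : ℂ[X])
    (hN2 : N.natDegree ≤ 2) (hNr : ∀ i, (N.coeff i).im = 0) (hN0 : ∀ k, N.eval (xc x k) ≠ 0)
    (hLf : ∀ k, Lrel x N f k) (hLg : ∀ k, Lrel x N g k) : False := by
  have hne : Nonempty ι := Fintype.card_pos_iff.1 (by omega)
  set n : ℝ × ℝ × ℝ := ((N.coeff 2).re, (N.coeff 1).re, (N.coeff 0).re) with hn
  have hqv : ∀ k, N.eval (xc x k) = ((qv n (x k) : ℝ) : ℂ) := fun k => (RealCase_N x N hN2 hNr k).1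
  have hqd : ∀ k, (derivative N).eval (xc x k) = ((qd n (x k) : ℝ) : ℂ) := fun k => (RealCase_N x N hN2 hNr k).2
  have hqv0 : ∀ k, qv n (x k) ≠ 0 := by
    intro k h
    apply hN0 k
    rw [hqv, h, Complex.ofReal_zero]
  refine B1 x hx n hqv0 fun j => ?_
  -- the element of the space vanishing at `x j`
  obtain ⟨h, hh0, hhd, hhj, hhL⟩ : ∃ h : ℂ[X], h ≠ 0 ∧ h.natDegree ≤ δ ∧ h.eval (xc x j) = 0 ∧
      ∀ k, Lrel x N h k := by
    by_cases hcase : f.eval (xc x j) = 0
    · refine ⟨f, ?_, hf, hcase, hLf⟩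
      intro hf0
      have := (hfg 1 0 (by rw [hf0]; simp)).1
      exact one_ne_zero this
    · refine ⟨C (-(g.eval (xc x j))) * f + C (f.eval (xc x j)) * g, ?_, ?_, ?_, ?_⟩
      · intro h0
        exact hcase (hfg _ _ h0).2
      · refine (natDegree_add_le _ _).trans (max_le ?_ ?_)
        · exact (natDegree_C_mul_le _ _).trans hf
        · exact (natDegree_C_mul_le _ _).trans hg
      · simp only [eval_add, eval_mul, eval_C]
        ring
      · intro k
        have h1 := hLf k
        have h2 := hLg k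
        unfold Lrel at h1 h2 ⊢
        simp only [derivative_add, derivative_mul, derivative_C, zero_mul, zero_add, eval_add, eval_mul, eval_C]
        linear_combination (-(g.eval (xc x j))) * h1 + f.eval (xc x j) * h2
  obtain ⟨r, s, hrd, hsd, hrs⟩ := RealCase_split h δ hhd
  have hev : ∀ k, h.eval (xc x k) = ((r.eval (x k) : ℝ) : ℂ) + Complex.I * ((s.eval (x k) : ℝ) : ℂ) := by
    intro k
    rw [hrs, eval_add, eval_mul, eval_C, RealCase_eval, RealCase_eval]
  have hdev : ∀ k, (derivative h).eval (xc x k) =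
      (((derivative r).eval (x k) : ℝ) : ℂ) + Complex.I * (((derivative s).eval (x k) : ℝ) : ℂ) := by
    intro k
    rw [hrs, derivative_add, derivative_C_mul, derivative_map, derivative_map, eval_add, eval_mul, eval_C,
      RealCase_eval, RealCase_eval]
  have hLrs : ∀ k,
      qd n (x k) * r.eval (x k) + 2 * (qv n (x k) * (derivative r).eval (x k)) =
        2 * (qv n (x k) * (Sg x k * r.eval (x k))) ∧
      qd n (x k) * s.eval (x k) + 2 * (qv n (x k) * (derivative s).eval (x k)) =
        2 * (qv n (x k) * (Sg x k * s.eval (x k))) := by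
    intro k
    have h1 := hhL k
    unfold Lrel at h1
    rw [hqv, hqd, hev, hdev, RealCase_Sg] at h1
    generalize qd n (x k) = a1 at h1 ⊢
    generalize qv n (x k) = a2 at h1 ⊢
    generalize r.eval (x k) = a3 at h1 ⊢
    generalize s.eval (x k) = a4 at h1 ⊢
    generalize (derivative r).eval (x k) = a5 at h1 ⊢
    generalize (derivative s).eval (x k) = a6 at h1 ⊢
    generalize Sg x k = a7 at h1 ⊢
    have h2 := congrArg Complex.re h1
    have h3 := congrArg Complex.im h1
    simp at h2 h3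
    exact ⟨h2, h3⟩
  have hrj : r.eval (x j) = 0 ∧ s.eval (x j) = 0 := by
    have h1 := hev j
    rw [hhj] at h1
    have h2 := congrArg Complex.re h1
    have h3 := congrArg Complex.im h1
    simp at h2 h3
    exact ⟨h2.symm, h3.symm⟩
  obtain ⟨t, ht0, htd, htj, htL⟩ : ∃ t : ℝ[X], t ≠ 0 ∧ t.natDegree ≤ δ ∧ t.eval (x j) = 0 ∧
      ∀ k, qd n (x k) * t.eval (x k) + 2 * (qv n (x k) * (derivative t).eval (x k)) =
        2 * (qv n (x k) * (Sg x k * t.eval (x k))) := by
    by_cases hr0 : r = 0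
    · refine ⟨s, ?_, hsd, hrj.2, fun k => (hLrs k).2⟩
      intro hs0
      apply hh0
      rw [hrs, hr0, hs0]
      simp
    · exact ⟨r, hr0, hrd, hrj.1, fun k => (hLrs k).1⟩
  have htj' : (derivative t).eval (x j) = 0 := by
    have h1 := htL j
    rw [htj, mul_zero, mul_zero, mul_zero, mul_zero, zero_add] at h1
    rcases mul_eq_zero.1 h1 with h2 | h2
    · norm_num at h2
    · rcases mul_eq_zero.1 h2 with h3 | h3
      · exact absurd h3 (hqv0 j)
      · exact h3
  have hDp : ∀ k, Dp x k ≠ 0 := by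
    intro k
    unfold Dp
    rw [Finset.prod_ne_zero_iff]
    intro j hj
    exact sub_ne_zero.2 (fun h => (Finset.mem_erase.1 hj).1 (hx h.symm))
  refine ⟨fun k => t.eval (x k) * (Dp x k)⁻¹, ?_, ?_, ?_, ?_, ?_⟩
  · intro hb
    apply ht0
    have hz : ∀ k, t.eval (x k) = 0 := by
      intro k
      have h1 := congrFun hb k
      simp only [Pi.zero_apply] at h1
      rcases mul_eq_zero.1 h1 with h2 | h2
      · exact h2
      · exact absurd (inv_eq_zero.1 h2) (hDp k)
    refine eq_zero_of_natDegree_lt_card_of_eval_eq_zero t hx hz ?_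
    omega
  · show t.eval (x j) * (Dp x j)⁻¹ = 0
    rw [htj, zero_mul]
  · rw [conv_Cau x hx t (by omega) j, htj, htj']
    simp
  · exact lagSum x hx t (by omega)
  · intro k
    rw [conv_Cau x hx t (by omega) k]
    have h1 := htL k
    have h2 := hDp k
    show qv n (x k) * (((derivative t).eval (x k) - Sg x k * t.eval (x k)) * (Dp x k)⁻¹) +
      qd n (x k) / 2 * (t.eval (x k) * (Dp x k)⁻¹) = 0
    linear_combination (Dp x k)⁻¹ / 2 * h1

end Pool.Agent.Lib.MP_0ae92b_ag.G26
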