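import Pool.Agent.Lib.MP_0ae92b_ag.G26.SumRule
import Pool.Agent.Lib.MP_0ae92b_ag.G26.RealCase
import Pool.Agent.Lib.MP_0ae92b_ag.G26.NonVan

set_option autoImplicit false

/-!
# Six points

PROOF.  `N(x_k) ≠ 0` (`nonvan`, `δ = 4`), so `Lrel` for `f, g` gives that `Wr f g` vanishes at the `x_k`, and for `h ∈ {f, g}` with `h(x_k) ≠ 0`:
`h'(x_k)/h(x_k) = S_k - N'(x_k)/(2 N(x_k))`, with `S_k` real, so the imaginary part is `-R(x_k)/(2 |N(x_k)|²)` with the real polynomial
`R = N_r N_i' - N_r' N_i` (`N = N_r + i N_i`, `Im (N' conj N) = N_i' N_r - N_r' N_i`); `deg R ≤ 2` because `deg N_r, N_i ≤ 2`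
(the coefficient of `X³` is `2 n_2 m_2 - 2 n_2 m_2 = 0`).
By `sumrule`: `p(x_k)/D'(x_k) = -R(x_k)/(2 |N(x_k)|²)` for all `k`.  `p R` has degree at most `4 = 6 - 2`, so `lagSum` gives
`0 = ∑ R(x_k) p(x_k)/D'(x_k) = -∑ R(x_k)²/(2|N(x_k)|²)`: `R(x_k) = 0` for all six `k`, so `R = 0`: the Wronskian of `N_r` and `N_i` is zero, so they are dependent
(`wr_zero` for the images in `ℂ[X]`, or a direct argument with quadratics over `ℝ`) and `c N` is real for some `c ≠ 0`.
Then `real_case` with `δ = 4` applied to `c N`.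
-/

namespace Pool.Agent.Lib.MP_0ae92b_ag.G26

open Polynomial

variable {ι : Type} [Fintype ι] [DecidableEq ι]

omit [Fintype ι] [DecidableEq ι] in
private theorem B6_eval2 (N : ℂ[X]) (hN2 : N.natDegree ≤ 2) (z : ℂ) :
    N.eval z = N.coeff 2 * z ^ 2 + N.coeff 1 * z + N.coeff 0 := by
  rw [Polynomial.eval_eq_sum_range' (n := 3) (by omega)]
  simp only [Finset.sum_range_succ, Finset.sum_range_zero]
  ring

omit [Fintype ι] [DecidableEq ι] in
private theorem B6_evald (N : ℂ[X]) (hN2 : N.natDegree ≤ 2) (z : ℂ) :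
    (derivative N).eval z = 2 * N.coeff 2 * z + N.coeff 1 := by
  have hd : (derivative N).natDegree < 2 := by
    have := Polynomial.natDegree_derivative_le N
    omega
  rw [Polynomial.eval_eq_sum_range' hd]
  simp only [Finset.sum_range_succ, Finset.sum_range_zero, Polynomial.coeff_derivative]
  push_cast
  ring

private theorem B6_quad (a b c : ℝ) (h : C a * X ^ 2 + C b * X + C c = (0 : ℝ[X])) :
    a = 0 ∧ b = 0 ∧ c = 0 := by
  refine ⟨?_, ?_, ?_⟩
  · have := congrArg (fun q => Polynomial.coeff q 2) h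
    simpa [Polynomial.coeff_X, Polynomial.coeff_C] using this
  · have := congrArg (fun q => Polynomial.coeff q 1) h
    simpa [Polynomial.coeff_X, Polynomial.coeff_C, Polynomial.coeff_X_pow] using this
  · have := congrArg (fun q => Polynomial.coeff q 0) h
    simpa [Polynomial.coeff_X, Polynomial.coeff_C, Polynomial.coeff_X_pow] using this

/-- The real polynomial `N_r N_i' - N_r' N_i`. -/
private noncomputable def B6_R (N : ℂ[X]) : ℝ[X] :=
  C ((N.coeff 1).re * (N.coeff 2).im - (N.coeff 2).re * (N.coeff 1).im) * X ^ 2 +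
    C (2 * ((N.coeff 0).re * (N.coeff 2).im - (N.coeff 2).re * (N.coeff 0).im)) * X +
    C ((N.coeff 0).re * (N.coeff 1).im - (N.coeff 1).re * (N.coeff 0).im)

private theorem B6_R_deg (N : ℂ[X]) : (B6_R N).natDegree ≤ 2 := by
  unfold B6_R
  exact Polynomial.natDegree_quadratic_le

private theorem B6_R_im (N : ℂ[X]) (hN2 : N.natDegree ≤ 2) (y : ℝ) (hy : N.eval (y : ℂ) ≠ 0) :
    ((derivative N).eval (y : ℂ) / N.eval (y : ℂ)).im =
      (B6_R N).eval y / Complex.normSq (N.eval (y : ℂ)) := by
  have hn : Complex.normSq (N.eval (y : ℂ)) ≠ 0 := by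
    simpa using hy
  rw [Complex.div_im]
  rw [← sub_div, B6_evald N hN2, B6_eval2 N hN2]
  congr 1
  unfold B6_R
  have e2 : ((y : ℂ) ^ 2) = ((y ^ 2 : ℝ) : ℂ) := by push_cast; ring
  rw [e2]
  simp only [Complex.add_im, Complex.add_re, Complex.mul_im, Complex.mul_re, Complex.ofReal_re,
    Complex.ofReal_im, eval_add, eval_mul, eval_C, eval_pow, eval_X, Complex.re_ofNat,
    Complex.im_ofNat]
  ring

omit [DecidableEq ι] in
private theorem B6_Sg (x : ι → ℝ) (k : ι) : Sg (xc x) k = ((Sg x k : ℝ) : ℂ) := by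
  unfold Sg xc
  push_cast
  rfl

omit [DecidableEq ι] in
private theorem B6_hh (x : ι → ℝ) (N h : ℂ[X]) (hN2 : N.natDegree ≤ 2) (k : ι)
    (hNk : N.eval (xc x k) ≠ 0) (hh : h.eval (xc x k) ≠ 0) (hL : Lrel x N h k) :
    ((derivative h).eval (xc x k) / h.eval (xc x k)).im =
      -((B6_R N).eval (x k) / (2 * Complex.normSq (N.eval (xc x k)))) := by
  have h1 : (derivative h).eval (xc x k) / h.eval (xc x k) =
      ((Sg x k : ℝ) : ℂ) - (1 / 2 : ℝ) * ((derivative N).eval (xc x k) / N.eval (xc x k)) := by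
    rw [← B6_Sg x k]
    unfold Lrel at hL
    push_cast
    field_simp
    linear_combination hL
  have h2 := B6_R_im N hN2 (x k) hNk
  have hn : Complex.normSq (N.eval (xc x k)) ≠ 0 := by
    simpa using hNk
  rw [h1, Complex.sub_im, Complex.ofReal_im, Complex.im_ofReal_mul]
  unfold xc at hn ⊢
  rw [h2]
  field_simp
  ring

theorem B6 (hι : Fintype.card ι = 6) (x : ι → ℝ) (hx : Function.Injective x) (f g : ℂ[X])
    (hf : f.natDegree ≤ 4) (hg : g.natDegree ≤ 4) (hfg : Indep f g) (N : ℂ[X]) (hN : N ≠ 0)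
    (hN2 : N.natDegree ≤ 2) (hnb : ∀ k, f.eval (xc x k) ≠ 0 ∨ g.eval (xc x k) ≠ 0)
    (hLf : ∀ k, Lrel x N f k) (hLg : ∀ k, Lrel x N g k) : False := by
  have hNk : ∀ k, N.eval (xc x k) ≠ 0 :=
    nonvan x hx 4 (by omega) (by omega) f g hf hg hfg N hN hN2 hnb hLf hLg
  have hW : ∀ k, (Wr f g).eval (xc x k) = 0 := by
    intro k
    have h1 := hLf k
    have h2 := hLg k
    unfold Lrel at h1 h2
    have h3 : (2 * N.eval (xc x k)) * (Wr f g).eval (xc x k) = 0 := by
      unfold Wr
      simp only [eval_sub, eval_mul]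
      linear_combination f.eval (xc x k) * h2 - g.eval (xc x k) * h1
    rcases mul_eq_zero.1 h3 with h4 | h4
    · exact absurd h4 (mul_ne_zero two_ne_zero (hNk k))
    · exact h4
  obtain ⟨p, hp2, hp⟩ := sumrule hι x hx f g hf hg hfg hW
  have key : ∀ k, p.eval (x k) * (Dp x k)⁻¹ =
      -((B6_R N).eval (x k) / (2 * Complex.normSq (N.eval (xc x k)))) := by
    intro k
    rcases hnb k with h | h
    · rw [← hp k f (Or.inl rfl) h, B6_hh x N f hN2 k (hNk k) h (hLf k)]
    · rw [← hp k g (Or.inr rfl) h, B6_hh x N g hN2 k (hNk k) h (hLg k)]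
  have hpos : ∀ k, 0 < Complex.normSq (N.eval (xc x k)) := fun k => Complex.normSq_pos.2 (hNk k)
  have hsum : ∑ k, (p * B6_R N).eval (x k) * (Dp x k)⁻¹ = 0 := by
    refine lagSum x hx (p * B6_R N) ?_
    have h1 := Polynomial.natDegree_mul_le (p := p) (q := B6_R N)
    have h2 := B6_R_deg N
    omega
  have hsum2 : ∑ k, (B6_R N).eval (x k) ^ 2 / (2 * Complex.normSq (N.eval (xc x k))) = 0 := by
    rw [← neg_eq_zero, ← Finset.sum_neg_distrib, ← hsum]
    refine Finset.sum_congr rfl fun k _ => ?_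
    rw [eval_mul]
    have := key k
    linear_combination -(B6_R N).eval (x k) * this
  have hR0 : ∀ k, (B6_R N).eval (x k) = 0 := by
    intro k
    have h1 := (Finset.sum_eq_zero_iff_of_nonneg (fun i _ =>
      div_nonneg (sq_nonneg _) (by have := hpos i; positivity))).1 hsum2 k (Finset.mem_univ k)
    have h2 : (2 * Complex.normSq (N.eval (xc x k))) ≠ 0 := by
      have := hpos k; positivity
    rcases div_eq_zero_iff.1 h1 with h3 | h3
    · exact pow_eq_zero_iff (two_ne_zero) |>.1 h3
    · exact absurd h3 h2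
  have hR : B6_R N = 0 := by
    by_contra hne
    have h1 : (Finset.univ.image x).card ≤ (B6_R N).natDegree := by
      refine Polynomial.card_le_degree_of_subset_roots ?_
      intro y hy
      rw [Finset.mem_val, Finset.mem_image] at hy
      obtain ⟨k, _, rfl⟩ := hy
      rw [Polynomial.mem_roots hne]
      exact hR0 k
    rw [Finset.card_image_of_injective _ hx, Finset.card_univ, hι] at h1
    have := B6_R_deg N
    omega
  obtain ⟨c2, c1, c0⟩ := B6_quad _ _ _ hR
  have hexc : ∃ c : ℂ, c ≠ 0 ∧ (c * N.coeff 0).im = 0 ∧ (c * N.coeff 1).im = 0 ∧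
      (c * N.coeff 2).im = 0 := by
    by_cases h2 : N.coeff 2 = 0
    · by_cases h1 : N.coeff 1 = 0
      · by_cases h0 : N.coeff 0 = 0
        · exfalso
          apply hN
          ext i
          rw [coeff_zero]
          rcases Nat.lt_or_ge i 3 with hi | hi
          · interval_cases i
            · exact h0
            · exact h1
            · exact h2
          · exact Polynomial.coeff_eq_zero_of_natDegree_lt (by omega)
        · refine ⟨(starRingEnd ℂ) (N.coeff 0), by simpa using h0, ?_, ?_, ?_⟩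
          · simp only [Complex.mul_im, Complex.conj_re, Complex.conj_im]; ring
          · rw [h1]; simp
          · rw [h2]; simp
      · refine ⟨(starRingEnd ℂ) (N.coeff 1), by simpa using h1, ?_, ?_, ?_⟩
        · simp only [Complex.mul_im, Complex.conj_re, Complex.conj_im]; linear_combination -c0
        · simp only [Complex.mul_im, Complex.conj_re, Complex.conj_im]; ring
        · rw [h2]; simp
    · refine ⟨(starRingEnd ℂ) (N.coeff 2), by simpa using h2, ?_, ?_, ?_⟩
      · simp only [Complex.mul_im, Complex.conj_re, Complex.conj_im]; linear_combination -(1/2) * c1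
      · simp only [Complex.mul_im, Complex.conj_re, Complex.conj_im]; linear_combination -c2
      · simp only [Complex.mul_im, Complex.conj_re, Complex.conj_im]; ring
  obtain ⟨c, hc, i0, i1, i2⟩ := hexc
  have hL : ∀ h : ℂ[X], (∀ k, Lrel x N h k) → ∀ k, Lrel x (C c * N) h k := by
    intro h hh k
    have := hh k
    unfold Lrel at this ⊢
    simp only [derivative_C_mul, eval_mul, eval_C]
    linear_combination c * this
  refine real_case x hx 4 (by omega) (by omega) f g hf hg hfg (C c * N) ?_ ?_ ?_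
    (hL f hLf) (hL g hLg)
  · exact (Polynomial.natDegree_C_mul_le c N).trans hN2
  · intro i
    rw [coeff_C_mul]
    rcases Nat.lt_or_ge i 3 with hi | hi
    · interval_cases i
      · exact i0
      · exact i1
      · exact i2
    · rw [Polynomial.coeff_eq_zero_of_natDegree_lt (by omega : N.natDegree < i)]
      simp
  · intro k
    rw [eval_mul, eval_C]
    exact mul_ne_zero hc (hNk k)

end Pool.Agent.Lib.MP_0ae92b_ag.G26
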