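import Pool.Agent.Lib.MP_0ae92b_ag.G26.B4
import Pool.Agent.Lib.MP_0ae92b_ag.G26.RealCase
import Pool.Agent.Lib.MP_0ae92b_ag.G26.NonVan

set_option autoImplicit false

/-!
# Seven points, no base points

PROOF.  `nonvan` gives `N(x_k) ≠ 0`.  Let `r, s` be the real and imaginary parts of the coefficient triple `n = (N_2, N_1, N_0)`.
If `r, s` are linearly dependent over `ℝ`, then `c N` has real coefficients for some complex `c ≠ 0`, `Lrel` is homogeneous in `N`, and
`real_case` (`δ = 5`) applies to `c N`.
Otherwise `B4`: the vectors `a_k = f(x_k)/D'(x_k)`, `b_k = g(x_k)/D'(x_k)` are linearly independent (a combination of `f, g` of degree at most `5` vanishing at seven points is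
zero), have sum zero (`lagSum`), and `BN (xc x) n a k = 0` by `BN_eq`, `conv_Cau` and `Lrel` divided by `2 D'(x_k)`.
-/

namespace Pool.Agent.Lib.MP_0ae92b_ag.G26

open Polynomial

variable {ι : Type} [Fintype ι] [DecidableEq ι]

private theorem B7_eval (N : ℂ[X]) (hN2 : N.natDegree ≤ 2) (z : ℂ) :
    N.eval z = qv (N.coeff 2, N.coeff 1, N.coeff 0) z := by
  rw [eval_eq_sum_range' (show N.natDegree < 3 by omega)]
  simp only [Finset.sum_range_succ, Finset.sum_range_zero, qv]
  ring

private theorem B7_deriv (N : ℂ[X]) (hN2 : N.natDegree ≤ 2) (z : ℂ) :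
    (derivative N).eval z = qd (N.coeff 2, N.coeff 1, N.coeff 0) z := by
  have h : (derivative N).natDegree < 2 := by
    have := natDegree_derivative_le N
    omega
  rw [eval_eq_sum_range' h]
  simp only [Finset.sum_range_succ, Finset.sum_range_zero, qd, coeff_derivative]
  push_cast
  ring

private theorem B7_ker (hι : Fintype.card ι = 7) (x : ι → ℝ) (hx : Function.Injective x) (f : ℂ[X])
    (hf : f.natDegree ≤ 5) (N : ℂ[X]) (hN2 : N.natDegree ≤ 2) (hLf : ∀ k, Lrel x N f k) (k : ι) :
    BN (xc x) (N.coeff 2, N.coeff 1, N.coeff 0)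
      (fun l => f.eval (xc x l) * (Dp (xc x) l)⁻¹) k = 0 := by
  have hxc : Function.Injective (xc x) := fun a b h => hx (Complex.ofReal_injective h)
  rw [BN_eq two_ne_zero (xc x) hxc _ _ (lagSum (xc x) hxc f (by omega)),
    conv_Cau (xc x) hxc f (by omega) k, ← B7_eval N hN2, ← B7_deriv N hN2]
  have h := hLf k
  unfold Lrel at h
  linear_combination (Dp (xc x) k)⁻¹ / 2 * h

theorem B7 (hι : Fintype.card ι = 7) (x : ι → ℝ) (hx : Function.Injective x) (f g : ℂ[X])
    (hf : f.natDegree ≤ 5) (hg : g.natDegree ≤ 5) (hfg : Indep f g) (N : ℂ[X]) (hN : N ≠ 0)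
    (hN2 : N.natDegree ≤ 2) (hnb : ∀ k, f.eval (xc x k) ≠ 0 ∨ g.eval (xc x k) ≠ 0)
    (hLf : ∀ k, Lrel x N f k) (hLg : ∀ k, Lrel x N g k) : False := by
  have hxc : Function.Injective (xc x) := fun a b h => hx (Complex.ofReal_injective h)
  have hN0 := nonvan x hx 5 (by omega) (by omega) f g hf hg hfg N hN hN2 hnb hLf hLg
  set r : ℝ × ℝ × ℝ := ((N.coeff 2).re, (N.coeff 1).re, (N.coeff 0).re) with hr
  set s : ℝ × ℝ × ℝ := ((N.coeff 2).im, (N.coeff 1).im, (N.coeff 0).im) with hs
  have hcoef : ∀ w : ℂ, w = (w.re : ℂ) + Complex.I * w.im := by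
    intro w
    rw [mul_comm]
    exact (Complex.re_add_im w).symm
  by_cases hrs : LinearIndependent ℝ ![r, s]
  · have hn : ((N.coeff 2, N.coeff 1, N.coeff 0) : ℂ × ℂ × ℂ) =
        ((r.1 : ℂ) + Complex.I * s.1, (r.2.1 : ℂ) + Complex.I * s.2.1,
          (r.2.2 : ℂ) + Complex.I * s.2.2) := by
      rw [hr, hs]
      simp only [← hcoef]
    refine B4 hι x hx r s hrs ?_ _ hn (fun l => f.eval (xc x l) * (Dp (xc x) l)⁻¹)
      (fun l => g.eval (xc x l) * (Dp (xc x) l)⁻¹) ?_ (B7_ker hι x hx f hf N hN2 hLf)
      (B7_ker hι x hx g hg N hN2 hLg)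
    · intro k
      by_contra hcon
      push Not at hcon
      apply hN0 k
      rw [B7_eval N hN2, hn]
      have e : qv ((r.1 : ℂ) + Complex.I * s.1, (r.2.1 : ℂ) + Complex.I * s.2.1,
          (r.2.2 : ℂ) + Complex.I * s.2.2) (xc x k) =
          ((qv r (x k) : ℝ) : ℂ) + Complex.I * ((qv s (x k) : ℝ) : ℂ) := by
        simp only [qv, xc]
        push_cast
        ring
      rw [e, hcon.1, hcon.2]
      simp
    · rw [LinearIndependent.pair_iff]
      intro c1 c2 h
      apply hfg c1 c2
      apply eq_zero_of_natDegree_lt_card_of_eval_eq_zero _ hxc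
      · intro k
        have h1 := congrFun h k
        simp only [Pi.add_apply, Pi.smul_apply, smul_eq_mul, Pi.zero_apply] at h1
        have hD : Dp (xc x) k ≠ 0 := by
          unfold Dp
          rw [Finset.prod_ne_zero_iff]
          intro j hj
          exact sub_ne_zero.2 (hxc.ne (Finset.ne_of_mem_erase hj).symm)
        rw [eval_add, eval_mul, eval_mul, eval_C, eval_C]
        have h2 : (c1 * f.eval (xc x k) + c2 * g.eval (xc x k)) * (Dp (xc x) k)⁻¹ = 0 := by
          linear_combination h1
        exact (mul_eq_zero.1 h2).resolve_right (inv_ne_zero hD)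
      · rw [hι]
        have h1 : (C c1 * f + C c2 * g).natDegree ≤ 5 := by
          refine (natDegree_add_le _ _).trans (max_le ?_ ?_)
          · exact (natDegree_C_mul_le _ _).trans hf
          · exact (natDegree_C_mul_le _ _).trans hg
        omega
  · rw [LinearIndependent.pair_iff] at hrs
    push Not at hrs
    obtain ⟨α, β, h0, hne⟩ := hrs
    have h2 : α * (N.coeff 2).re + β * (N.coeff 2).im = 0 := by
      have := congrArg (fun t : ℝ × ℝ × ℝ => t.1) h0
      simpa [hr, hs] using this
    have h1 : α * (N.coeff 1).re + β * (N.coeff 1).im = 0 := by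
      have := congrArg (fun t : ℝ × ℝ × ℝ => t.2.1) h0
      simpa [hr, hs] using this
    have h00 : α * (N.coeff 0).re + β * (N.coeff 0).im = 0 := by
      have := congrArg (fun t : ℝ × ℝ × ℝ => t.2.2) h0
      simpa [hr, hs] using this
    set c : ℂ := ⟨β, α⟩ with hc
    have hc0 : c ≠ 0 := by
      intro h
      have e1 := congrArg Complex.re h
      have e2 := congrArg Complex.im h
      simp only [hc, Complex.zero_re, Complex.zero_im] at e1 e2
      exact hne e2 e1
    have hL : ∀ h : ℂ[X], (∀ k, Lrel x N h k) → ∀ k, Lrel x (C c * N) h k := by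
      intro h hh k
      have h3 := hh k
      unfold Lrel at h3 ⊢
      rw [derivative_mul, derivative_C, zero_mul, zero_add, eval_mul, eval_mul, eval_C]
      linear_combination c * h3
    refine real_case x hx 5 (by omega) (by omega) f g hf hg hfg (C c * N)
      ((natDegree_C_mul_le _ _).trans hN2) ?_ ?_ (hL f hLf) (hL g hLg)
    · intro i
      rw [coeff_C_mul]
      have him : ∀ w : ℂ, α * w.re + β * w.im = 0 → (c * w).im = 0 := by
        intro w hw
        rw [Complex.mul_im, hc]
        linarith
      rcases Nat.lt_or_ge 2 i with hi | hi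
      · rw [coeff_eq_zero_of_natDegree_lt (by omega)]
        simp
      · interval_cases i
        · exact him _ h00
        · exact him _ h1
        · exact him _ h2
    · intro k
      rw [eval_mul, eval_C]
      exact mul_ne_zero hc0 (hN0 k)

end Pool.Agent.Lib.MP_0ae92b_ag.G26
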