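import Pool.Agent.Lib.MP_0ae92b_ag.G26.B6

set_option autoImplicit false

/-!
# Seven points, one base point

PROOF.  `f = (X - x_0) φ`, `g = (X - x_0) γ` (`x_0 = x i0`), `deg φ, γ ≤ 4`, `φ, γ` independent.  Apply `B6` to the six points `{k // k ≠ i0}` and to `φ, γ, N`.
For `k ≠ i0`: `Lrel` for `f` reads `N' (x_k - x_0) φ + 2 N (φ + (x_k - x_0) φ') = 2 N S (x_k - x_0) φ`; divide by `x_k - x_0`:
`N' φ + 2 N φ' = 2 N (S - 1/(x_k - x_0)) φ`, and `S - 1/(x_k - x_0)` is the `Sg` of the six points.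
-/

namespace Pool.Agent.Lib.MP_0ae92b_ag.G26

open Polynomial

variable {ι : Type} [Fintype ι] [DecidableEq ι]

private theorem Bbase_rel (x : ι → ℝ) (hx : Function.Injective x) (N φ : ℂ[X]) (i0 : ι)
    (k : {k : ι // k ≠ i0}) (h : Lrel x N ((X - C (xc x i0)) * φ) k) :
    Lrel (fun l : {k : ι // k ≠ i0} => x l) N φ k := by
  have hu : xc x k - xc x i0 ≠ 0 := by
    rw [sub_ne_zero]
    intro h'
    exact k.2 (hx (Complex.ofReal_injective h'))
  unfold Lrel at h ⊢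
  have hS : Sg (xc x) (k : ι) = (xc x k - xc x i0)⁻¹ +
      Sg (xc (fun l : {k : ι // k ≠ i0} => x l)) k := by
    unfold Sg
    exact Fintype.sum_eq_add_sum_subtype_ne (fun j => (xc x (k : ι) - xc x j)⁻¹) i0
  have hxk : xc (fun l : {k : ι // k ≠ i0} => x l) k = xc x (k : ι) := rfl
  rw [hxk]
  rw [hS, derivative_mul, derivative_sub, derivative_X, derivative_C, eval_add, eval_mul, eval_mul,
    eval_mul, eval_sub, eval_sub, eval_X, eval_C, eval_one, eval_zero] at h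
  set S' := Sg (xc (fun l : {k : ι // k ≠ i0} => x l)) k with hS'
  set u := xc x k - xc x i0 with hud
  have huu : u * u⁻¹ = 1 := mul_inv_cancel₀ hu
  apply mul_left_cancel₀ hu
  linear_combination h + 2 * N.eval (xc x k) * φ.eval (xc x k) * huu

theorem Bbase (hι : Fintype.card ι = 7) (x : ι → ℝ) (hx : Function.Injective x) (f g : ℂ[X])
    (hf : f.natDegree ≤ 5) (hg : g.natDegree ≤ 5) (hfg : Indep f g) (N : ℂ[X]) (hN : N ≠ 0)
    (hN2 : N.natDegree ≤ 2) (i0 : ι) (hf0 : f.eval (xc x i0) = 0) (hg0 : g.eval (xc x i0) = 0)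
    (hnb : ∀ k, k ≠ i0 → (f.eval (xc x k) ≠ 0 ∨ g.eval (xc x k) ≠ 0))
    (hLf : ∀ k, k ≠ i0 → Lrel x N f k) (hLg : ∀ k, k ≠ i0 → Lrel x N g k) : False := by
  have hxc : Function.Injective (xc x) := fun a b h => hx (Complex.ofReal_injective h)
  obtain ⟨φ, hφ⟩ := dvd_iff_isRoot.2 (show f.IsRoot (xc x i0) from hf0)
  obtain ⟨γ, hγ⟩ := dvd_iff_isRoot.2 (show g.IsRoot (xc x i0) from hg0)
  have hcard : Fintype.card {k : ι // k ≠ i0} = 6 := by
    rw [Fintype.card_subtype_compl, Fintype.card_subtype_eq, hι]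
  have hdeg : ∀ h ψ : ℂ[X], h.natDegree ≤ 5 → h = (X - C (xc x i0)) * ψ → ψ.natDegree ≤ 4 := by
    intro h ψ hh he
    by_cases h0 : ψ = 0
    · rw [h0]; simp
    · rw [he, natDegree_mul (X_sub_C_ne_zero _) h0, natDegree_X_sub_C] at hh
      omega
  refine B6 hcard (fun l : {k : ι // k ≠ i0} => x l) (fun a b h => Subtype.ext (hx h)) φ γ
    (hdeg f φ hf hφ) (hdeg g γ hg hγ) ?_ N hN hN2 ?_ ?_ ?_
  · intro c1 c2 h
    apply hfg c1 c2
    rw [hφ, hγ]
    linear_combination (X - C (xc x i0)) * h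
  · intro k
    have h1 := hnb k k.2
    rw [hφ, hγ, eval_mul, eval_mul] at h1
    rcases h1 with h1 | h1
    · exact Or.inl (right_ne_zero_of_mul h1)
    · exact Or.inr (right_ne_zero_of_mul h1)
  · intro k
    exact Bbase_rel x hx N φ i0 k (hφ ▸ hLf k k.2)
  · intro k
    exact Bbase_rel x hx N γ i0 k (hγ ▸ hLg k k.2)

end Pool.Agent.Lib.MP_0ae92b_ag.G26
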