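import Pool.Agent.Lib.MP_0ae92b_ag.G26.Vec

set_option autoImplicit false

/-!
# Real kernel vectors of the Cauchy matrix

PROOF.  Put `h = ∑_k b_k ∏_{j ≠ k} (X - x_j)` (real polynomial of degree at most `n - 1`, `n = card ι`);
its coefficient of degree `n - 1` is `σ = ∑ b`, and `h(x_k) = b_k D'(x_k)`.
(1) For real `z` different from all `x_l` with `b_l ≠ 0`:
`(∑_l b_l/(z-x_l))² = ∑_l b_l²/(z-x_l)²` (sums over `b_l ≠ 0`, or over all `l` with `0⁻¹ = 0`), since
`1/((z-x_k)(z-x_l)) = (1/(z-x_k) - 1/(z-x_l))/(x_k-x_l)` for `k ≠ l` makes the mixed terms equal to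
`2 ∑_k b_k (C b)_k/(z-x_k) = 0`.
(2) No `b_j` vanishes: otherwise (1) at `z = x_j` reads `(C b)_j² = ∑_{l ≠ j} b_l²/(x_j-x_l)²`, the left side is
`0`, so `b = 0`.
(3) So `h(z) ≠ 0` for every real `z` (for `z = x_k` it is `b_k D'(x_k)`, otherwise `h(z) = D(z) ∑ b_l/(z-x_l)` and (1)).
By the intermediate value theorem `h` has constant sign on `ℝ`, hence all `b_k D'(x_k)` have the same sign.
(4) `σ² = ∑ b_k²` (the mixed terms are `∑_{k≠l} b_k b_l (x_k - x_l)/(x_k-x_l) = 2 ∑_k x_k b_k (C b)_k = 0`), so `σ ≠ 0`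
and `h` has degree exactly `n - 1`; a real polynomial without real zeros has even degree, so `n` is odd.
-/

namespace Pool.Agent.Lib.MP_0ae92b_ag.G26

open Polynomial

variable {ι : Type} [Fintype ι] [DecidableEq ι]

omit [DecidableEq ι] in
theorem Cauchy_antisymm (x : ι → ℝ) (b u : ι → ℝ) (hC : ∀ k, Cau x b k = 0) :
    ∑ k, ∑ l, b k * b l * (u k - u l) * (x k - x l)⁻¹ = 0 := by
  have h1 : ∑ k, ∑ l, b k * b l * u k * (x k - x l)⁻¹ = 0 := by
    apply Finset.sum_eq_zero
    intro k _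
    have : ∑ l, b k * b l * u k * (x k - x l)⁻¹ = b k * u k * Cau x b k := by
      unfold Cau
      rw [Finset.mul_sum]
      exact Finset.sum_congr rfl fun l _ => by ring
    rw [this, hC, mul_zero]
  have h2 : ∑ k, ∑ l, b k * b l * u l * (x k - x l)⁻¹ = 0 := by
    rw [Finset.sum_comm]
    apply Finset.sum_eq_zero
    intro l _
    have : ∑ k, b k * b l * u l * (x k - x l)⁻¹ = - (b l * u l * Cau x b l) := by
      unfold Cau
      rw [Finset.mul_sum, ← Finset.sum_neg_distrib]
      refine Finset.sum_congr rfl fun k _ => ?_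
      rw [← neg_sub (x l) (x k), inv_neg]
      ring
    rw [this, hC, mul_zero, neg_zero]
  have h3 : ∑ k, ∑ l, b k * b l * (u k - u l) * (x k - x l)⁻¹ =
      ∑ k, ∑ l, b k * b l * u k * (x k - x l)⁻¹ - ∑ k, ∑ l, b k * b l * u l * (x k - x l)⁻¹ := by
    rw [← Finset.sum_sub_distrib]
    refine Finset.sum_congr rfl fun k _ => ?_
    rw [← Finset.sum_sub_distrib]
    exact Finset.sum_congr rfl fun l _ => by ring
  rw [h3, h1, h2, sub_zero]

theorem Cauchy_sq (x : ι → ℝ) (hx : Function.Injective x) (b : ι → ℝ)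
    (hC : ∀ k, Cau x b k = 0) (z : ℝ) (hz : ∀ l, z = x l → b l = 0) :
    (∑ l, b l * (z - x l)⁻¹) ^ 2 = ∑ l, (b l * (z - x l)⁻¹) ^ 2 := by
  have h0 := Cauchy_antisymm x b (fun l => (z - x l)⁻¹) hC
  have key : ∀ k l, (b k * (z - x k)⁻¹) * (b l * (z - x l)⁻¹) =
      (if k = l then (b k * (z - x k)⁻¹) ^ 2 else 0) +
        b k * b l * ((z - x k)⁻¹ - (z - x l)⁻¹) * (x k - x l)⁻¹ := by
    intro k l
    by_cases hkl : k = l
    · subst hkl; simp; ring
    · rw [if_neg hkl]
      by_cases hk : z = x k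
      · rw [hz k hk]; simp
      · by_cases hl : z = x l
        · rw [hz l hl]; simp
        · have e1 : z - x k ≠ 0 := sub_ne_zero.2 hk
          have e2 : z - x l ≠ 0 := sub_ne_zero.2 hl
          have e3 : x k - x l ≠ 0 := sub_ne_zero.2 (hx.ne hkl)
          field_simp
          ring
  calc (∑ l, b l * (z - x l)⁻¹) ^ 2
      = ∑ k, ∑ l, (b k * (z - x k)⁻¹) * (b l * (z - x l)⁻¹) := by
        rw [sq, Finset.sum_mul_sum]
    _ = ∑ k, ∑ l, ((if k = l then (b k * (z - x k)⁻¹) ^ 2 else 0) +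
        b k * b l * ((z - x k)⁻¹ - (z - x l)⁻¹) * (x k - x l)⁻¹) := by
        refine Finset.sum_congr rfl fun k _ => Finset.sum_congr rfl fun l _ => key k l
    _ = ∑ k, ∑ l, (if k = l then (b k * (z - x k)⁻¹) ^ 2 else 0) +
        ∑ k, ∑ l, b k * b l * ((z - x k)⁻¹ - (z - x l)⁻¹) * (x k - x l)⁻¹ := by
        rw [← Finset.sum_add_distrib]
        refine Finset.sum_congr rfl fun k _ => ?_
        rw [Finset.sum_add_distrib]
    _ = ∑ l, (b l * (z - x l)⁻¹) ^ 2 := by
        rw [h0, add_zero]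
        refine Finset.sum_congr rfl fun k _ => ?_
        simp

theorem Cauchy_sigma (x : ι → ℝ) (hx : Function.Injective x) (b : ι → ℝ)
    (hC : ∀ k, Cau x b k = 0) : (∑ l, b l) ^ 2 = ∑ l, b l ^ 2 := by
  have h0 := Cauchy_antisymm x b x hC
  have key : ∀ k l, b k * b l = (if k = l then b k ^ 2 else 0) +
        b k * b l * (x k - x l) * (x k - x l)⁻¹ := by
    intro k l
    by_cases hkl : k = l
    · subst hkl; simp; ring
    · rw [if_neg hkl]
      have e3 : x k - x l ≠ 0 := sub_ne_zero.2 (hx.ne hkl)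
      field_simp
      ring
  calc (∑ l, b l) ^ 2 = ∑ k, ∑ l, b k * b l := by
        rw [sq, Finset.sum_mul_sum]
    _ = ∑ k, ∑ l, ((if k = l then b k ^ 2 else 0) +
        b k * b l * (x k - x l) * (x k - x l)⁻¹) := by
        refine Finset.sum_congr rfl fun k _ => Finset.sum_congr rfl fun l _ => key k l
    _ = ∑ k, ∑ l, (if k = l then b k ^ 2 else 0) +
        ∑ k, ∑ l, b k * b l * (x k - x l) * (x k - x l)⁻¹ := by
        rw [← Finset.sum_add_distrib]
        refine Finset.sum_congr rfl fun k _ => ?_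
        rw [Finset.sum_add_distrib]
    _ = ∑ l, b l ^ 2 := by
        rw [h0, add_zero]
        refine Finset.sum_congr rfl fun k _ => ?_
        simp

theorem Cauchy_ne (x : ι → ℝ) (hx : Function.Injective x) (b : ι → ℝ) (hb : b ≠ 0)
    (hC : ∀ k, Cau x b k = 0) (j : ι) : b j ≠ 0 := by
  intro hj
  apply hb
  have h1 := Cauchy_sq x hx b hC (x j) (fun l hl => by rw [← hx hl]; exact hj)
  have h2 : ∑ l, b l * (x j - x l)⁻¹ = 0 := by
    rw [← hC j]
    unfold Cau
    exact Finset.sum_congr rfl fun l _ => by ring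
  rw [h2, zero_pow two_ne_zero] at h1
  have h3 := (Finset.sum_eq_zero_iff_of_nonneg (fun l _ => sq_nonneg (b l * (x j - x l)⁻¹))).1 h1.symm
  funext l
  by_cases hl : l = j
  · rw [hl, hj]; rfl
  · have h4 := h3 l (Finset.mem_univ l)
    have h5 := pow_eq_zero_iff (n := 2) (by norm_num) |>.1 h4
    rcases mul_eq_zero.1 h5 with h6 | h6
    · exact h6
    · exact absurd (inv_eq_zero.1 h6) (sub_ne_zero.2 (fun h => hl (hx h.symm)))

/-- The interpolating polynomial. -/
noncomputable def CauchyH (x : ι → ℝ) (b : ι → ℝ) : ℝ[X] :=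
  ∑ k, C (b k) * ∏ j ∈ Finset.univ.erase k, (X - C (x j))

theorem CauchyH_eval (x : ι → ℝ) (b : ι → ℝ) (z : ℝ) :
    (CauchyH x b).eval z = ∑ k, b k * ∏ j ∈ Finset.univ.erase k, (z - x j) := by
  unfold CauchyH
  rw [eval_finset_sum]
  refine Finset.sum_congr rfl fun k _ => ?_
  rw [eval_mul, eval_C, eval_prod]
  simp

theorem CauchyH_eval_node (x : ι → ℝ) (b : ι → ℝ) (i : ι) :
    (CauchyH x b).eval (x i) = b i * Dp x i := by
  rw [CauchyH_eval, Finset.sum_eq_single i]
  · rfl
  · intro k _ hk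
    rw [Finset.prod_eq_zero (Finset.mem_erase.2 ⟨fun h => hk h.symm, Finset.mem_univ i⟩) (sub_self _), mul_zero]
  · intro h; exact absurd (Finset.mem_univ i) h

theorem CauchyH_ne (x : ι → ℝ) (hx : Function.Injective x) (b : ι → ℝ) (hb : b ≠ 0)
    (hC : ∀ k, Cau x b k = 0) (z : ℝ) : (CauchyH x b).eval z ≠ 0 := by
  by_cases hz : ∃ i, z = x i
  · obtain ⟨i, rfl⟩ := hz
    rw [CauchyH_eval_node]
    refine mul_ne_zero (Cauchy_ne x hx b hb hC i) ?_
    unfold Dp
    rw [Finset.prod_ne_zero_iff]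
    intro j hj
    exact sub_ne_zero.2 (fun h => (Finset.mem_erase.1 hj).1 (hx h.symm))
  · have hz' : ∀ l, z - x l ≠ 0 := fun l h => hz ⟨l, sub_eq_zero.1 h⟩
    have h1 := Cauchy_sq x hx b hC z (fun l hl => absurd ⟨l, hl⟩ hz)
    have h2 : 0 < ∑ l, (b l * (z - x l)⁻¹) ^ 2 := by
      obtain ⟨i, hi⟩ : ∃ i, b i ≠ 0 := by
        by_contra h
        push Not at h
        exact hb (funext h)
      refine Finset.sum_pos' (fun l _ => sq_nonneg _) ⟨i, Finset.mem_univ i, ?_⟩
      have := mul_ne_zero hi (inv_ne_zero (hz' i))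
      positivity
    rw [← h1] at h2
    have h3 : ∑ l, b l * (z - x l)⁻¹ ≠ 0 := by
      intro h; rw [h] at h2; simp at h2
    have h4 : (CauchyH x b).eval z = (∏ j, (z - x j)) * ∑ l, b l * (z - x l)⁻¹ := by
      rw [CauchyH_eval, Finset.mul_sum]
      refine Finset.sum_congr rfl fun k _ => ?_
      rw [← Finset.mul_prod_erase Finset.univ (fun j => z - x j) (Finset.mem_univ k)]
      have := hz' k
      field_simp
    rw [h4]
    exact mul_ne_zero (Finset.prod_ne_zero_iff.2 fun j _ => hz' j) h3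

theorem Cauchy_sign (p : ℝ[X]) (hp : ∀ z, p.eval z ≠ 0) :
    (∀ z, 0 < p.eval z) ∨ (∀ z, p.eval z < 0) := by
  by_contra h
  push Not at h
  obtain ⟨⟨a, ha⟩, ⟨c, hc⟩⟩ := h
  have hcont : Continuous fun z => p.eval z := p.continuous
  have := mem_range_of_exists_le_of_exists_ge hcont ⟨a, ha⟩ ⟨c, hc⟩
  obtain ⟨z, hz⟩ := this
  exact hp z hz

theorem Cauchy_even (p : ℝ[X]) (hp : ∀ z, p.eval z ≠ 0) : Even p.natDegree := by
  by_contra hodd
  rw [Nat.not_even_iff_odd] at hodd
  wlog hpos : ∀ z, 0 < p.eval z generalizing p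
  · have h2 := (Cauchy_sign p hp).resolve_left hpos
    refine this (-p) (fun z => by rw [eval_neg]; exact neg_ne_zero.2 (hp z)) (by rwa [natDegree_neg]) ?_
    intro z
    rw [eval_neg]
    linarith [h2 z]
  have hne : p ≠ 0 := by
    intro h; exact hp 0 (by rw [h, eval_zero])
  have hdeg : 0 < p.natDegree := hodd.pos
  have hdeg' : 0 < p.degree := natDegree_pos_iff_degree_pos.1 hdeg
  -- leading coefficient is positive
  have hlc : 0 < p.leadingCoeff := by
    rcases lt_trichotomy p.leadingCoeff 0 with h | h | h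
    · exfalso
      have h1 := p.tendsto_atBot_of_leadingCoeff_nonpos hdeg' h.le
      obtain ⟨z, hz⟩ := (h1.eventually (Filter.eventually_lt_atBot 0)).exists
      exact lt_asymm hz (hpos z)
    · exact absurd (leadingCoeff_eq_zero.1 h) hne
    · exact h
  set q := p.comp (-X) with hq
  have hqdeg : q.natDegree = p.natDegree := by
    rw [hq, natDegree_comp, natDegree_neg, natDegree_X, mul_one]
  have hqlc : q.leadingCoeff = - p.leadingCoeff := by
    rw [hq, leadingCoeff_comp (by rw [natDegree_neg, natDegree_X]; norm_num), leadingCoeff_neg, leadingCoeff_X,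
      hodd.neg_one_pow, mul_neg, mul_one]
  have hqdeg' : 0 < q.degree := natDegree_pos_iff_degree_pos.1 (by rw [hqdeg]; exact hdeg)
  have h1 := q.tendsto_atBot_of_leadingCoeff_nonpos hqdeg' (by rw [hqlc]; linarith)
  obtain ⟨z, hz⟩ := (h1.eventually (Filter.eventually_lt_atBot 0)).exists
  rw [hq, eval_comp, eval_neg, eval_X] at hz
  exact lt_asymm hz (hpos (-z))

theorem CauchyH_natDegree (x : ι → ℝ) (b : ι → ℝ) (hs : ∑ l, b l ≠ 0) :
    (CauchyH x b).natDegree + 1 = Fintype.card ι := by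
  have hne : Nonempty ι := by
    by_contra h
    rw [not_nonempty_iff] at h
    exact hs (by simp)
  have hcard : 0 < Fintype.card ι := Fintype.card_pos
  have hmon : ∀ k : ι, (∏ j ∈ Finset.univ.erase k, (X - C (x j))).Monic := fun k =>
    monic_prod_of_monic _ _ fun j _ => monic_X_sub_C _
  have hdk : ∀ k : ι, (∏ j ∈ Finset.univ.erase k, (X - C (x j))).natDegree = Fintype.card ι - 1 := by
    intro k
    rw [natDegree_prod_of_monic _ _ fun j _ => monic_X_sub_C _]
    simp [Finset.card_erase_of_mem, Finset.card_univ]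
  have hle : (CauchyH x b).natDegree ≤ Fintype.card ι - 1 := by
    unfold CauchyH
    refine natDegree_sum_le_of_forall_le _ _ fun k _ => ?_
    exact (natDegree_C_mul_le _ _).trans (hdk k).le
  have hco : (CauchyH x b).coeff (Fintype.card ι - 1) = ∑ l, b l := by
    unfold CauchyH
    rw [finset_sum_coeff]
    refine Finset.sum_congr rfl fun k _ => ?_
    rw [coeff_C_mul, ← hdk k, (hmon k).coeff_natDegree, mul_one]
  have : (CauchyH x b).natDegree = Fintype.card ι - 1 :=
    natDegree_eq_of_le_of_coeff_ne_zero hle (by rw [hco]; exact hs)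
  omega

theorem cauchy_real (x : ι → ℝ) (hx : Function.Injective x) (b : ι → ℝ) (hb : b ≠ 0)
    (hC : ∀ k, Cau x b k = 0) :
    Odd (Fintype.card ι) ∧ ((∀ k, 0 < b k * Dp x k) ∨ (∀ k, b k * Dp x k < 0)) := by
  have hs : ∑ l, b l ≠ 0 := by
    intro h
    have h1 := Cauchy_sigma x hx b hC
    rw [h, zero_pow two_ne_zero] at h1
    have h3 := (Finset.sum_eq_zero_iff_of_nonneg (fun l _ => sq_nonneg (b l))).1 h1.symm
    apply hb
    funext l
    exact pow_eq_zero_iff (n := 2) (by norm_num) |>.1 (h3 l (Finset.mem_univ l))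
  constructor
  · rw [← CauchyH_natDegree x b hs]
    exact (Cauchy_even _ (CauchyH_ne x hx b hb hC)).add_one
  · rcases Cauchy_sign _ (CauchyH_ne x hx b hb hC) with h | h
    · left
      intro k
      rw [← CauchyH_eval_node]; exact h _
    · right
      intro k
      rw [← CauchyH_eval_node]; exact h _

end Pool.Agent.Lib.MP_0ae92b_ag.G26
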