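import Pool.Agent.Lib.MP_0ae92b_ag.G26.Defs

set_option autoImplicit false

/-!
# Concrete form of the Schubert equations and of their linearisation

PROOF.  Let `F = Fl d x (a+1)`, a subspace (`Fl_zero_mem`, `Fl_add_mem`, `Fl_smul_mem`), `Q = ℂ[X] ⧸ F`; functionals on `ℂ[X]` vanishing on `F` are functionals on `Q`, and they separate
the points of `Q` (over a field: `Module.forall_dual_apply_eq_zero_iff`, or `Submodule.exists_le_ker_of_notMem`).
`schubEq_iff`: `α f β g - β f α g = 0` for all `α, β` iff the classes of `f, g` in `Q` are linearly dependent (if `f ∉ F` choose `α` with `α f = 1`; then `β (g - (α g) f) = 0` for all `β`, so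
`g - (α g) f ∈ F`; if `f ∈ F` take `(p, q) = (1, 0)`).
`schubTan_iff`: suppose `q ≠ 0` and put `ψ = f / q`, (if `q = 0` then `p ≠ 0`, `ψ = -g/p`); in `Q`: `f = q ψ`, `g = -p ψ`, and `ψ ≠ 0` in `Q` by `hnot`.  Then
`(α u β g + α f β v) - (β u α g + β f α v) = α ψ β (p u + q v) - β ψ α (p u + q v)`, which vanishes for all `α, β` iff `p u + q v` is a multiple of `ψ` modulo `F`, and the multiples of
`ψ` are the elements of `span (f, g)` modulo `F`.
-/

namespace Pool.Agent.Lib.MP_0ae92b_ag.G26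

open Polynomial

private def concF (d : ℕ) (x : OnePoint ℝ) (j : ℕ) : Submodule ℂ ℂ[X] where
  carrier := Fl d x j
  zero_mem' := Fl_zero_mem d x j
  add_mem' := fun ha hb => Fl_add_mem d x j ha hb
  smul_mem' := fun c _ hh => Fl_smul_mem d x j c hh

private theorem conc_sep (d : ℕ) (x : OnePoint ℝ) (j : ℕ) (h : ℂ[X])
    (H : ∀ α : ℂ[X] →ₗ[ℂ] ℂ, (∀ k ∈ Fl d x j, α k = 0) → α h = 0) : h ∈ Fl d x j := by
  have : h ∈ concF d x j := by
    rw [← Submodule.Quotient.mk_eq_zero, ← Module.forall_dual_apply_eq_zero_iff ℂ]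
    intro φ
    refine H (φ ∘ₗ (concF d x j).mkQ) (fun k hk => ?_)
    have hk' : (Submodule.Quotient.mk k : ℂ[X] ⧸ concF d x j) = 0 :=
      (Submodule.Quotient.mk_eq_zero _).2 hk
    simp [hk']
  exact this

private theorem conc_ex (d : ℕ) (x : OnePoint ℝ) (j : ℕ) (h : ℂ[X]) (hn : h ∉ Fl d x j) :
    ∃ α : ℂ[X] →ₗ[ℂ] ℂ, (∀ k ∈ Fl d x j, α k = 0) ∧ α h ≠ 0 := by
  by_contra hc
  push Not at hc
  exact hn (conc_sep d x j h hc)

private theorem conc_C (α : ℂ[X] →ₗ[ℂ] ℂ) (c : ℂ) (h : ℂ[X]) : α (C c * h) = c * α h := by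
  rw [← smul_eq_C_mul, map_smul, smul_eq_mul]

theorem schubEq_iff (d : ℕ) (x : OnePoint ℝ) (a b : ℕ) (f g : ℂ[X]) :
    SchubEq d x a b f g ↔ f ∈ Fl d x b ∧ g ∈ Fl d x b ∧
      ∃ p q : ℂ, (p ≠ 0 ∨ q ≠ 0) ∧ C p * f + C q * g ∈ Fl d x (a + 1) := by
  unfold SchubEq
  refine and_congr_right fun _ => and_congr_right fun _ => ?_
  constructor
  · intro h3
    by_cases hf : f ∈ Fl d x (a + 1)
    · exact ⟨1, 0, Or.inl one_ne_zero, by simpa using hf⟩
    · obtain ⟨α, hα, hαf⟩ := conc_ex d x (a + 1) f hf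
      refine ⟨-α g, α f, Or.inr hαf, conc_sep d x (a + 1) _ fun β hβ => ?_⟩
      have := h3 α β hα hβ
      rw [map_add, conc_C, conc_C]
      linear_combination this
  · rintro ⟨p, q, hpq, hF⟩ α β hα hβ
    have e1 := hα _ hF
    have e2 := hβ _ hF
    rw [map_add, conc_C, conc_C] at e1 e2
    rcases hpq with hp | hq
    · refine mul_left_cancel₀ hp ?_
      linear_combination β g * e1 - α g * e2
    · refine mul_left_cancel₀ hq ?_
      linear_combination α f * e2 - β f * e1

theorem schubTan_iff (d : ℕ) (x : OnePoint ℝ) (a b : ℕ) (f g u v : ℂ[X]) (p q : ℂ)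
    (hpq : p ≠ 0 ∨ q ≠ 0) (hF : C p * f + C q * g ∈ Fl d x (a + 1))
    (hnot : ¬(f ∈ Fl d x (a + 1) ∧ g ∈ Fl d x (a + 1))) :
    SchubTan d x a b f g u v ↔ u ∈ Fl d x b ∧ v ∈ Fl d x b ∧
      ∃ c1 c2 : ℂ, C p * u + C q * v - (C c1 * f + C c2 * g) ∈ Fl d x (a + 1) := by
  unfold SchubTan
  refine and_congr_right fun _ => and_congr_right fun _ => ?_
  constructor
  · intro h3
    rcases hpq with hp | hq
    · have hg : g ∉ Fl d x (a + 1) := by
        intro hg
        refine hnot ⟨conc_sep d x (a + 1) f fun α hα => ?_, hg⟩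
        have e1 := hα _ hF
        rw [map_add, conc_C, conc_C, hα g hg] at e1
        simpa [hp] using e1
      obtain ⟨α, hα, hαg⟩ := conc_ex d x (a + 1) g hg
      refine ⟨0, (p * α u + q * α v) / α g, conc_sep d x (a + 1) _ fun β hβ => ?_⟩
      have e1 := hα _ hF
      have e2 := hβ _ hF
      have e3 := h3 α β hα hβ
      rw [map_add, conc_C, conc_C] at e1 e2
      rw [map_sub, map_add, map_add, conc_C, conc_C, conc_C, conc_C]
      refine mul_left_cancel₀ hαg ?_
      field_simp
      linear_combination (-p) * e3 + β v * e1 - α v * e2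
    · have hf : f ∉ Fl d x (a + 1) := by
        intro hf
        refine hnot ⟨hf, conc_sep d x (a + 1) g fun α hα => ?_⟩
        have e1 := hα _ hF
        rw [map_add, conc_C, conc_C, hα f hf] at e1
        simpa [hq] using e1
      obtain ⟨α, hα, hαf⟩ := conc_ex d x (a + 1) f hf
      refine ⟨(p * α u + q * α v) / α f, 0, conc_sep d x (a + 1) _ fun β hβ => ?_⟩
      have e1 := hα _ hF
      have e2 := hβ _ hF
      have e3 := h3 α β hα hβ
      rw [map_add, conc_C, conc_C] at e1 e2
      rw [map_sub, map_add, map_add, conc_C, conc_C, conc_C, conc_C]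
      refine mul_left_cancel₀ hαf ?_
      field_simp
      linear_combination q * e3 - α u * e2 + β u * e1
  · rintro ⟨c1, c2, hc⟩ α β hα hβ
    have e1 := hα _ hF
    have e2 := hβ _ hF
    have e3 := hα _ hc
    have e4 := hβ _ hc
    rw [map_add, conc_C, conc_C] at e1 e2
    rw [map_sub, map_add, map_add, conc_C, conc_C, conc_C, conc_C] at e3 e4
    rcases hpq with hp | hq
    · have e5 : α f * β g - β f * α g = 0 := by
        refine mul_left_cancel₀ hp ?_
        linear_combination β g * e1 - α g * e2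
      refine mul_left_cancel₀ hp ?_
      linear_combination β g * e3 - α g * e4 + β v * e1 - α v * e2 + c1 * e5
    · have e5 : α f * β g - β f * α g = 0 := by
        refine mul_left_cancel₀ hq ?_
        linear_combination α f * e2 - β f * e1
      refine mul_left_cancel₀ hq ?_
      linear_combination α f * e4 - β f * e3 + α u * e2 - β u * e1 + c2 * e5

end Pool.Agent.Lib.MP_0ae92b_ag.G26
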