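import Pool.Agent.Lib.MP_0ae92b_ag.G26.AY
import Pool.Agent.Lib.MP_0ae92b_ag.G26.ARoot
import Pool.Agent.Lib.MP_0ae92b_ag.G26.ASos

set_option autoImplicit false

/-!
# Part (A): no node if one row is at least `d - 3`

PROOF.  `AY` gives `κ`, `Y` and the identity with `C (m_0 + 2) = C (d - 1)`; `∑_{k≠i0} m_k = 2 d - 3 - m_0 = d`, `d = m_0 + 3 ≥ 4`.
`ARoot` (`J = univ.erase i0`, `M = N Π`): all complex roots of `κ` are real, so `κ = c · κ_0` with `c ≠ 0` complex (leading coefficient) and `κ_0` the image of a real polynomial, `κ_0 ≠ 0`.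
In the identity replace `N` by `c² N` and `κ` by `κ_0`.  Take real and imaginary parts of all coefficients: everything except `Y` and `N` is real and the identity is linear in `(Y, N)`, so
it holds for `(Re Y, Re N)` and for `(Im Y, Im N)` in `ℝ[X]`; one of `Re N`, `Im N` is nonzero; `ASos` for it.
-/

namespace Pool.Agent.Lib.MP_0ae92b_ag.G26

open Polynomial

variable {ι : Type} [Fintype ι] [DecidableEq ι]

/-- Image of a complex polynomial under an `ℝ`-linear functional on the coefficients. -/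
private noncomputable def noApl (L : ℂ →ₗ[ℝ] ℝ) (P : ℂ[X]) : ℝ[X] :=
  ∑ i ∈ Finset.range (P.natDegree + 1), monomial i (L (P.coeff i))

private theorem noApl_coeff (L : ℂ →ₗ[ℝ] ℝ) (P : ℂ[X]) (n : ℕ) :
    (noApl L P).coeff n = L (P.coeff n) := by
  unfold noApl
  rw [finsetSum_coeff]
  simp only [coeff_monomial, Finset.sum_ite_eq', Finset.mem_range]
  split_ifs with h
  · rfl
  · rw [coeff_eq_zero_of_natDegree_lt (by omega), map_zero]

private theorem noApl_add (L : ℂ →ₗ[ℝ] ℝ) (P Q : ℂ[X]) : noApl L (P + Q) = noApl L P + noApl L Q := by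
  ext n
  simp [noApl_coeff]

private theorem noApl_mul (L : ℂ →ₗ[ℝ] ℝ) (P : ℂ[X]) (Q : ℝ[X]) :
    noApl L (P * Q.map Complex.ofRealHom) = noApl L P * Q := by
  ext n
  rw [noApl_coeff, coeff_mul, coeff_mul, map_sum]
  refine Finset.sum_congr rfl fun z _ => ?_
  rw [noApl_coeff, coeff_map, mul_comm (P.coeff z.1)]
  have : (Complex.ofRealHom (Q.coeff z.2)) * P.coeff z.1 = (Q.coeff z.2) • P.coeff z.1 := by
    rw [Complex.real_smul]; rfl
  rw [this, map_smul, smul_eq_mul, mul_comm]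

private theorem noApl_derivative (L : ℂ →ₗ[ℝ] ℝ) (P : ℂ[X]) :
    noApl L (derivative P) = derivative (noApl L P) := by
  ext n
  rw [noApl_coeff, coeff_derivative, coeff_derivative, noApl_coeff]
  have : P.coeff (n + 1) * ((n : ℂ) + 1) = ((n : ℝ) + 1) • P.coeff (n + 1) := by
    rw [Complex.real_smul]; push_cast; ring
  rw [this, map_smul, smul_eq_mul, mul_comm]

private theorem noApl_natDegree (L : ℂ →ₗ[ℝ] ℝ) (P : ℂ[X]) :
    (noApl L P).natDegree ≤ P.natDegree := by
  rw [natDegree_le_iff_coeff_eq_zero]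
  intro n hn
  rw [noApl_coeff, coeff_eq_zero_of_natDegree_lt hn, map_zero]

private theorem noA_real (κ : ℂ[X]) (h : ∀ w, κ.eval w = 0 → w.im = 0) :
    ∃ κr : ℝ[X], κ = C κ.leadingCoeff * κr.map Complex.ofRealHom := by
  refine ⟨(κ.roots.map fun w => X - C w.re).prod, ?_⟩
  conv_lhs => rw [(IsAlgClosed.splits κ).eq_prod_roots]
  congr 1
  rw [Polynomial.map_multiset_prod, Multiset.map_map]
  congr 1
  refine Multiset.map_congr rfl fun w hw => ?_
  have hw0 : w.im = 0 := h w (isRoot_of_mem_roots hw)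
  have : ((w.re : ℝ) : ℂ) = w := by
    apply Complex.ext <;> simp [hw0]
  simp [this]

theorem no_node_A (x : ι → ℝ) (m : ι → ℕ) (hm : ∀ k, 1 ≤ m k) (d : ℕ) (f g : ℂ[X]) (p q : ι → ℂ)
    (N : ℂ[X]) (r : ι → ℂ[X]) (hD : PData x m d f g p q) (hN : IsNode x m f g p q N r)
    (i0 : ι) (hi0 : d ≤ m i0 + 3) : False := by
  obtain ⟨hmd, κ, Y, hκ, hY, hκ2, hY1, hid⟩ := AY x m hm d f g p q N r hD hN i0 hi0
  have hsum := hD.hsum
  have hsumJ : ∑ k ∈ Finset.univ.erase i0, m k = d := by
    have := Finset.add_sum_erase Finset.univ m (Finset.mem_univ i0)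
    omega
  have hx0 : ∀ k ∈ Finset.univ.erase i0, x k ≠ x i0 := fun k hk he =>
    (Finset.ne_of_mem_erase hk) (hD.hx he)
  have hroots : ∀ w, κ.eval w = 0 → w.im = 0 := by
    intro w hw
    refine ARoot (Finset.univ.erase i0) x (x i0) hx0 m d (by omega) hsumJ κ Y
      (N * ∏ k ∈ Finset.univ.erase i0, (X - C (xc x k)) ^ (m k - 1)) hY hY1 ?_ w hw
    have h1 : ((d : ℂ) - 1) = (m i0 : ℂ) + 2 := by
      rw [← hmd]; push_cast; ring
    rw [h1]
    unfold xc at hid
    unfold xc
    linear_combination hid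
  obtain ⟨κr, hκr⟩ := noA_real κ hroots
  set lc := κ.leadingCoeff with hlc
  have hlc0 : lc ≠ 0 := leadingCoeff_ne_zero.2 hκ
  have hκr0 : κr ≠ 0 := by
    rintro rfl
    apply hκ
    rw [hκr]; simp
  have hκrd : κr.natDegree ≤ 2 := by
    have h1 : κ.natDegree = κr.natDegree := by
      rw [hκr, natDegree_C_mul hlc0]
      exact natDegree_map_eq_of_injective Complex.ofRealHom.injective κr
    omega
  set N1 : ℂ[X] := C (lc ^ 2) * N with hN1
  have hN10 : N1 ≠ 0 := mul_ne_zero (C_ne_zero.2 (pow_ne_zero _ hlc0)) hN.hN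
  have hex : ∃ L : ℂ →ₗ[ℝ] ℝ, noApl L N1 ≠ 0 := by
    by_contra hc
    push Not at hc
    apply hN10
    ext n
    have h1 := congrArg (fun P => P.coeff n) (hc Complex.reLm)
    have h2 := congrArg (fun P => P.coeff n) (hc Complex.imLm)
    simp only [noApl_coeff, coeff_zero] at h1 h2
    rw [coeff_zero]
    exact Complex.ext h1 h2
  obtain ⟨L, hL⟩ := hex
  set Dr : ℝ[X] := ∏ k ∈ Finset.univ.erase i0, (X - C (x k)) ^ m k with hDr
  set Pr : ℝ[X] := ∏ k ∈ Finset.univ.erase i0, (X - C (x k)) ^ (m k - 1) with hPr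
  have hDm : (∏ k ∈ Finset.univ.erase i0, (X - C (xc x k)) ^ m k : ℂ[X]) =
      Dr.map Complex.ofRealHom := by
    rw [hDr, Polynomial.map_prod]
    exact Finset.prod_congr rfl fun k _ => by simp [xc]
  have hPm : (∏ k ∈ Finset.univ.erase i0, (X - C (xc x k)) ^ (m k - 1) : ℂ[X]) =
      Pr.map Complex.ofRealHom := by
    rw [hPr, Polynomial.map_prod]
    exact Finset.prod_congr rfl fun k _ => by simp [xc]
  have hXm : (X - C (xc x i0) : ℂ[X]) = (X - C (x i0) : ℝ[X]).map Complex.ofRealHom := by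
    simp [xc]
  have hCm : (C ((m i0 : ℂ) + 2) : ℂ[X]) =
      (C ((m i0 : ℝ) + 2) : ℝ[X]).map Complex.ofRealHom := by
    simp
  rw [hDm, hPm, hXm, hCm, derivative_map] at hid
  have hid2 : derivative Y * ((X - C (x i0)) * Dr).map Complex.ofRealHom +
      Y * (C ((m i0 : ℝ) + 2) * Dr - (X - C (x i0)) * derivative Dr).map Complex.ofRealHom =
      N1 * (κr ^ 2 * Pr).map Complex.ofRealHom := by
    rw [Polynomial.map_sub, Polynomial.map_mul, Polynomial.map_mul, Polynomial.map_mul,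
      Polynomial.map_mul, Polynomial.map_pow]
    rw [hκr] at hid
    rw [hN1, C_pow]
    linear_combination hid
  have hid3 := congrArg (noApl L) hid2
  rw [noApl_add, noApl_mul, noApl_mul, noApl_mul, noApl_derivative] at hid3
  refine ASos (Finset.univ.erase i0) x (fun k _ l _ he => hD.hx he) (x i0) hx0 m
    (fun k _ => hm k) ((m i0 : ℝ) + 2) κr (noApl L Y) (noApl L N1) hκr0 hL hκrd
    ((noApl_natDegree L Y).trans hY1) ?_ ?_
  · have h1 := noApl_natDegree L N1
    have h2 : N1.natDegree ≤ N.natDegree := by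
      rw [hN1]; exact natDegree_C_mul_le _ _
    have h3 := hN.hdeg
    rw [Finset.card_erase_of_mem (Finset.mem_univ i0), Finset.card_univ]
    omega
  · linear_combination hid3

end Pool.Agent.Lib.MP_0ae92b_ag.G26
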