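import Pool.Agent.Lib.MP_0ae92b_ag.G26.Pol

set_option autoImplicit false

/-!
# The node relation at a simple point

PROOF.  Everything is evaluated at `x_k`; `E = Ek x m k`, `r = r_k`.  The terms `j ≠ k` of the sums in `hf`, `hg` are divisible by `(X - x_k)²`, so
`N f = q_k E r`, `(N f)' = q_k (E' r + E r')`, `N g = -p_k E r`, `(N g)' = -p_k (E' r + E r')`; `E' = 2 S E` (`S = Sg (xc x) k`, all `m_j = 1`).
`hrf`, `hrg` (coefficient `1` of the Taylor expansion at `x_k` is the derivative): `r' f + r f' = 0`, `r' g + r g' = 0`.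
`hdiv`: `p_k f + q_k g = 0 = p_k f' + q_k g'`, so `f g' = f' g`.
Then `f (N' f + N f') = 2 S N f² + f q_k E r' = 2 S N f² - q_k E r f' = 2 S N f² - N f f'`, i.e. `f · (N' f + 2 N f' - 2 N S f) = 0`, and in
the same way `f · (N' g + 2 N g' - 2 N S g) = 0` (use `f g' = f' g`), and both with the factor `g` instead of `f`.  One of `f, g` is nonzero at `x_k`.
-/

namespace Pool.Agent.Lib.MP_0ae92b_ag.G26

open Polynomial

variable {ι : Type} [Fintype ι] [DecidableEq ι]

private theorem der_self (x : ι → ℂ) (hx : Function.Injective x) (k : ι) :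
    (derivative (∏ j ∈ Finset.univ.erase k, (X - C (x j)))).eval (x k) =
      (∏ j ∈ Finset.univ.erase k, (X - C (x j))).eval (x k) * Sg x k := by
  rw [derivative_prod_finset, eval_finsetSum, Sg, Finset.mul_sum,
    ← Finset.sum_erase_add Finset.univ _ (Finset.mem_univ k), sub_self, inv_zero, mul_zero,
    add_zero]
  refine Finset.sum_congr rfl fun i hi => ?_
  have hne : x k - x i ≠ 0 := sub_ne_zero.mpr (hx.ne (Finset.ne_of_mem_erase hi).symm)
  rw [derivative_X_sub_C, mul_one, ← Finset.mul_prod_erase _ _ hi, eval_mul]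
  simp only [eval_sub, eval_X, eval_C]
  field_simp

theorem node_rel (x : ι → ℝ) (m : ι → ℕ) (hm : ∀ k, m k = 1) (d : ℕ) (f g : ℂ[X]) (p q : ι → ℂ)
    (N : ℂ[X]) (r : ι → ℂ[X]) (hD : PData x m d f g p q) (hN : IsNode x m f g p q N r) (k : ι)
    (hnb : f.eval (xc x k) ≠ 0 ∨ g.eval (xc x k) ≠ 0) : Lrel x N f k ∧ Lrel x N g k := by
  classical
  have hxc : Function.Injective (xc x) := by
    intro i j h
    have h2 : ((x i : ℝ) : ℂ) = ((x j : ℝ) : ℂ) := h
    exact hD.hx (by exact_mod_cast h2)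
  obtain ⟨a, ha⟩ : ∃ a, a = xc x k := ⟨_, rfl⟩
  obtain ⟨E, hE⟩ : ∃ E, E = Ek x m k := ⟨_, rfl⟩
  obtain ⟨S, hS⟩ : ∃ S, S = Sg (xc x) k := ⟨_, rfl⟩
  obtain ⟨R, hR⟩ : ∃ R, R = r k := ⟨_, rfl⟩
  have hE' : (derivative E).eval a = 2 * (S * E.eval a) := by
    have h1 : E = (∏ j ∈ Finset.univ.erase k, (X - C (xc x j))) ^ 2 := by
      rw [hE, Ek, ← Finset.prod_pow]
      exact Finset.prod_congr rfl fun j _ => by rw [hm j]
    have h2 := der_self (xc x) hxc k
    rw [h1, derivative_sq, eval_mul, eval_mul, eval_pow, ha, h2, ← hS]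
    simp only [eval_C]
    ring
  -- the other terms
  have hother : ∀ j, j ≠ k → (X - C a) ^ 2 ∣ Ek x m j := by
    intro j hj
    have h1 := Finset.dvd_prod_of_mem (fun j => (X - C (xc x j)) ^ (m j + 1))
      (Finset.mem_erase.mpr ⟨hj.symm, Finset.mem_univ k⟩)
    simp only [hm k, ← ha] at h1
    exact h1
  have hsum : ∀ c : ι → ℂ, ∃ Z : ℂ[X], ∑ j, C (c j) * (Ek x m j * r j) =
      C (c k) * (E * R) + (X - C a) ^ 2 * Z := by
    intro c
    have h1 : (X - C a) ^ 2 ∣ ∑ j ∈ Finset.univ.erase k, C (c j) * (Ek x m j * r j) :=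
      Finset.dvd_sum fun j hj =>
        ((hother j (Finset.ne_of_mem_erase hj)).mul_right (r j)).mul_left (C (c j))
    obtain ⟨Z, hZ⟩ := h1
    refine ⟨Z, ?_⟩
    rw [← Finset.add_sum_erase _ _ (Finset.mem_univ k), hZ, hE, hR]
  have hval : ∀ (P Q Z : ℂ[X]), P = Q + (X - C a) ^ 2 * Z →
      P.eval a = Q.eval a ∧ (derivative P).eval a = (derivative Q).eval a := by
    intro P Q Z h
    rw [h]
    constructor
    · simp
    · rw [derivative_add, derivative_mul, derivative_sq]
      simp
  obtain ⟨Z1, hZ1⟩ := hsum q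
  obtain ⟨Z2, hZ2⟩ := hsum p
  have h1 := hval _ _ _ (hN.hf.trans hZ1)
  have hg2 : N * g = -(C (p k) * (E * R)) + (X - C a) ^ 2 * (-Z2) := by
    rw [hN.hg, hZ2]; ring
  have h2 := hval _ _ _ hg2
  have h3 : (derivative (R * f)).eval a = 0 := by
    have := hN.hrf k
    rw [hm k, taylor_coeff_one, ← ha, ← hR] at this
    exact this
  have h4 : (derivative (R * g)).eval a = 0 := by
    have := hN.hrg k
    rw [hm k, taylor_coeff_one, ← ha, ← hR] at this
    exact this
  obtain ⟨W, hW⟩ := hD.hdiv k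
  rw [hm k, ← ha, show 1 + 1 = 2 from rfl] at hW
  have h5 := hval (C (p k) * f + C (q k) * g) 0 W (by rw [hW, zero_add])
  simp only [derivative_mul, derivative_add, derivative_C, derivative_neg, derivative_zero,
    eval_add, eval_mul, eval_C, eval_neg, eval_zero, zero_mul, zero_add] at h1 h2 h3 h4 h5
  rw [hE'] at h1 h2
  unfold Lrel
  rw [← ha] at hnb ⊢
  rw [← hS]
  obtain ⟨a1, b1⟩ := h1
  obtain ⟨a2, b2⟩ := h2
  obtain ⟨a5, b5⟩ := h5
  generalize hfa : f.eval a = F at *
  generalize hga : g.eval a = G at *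
  generalize (derivative f).eval a = F' at *
  generalize (derivative g).eval a = G' at *
  generalize N.eval a = n at *
  generalize (derivative N).eval a = n' at *
  generalize E.eval a = e at *
  generalize R.eval a = ρ at *
  generalize (derivative R).eval a = ρ' at *
  have hw : F * G' = F' * G := by
    rcases hD.hpq k with h | h
    · apply mul_left_cancel₀ h
      linear_combination G' * a5 - G * b5
    · apply mul_left_cancel₀ h
      linear_combination F * b5 - F' * a5
  have k1 : n' * F + 2 * (n * F') - 2 * (n * (S * F)) = q k * (e * ρ') + n * F' := by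
    linear_combination b1 - 2 * S * a1
  have k2 : n' * G + 2 * (n * G') - 2 * (n * (S * G)) = -(p k * (e * ρ')) + n * G' := by
    linear_combination b2 - 2 * S * a2
  have z1 : F * (q k * (e * ρ') + n * F') = 0 := by
    linear_combination q k * e * h3 + F' * a1
  have z2 : G * (q k * (e * ρ') + n * F') = 0 := by
    linear_combination q k * e * h4 + G' * a1 - n * hw
  have z3 : F * (-(p k * (e * ρ')) + n * G') = 0 := by
    linear_combination -(p k * e) * h3 + F' * a2 + n * hw
  have z4 : G * (-(p k * (e * ρ')) + n * G') = 0 := by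
    linear_combination -(p k * e) * h4 + G' * a2
  rcases hnb with h | h
  · have w1 := (mul_eq_zero.mp z1).resolve_left h
    have w2 := (mul_eq_zero.mp z3).resolve_left h
    exact ⟨by linear_combination k1 + w1, by linear_combination k2 + w2⟩
  · have w1 := (mul_eq_zero.mp z2).resolve_left h
    have w2 := (mul_eq_zero.mp z4).resolve_left h
    exact ⟨by linear_combination k1 + w1, by linear_combination k2 + w2⟩

end Pool.Agent.Lib.MP_0ae92b_ag.G26
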