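import Pool.Agent.Lib.MP_0ae92b_ag.G26.WrZero

set_option autoImplicit false

/-!
# Wronskian bookkeeping

PROOF.  `W = Wr f g ≠ 0` by `wr_zero` and `hfg`.
`wr_fact`: `p_k W = Wr (p_k f + q_k g) g` and `q_k W = Wr f (p_k f + q_k g)`, and `(X - x_k)^(m_k)` divides the Wronskian of a multiple of
`(X - x_k)^(m_k+1)` with anything, so `(X - x_k)^(m_k) ∣ W` for every `k`; the factors are pairwise coprime, so their product `D_m` (of degree `2 d - 3`)
divides `W`, `W = D_m ℓ`, `ℓ ≠ 0`, and `deg W ≤ 2 d - 2` (`wr_natDegree`) gives `deg ℓ ≤ 1`.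
`wr_nb`: if both `f` and `g` are divisible by `(X - x_k)^(m_k+1)` then `(X - x_k)^(2 m_k + 2)` divides `W = D_m ℓ`, where `D_m` contains `(X - x_k)` exactly `m_k` times,
so `(X - x_k)^(m_k+2) ∣ ℓ`, impossible (`deg ℓ ≤ 1`, `ℓ ≠ 0`).
`wr_two`: a common zero `ξ` of `f, g` is a double zero of `W`; two different common zeros `ξ, η`: `(X - ξ)²(X - η)² ∣ D_m ℓ`.  ONLY used when all `m_k = 1`: then `D_m` has simple zeros, so
`(X - ξ)(X - η) ∣ ℓ`, impossible.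
`wr_base`: a common zero `ξ` which is none of the `x_k` would give `(X - ξ)² ∣ ℓ`, impossible, so `ξ = x_i`; if `(X - x_i)^(m_i+2)` divided `h_i = p_i f + q_i g` then, as the other
element of the basis is divisible by `X - x_i`, `(X - x_i)^(m_i+2) ∣ W` (`h = (X-ξ)^(m+2) a`, `e = (X - ξ) b`: both `h e'` and `h' e` are divisible), so `(X - x_i)² ∣ ℓ`, impossible.
`wr_deg`: if both degrees were at most `d - 1` then `deg W ≤ 2 (d-1) - 2 = 2 d - 4 < 2 d - 3 = deg D_m` (`d ≥ 2` by `hsum`; if `d - 1 < 1` treat `deg W = 0` separately), impossible.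
-/

namespace Pool.Agent.Lib.MP_0ae92b_ag.G26

open Polynomial

variable {ι : Type} [Fintype ι] [DecidableEq ι]

private theorem dvd_wr_left (a : ℂ) (μ : ℕ) (h e : ℂ[X]) (hh : (X - C a) ^ (μ + 1) ∣ h) :
    (X - C a) ^ μ ∣ Wr h e := by
  obtain ⟨b, rfl⟩ := hh
  refine ⟨(X - C a) * b * derivative e - (C ((μ : ℂ) + 1) * b + (X - C a) * derivative b) * e, ?_⟩
  rw [Wr, derivative_mul, derivative_pow_succ, derivative_X_sub_C, mul_one, pow_succ]
  ring

private theorem dvd_wr_left2 (a : ℂ) (μ : ℕ) (h e : ℂ[X]) (hh : (X - C a) ^ (μ + 1) ∣ h)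
    (he : (X - C a) ∣ e) : (X - C a) ^ (μ + 1) ∣ Wr h e := by
  obtain ⟨b, rfl⟩ := hh
  obtain ⟨c, rfl⟩ := he
  refine ⟨b * (c + (X - C a) * derivative c) -
    (C ((μ : ℂ) + 1) * b + (X - C a) * derivative b) * c, ?_⟩
  have e1 : derivative ((X - C a) ^ (μ + 1) * b) =
      (C ((μ : ℂ) + 1) * (X - C a) ^ μ) * b + (X - C a) ^ (μ + 1) * derivative b := by
    rw [derivative_mul, derivative_pow_succ, derivative_X_sub_C, mul_one]
  have e2 : derivative ((X - C a) * c) = c + (X - C a) * derivative c := by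
    rw [derivative_mul, derivative_X_sub_C, one_mul]
  rw [Wr, e1, e2, pow_succ]
  ring

private theorem wr_left (f g : ℂ[X]) (a b : ℂ) :
    Wr (C a * f + C b * g) g = C a * Wr f g := by
  simp only [Wr, derivative_add, derivative_C_mul]
  ring

private theorem wr_right (f g : ℂ[X]) (a b : ℂ) :
    Wr (C a * f + C b * g) f = C (-b) * Wr f g := by
  simp only [Wr, derivative_add, derivative_C_mul, C_neg]
  ring

private theorem dvd_of_C_mul {a : ℂ} (ha : a ≠ 0) {F G : ℂ[X]} (h : F ∣ C a * G) : F ∣ G := by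
  have h2 := h.mul_left (C a⁻¹)
  rwa [← mul_assoc, ← C_mul, inv_mul_cancel₀ ha, C_1, one_mul] at h2

omit [Fintype ι] [DecidableEq ι] in
private theorem xc_inj {x : ι → ℝ} (hx : Function.Injective x) : Function.Injective (xc x) := by
  intro i j h
  have h2 : ((x i : ℝ) : ℂ) = ((x j : ℝ) : ℂ) := h
  exact hx (by exact_mod_cast h2)

private theorem cop_prod {x : ι → ℝ} (hx : Function.Injective x) (m : ι → ℕ) (k : ι) (μ : ℕ) :
    IsCoprime ((X - C (xc x k)) ^ μ) (∏ j ∈ Finset.univ.erase k, (X - C (xc x j)) ^ m j) := by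
  refine IsCoprime.prod_right fun j hj => ?_
  exact (pairwise_coprime_X_sub_C (xc_inj hx) (Finset.ne_of_mem_erase hj).symm).pow

omit [DecidableEq ι] in
private theorem prod_deg (x : ι → ℝ) (m : ι → ℕ) :
    (∏ k, (X - C (xc x k)) ^ m k).natDegree = ∑ k, m k := by
  rw [natDegree_prod_of_monic _ _ (fun k _ => (monic_X_sub_C _).pow _)]
  exact Finset.sum_congr rfl fun k _ => by rw [natDegree_pow, natDegree_X_sub_C, mul_one]

private theorem le_of_pow_dvd {a : ℂ} {μ : ℕ} {ℓ : ℂ[X]} (h0 : ℓ ≠ 0) (h1 : ℓ.natDegree ≤ 1)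
    (h : (X - C a) ^ μ ∣ ℓ) : μ ≤ 1 := by
  have := natDegree_le_of_dvd h h0
  rw [natDegree_pow, natDegree_X_sub_C, mul_one] at this
  omega

private theorem dvd_ell {x : ι → ℝ} (hx : Function.Injective x) (m : ι → ℕ) {ℓ : ℂ[X]} (k : ι)
    (μ : ℕ) (h : (X - C (xc x k)) ^ (m k + μ) ∣ (∏ k, (X - C (xc x k)) ^ m k) * ℓ) :
    (X - C (xc x k)) ^ μ ∣ ℓ := by
  rw [← Finset.mul_prod_erase _ _ (Finset.mem_univ k), pow_add, mul_assoc] at h
  have h2 := (mul_dvd_mul_iff_left (pow_ne_zero (m k) (X_sub_C_ne_zero (xc x k)))).mp h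
  exact (cop_prod hx m k μ).dvd_of_dvd_mul_left h2

private theorem dvd_ell_other {x : ι → ℝ} (m : ι → ℕ) {ℓ : ℂ[X]} (ξ : ℂ)
    (hξ : ∀ k, ξ ≠ xc x k) (μ : ℕ) (h : (X - C ξ) ^ μ ∣ (∏ k, (X - C (xc x k)) ^ m k) * ℓ) :
    (X - C ξ) ^ μ ∣ ℓ := by
  refine IsCoprime.dvd_of_dvd_mul_left ?_ h
  refine IsCoprime.prod_right fun j _ => ?_
  exact (isCoprime_X_sub_C_of_isUnit_sub (sub_ne_zero.mpr (hξ j)).isUnit).pow

private theorem common_zero {f g : ℂ[X]} {ξ : ℂ} (hf : f.eval ξ = 0) (hg : g.eval ξ = 0) :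
    (X - C ξ) ^ 2 ∣ Wr f g := by
  have h1 : (X - C ξ) ^ (0 + 1) ∣ f := by
    rw [zero_add, pow_one]; exact dvd_iff_isRoot.mpr hf
  have h2 : (X - C ξ) ∣ g := dvd_iff_isRoot.mpr hg
  obtain ⟨a, rfl⟩ := h1
  obtain ⟨b, rfl⟩ := h2
  refine ⟨a * derivative b - derivative a * b, ?_⟩
  rw [Wr, zero_add, pow_one, derivative_mul, derivative_mul, derivative_X_sub_C]
  ring

theorem wr_fact (x : ι → ℝ) (m : ι → ℕ) (d : ℕ) (f g : ℂ[X]) (p q : ι → ℂ)
    (hD : PData x m d f g p q) :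
    ∃ ℓ : ℂ[X], ℓ ≠ 0 ∧ ℓ.natDegree ≤ 1 ∧ Wr f g = (∏ k, (X - C (xc x k)) ^ m k) * ℓ := by
  have hW : Wr f g ≠ 0 := by
    intro h
    obtain ⟨c1, c2, hc, h2⟩ := wr_zero f g h
    have := hD.hfg c1 c2 h2
    rcases hc with h1 | h1
    · exact h1 this.1
    · exact h1 this.2
  have hdk : ∀ k, (X - C (xc x k)) ^ m k ∣ Wr f g := by
    intro k
    have h1 := hD.hdiv k
    rcases hD.hpq k with h2 | h2
    · have := dvd_wr_left (xc x k) (m k) _ g h1
      rw [wr_left] at this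
      exact dvd_of_C_mul h2 this
    · have := dvd_wr_left (xc x k) (m k) _ f h1
      rw [wr_right] at this
      exact dvd_of_C_mul (neg_ne_zero.mpr h2) this
  have hprod : (∏ k, (X - C (xc x k)) ^ m k) ∣ Wr f g := by
    refine Finset.prod_dvd_of_coprime ?_ fun k _ => hdk k
    intro i _ j _ hij
    exact (pairwise_coprime_X_sub_C (xc_inj hD.hx) hij).pow
  obtain ⟨ℓ, hℓ⟩ := hprod
  have hℓ0 : ℓ ≠ 0 := by
    rintro rfl
    exact hW (by rw [hℓ, mul_zero])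
  refine ⟨ℓ, hℓ0, ?_, hℓ⟩
  have hmon : (∏ k, (X - C (xc x k)) ^ m k).Monic :=
    monic_prod_of_monic _ _ fun k _ => (monic_X_sub_C _).pow _
  have h1 := wr_natDegree f g d hD.hf hD.hg
  rw [hℓ, natDegree_mul hmon.ne_zero hℓ0, prod_deg] at h1
  have h2 := hD.hsum
  omega

theorem wr_nb (x : ι → ℝ) (m : ι → ℕ) (d : ℕ) (f g : ℂ[X]) (p q : ι → ℂ)
    (hD : PData x m d f g p q) (k : ι) :
    ¬((X - C (xc x k)) ^ (m k + 1) ∣ f ∧ (X - C (xc x k)) ^ (m k + 1) ∣ g) := by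
  rintro ⟨⟨a, ha⟩, ⟨b, hb⟩⟩
  obtain ⟨ℓ, h0, h1, hℓ⟩ := wr_fact x m d f g p q hD
  have hW : Wr f g = (X - C (xc x k)) ^ (m k + (m k + 2)) * Wr a b := by
    rw [ha, hb]
    simp only [Wr, derivative_mul]
    have : (X - C (xc x k)) ^ (m k + (m k + 2)) =
        (X - C (xc x k)) ^ (m k + 1) * (X - C (xc x k)) ^ (m k + 1) := by
      rw [← pow_add]; congr 1; ring
    rw [this]
    ring
  have h2 : (X - C (xc x k)) ^ (m k + (m k + 2)) ∣ (∏ k, (X - C (xc x k)) ^ m k) * ℓ := by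
    rw [← hℓ, hW]; exact Dvd.intro _ rfl
  have := le_of_pow_dvd h0 h1 (dvd_ell hD.hx m k _ h2)
  omega

theorem wr_two (x : ι → ℝ) (m : ι → ℕ) (hm : ∀ k, m k = 1) (d : ℕ) (f g : ℂ[X]) (p q : ι → ℂ)
    (hD : PData x m d f g p q) (ξ η : ℂ) (hne : ξ ≠ η) (hξf : f.eval ξ = 0) (hξg : g.eval ξ = 0)
    (hηf : f.eval η = 0) (hηg : g.eval η = 0) : False := by
  obtain ⟨ℓ, h0, h1, hℓ⟩ := wr_fact x m d f g p q hD
  have key : ∀ ξ : ℂ, f.eval ξ = 0 → g.eval ξ = 0 → (X - C ξ) ∣ ℓ := by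
    intro ξ hf hg
    have h2 := common_zero hf hg
    rw [hℓ] at h2
    by_cases hξ : ∃ k, ξ = xc x k
    · obtain ⟨k, rfl⟩ := hξ
      have h3 : (X - C (xc x k)) ^ (m k + 1) ∣ (∏ k, (X - C (xc x k)) ^ m k) * ℓ := by
        rw [hm k]; exact h2
      have := dvd_ell hD.hx m k 1 h3
      rwa [pow_one] at this
    · push Not at hξ
      exact (Dvd.intro_left (X - C ξ) (by ring)).trans (dvd_ell_other m ξ hξ 2 h2)
  have hcop : IsCoprime (X - C ξ) (X - C η) :=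
    isCoprime_X_sub_C_of_isUnit_sub (sub_ne_zero.mpr hne).isUnit
  have h2 := natDegree_le_of_dvd (hcop.mul_dvd (key ξ hξf hξg) (key η hηf hηg)) h0
  rw [natDegree_mul (X_sub_C_ne_zero _) (X_sub_C_ne_zero _), natDegree_X_sub_C,
    natDegree_X_sub_C] at h2
  omega

theorem wr_base (x : ι → ℝ) (m : ι → ℕ) (d : ℕ) (f g : ℂ[X]) (p q : ι → ℂ)
    (hD : PData x m d f g p q) (ξ : ℂ) (hξf : f.eval ξ = 0) (hξg : g.eval ξ = 0) :
    ∃ i, ξ = xc x i ∧ ¬((X - C (xc x i)) ^ (m i + 2) ∣ C (p i) * f + C (q i) * g) := by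
  obtain ⟨ℓ, h0, h1, hℓ⟩ := wr_fact x m d f g p q hD
  by_cases hξ : ∃ k, ξ = xc x k
  · obtain ⟨k, rfl⟩ := hξ
    refine ⟨k, rfl, fun h => ?_⟩
    have h2 : (X - C (xc x k)) ^ (m k + 2) ∣ Wr f g := by
      rcases hD.hpq k with h3 | h3
      · have := dvd_wr_left2 (xc x k) (m k + 1) _ g h (dvd_iff_isRoot.mpr hξg)
        rw [wr_left] at this
        exact dvd_of_C_mul h3 this
      · have := dvd_wr_left2 (xc x k) (m k + 1) _ f h (dvd_iff_isRoot.mpr hξf)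
        rw [wr_right] at this
        exact dvd_of_C_mul (neg_ne_zero.mpr h3) this
    rw [hℓ] at h2
    have := le_of_pow_dvd h0 h1 (dvd_ell hD.hx m k _ h2)
    omega
  · push Not at hξ
    have h2 := common_zero hξf hξg
    rw [hℓ] at h2
    have := le_of_pow_dvd h0 h1 (dvd_ell_other m ξ hξ 2 h2)
    omega

theorem wr_deg (x : ι → ℝ) (m : ι → ℕ) (d : ℕ) (f g : ℂ[X]) (p q : ι → ℂ)
    (hD : PData x m d f g p q) : f.natDegree = d ∨ g.natDegree = d := by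
  by_contra hcon
  push Not at hcon
  obtain ⟨ℓ, h0, h1, hℓ⟩ := wr_fact x m d f g p q hD
  have hf : f.natDegree ≤ d - 1 := by have := hD.hf; omega
  have hg : g.natDegree ≤ d - 1 := by have := hD.hg; omega
  have h2 := wr_natDegree f g (d - 1) hf hg
  have hmon : (∏ k, (X - C (xc x k)) ^ m k).Monic :=
    monic_prod_of_monic _ _ fun k _ => (monic_X_sub_C _).pow _
  rw [hℓ, natDegree_mul hmon.ne_zero h0, prod_deg] at h2
  have h3 := hD.hsum
  omega

end Pool.Agent.Lib.MP_0ae92b_ag.G26
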