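import Pool.Agent.Lib.MP_0ae92b_ag.G26.B7
import Pool.Agent.Lib.MP_0ae92b_ag.G26.Bbase
import Pool.Agent.Lib.MP_0ae92b_ag.G26.NodeRel
import Pool.Agent.Lib.MP_0ae92b_ag.G26.WrFacts

set_option autoImplicit false

/-!
# Part (B): no node for `d = 5` and seven simple points
-/

namespace Pool.Agent.Lib.MP_0ae92b_ag.G26

open Polynomial

variable {ι : Type} [Fintype ι] [DecidableEq ι]

theorem no_node_B (x : ι → ℝ) (m : ι → ℕ) (hm : ∀ k, m k = 1) (f g : ℂ[X]) (p q : ι → ℂ)
    (N : ℂ[X]) (r : ι → ℂ[X]) (hD : PData x m 5 f g p q) (hN : IsNode x m f g p q N r) :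
    False := by
  have hcard : Fintype.card ι = 7 := by
    have h1 := hD.hsum
    simp only [hm, Finset.sum_const, Finset.card_univ, smul_eq_mul, mul_one] at h1
    omega
  have hdeg : N.natDegree ≤ 2 := by
    have := hN.hdeg
    omega
  by_cases hb : ∃ i0, f.eval (xc x i0) = 0 ∧ g.eval (xc x i0) = 0
  · obtain ⟨i0, hf0, hg0⟩ := hb
    have hnb : ∀ k, k ≠ i0 → (f.eval (xc x k) ≠ 0 ∨ g.eval (xc x k) ≠ 0) := by
      intro k hk
      by_contra hcon
      push Not at hcon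
      refine wr_two x m hm 5 f g p q hD (xc x k) (xc x i0) ?_ hcon.1 hcon.2 hf0 hg0
      intro h0
      exact hk (hD.hx (by simpa [xc] using h0))
    exact Bbase hcard x hD.hx f g hD.hf hD.hg hD.hfg N hN.hN hdeg i0 hf0 hg0 hnb
      (fun k hk => (node_rel x m hm 5 f g p q N r hD hN k (hnb k hk)).1)
      (fun k hk => (node_rel x m hm 5 f g p q N r hD hN k (hnb k hk)).2)
  · have hnb : ∀ k, f.eval (xc x k) ≠ 0 ∨ g.eval (xc x k) ≠ 0 := by
      intro k
      by_contra hcon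
      push Not at hcon
      exact hb ⟨k, hcon⟩
    exact B7 hcard x hD.hx f g hD.hf hD.hg hD.hfg N hN.hN hdeg hnb
      (fun k => (node_rel x m hm 5 f g p q N r hD hN k (hnb k)).1)
      (fun k => (node_rel x m hm 5 f g p q N r hD hN k (hnb k)).2)

end Pool.Agent.Lib.MP_0ae92b_ag.G26
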