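import Pool.Agent.Lib.MP_0ae92b_ag.G26.NodeN
import Pool.Agent.Lib.MP_0ae92b_ag.G26.NoA
import Pool.Agent.Lib.MP_0ae92b_ag.G26.NoB

set_option autoImplicit false

/-!
# The core theorem

`core1` (all `m k ≥ 1`) is assembled from the parts; `core` allows `m k = 0`.

PROOF of `core`.  Restrict everything to the subtype `{k // 1 ≤ m k}`: `PData` passes to it (the sum of the `m k` does not change), the condition `hc` too (`d ≥ 2` by `hsum`, and if `d ≤ m i + 3` with `m i = 0`
then `d ≤ 3 ≤ 5`), and `TanC` is the same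
subspace: for `m k = 0` the condition at `k` is void, because by `wr_nb` `f(x_k) ≠ 0` or `g(x_k) ≠ 0`, so one can choose `c1, c2` with
`(p_k u + q_k v - c1 f - c2 g)(x_k) = 0`.
-/

namespace Pool.Agent.Lib.MP_0ae92b_ag.G26

open Polynomial

variable {ι : Type} [Fintype ι] [DecidableEq ι]

theorem core1 (x : ι → ℝ) (m : ι → ℕ) (hm : ∀ k, 1 ≤ m k) (d : ℕ) (f g : ℂ[X]) (p q : ι → ℂ)
    (hD : PData x m d f g p q) (hc : d ≤ 5 ∨ ∃ i, d ≤ m i + 3) :
    Module.finrank ℂ (TanC x m d f g p q) = 5 := by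
  by_contra hT
  obtain ⟨N, r, hN⟩ := node_exists x m d f g p q hD hT
  have hsum := hD.hsum
  by_cases hA : ∃ i, d ≤ m i + 3
  · obtain ⟨i, hi⟩ := hA
    exact no_node_A x m hm d f g p q N r hD hN i hi
  · push Not at hA
    have hd : d ≤ 5 := by
      rcases hc with h | ⟨i, hi⟩
      · exact h
      · exact absurd hi (by have := hA i; omega)
    have hne : Nonempty ι := by
      by_contra hemp
      rw [not_nonempty_iff] at hemp
      simp at hsum
      omega
    obtain ⟨i⟩ := hne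
    have h1 := hA i
    have h2 := hm i
    have hd5 : d = 5 := by omega
    subst hd5
    have hm1 : ∀ k, m k = 1 := fun k => by
      have := hA k
      have := hm k
      omega
    exact no_node_B x m hm1 f g p q N r hD hN

omit [DecidableEq ι] in
theorem Core_sum (m : ι → ℕ) : ∑ k : {k // 1 ≤ m k}, m k.1 = ∑ k, m k := by
  have h := Fintype.sum_subtype_add_sum_subtype (fun k => 1 ≤ m k) m
  have h0 : ∑ k : {k // ¬ 1 ≤ m k}, m k.1 = 0 := by
    refine Finset.sum_eq_zero fun k _ => ?_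
    have := k.2
    omega
  rw [h0, add_zero] at h
  exact h

theorem Core_void (x : ι → ℝ) (m : ι → ℕ) (d : ℕ) (f g : ℂ[X]) (p q : ι → ℂ)
    (hD : PData x m d f g p q) (k : ι) (hk : m k = 0) (w : ℂ[X]) :
    ∃ c1 c2 : ℂ, (X - C (xc x k)) ^ (m k + 1) ∣ w - (C c1 * f + C c2 * g) := by
  have h := wr_nb x m d f g p q hD k
  rw [hk, zero_add, pow_one] at h ⊢
  simp only [dvd_iff_isRoot, IsRoot.def] at h ⊢
  by_cases hf : f.eval (xc x k) = 0
  · have hg : g.eval (xc x k) ≠ 0 := fun hg => h ⟨hf, hg⟩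
    refine ⟨0, w.eval (xc x k) / g.eval (xc x k), ?_⟩
    simp only [eval_sub, eval_add, eval_mul, eval_C]
    field_simp
    simp
  · refine ⟨w.eval (xc x k) / f.eval (xc x k), 0, ?_⟩
    simp only [eval_sub, eval_add, eval_mul, eval_C]
    field_simp
    simp

theorem core (x : ι → ℝ) (m : ι → ℕ) (d : ℕ) (f g : ℂ[X]) (p q : ι → ℂ)
    (hD : PData x m d f g p q) (hc : d ≤ 5 ∨ ∃ i, d ≤ m i + 3) :
    Module.finrank ℂ (TanC x m d f g p q) = 5 := by
  have hD' : PData (fun k : {k // 1 ≤ m k} => x k.1) (fun k => m k.1) d f g (fun k => p k.1)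
      (fun k => q k.1) :=
    { hx := fun a b hab => Subtype.ext (hD.hx hab)
      hsum := by rw [Core_sum]; exact hD.hsum
      hf := hD.hf
      hg := hD.hg
      hfg := hD.hfg
      hpq := fun k => hD.hpq k.1
      hdiv := fun k => hD.hdiv k.1 }
  have hc' : d ≤ 5 ∨ ∃ i : {k // 1 ≤ m k}, d ≤ m i.1 + 3 := by
    rcases hc with h | ⟨i, hi⟩
    · exact Or.inl h
    · by_cases h1 : 1 ≤ m i
      · exact Or.inr ⟨⟨i, h1⟩, hi⟩
      · exact Or.inl (by omega)
  have h := core1 (fun k : {k // 1 ≤ m k} => x k.1) (fun k => m k.1) (fun k => k.2) d f g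
    (fun k => p k.1) (fun k => q k.1) hD' hc'
  have he : TanC x m d f g p q = TanC (fun k : {k // 1 ≤ m k} => x k.1) (fun k => m k.1) d f g
      (fun k => p k.1) (fun k => q k.1) := by
    ext ⟨u, v⟩
    constructor
    · rintro ⟨h1, h2, h3⟩
      exact ⟨h1, h2, fun k => h3 k.1⟩
    · rintro ⟨h1, h2, h3⟩
      refine ⟨h1, h2, fun k => ?_⟩
      by_cases hk : 1 ≤ m k
      · exact h3 ⟨k, hk⟩
      · exact Core_void x m d f g p q hD k (by omega) _
  rw [he]
  exact h

end Pool.Agent.Lib.MP_0ae92b_ag.G26
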