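import Mathlib

set_option autoImplicit false

/-!
# Intersections of osculating Schubert varieties in `G(2, d+1)`: definitions

`Γ_d` is the space of complex polynomials of degree at most `d` (binary forms of degree `d`,
dehomogenised), and a point of the real projective line is an element of `OnePoint ℝ = ℝ ∪ {∞}`.
A point `V` of the Grassmannian of two-dimensional subspaces of `Γ_d` is given by a basis `f, g`.
-/

namespace Pool.Agent.Lib.MP_0ae92b_ag.G26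

open Polynomial

/-- `Γ_d`: the complex polynomials of degree at most `d`. -/
noncomputable def Gam (d : ℕ) : Submodule ℂ ℂ[X] := degreeLT ℂ (d + 1)

/-- `F_j(x)`: the sections `h ∈ Γ_d` which vanish to order at least `j` at the point `x` of the real
projective line; the order of vanishing at `∞` of `h ∈ Γ_d` is `d - deg h`. -/
def Fl (d : ℕ) (x : OnePoint ℝ) (j : ℕ) : Set ℂ[X] :=
  {h | h ∈ Gam d ∧ match x with
    | none => h ∈ degreeLT ℂ (d + 1 - j)
    | some y => (X - C (y : ℂ)) ^ j ∣ h}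

theorem mem_Fl_coe (d : ℕ) (y : ℝ) (j : ℕ) (h : ℂ[X]) :
    h ∈ Fl d ((y : ℝ) : OnePoint ℝ) j ↔ h ∈ Gam d ∧ (X - C (y : ℂ)) ^ j ∣ h := Iff.rfl

theorem mem_Fl_infty (d : ℕ) (j : ℕ) (h : ℂ[X]) :
    h ∈ Fl d (OnePoint.infty : OnePoint ℝ) j ↔ h ∈ Gam d ∧ h ∈ degreeLT ℂ (d + 1 - j) := Iff.rfl

/-- The equations of the Schubert variety of the partition `(a, b)` at the point `x`, on pairs `(f, g)`:
`f` and `g` lie in `F_b(x)`, and `f ∧ g` is zero modulo `F_{a+1}(x)`, i.e. all `2 × 2` minors of the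
images of `f`, `g` modulo `F_{a+1}(x)` vanish. -/
def SchubEq (d : ℕ) (x : OnePoint ℝ) (a b : ℕ) (f g : ℂ[X]) : Prop :=
  f ∈ Fl d x b ∧ g ∈ Fl d x b ∧
    ∀ α β : ℂ[X] →ₗ[ℂ] ℂ, (∀ h ∈ Fl d x (a + 1), α h = 0) → (∀ h ∈ Fl d x (a + 1), β h = 0) →
      α f * β g - β f * α g = 0

/-- The linearisation at `(f, g)` of the equations `SchubEq`: the pairs `(u, v)` such that
`(f + ε u, g + ε v)` satisfies these equations modulo `ε ^ 2`. -/
def SchubTan (d : ℕ) (x : OnePoint ℝ) (a b : ℕ) (f g u v : ℂ[X]) : Prop :=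
  u ∈ Fl d x b ∧ v ∈ Fl d x b ∧
    ∀ α β : ℂ[X] →ₗ[ℂ] ℂ, (∀ h ∈ Fl d x (a + 1), α h = 0) → (∀ h ∈ Fl d x (a + 1), β h = 0) →
      (α u * β g + α f * β v) - (β u * α g + β f * α v) = 0

theorem Fl_zero_mem (d : ℕ) (x : OnePoint ℝ) (j : ℕ) : (0 : ℂ[X]) ∈ Fl d x j := by
  refine ⟨Submodule.zero_mem _, ?_⟩
  cases x using OnePoint.rec with
  | infty => exact Submodule.zero_mem _
  | coe y => exact dvd_zero _

theorem Fl_add_mem (d : ℕ) (x : OnePoint ℝ) (j : ℕ) {g h : ℂ[X]} (hg : g ∈ Fl d x j)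
    (hh : h ∈ Fl d x j) : g + h ∈ Fl d x j := by
  refine ⟨Submodule.add_mem _ hg.1 hh.1, ?_⟩
  cases x using OnePoint.rec with
  | infty => exact Submodule.add_mem _ hg.2 hh.2
  | coe y => exact dvd_add hg.2 hh.2

theorem Fl_smul_mem (d : ℕ) (x : OnePoint ℝ) (j : ℕ) (c : ℂ) {h : ℂ[X]}
    (hh : h ∈ Fl d x j) : c • h ∈ Fl d x j := by
  refine ⟨Submodule.smul_mem _ c hh.1, ?_⟩
  cases x using OnePoint.rec with
  | infty => exact Submodule.smul_mem _ c hh.2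
  | coe y => exact dvd_smul_of_dvd c hh.2

/-- The tangent space at `(f, g)` of the scheme of all pairs satisfying the equations of
`S = ⋂ Ω_{(a_i, b_i)}(x_i)`: a subspace of `Γ_d × Γ_d`.  It contains `V × V`, `V = span (f, g)`. -/
noncomputable def tanPairs (d : ℕ) {ι : Type} (x : ι → OnePoint ℝ) (a b : ι → ℕ) (f g : ℂ[X]) :
    Submodule ℂ (ℂ[X] × ℂ[X]) where
  carrier := {w | w.1 ∈ Gam d ∧ w.2 ∈ Gam d ∧ ∀ i, SchubTan d (x i) (a i) (b i) f g w.1 w.2}
  zero_mem' := by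
    refine ⟨Submodule.zero_mem _, Submodule.zero_mem _, fun i =>
      ⟨Fl_zero_mem _ _ _, Fl_zero_mem _ _ _, fun α β _ _ => ?_⟩⟩
    simp
  add_mem' := by
    rintro ⟨u, v⟩ ⟨u', v'⟩ ⟨hu, hv, h⟩ ⟨hu', hv', h'⟩
    refine ⟨Submodule.add_mem _ hu hu', Submodule.add_mem _ hv hv', fun i =>
      ⟨Fl_add_mem _ _ _ (h i).1 (h' i).1, Fl_add_mem _ _ _ (h i).2.1 (h' i).2.1,
        fun α β hα hβ => ?_⟩⟩
    have e1 := (h i).2.2 α β hα hβ
    have e2 := (h' i).2.2 α β hα hβ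
    simp only [Prod.mk_add_mk, map_add] at e1 e2 ⊢
    linear_combination e1 + e2
  smul_mem' := by
    rintro c ⟨u, v⟩ ⟨hu, hv, h⟩
    refine ⟨Submodule.smul_mem _ c hu, Submodule.smul_mem _ c hv, fun i =>
      ⟨Fl_smul_mem _ _ _ c (h i).1, Fl_smul_mem _ _ _ c (h i).2.1, fun α β hα hβ => ?_⟩⟩
    have e1 := (h i).2.2 α β hα hβ
    simp only [Prod.smul_mk, map_smul, smul_eq_mul] at e1 ⊢
    linear_combination c * e1

/-- The subspace `V × V` of `tanPairs`, `V = span (f, g)`: the directions tangent to the fibre of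
`(f, g) ↦ span (f, g)`. -/
noncomputable def fibre {d : ℕ} {ι : Type} {x : ι → OnePoint ℝ} {a b : ι → ℕ} {f g : ℂ[X]} :
    Submodule ℂ (tanPairs d x a b f g) :=
  ((Submodule.span ℂ {f, g}).prod (Submodule.span ℂ {f, g})).comap (tanPairs d x a b f g).subtype

/-- The Zariski tangent space at `V = span (f, g)` of the scheme-theoretic intersection
`S = ⋂ Ω_{(a_i, b_i)}(x_i)` in the Grassmannian `G(2, Γ_d)`, as a subspace
of `Hom(V, Γ_d / V) = (Γ_d × Γ_d) / (V × V)`. -/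
abbrev TangentSpace (d : ℕ) {ι : Type} (x : ι → OnePoint ℝ) (a b : ι → ℕ) (f g : ℂ[X]) : Type :=
  tanPairs d x a b f g ⧸ (fibre : Submodule ℂ (tanPairs d x a b f g))

end Pool.Agent.Lib.MP_0ae92b_ag.G26
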