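import Pool.Agent.Lib.MP_0ae92b_ag.G26.WrFacts

set_option autoImplicit false

/-!
# If the tangent space is too large there is a relation between the conditions

The Taylor coefficients of order at most `m_k` at `x_k`, modulo those of `f` and `g`, give a linear
map from the pairs of polynomials to a space of dimension `∑ m_k`; its kernel is `TanC`.
-/

namespace Pool.Agent.Lib.MP_0ae92b_ag.G26

open Polynomial

/-- The first `n` Taylor coefficients at `x`. -/
private noncomputable def dualT (x : ℂ) (n : ℕ) : ℂ[X] →ₗ[ℂ] (Fin n → ℂ) :=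
  LinearMap.pi fun j => (lcoeff ℂ (j : ℕ)).comp (taylor x)

private theorem dualT_apply (x : ℂ) (n : ℕ) (h : ℂ[X]) (j : Fin n) :
    dualT x n h j = (taylor x h).coeff j := rfl

private theorem dualT_eq_zero (x : ℂ) (n : ℕ) (h : ℂ[X]) :
    dualT x n h = 0 ↔ (X - C x) ^ n ∣ h := by
  rw [X_sub_C_pow_dvd_iff, ← taylor_apply, X_pow_dvd_iff]
  constructor
  · intro h0 j hj
    exact congrFun h0 ⟨j, hj⟩
  · intro h0
    funext j
    exact h0 j j.2

private theorem dualT_surj (x : ℂ) (n : ℕ) (t : Fin n → ℂ) :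
    ∃ u : ℂ[X], u ∈ degreeLT ℂ n ∧ dualT x n u = t := by
  classical
  obtain ⟨v, hv⟩ : ∃ v : degreeLT ℂ n, degreeLTEquiv ℂ n v = t :=
    (degreeLTEquiv ℂ n).surjective t
  refine ⟨taylor (-x) (v : ℂ[X]), ?_, ?_⟩
  · rw [mem_degreeLT, degree_taylor]
    exact mem_degreeLT.1 v.2
  · funext j
    rw [dualT_apply, taylor_taylor, add_neg_cancel, taylor_zero, ← hv]
    rfl

variable {ι : Type} [Fintype ι] [DecidableEq ι]

omit [DecidableEq ι] in
private theorem dual_le (x : ι → ℝ) (m : ι → ℕ) (d : ℕ) (f g : ℂ[X]) (p q : ι → ℂ)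
    (hD : PData x m d f g p q) (k : ι) : m k + 1 ≤ d := by
  have hne : C (p k) * f + C (q k) * g ≠ 0 := by
    intro h0
    have := hD.hfg _ _ h0
    rcases hD.hpq k with h | h
    · exact h this.1
    · exact h this.2
  have h1 := natDegree_le_of_dvd (hD.hdiv k) hne
  rw [natDegree_pow, natDegree_X_sub_C, mul_one] at h1
  refine h1.trans ((natDegree_add_le _ _).trans (max_le ?_ ?_))
  · exact (natDegree_C_mul_le _ _).trans hD.hf
  · exact (natDegree_C_mul_le _ _).trans hD.hg

/-- The Taylor coefficients of the elements of `span (f, g)`. -/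
private noncomputable def dualW (x : ι → ℝ) (m : ι → ℕ) (f g : ℂ[X]) (k : ι) :
    Submodule ℂ (Fin (m k + 1) → ℂ) :=
  Submodule.span ℂ {dualT (xc x k) (m k + 1) f, dualT (xc x k) (m k + 1) g}

private theorem dualW_finrank (x : ι → ℝ) (m : ι → ℕ) (d : ℕ) (f g : ℂ[X]) (p q : ι → ℂ)
    (hD : PData x m d f g p q) (k : ι) : Module.finrank ℂ (dualW x m f g k) = 1 := by
  set a := dualT (xc x k) (m k + 1) f with ha
  set b := dualT (xc x k) (m k + 1) g with hb
  have hrel : p k • a + q k • b = 0 := by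
    rw [ha, hb, ← map_smul, ← map_smul, ← map_add, dualT_eq_zero, smul_eq_C_mul, smul_eq_C_mul]
    exact hD.hdiv k
  have hnb : ¬(a = 0 ∧ b = 0) := by
    rw [ha, hb, dualT_eq_zero, dualT_eq_zero]
    exact wr_nb x m d f g p q hD k
  rcases hD.hpq k with h | h
  · have hab : a = (-(q k / p k)) • b := by
      have : p k • a = -(q k • b) := eq_neg_of_add_eq_zero_left hrel
      calc a = (p k)⁻¹ • (p k • a) := by rw [smul_smul, inv_mul_cancel₀ h, one_smul]
        _ = _ := by rw [this, smul_neg, smul_smul, neg_smul, div_eq_inv_mul]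
    have hb0 : b ≠ 0 := by
      intro h0
      exact hnb ⟨by rw [hab, h0, smul_zero], h0⟩
    have hspan : dualW x m f g k = Submodule.span ℂ {b} := by
      unfold dualW
      rw [← ha, ← hb]
      refine le_antisymm (Submodule.span_le.2 ?_) (Submodule.span_mono (by simp))
      rintro y (rfl | rfl)
      · rw [SetLike.mem_coe, hab]
        exact Submodule.smul_mem _ _ (Submodule.mem_span_singleton_self b)
      · exact Submodule.mem_span_singleton_self _
    rw [hspan]
    exact finrank_span_singleton hb0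
  · have hab : b = (-(p k / q k)) • a := by
      have : q k • b = -(p k • a) := eq_neg_of_add_eq_zero_right hrel
      calc b = (q k)⁻¹ • (q k • b) := by rw [smul_smul, inv_mul_cancel₀ h, one_smul]
        _ = _ := by rw [this, smul_neg, smul_smul, neg_smul, div_eq_inv_mul]
    have ha0 : a ≠ 0 := by
      intro h0
      exact hnb ⟨h0, by rw [hab, h0, smul_zero]⟩
    have hspan : dualW x m f g k = Submodule.span ℂ {a} := by
      unfold dualW
      rw [← ha, ← hb]
      refine le_antisymm (Submodule.span_le.2 ?_) (Submodule.span_mono (by simp))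
      rintro y (rfl | rfl)
      · exact Submodule.mem_span_singleton_self _
      · rw [SetLike.mem_coe, hab]
        exact Submodule.smul_mem _ _ (Submodule.mem_span_singleton_self a)
    rw [hspan]
    exact finrank_span_singleton ha0

/-- The linear map whose kernel is `TanC`. -/
private noncomputable def dualPsi (x : ι → ℝ) (m : ι → ℕ) (f g : ℂ[X]) (p q : ι → ℂ) :
    ℂ[X] × ℂ[X] →ₗ[ℂ] ((k : ι) → (Fin (m k + 1) → ℂ) ⧸ dualW x m f g k) :=
  LinearMap.pi fun k => (dualW x m f g k).mkQ ∘ₗ dualT (xc x k) (m k + 1) ∘ₗ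
    (p k • LinearMap.fst ℂ ℂ[X] ℂ[X] + q k • LinearMap.snd ℂ ℂ[X] ℂ[X])

omit [Fintype ι] [DecidableEq ι] in
private theorem dualPsi_apply (x : ι → ℝ) (m : ι → ℕ) (f g : ℂ[X]) (p q : ι → ℂ)
    (u v : ℂ[X]) (k : ι) : dualPsi x m f g p q (u, v) k =
      (dualW x m f g k).mkQ (dualT (xc x k) (m k + 1) (p k • u + q k • v)) := rfl

omit [DecidableEq ι] in
private theorem dualPsi_ker (x : ι → ℝ) (m : ι → ℕ) (d : ℕ) (f g : ℂ[X]) (p q : ι → ℂ) :
    TanC x m d f g p q = LinearMap.ker (dualPsi x m f g p q) ⊓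
      (degreeLT ℂ (d + 1)).prod (degreeLT ℂ (d + 1)) := by
  ext ⟨u, v⟩
  rw [Submodule.mem_inf, LinearMap.mem_ker, Submodule.mem_prod]
  change (u ∈ degreeLT ℂ (d + 1) ∧ v ∈ degreeLT ℂ (d + 1) ∧ ∀ k, ∃ c1 c2 : ℂ,
    (X - C (xc x k)) ^ (m k + 1) ∣ C (p k) * u + C (q k) * v - (C c1 * f + C c2 * g)) ↔ _
  have key : (dualPsi x m f g p q (u, v) = 0) ↔ ∀ k, ∃ c1 c2 : ℂ,
      (X - C (xc x k)) ^ (m k + 1) ∣ C (p k) * u + C (q k) * v - (C c1 * f + C c2 * g) := by
    rw [funext_iff]
    refine forall_congr' fun k => ?_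
    rw [dualPsi_apply, Pi.zero_apply, Submodule.mkQ_apply, Submodule.Quotient.mk_eq_zero]
    unfold dualW
    rw [Submodule.mem_span_pair]
    refine exists_congr fun c1 => exists_congr fun c2 => ?_
    rw [← dualT_eq_zero, map_sub, sub_eq_zero, eq_comm]
    simp only [← smul_eq_C_mul, map_add, map_smul]
  rw [key]
  tauto

theorem dual_exists (x : ι → ℝ) (m : ι → ℕ) (d : ℕ) (f g : ℂ[X]) (p q : ι → ℂ)
    (hD : PData x m d f g p q) (hT : Module.finrank ℂ (TanC x m d f g p q) ≠ 5) :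
    ∃ ℓ : ι → (ℂ[X] →ₗ[ℂ] ℂ),
      (∃ (k : ι) (u : ℂ[X]), u.natDegree ≤ d ∧ ℓ k u ≠ 0) ∧
      (∀ (k : ι) (h : ℂ[X]), h.natDegree ≤ d → (X - C (xc x k)) ^ (m k + 1) ∣ h → ℓ k h = 0) ∧
      (∀ k, ℓ k f = 0 ∧ ℓ k g = 0) ∧
      (∀ u : ℂ[X], u.natDegree ≤ d → ∑ k, p k * ℓ k u = 0 ∧ ∑ k, q k * ℓ k u = 0) := by
  let Q := (k : ι) → (Fin (m k + 1) → ℂ) ⧸ dualW x m f g k
  have hmemLT : ∀ u : ℂ[X], u ∈ degreeLT ℂ (d + 1) ↔ u.natDegree ≤ d := by
    intro u
    rw [mem_degreeLT]
    by_cases hu : u = 0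
    · simp [hu]
    · rw [degree_eq_natDegree hu]
      norm_cast
      omega
  -- the restriction of the map
  have hΓ : Module.Finite ℂ (degreeLT ℂ (d + 1)) :=
    Module.Finite.equiv (degreeLTEquiv ℂ (d + 1)).symm
  have hΓr : Module.finrank ℂ (degreeLT ℂ (d + 1)) = d + 1 := by
    rw [(degreeLTEquiv ℂ (d + 1)).finrank_eq, Module.finrank_fintype_fun_eq_card, Fintype.card_fin]
  let inc : (degreeLT ℂ (d + 1) × degreeLT ℂ (d + 1)) →ₗ[ℂ] (ℂ[X] × ℂ[X]) :=
    (degreeLT ℂ (d + 1)).subtype.prodMap (degreeLT ℂ (d + 1)).subtype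
  have hinc : Function.Injective inc := by
    rintro ⟨u, v⟩ ⟨u', v'⟩ h
    have h1 := congrArg Prod.fst h
    have h2 := congrArg Prod.snd h
    exact Prod.ext (Subtype.ext h1) (Subtype.ext h2)
  let Ψ : (degreeLT ℂ (d + 1) × degreeLT ℂ (d + 1)) →ₗ[ℂ] Q := dualPsi x m f g p q ∘ₗ inc
  have hmap : (LinearMap.ker Ψ).map inc = TanC x m d f g p q := by
    rw [dualPsi_ker]
    ext ⟨u, v⟩
    rw [Submodule.mem_map, Submodule.mem_inf, LinearMap.mem_ker, Submodule.mem_prod]
    constructor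
    · rintro ⟨⟨a, b⟩, hab, hw⟩
      have h1 : (a : ℂ[X]) = u := congrArg Prod.fst hw
      have h2 : (b : ℂ[X]) = v := congrArg Prod.snd hw
      refine ⟨?_, by rw [← h1]; exact a.2, by rw [← h2]; exact b.2⟩
      rw [← hw]
      exact hab
    · rintro ⟨h1, h2, h3⟩
      exact ⟨(⟨u, h2⟩, ⟨v, h3⟩), h1, rfl⟩
  have hker : Module.finrank ℂ (LinearMap.ker Ψ) = Module.finrank ℂ (TanC x m d f g p q) := by
    rw [← hmap]
    exact (Submodule.equivMapOfInjective inc hinc (LinearMap.ker Ψ)).finrank_eq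
  have hQr : Module.finrank ℂ Q = ∑ k, m k := by
    refine (Module.finrank_pi_fintype ℂ
      (M := fun k => (Fin (m k + 1) → ℂ) ⧸ dualW x m f g k)).trans ?_
    refine Finset.sum_congr rfl fun k _ => ?_
    rw [Submodule.finrank_quotient, dualW_finrank x m d f g p q hD k,
      Module.finrank_fintype_fun_eq_card, Fintype.card_fin, Nat.add_sub_cancel]
  have hrn := LinearMap.finrank_range_add_finrank_ker Ψ
  rw [Module.finrank_prod, hΓr, hker] at hrn
  have hlt : LinearMap.range Ψ < ⊤ := by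
    refine lt_top_iff_ne_top.2 fun htop => hT ?_
    rw [htop, finrank_top, hQr] at hrn
    have := hD.hsum
    omega
  obtain ⟨φ, hφ0, hφ⟩ := Submodule.exists_le_ker_of_lt_top _ hlt
  refine ⟨fun k => φ ∘ₗ LinearMap.single ℂ (fun k => (Fin (m k + 1) → ℂ) ⧸ dualW x m f g k) k ∘ₗ
    (dualW x m f g k).mkQ ∘ₗ dualT (xc x k) (m k + 1), ?_, ?_, ?_, ?_⟩
  · -- not all functionals vanish
    obtain ⟨y, hy⟩ : ∃ y : Q, φ y ≠ 0 := by
      by_contra hc
      push Not at hc
      exact hφ0 (LinearMap.ext hc)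
    have hsum : φ y = ∑ k, φ (Pi.single k (y k)) := by
      rw [← map_sum, Finset.univ_sum_single]
    obtain ⟨k, -, hk⟩ := Finset.exists_ne_zero_of_sum_ne_zero (hsum ▸ hy)
    obtain ⟨t, ht⟩ := Submodule.mkQ_surjective (dualW x m f g k) (y k)
    obtain ⟨u, hu1, hu2⟩ := dualT_surj (xc x k) (m k + 1) t
    refine ⟨k, u, ?_, ?_⟩
    · rw [← hmemLT]
      have := dual_le x m d f g p q hD k
      exact degreeLT_mono (by omega) hu1
    · change φ (Pi.single k ((dualW x m f g k).mkQ (dualT (xc x k) (m k + 1) u))) ≠ 0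
      rw [hu2, ht]
      exact hk
  · intro k h _ hdvd
    change φ (Pi.single k ((dualW x m f g k).mkQ (dualT (xc x k) (m k + 1) h))) = 0
    rw [(dualT_eq_zero _ _ _).2 hdvd, map_zero, Pi.single_zero, map_zero]
  · intro k
    constructor
    · change φ (Pi.single k ((dualW x m f g k).mkQ (dualT (xc x k) (m k + 1) f))) = 0
      have : (dualW x m f g k).mkQ (dualT (xc x k) (m k + 1) f) = 0 := by
        rw [Submodule.mkQ_apply, Submodule.Quotient.mk_eq_zero]
        exact Submodule.subset_span (by simp)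
      rw [this, Pi.single_zero, map_zero]
    · change φ (Pi.single k ((dualW x m f g k).mkQ (dualT (xc x k) (m k + 1) g))) = 0
      have : (dualW x m f g k).mkQ (dualT (xc x k) (m k + 1) g) = 0 := by
        rw [Submodule.mkQ_apply, Submodule.Quotient.mk_eq_zero]
        exact Submodule.subset_span (by simp)
      rw [this, Pi.single_zero, map_zero]
  · intro u hu
    have hu' := (hmemLT u).2 hu
    have key : ∀ (c : ι → ℂ) (w : Q), (∀ k, w k = (dualW x m f g k).mkQ
        (dualT (xc x k) (m k + 1) (c k • u))) →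
        ∑ k, c k * φ (Pi.single k ((dualW x m f g k).mkQ (dualT (xc x k) (m k + 1) u))) = φ w := by
      intro c w hw
      rw [← Finset.univ_sum_single w, map_sum]
      refine Finset.sum_congr rfl fun k _ => ?_
      rw [hw k, map_smul, map_smul]
      have e : (Pi.single k (c k • (dualW x m f g k).mkQ (dualT (xc x k) (m k + 1) u)) : Q) =
          c k • (Pi.single k ((dualW x m f g k).mkQ (dualT (xc x k) (m k + 1) u)) : Q) :=
        (LinearMap.single ℂ (fun k => (Fin (m k + 1) → ℂ) ⧸ dualW x m f g k) k).map_smul (c k) _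
      rw [e, map_smul, smul_eq_mul]
    constructor
    · refine (key p (Ψ (⟨u, hu'⟩, 0)) fun k => ?_).trans ?_
      · change dualPsi x m f g p q (u, 0) k = _
        rw [dualPsi_apply, smul_zero, add_zero]
      · exact hφ (LinearMap.mem_range_self Ψ _)
    · refine (key q (Ψ (0, ⟨u, hu'⟩)) fun k => ?_).trans ?_
      · change dualPsi x m f g p q (0, u) k = _
        rw [dualPsi_apply, smul_zero, zero_add]
      · exact hφ (LinearMap.mem_range_self Ψ _)

end Pool.Agent.Lib.MP_0ae92b_ag.G26
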