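import Pool.Agent.Lib.MP_0ae92b_ag.G26.Main

set_option autoImplicit false

/-!
# At most four points (helper82)

A node polynomial `N ≠ 0` has degree at most `s - 5` (`IsNode.hdeg`), so there is none if at most four of
the rows `m k` are positive.
-/

namespace Pool.Agent.Lib.MP_0ae92b_ag.G26

open Polynomial

variable {ι : Type} [Fintype ι] [DecidableEq ι]

theorem few_core (x : ι → ℝ) (m : ι → ℕ) (d : ℕ) (f g : ℂ[X]) (p q : ι → ℂ)
    (hD : PData x m d f g p q) (hc : Fintype.card {k // 1 ≤ m k} ≤ 4) :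
    Module.finrank ℂ (TanC x m d f g p q) = 5 := by
  have hD' : PData (fun k : {k // 1 ≤ m k} => x k.1) (fun k => m k.1) d f g (fun k => p k.1)
      (fun k => q k.1) :=
    { hx := fun a b hab => Subtype.ext (hD.hx hab)
      hsum := by rw [Core_sum]; exact hD.hsum
      hf := hD.hf
      hg := hD.hg
      hfg := hD.hfg
      hpq := fun k => hD.hpq k.1
      hdiv := fun k => hD.hdiv k.1 }
  have h : Module.finrank ℂ (TanC (fun k : {k // 1 ≤ m k} => x k.1) (fun k => m k.1) d f g
      (fun k => p k.1) (fun k => q k.1)) = 5 := by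
    by_contra hT
    obtain ⟨N, r, hN⟩ := node_exists (fun k : {k // 1 ≤ m k} => x k.1) (fun k => m k.1) d f g
      (fun k => p k.1) (fun k => q k.1) hD' hT
    have := hN.hdeg
    omega
  have he : TanC x m d f g p q = TanC (fun k : {k // 1 ≤ m k} => x k.1) (fun k => m k.1) d f g
      (fun k => p k.1) (fun k => q k.1) := by
    ext ⟨u, v⟩
    constructor
    · rintro ⟨h1, h2, h3⟩
      exact ⟨h1, h2, fun k => h3 k.1⟩
    · rintro ⟨h1, h2, h3⟩
      refine ⟨h1, h2, fun k => ?_⟩
      by_cases hk : 1 ≤ m k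
      · exact h3 ⟨k, hk⟩
      · exact Core_void x m d f g p q hD k (by omega) _
  rw [he]
  exact h

theorem few_main (d : ℕ) (x : ι → OnePoint ℝ) (hx : Function.Injective x) (a b : ι → ℕ)
    (hab : ∀ i, b i ≤ a i) (hsum : ∑ i, (a i + b i) + 3 = 2 * d)
    (hc : Fintype.card {i // b i < a i} ≤ 4) (f g : ℂ[X])
    (hf : f ∈ Gam d) (hg : g ∈ Gam d) (hfg : Indep f g)
    (hS : ∀ i, SchubEq d (x i) (a i) (b i) f g) :
    Module.finrank ℂ (TangentSpace d x a b f g) = 1 := by
  have h5 : Module.finrank ℂ (tanPairs d x a b f g) = 5 := by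
    obtain ⟨y, f', g', p, q, hD, hfin⟩ := to_core d x hx a b hab hsum f g hf hg hfg hS
    rw [hfin]
    refine few_core y _ _ f' g' p q hD ?_
    refine le_trans (le_of_eq ?_) hc
    refine Fintype.card_congr (Equiv.subtypeEquivRight fun i => ?_)
    have := hab i
    omega
  have h4 := fibre_finrank d x a b f g hf hg hfg hS
  have hfd : Module.Finite ℂ (tanPairs d x a b f g) :=
    Module.finite_of_finrank_pos (by rw [h5]; norm_num)
  have := Submodule.finrank_quotient_add_finrank
    (fibre : Submodule ℂ (tanPairs d x a b f g))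
  rw [h4, h5] at this
  change Module.finrank ℂ (tanPairs d x a b f g ⧸ (fibre : Submodule ℂ (tanPairs d x a b f g))) = 1
  omega

end Pool.Agent.Lib.MP_0ae92b_ag.G26
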