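import Mathlib

set_option autoImplicit false

/-!
# Functionals supported at one point are residues

PROOF.  Every `u` with `natDegree ≤ d` is `∑_{i ≤ d} t_i (X - x)^i`, `t_i = (taylor x u).coeff i`.  The terms with `i ≥ m + 1` are killed by `ℓ`, so
`ℓ u = ∑_{i ≤ m} t_i c_i`, `c_i = ℓ ((X - x)^i)`.  Take `r = ∑_{i ≤ m} c_{m-i} (X - x)^i`: its Taylor coefficients at `x` are `c_{m-i}` and
`(taylor x (r * u)).coeff m = ∑_{i+j=m} c_{m-i} t_j = ∑_j c_j t_j`.
-/

namespace Pool.Agent.Lib.MP_0ae92b_ag.G26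

open Polynomial

private theorem FunRep_taylor (x : ℂ) (m : ℕ) (c : ℕ → ℂ) :
    taylor x (∑ i ∈ Finset.range (m + 1), C (c i) * (X - C x) ^ i) =
      ∑ i ∈ Finset.range (m + 1), C (c i) * X ^ i := by
  rw [map_sum]
  refine Finset.sum_congr rfl fun i _ => ?_
  rw [taylor_mul, taylor_C, taylor_pow, map_sub, taylor_X, taylor_C, add_sub_cancel_right]

private theorem FunRep_coeff (m : ℕ) (c : ℕ → ℂ) (j : ℕ) (hj : j ≤ m) :
    (∑ i ∈ Finset.range (m + 1), C (c i) * X ^ i).coeff j = c j := by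
  rw [finsetSum_coeff]
  simp only [coeff_C_mul_X_pow]
  rw [Finset.sum_eq_single j]
  · simp
  · intro i _ hij
    rw [if_neg (fun e => hij e.symm)]
  · intro h
    exact absurd (Finset.mem_range.2 (by omega)) h

private theorem FunRep_degree (x : ℂ) (m : ℕ) (c : ℕ → ℂ) :
    (∑ i ∈ Finset.range (m + 1), C (c i) * (X - C x) ^ i).degree < ((m + 1 : ℕ) : WithBot ℕ) := by
  rw [← mem_degreeLT]
  refine Submodule.sum_mem _ fun i hi => ?_
  rw [mem_degreeLT]
  have h1 : (C (c i) * (X - C x) ^ i).degree ≤ (i : WithBot ℕ) := by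
    refine (degree_mul_le _ _).trans ?_
    have h2 : ((X - C x) ^ i).degree = (i : WithBot ℕ) := by
      rw [degree_pow, degree_X_sub_C]; simp
    rw [h2]
    calc (C (c i)).degree + (i : WithBot ℕ) ≤ 0 + (i : WithBot ℕ) :=
          add_le_add_left degree_C_le _
      _ = (i : WithBot ℕ) := zero_add _
  refine lt_of_le_of_lt h1 ?_
  exact_mod_cast Finset.mem_range.1 hi

theorem fun_rep (x : ℂ) (m d : ℕ) (hm : m ≤ d) (ℓ : ℂ[X] →ₗ[ℂ] ℂ)
    (hℓ : ∀ h : ℂ[X], h.natDegree ≤ d → (X - C x) ^ (m + 1) ∣ h → ℓ h = 0) :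
    ∃ r : ℂ[X], r.degree < (m + 1 : ℕ) ∧
      ∀ u : ℂ[X], u.natDegree ≤ d → ℓ u = (taylor x (r * u)).coeff m := by
  refine ⟨∑ i ∈ Finset.range (m + 1), C (ℓ ((X - C x) ^ (m - i))) * (X - C x) ^ i,
    FunRep_degree x m _, fun u hu => ?_⟩
  rw [taylor_mul, FunRep_taylor, coeff_mul]
  set v : ℂ[X] := ∑ i ∈ Finset.range (m + 1), C ((taylor x u).coeff i) * (X - C x) ^ i with hv
  have hvdeg : v.natDegree ≤ d := by
    have h1 := FunRep_degree x m (fun i => (taylor x u).coeff i)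
    have h2 : v.degree < ((m + 1 : ℕ) : WithBot ℕ) := h1
    have h3 : v.natDegree < m + 1 := by
      by_cases hv0 : v = 0
      · rw [hv0]; simp
      · exact (natDegree_lt_iff_degree_lt hv0).2 h2
    omega
  have hdvd : (X - C x) ^ (m + 1) ∣ u - v := by
    rw [X_sub_C_pow_dvd_iff, ← taylor_apply, X_pow_dvd_iff]
    intro j hj
    rw [map_sub, coeff_sub, hv, FunRep_taylor, FunRep_coeff _ _ _ (by omega), sub_self]
  have h1 := hℓ (u - v) ((natDegree_sub_le _ _).trans (max_le hu hvdeg)) hdvd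
  rw [map_sub, sub_eq_zero] at h1
  rw [h1, hv, map_sum, Finset.Nat.sum_antidiagonal_eq_sum_range_succ_mk,
    ← Finset.sum_range_reflect]
  refine Finset.sum_congr rfl fun i hi => ?_
  have hi' := Finset.mem_range.1 hi
  have e1 : m + 1 - 1 - i = m - i := by omega
  rw [e1, ← smul_eq_C_mul, map_smul, smul_eq_mul, FunRep_coeff _ _ _ (by omega)]
  exact mul_comm _ _

end Pool.Agent.Lib.MP_0ae92b_ag.G26
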