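import Pool.Agent.Lib.MP_0ae92b_ag.G26.ToCore
import Pool.Agent.Lib.MP_0ae92b_ag.G26.Core

set_option autoImplicit false

/-!
# Main theorem
-/

namespace Pool.Agent.Lib.MP_0ae92b_ag.G26

open Polynomial

variable {ι : Type} [Fintype ι] [DecidableEq ι]

theorem main_pairs (d : ℕ) (x : ι → OnePoint ℝ) (hx : Function.Injective x) (a b : ι → ℕ)
    (hab : ∀ i, b i ≤ a i) (hsum : ∑ i, (a i + b i) + 3 = 2 * d)
    (hc : d ≤ 5 + ∑ i, b i ∨ ∃ i, d ≤ (a i - b i) + 3 + ∑ i, b i) (f g : ℂ[X])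
    (hf : f ∈ Gam d) (hg : g ∈ Gam d) (hfg : Indep f g)
    (hS : ∀ i, SchubEq d (x i) (a i) (b i) f g) :
    Module.finrank ℂ (tanPairs d x a b f g) = 5 := by
  obtain ⟨y, f', g', p, q, hD, hfin⟩ := to_core d x hx a b hab hsum f g hf hg hfg hS
  rw [hfin]
  refine core y _ _ f' g' p q hD ?_
  rcases hc with h | ⟨i, hi⟩
  · left; omega
  · right; exact ⟨i, by omega⟩

/-- The fibre directions form a four-dimensional subspace.

PROOF.  `V × V` with `V = span {f, g}` of dimension `2`, and `V × V ≤ tanPairs` by `hS` (`SchubTan` for `u = c1 f + c2 g`, `v = c3 f + c4 g` is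
`(c1 + c4) (α f β g - β f α g) = 0`). -/
theorem fibre_finrank (d : ℕ) (x : ι → OnePoint ℝ) (a b : ι → ℕ) (f g : ℂ[X])
    (hf : f ∈ Gam d) (hg : g ∈ Gam d) (hfg : Indep f g)
    (hS : ∀ i, SchubEq d (x i) (a i) (b i) f g) :
    Module.finrank ℂ (fibre : Submodule ℂ (tanPairs d x a b f g)) = 4 := by
  have hmem : ∀ h ∈ Submodule.span ℂ {f, g}, ∃ c1 c2 : ℂ, h = c1 • f + c2 • g := by
    intro h hh
    rw [Submodule.mem_span_pair] at hh
    obtain ⟨c1, c2, h1⟩ := hh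
    exact ⟨c1, c2, h1.symm⟩
  have hle : (Submodule.span ℂ {f, g}).prod (Submodule.span ℂ {f, g}) ≤ tanPairs d x a b f g := by
    rintro ⟨u, v⟩ ⟨hu, hv⟩
    obtain ⟨c1, c2, rfl⟩ := hmem u hu
    obtain ⟨c3, c4, rfl⟩ := hmem v hv
    refine ⟨Submodule.add_mem _ (Submodule.smul_mem _ _ hf) (Submodule.smul_mem _ _ hg),
      Submodule.add_mem _ (Submodule.smul_mem _ _ hf) (Submodule.smul_mem _ _ hg), fun i => ?_⟩
    obtain ⟨h1, h2, h3⟩ := hS i
    refine ⟨Fl_add_mem _ _ _ (Fl_smul_mem _ _ _ _ h1) (Fl_smul_mem _ _ _ _ h2),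
      Fl_add_mem _ _ _ (Fl_smul_mem _ _ _ _ h1) (Fl_smul_mem _ _ _ _ h2), fun α β hα hβ => ?_⟩
    have := h3 α β hα hβ
    simp only [map_add, map_smul, smul_eq_mul]
    linear_combination (c1 + c4) * this
  have hli : LinearIndependent ℂ ![f, g] := by
    rw [LinearIndependent.pair_iff]
    intro s t hst
    refine hfg s t ?_
    rw [← smul_eq_C_mul, ← smul_eq_C_mul]
    exact hst
  have h2 : Module.finrank ℂ (Submodule.span ℂ {f, g}) = 2 := by
    have h := finrank_span_eq_card hli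
    have hr : Set.range ![f, g] = {f, g} := by
      rw [Matrix.range_cons, Matrix.range_cons, Matrix.range_empty, Set.union_empty]
      rfl
    rw [hr] at h
    simpa using h
  have e1 := LinearEquiv.finrank_eq (Submodule.comapSubtypeEquivOfLe hle)
  have e2 : ((Submodule.span ℂ {f, g}).prod (Submodule.span ℂ {f, g}) :
      Submodule ℂ (ℂ[X] × ℂ[X])) ≃ₗ[ℂ]
      (Submodule.span ℂ {f, g} : Submodule ℂ ℂ[X]) × (Submodule.span ℂ {f, g} : Submodule ℂ ℂ[X]) :=
    { toFun := fun w => (⟨w.1.1, w.2.1⟩, ⟨w.1.2, w.2.2⟩)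
      map_add' := fun _ _ => rfl
      map_smul' := fun _ _ => rfl
      invFun := fun w => ⟨(w.1.1, w.2.1), ⟨w.1.2, w.2.2⟩⟩
      left_inv := fun _ => rfl
      right_inv := fun _ => rfl }
  have hfin : Module.Finite ℂ (Submodule.span ℂ {f, g} : Submodule ℂ ℂ[X]) :=
    Module.finite_of_finrank_pos (by rw [h2]; norm_num)
  have e3 := LinearEquiv.finrank_eq e2
  rw [Module.finrank_prod, h2] at e3
  rw [fibre, e1, e3]

theorem main (d : ℕ) (x : ι → OnePoint ℝ) (hx : Function.Injective x) (a b : ι → ℕ)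
    (hab : ∀ i, b i ≤ a i) (hsum : ∑ i, (a i + b i) + 3 = 2 * d)
    (hc : d ≤ 5 + ∑ i, b i ∨ ∃ i, d ≤ (a i - b i) + 3 + ∑ i, b i) (f g : ℂ[X])
    (hf : f ∈ Gam d) (hg : g ∈ Gam d) (hfg : Indep f g)
    (hS : ∀ i, SchubEq d (x i) (a i) (b i) f g) :
    Module.finrank ℂ (TangentSpace d x a b f g) = 1 := by
  have h5 := main_pairs d x hx a b hab hsum hc f g hf hg hfg hS
  have h4 := fibre_finrank d x a b f g hf hg hfg hS
  have hfd : Module.Finite ℂ (tanPairs d x a b f g) :=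
    Module.finite_of_finrank_pos (by rw [h5]; norm_num)
  have := Submodule.finrank_quotient_add_finrank
    (fibre : Submodule ℂ (tanPairs d x a b f g))
  rw [h4, h5] at this
  change Module.finrank ℂ (tanPairs d x a b f g ⧸ (fibre : Submodule ℂ (tanPairs d x a b f g))) = 1
  omega

end Pool.Agent.Lib.MP_0ae92b_ag.G26
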