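import Pool.Agent.Lib.MP_0ae92b_ag.G26.Defs

set_option autoImplicit false

/-!
# All points can be moved to finite points

PROOF.  Choose a real `c` different from all finite `x i`.  `τ h = (taylor c h).reflect d`, i.e. `(τ h)(z) = z^d h(c + 1/z)` on `Γ_d` (`Polynomial.reflect`, which is additive and
commutes with constants and is an involution on all polynomials since `revAt` is; `taylor c` is a linear equivalence).  `y i = 0` if `x i = ∞`, and `y i = 1/(x_i - c)` if `x i = x_i` is finite.
The `y i` are distinct.  For `h ∈ Γ_d`: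
* `x i = ∞`: `deg h ≤ d - j` iff the coefficients of `X^k`, `k > d - j`, of `taylor c h` vanish iff `X^j` divides the reflection (`coeff_reflect`, `X_pow_dvd_iff`); for `j ≥ d + 1` both sides mean `h = 0`.
* `x i` finite: if `h = (X - x_i)^j h1` with `deg h1 ≤ d - j` then `taylor c h = (X - (x_i - c))^j h2` and
`reflect d (taylor c h) = reflect 1 (X - (x_i-c))^j * reflect (d-j) h2 = (1 - (x_i - c) X)^j * (..)` (`reflect_mul`), a multiple of `(X - y_i)^j`.  Conversely, the same argument
with the inverse map (or a comparison of dimensions, or apply the direct computation to `reflect`, an involution).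
-/

namespace Pool.Agent.Lib.MP_0ae92b_ag.G26

open Polynomial

variable {ι : Type} [Fintype ι]

private theorem moeb_mem (d : ℕ) (h : ℂ[X]) : h ∈ Gam d ↔ h.natDegree ≤ d := by
  unfold Gam
  rw [mem_degreeLT]
  constructor
  · intro hh
    by_cases h0 : h = 0
    · rw [h0]; simp
    · rw [Polynomial.degree_eq_natDegree h0] at hh
      have : h.natDegree < d + 1 := by exact_mod_cast hh
      omega
  · intro hh
    refine lt_of_le_of_lt Polynomial.degree_le_natDegree ?_
    exact_mod_cast Nat.lt_succ_of_le hh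

private theorem moeb_refl_mem (d : ℕ) {h : ℂ[X]} (hh : h ∈ Gam d) : reflect d h ∈ Gam d := by
  rw [moeb_mem] at hh ⊢
  rw [Polynomial.natDegree_le_iff_coeff_eq_zero]
  intro N hN
  rw [coeff_reflect, revAt_eq_self_of_lt hN]
  exact Polynomial.coeff_eq_zero_of_natDegree_lt (by omega)

private theorem moeb_tay_mem (d : ℕ) (r : ℂ) {h : ℂ[X]} (hh : h ∈ Gam d) :
    taylor r h ∈ Gam d := by
  rw [moeb_mem] at hh ⊢
  rwa [natDegree_taylor]

private theorem moeb_reflect_pow (w : ℂ) (j : ℕ) :
    reflect j ((X - C w) ^ j) = (1 - C w * X) ^ j := by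
  induction j with
  | zero => simp
  | succ j ih =>
    rw [pow_succ, reflect_mul _ _ (F := j) (G := 1), ih, pow_succ, reflect_sub, reflect_one_X,
      reflect_C, pow_one]
    · refine (natDegree_pow_le).trans ?_
      rw [natDegree_X_sub_C, mul_one]
    · rw [natDegree_X_sub_C]

private theorem moeb_A (d : ℕ) {w : ℂ} (hw : w ≠ 0) {j : ℕ} {g : ℂ[X]} (hg : g ∈ Gam d)
    (hd : (X - C w) ^ j ∣ g) : (X - C w⁻¹) ^ j ∣ reflect d g := by
  by_cases h0 : g = 0
  · rw [h0]; simp
  obtain ⟨g1, rfl⟩ := hd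
  rw [moeb_mem] at hg
  have hg1 : g1 ≠ 0 := by rintro rfl; simp at h0
  have hX : (X - C w) ^ j ≠ 0 := pow_ne_zero _ (X_sub_C_ne_zero w)
  rw [natDegree_mul hX hg1, natDegree_pow, natDegree_X_sub_C, mul_one] at hg
  have e : d = j + (d - j) := by omega
  rw [e, reflect_mul _ _ (F := j) (G := d - j), moeb_reflect_pow]
  · have e2 : (1 - C w * X : ℂ[X]) = C (-w) * (X - C w⁻¹) := by
      rw [mul_sub, ← C_mul, C_neg, neg_mul, neg_mul, mul_inv_cancel₀ hw]
      simp only [C_neg, C_1]
      ring
    rw [e2, mul_pow, mul_assoc]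
    exact Dvd.dvd.mul_left (dvd_mul_right _ _) _
  · rw [natDegree_pow, natDegree_X_sub_C, mul_one]
  · omega

private theorem moeb_B (z r : ℂ) {j : ℕ} {h : ℂ[X]} (hd : (X - C z) ^ j ∣ h) :
    (X - C (z - r)) ^ j ∣ taylor r h := by
  obtain ⟨h1, rfl⟩ := hd
  have e : taylor r (X - C z : ℂ[X]) = X - C (z - r) := by
    rw [map_sub, taylor_X, taylor_C, C_sub]; ring
  rw [taylor_mul, taylor_pow, e]
  exact dvd_mul_right _ _

theorem moeb (d : ℕ) (x : ι → OnePoint ℝ) (hx : Function.Injective x) :
    ∃ (y : ι → ℝ) (τ : ℂ[X] →ₗ[ℂ] ℂ[X]), Function.Injective y ∧ Function.Injective τ ∧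
      (∀ h ∈ Gam d, τ h ∈ Gam d) ∧ (∀ h ∈ Gam d, ∃ h' ∈ Gam d, τ h' = h) ∧
      ∀ (i : ι) (j : ℕ) (h : ℂ[X]), h ∈ Gam d →
        (h ∈ Fl d (x i) j ↔ τ h ∈ Fl d ((y i : ℝ) : OnePoint ℝ) j) := by
  classical
  -- the centre
  let v : ι → ℝ := fun i => match x i with
    | none => 0
    | some z => z
  obtain ⟨c, hc⟩ := Infinite.exists_notMem_finset (Finset.univ.image v)
  have hc' : ∀ i (z : ℝ), x i = ((z : ℝ) : OnePoint ℝ) → z - c ≠ 0 := by
    intro i z hz h0
    apply hc
    rw [Finset.mem_image]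
    refine ⟨i, Finset.mem_univ _, ?_⟩
    have : v i = z := by simp only [v, hz]
    rw [this]; linarith
  let y : ι → ℝ := fun i => match x i with
    | none => 0
    | some z => (z - c)⁻¹
  have hy0 : ∀ i, x i = OnePoint.infty → y i = 0 := by
    intro i hi; simp only [y, hi]
  have hyz : ∀ i (z : ℝ), x i = ((z : ℝ) : OnePoint ℝ) → y i = (z - c)⁻¹ := by
    intro i z hi; simp only [y, hi]
  let τ : ℂ[X] →ₗ[ℂ] ℂ[X] :=
    { toFun := fun h => reflect d (taylor (c : ℂ) h)
      map_add' := by intro f g; rw [map_add, reflect_add]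
      map_smul' := by
        intro a f
        rw [map_smul, smul_eq_C_mul, reflect_C_mul, RingHom.id_apply, smul_eq_C_mul] }
  have hτ : ∀ h, τ h = reflect d (taylor (c : ℂ) h) := fun h => rfl
  have hinv : ∀ h : ℂ[X], taylor (-(c : ℂ)) (taylor (c : ℂ) h) = h := by
    intro h; rw [taylor_taylor, neg_add_cancel, taylor_zero]
  have hinv' : ∀ h : ℂ[X], taylor (c : ℂ) (taylor (-(c : ℂ)) h) = h := by
    intro h; rw [taylor_taylor, add_neg_cancel, taylor_zero]
  refine ⟨y, τ, ?_, ?_, ?_, ?_, ?_⟩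
  · intro i i' hii
    apply hx
    rcases hi : x i with _ | z
    · rcases hi' : x i' with _ | z'
      · rfl
      · exfalso
        rw [hy0 i hi, hyz i' z' hi'] at hii
        exact (inv_ne_zero (hc' i' z' hi')) hii.symm
    · rcases hi' : x i' with _ | z'
      · exfalso
        rw [hyz i z hi, hy0 i' hi'] at hii
        exact (inv_ne_zero (hc' i z hi)) hii
      · rw [hyz i z hi, hyz i' z' hi'] at hii
        have := inv_injective hii
        have : z = z' := by linarith
        rw [this]
  · intro f g hfg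
    rw [hτ, hτ] at hfg
    have h1 := congrArg (reflect d) hfg
    rw [reflect_reflect, reflect_reflect] at h1
    exact taylor_injective _ h1
  · intro h hh
    rw [hτ]
    exact moeb_refl_mem d (moeb_tay_mem d _ hh)
  · intro h hh
    refine ⟨taylor (-(c : ℂ)) (reflect d h), moeb_tay_mem d _ (moeb_refl_mem d hh), ?_⟩
    rw [hτ, hinv', reflect_reflect]
  · intro i j h hh
    have hτm : τ h ∈ Gam d := moeb_refl_mem d (moeb_tay_mem d _ hh)
    rcases hi : x i with _ | z
    · rw [hy0 i hi]
      change h ∈ Fl d (OnePoint.infty : OnePoint ℝ) j ↔ _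
      rw [mem_Fl_infty, mem_Fl_coe]
      have e1 : (X - C (((0 : ℝ)) : ℂ) : ℂ[X]) = X := by simp
      rw [e1, X_pow_dvd_iff]
      have ht := moeb_tay_mem d (c : ℂ) hh
      constructor
      · rintro ⟨-, h2⟩
        refine ⟨hτm, ?_⟩
        intro k hk
        rw [hτ, coeff_reflect]
        have h3 : (taylor (c : ℂ) h).degree < ((d + 1 - j : ℕ) : WithBot ℕ) := by
          rw [degree_taylor]; exact mem_degreeLT.1 h2
        rw [degree_lt_iff_coeff_zero] at h3
        by_cases hkd : k ≤ d
        · rw [revAt_le hkd]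
          apply h3
          omega
        · rw [revAt_eq_self_of_lt (by omega)]
          apply h3
          omega
      · rintro ⟨-, h2⟩
        refine ⟨hh, ?_⟩
        rw [mem_degreeLT, ← degree_taylor h (c : ℂ), degree_lt_iff_coeff_zero]
        intro m hm
        by_cases hmd : m ≤ d
        · have h3 := h2 (d - m) (by omega)
          rwa [hτ, coeff_reflect, revAt_le (by omega), show d - (d - m) = m by omega] at h3
        · apply Polynomial.coeff_eq_zero_of_natDegree_lt
          rw [moeb_mem] at ht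
          omega
    · rw [hyz i z hi]
      change h ∈ Fl d ((z : ℝ) : OnePoint ℝ) j ↔ _
      rw [mem_Fl_coe, mem_Fl_coe]
      have hw : ((z : ℂ) - (c : ℂ)) ≠ 0 := by
        have := hc' i z hi
        exact_mod_cast this
      have e1 : (((z - c)⁻¹ : ℝ) : ℂ) = ((z : ℂ) - (c : ℂ))⁻¹ := by push_cast; rfl
      rw [e1]
      constructor
      · rintro ⟨-, h2⟩
        exact ⟨hτm, moeb_A d hw (moeb_tay_mem d _ hh) (moeb_B (z : ℂ) (c : ℂ) h2)⟩
      · rintro ⟨-, h2⟩
        refine ⟨hh, ?_⟩
        have h3 := moeb_A d (inv_ne_zero hw) hτm h2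
        rw [inv_inv, hτ, reflect_reflect] at h3
        have h4 := moeb_B _ (-(c : ℂ)) h3
        rw [hinv] at h4
        have e2 : (z : ℂ) - (c : ℂ) - -(c : ℂ) = z := by ring
        rwa [e2] at h4

end Pool.Agent.Lib.MP_0ae92b_ag.G26
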