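import Pool.Agent.Lib.MP_0ae92b_ag.G26.WrFacts

set_option autoImplicit false

/-!
# `N_h = N h`

PROOF.  `N_f = ∑ q_k E_k r_k`, `N_g = -∑ p_k E_k r_k`, `N_f g = N_g f`.  It suffices to show `f ∣ N_f`: then `N_f = N f` and `f N_g = N_f g = N f g`, `f ≠ 0`, so `N_g = N g`.
Over `ℂ` it suffices that every `ξ` is a root of `N_f` of at least the multiplicity of `f` (if `N_f ≠ 0`).
For each `ξ` there are `a, b` such that `h = a f + b g ≠ 0` and `N_h = a N_f + b N_g` satisfy `mult_ξ h ≤ mult_ξ N_h` or `N_h = 0`: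
* if `f(ξ) ≠ 0` or `g(ξ) ≠ 0` take `h = f` or `g` (multiplicity `0`);
* if `ξ` is a common zero, `wr_base` gives `ξ = x_i` and `(X - x_i)^(m_i+2) ∤ h_i = p_i f + q_i g`, so `mult h_i ≤ m_i + 1`; and
  `N_{h_i} = ∑_k (p_i q_k - q_i p_k) E_k r_k`, the term `k = i` is zero and `(X - x_i)^(m_i+1) ∣ E_k` for `k ≠ i`.
Since `N_h f = a N_f f + b N_g f = a N_f f + b N_f g = N_f h`: if `N_h = 0` then `N_f = 0`; otherwise `mult N_h + mult f = mult N_f + mult h`, so `mult f ≤ mult N_f`.
-/

namespace Pool.Agent.Lib.MP_0ae92b_ag.G26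

open Polynomial

variable {ι : Type} [Fintype ι] [DecidableEq ι]

theorem node_div (x : ι → ℝ) (m : ι → ℕ) (d : ℕ) (f g : ℂ[X]) (p q : ι → ℂ)
    (hD : PData x m d f g p q) (r : ι → ℂ[X])
    (h : (∑ k, C (q k) * (Ek x m k * r k)) * g = (-∑ k, C (p k) * (Ek x m k * r k)) * f) :
    ∃ N : ℂ[X], N * f = ∑ k, C (q k) * (Ek x m k * r k) ∧
      N * g = -∑ k, C (p k) * (Ek x m k * r k) := by
  classical
  have hf0 : f ≠ 0 := by
    rintro rfl
    have := hD.hfg 1 0 (by simp)
    exact one_ne_zero this.1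
  have hg0 : g ≠ 0 := by
    rintro rfl
    have := hD.hfg 0 1 (by simp)
    exact one_ne_zero this.2
  obtain ⟨F, hF⟩ : ∃ F : ℂ[X], F = ∑ k, C (q k) * (Ek x m k * r k) := ⟨_, rfl⟩
  obtain ⟨G, hG⟩ : ∃ G : ℂ[X], G = -∑ k, C (p k) * (Ek x m k * r k) := ⟨_, rfl⟩
  rw [← hF, ← hG] at h
  rw [← hF, ← hG]
  suffices hdvd : f ∣ F by
    obtain ⟨N, hN⟩ := hdvd
    refine ⟨N, by rw [hN, mul_comm], ?_⟩
    apply mul_left_cancel₀ hf0
    rw [← mul_assoc, ← hN, h, mul_comm]
  by_cases hF0 : F = 0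
  · rw [hF0]; exact dvd_zero _
  rw [IsAlgClosed.dvd_iff_roots_le_roots hf0 hF0, Multiset.le_iff_count]
  intro ξ
  rw [count_roots, count_roots]
  by_cases hfξ : f.eval ξ = 0
  · by_cases hgξ : g.eval ξ = 0
    · -- common zero
      obtain ⟨i, hi, hnd⟩ := wr_base x m d f g p q hD ξ hfξ hgξ
      subst hi
      obtain ⟨H, hH⟩ : ∃ H : ℂ[X], H = C (p i) * f + C (q i) * g := ⟨_, rfl⟩
      rw [← hH] at hnd
      have hH0 : H ≠ 0 := by
        rintro h0
        rw [h0] at hnd
        exact hnd (dvd_zero _)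
      have hNH : C (p i) * F + C (q i) * G =
          ∑ k, C (p i * q k - q i * p k) * (Ek x m k * r k) := by
        rw [hF, hG, mul_neg, Finset.mul_sum, Finset.mul_sum, ← sub_eq_add_neg,
          ← Finset.sum_sub_distrib]
        refine Finset.sum_congr rfl fun k _ => ?_
        rw [C_sub, C_mul, C_mul]; ring
      have hdiv : (X - C (xc x i)) ^ (m i + 1) ∣ C (p i) * F + C (q i) * G := by
        rw [hNH]
        refine Finset.dvd_sum fun k _ => ?_
        by_cases hk : k = i
        · subst hk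
          have : p k * q k - q k * p k = 0 := by ring
          rw [this, C_0, zero_mul]
          exact dvd_zero _
        · refine Dvd.dvd.mul_left (Dvd.dvd.mul_right ?_ _) _
          exact Finset.dvd_prod_of_mem (fun j => (X - C (xc x j)) ^ (m j + 1))
            (Finset.mem_erase.mpr ⟨fun h => hk h.symm, Finset.mem_univ _⟩)
      have hrel : (C (p i) * F + C (q i) * G) * f = F * H := by
        rw [hH]; linear_combination (-(C (q i))) * h
      have hNH0 : C (p i) * F + C (q i) * G ≠ 0 := by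
        intro h0
        rw [h0, zero_mul] at hrel
        exact mul_ne_zero hF0 hH0 hrel.symm
      have e1 := congrArg (rootMultiplicity (xc x i)) hrel
      rw [rootMultiplicity_mul (mul_ne_zero hNH0 hf0), rootMultiplicity_mul (mul_ne_zero hF0 hH0)]
        at e1
      have e2 := (le_rootMultiplicity_iff hNH0).mpr hdiv
      have e3 : rootMultiplicity (xc x i) H < m i + 2 := by
        by_contra hcon
        push Not at hcon
        exact hnd ((le_rootMultiplicity_iff hH0).mp hcon)
      omega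
    · have hG0 : G ≠ 0 := by
        rintro h0
        rw [h0, zero_mul] at h
        exact mul_ne_zero hF0 hg0 h
      have e1 := congrArg (rootMultiplicity ξ) h
      rw [rootMultiplicity_mul (mul_ne_zero hF0 hg0), rootMultiplicity_mul (mul_ne_zero hG0 hf0),
        rootMultiplicity_eq_zero (p := g) hgξ] at e1
      omega
  · rw [rootMultiplicity_eq_zero (p := f) hfξ]
    exact Nat.zero_le _

end Pool.Agent.Lib.MP_0ae92b_ag.G26
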