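import Pool.Agent.Lib.MP_0ae92b_ag.G26.Pol

set_option autoImplicit false

/-!
# The residue theorem

`M = ∑_k c_k E_k r_k`, `deg r_k ≤ m_k`, `E = ∏ (X - x_k)^(m_k+1)` of degree `n = ∑ (m_k + 1)`, so `deg M < n` and `M / E = ∑_k c_k r_k/(X - x_k)^(m_k+1)`.

PROOF of `res_deg`.  For every `u`: `∑_k c_k (taylor x_k (r_k u)).coeff m_k` equals the coefficient of `X^(n-1)` in `(M u) %ₘ E`.  By linearity one term suffices:
`(E_k r_k u) %ₘ E = E_k * ((r_k u) %ₘ (X - x_k)^(m_k+1))` (`E = E_k (X - x_k)^(m_k+1)`, everything monic), the second factor `ρ` has degree at most `m_k`, `E_k` is monic of degree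
`n - 1 - m_k`, so the coefficient is `ρ.coeff m_k = (taylor x_k ρ).coeff m_k` (top coefficient) `= (taylor x_k (r_k u)).coeff m_k` (they differ by a multiple of `(X - x_k)^(m_k+1)`).
If `M ≠ 0` and `deg M + d + 2 > n`, i.e. `deg M = n - 1 - i` with `i ≤ d`, take `u = X^i`: `M u` has degree `n - 1 < n`, equals its remainder, and its leading
coefficient is not `0`, contradiction.
PROOF of `res_inj`.  Modulo `(X - x_k)^(m_k+1)` only the term `k` survives, so `(X - x_k)^(m_k+1) ∣ C c_k * (E_k r_k)`; `E_k` is coprime to it, so it divides `C c_k * r_k`, which has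
degree at most `m_k`, hence is `0`.
-/

namespace Pool.Agent.Lib.MP_0ae92b_ag.G26

open Polynomial

variable {ι : Type} [Fintype ι] [DecidableEq ι]

/-- The product of all prime powers. -/
noncomputable def ResDegE (x : ι → ℝ) (m : ι → ℕ) : ℂ[X] :=
  ∏ j, (X - C (xc x j)) ^ (m j + 1)

theorem ResDeg_degree_C_mul_le (a : ℂ) (p : ℂ[X]) : (C a * p).degree ≤ p.degree := by
  rw [← smul_eq_C_mul]; exact degree_smul_le a p

theorem ResDegE_eq (x : ι → ℝ) (m : ι → ℕ) (k : ι) :
    ResDegE x m = (X - C (xc x k)) ^ (m k + 1) * Ek x m k := by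
  unfold ResDegE Ek
  rw [Finset.mul_prod_erase Finset.univ (fun j => (X - C (xc x j)) ^ (m j + 1)) (Finset.mem_univ k)]

omit [DecidableEq ι] in
theorem ResDeg_monicE (x : ι → ℝ) (m : ι → ℕ) : (ResDegE x m).Monic :=
  monic_prod_of_monic _ _ fun j _ => (monic_X_sub_C _).pow _

theorem ResDeg_monicEk (x : ι → ℝ) (m : ι → ℕ) (k : ι) : (Ek x m k).Monic :=
  monic_prod_of_monic _ _ fun j _ => (monic_X_sub_C _).pow _

omit [DecidableEq ι] in
theorem ResDeg_natDegreeE (x : ι → ℝ) (m : ι → ℕ) :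
    (ResDegE x m).natDegree = ∑ k, (m k + 1) := by
  unfold ResDegE
  rw [natDegree_prod_of_monic _ _ fun j _ => (monic_X_sub_C _).pow _]
  refine Finset.sum_congr rfl fun k _ => ?_
  rw [(monic_X_sub_C _).natDegree_pow, natDegree_X_sub_C, mul_one]

theorem ResDeg_natDegreeEk (x : ι → ℝ) (m : ι → ℕ) (k : ι) :
    (Ek x m k).natDegree + (m k + 1) = ∑ k, (m k + 1) := by
  rw [← ResDeg_natDegreeE x m, ResDegE_eq x m k, ((monic_X_sub_C _).pow _).natDegree_mul (ResDeg_monicEk x m k),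
    (monic_X_sub_C _).natDegree_pow, natDegree_X_sub_C, mul_one]
  omega

/-- top coefficient of a polynomial of degree at most `m` is invariant under `taylor` -/
theorem ResDeg_top (z : ℂ) (m : ℕ) (ρ : ℂ[X]) (h : ρ.natDegree ≤ m) :
    (taylor z ρ).coeff m = ρ.coeff m := by
  rcases h.lt_or_eq with h1 | h1
  · rw [coeff_eq_zero_of_natDegree_lt h1, coeff_eq_zero_of_natDegree_lt (by rwa [natDegree_taylor])]
  · rw [← h1, coeff_taylor_natDegree, leadingCoeff]

/-- `taylor` coefficients of low order of multiples of `(X - z)^(m+1)` vanish -/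
theorem ResDeg_low (z : ℂ) (m : ℕ) (v : ℂ[X]) :
    (taylor z ((X - C z) ^ (m + 1) * v)).coeff m = 0 := by
  rw [taylor_mul, taylor_pow, map_sub, taylor_X, taylor_C, add_sub_cancel_right, mul_comm, coeff_mul_X_pow']
  rw [if_neg (by omega)]

theorem ResDeg_one (x : ι → ℝ) (m : ι → ℕ) (k : ι) (v : ℂ[X]) :
    ((Ek x m k * v) %ₘ ResDegE x m).coeff (∑ k, (m k + 1) - 1) =
      (taylor (xc x k) v).coeff (m k) := by
  set Q : ℂ[X] := (X - C (xc x k)) ^ (m k + 1) with hQ
  have hQm : Q.Monic := (monic_X_sub_C _).pow _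
  have hQd : Q.natDegree = m k + 1 := by
    rw [hQ, (monic_X_sub_C _).natDegree_pow, natDegree_X_sub_C, mul_one]
  set ρ := v %ₘ Q with hρ
  have hρd : ρ.natDegree ≤ m k := by
    have := natDegree_modByMonic_lt v hQm (by
      intro h
      have h2 := hQd
      rw [h, natDegree_one] at h2
      omega)
    rw [hQd] at this
    exact Nat.lt_succ_iff.1 this
  have hE : ResDegE x m = Q * Ek x m k := ResDegE_eq x m k
  have h1 : (Ek x m k * v) %ₘ ResDegE x m = Ek x m k * ρ := by
    have := (div_modByMonic_unique (f := Ek x m k * v) (g := ResDegE x m) (v /ₘ Q) (Ek x m k * ρ)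
      (ResDeg_monicE x m) ⟨by
        have h := modByMonic_add_div v Q
        rw [hE]
        calc Ek x m k * ρ + Q * Ek x m k * (v /ₘ Q) = Ek x m k * (ρ + Q * (v /ₘ Q)) := by ring
          _ = Ek x m k * v := by rw [hρ, h], by
        rw [hE, mul_comm, degree_mul, degree_mul]
        have h := degree_modByMonic_lt v hQm
        have hb : (Ek x m k).degree ≠ ⊥ := by
          rw [Ne, degree_eq_bot]; exact (ResDeg_monicEk x m k).ne_zero
        exact WithBot.add_lt_add_right hb h⟩).2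
    exact this
  rw [h1]
  have hn := ResDeg_natDegreeEk x m k
  have h2 : ∑ k, (m k + 1) - 1 = (Ek x m k).natDegree + m k := by omega
  rw [h2, coeff_mul_add_eq_of_natDegree_le le_rfl hρd, (ResDeg_monicEk x m k).coeff_natDegree, one_mul]
  rw [← ResDeg_top (xc x k) (m k) ρ hρd]
  have h3 : v = Q * (v /ₘ Q) + ρ := by
    rw [add_comm]; exact (modByMonic_add_div v Q).symm
  conv_rhs => rw [h3]
  rw [map_add, coeff_add, ResDeg_low, zero_add]

theorem res_deg (x : ι → ℝ) (hx : Function.Injective x) (m : ι → ℕ) (d : ℕ) (r : ι → ℂ[X])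
    (hr : ∀ k, (r k).degree < (m k + 1 : ℕ)) (c : ι → ℂ)
    (h : ∀ u : ℂ[X], u.natDegree ≤ d → ∑ k, c k * (taylor (xc x k) (r k * u)).coeff (m k) = 0) :
    ∑ k, C (c k) * (Ek x m k * r k) = 0 ∨
      (∑ k, C (c k) * (Ek x m k * r k)).natDegree + d + 2 ≤ ∑ k, (m k + 1) := by
  set M := ∑ k, C (c k) * (Ek x m k * r k) with hM
  by_cases hM0 : M = 0
  · exact Or.inl hM0
  right
  by_contra hlt
  push Not at hlt
  set n := ∑ k, (m k + 1) with hn
  -- degree of M is less than n
  have hdeg : M.degree < (n : ℕ) := by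
    rw [hM, ← mem_degreeLT]
    refine Submodule.sum_mem _ fun k _ => ?_
    rw [mem_degreeLT]
    refine lt_of_le_of_lt (ResDeg_degree_C_mul_le _ _) ?_
    rw [degree_mul, degree_eq_natDegree (ResDeg_monicEk x m k).ne_zero]
    have h1 := hr k
    have h2 := ResDeg_natDegreeEk x m k
    rw [hn, ← h2, Nat.cast_add]
    exact WithBot.add_lt_add_left (WithBot.natCast_ne_bot _) h1
  have hnd : M.natDegree < n := by
    rwa [degree_eq_natDegree hM0, Nat.cast_lt] at hdeg
  obtain ⟨i, hi⟩ : ∃ i, M.natDegree + i = n - 1 := ⟨n - 1 - M.natDegree, by omega⟩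
  have hid : i ≤ d := by omega
  have h0 := h (X ^ i) (by rw [natDegree_X_pow]; exact hid)
  -- the coefficient
  have h1 : (M * X ^ i) %ₘ ResDegE x m = M * X ^ i := by
    rw [modByMonic_eq_self_iff (ResDeg_monicE x m)]
    rw [degree_eq_natDegree (ResDeg_monicE x m).ne_zero, ResDeg_natDegreeE]
    rw [degree_mul, degree_X_pow, degree_eq_natDegree hM0, ← Nat.cast_add, Nat.cast_lt]
    omega
  have h2 : ((M * X ^ i) %ₘ ResDegE x m).coeff (n - 1) = M.leadingCoeff := by
    rw [h1, ← hi, coeff_mul_X_pow, coeff_natDegree]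
  have h3 : (M * X ^ i) %ₘ ResDegE x m =
      ∑ k, C (c k) * ((Ek x m k * (r k * X ^ i)) %ₘ ResDegE x m) := by
    have e1 : M * X ^ i = ∑ k, (c k) • (Ek x m k * (r k * X ^ i)) := by
      rw [hM, Finset.sum_mul]
      refine Finset.sum_congr rfl fun k _ => ?_
      rw [smul_eq_C_mul]; ring
    rw [e1]
    have e2 := map_sum (modByMonicHom (ResDegE x m)) (fun k => (c k) • (Ek x m k * (r k * X ^ i))) Finset.univ
    simp only [modByMonicHom_apply, smul_modByMonic] at e2
    rw [e2]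
    refine Finset.sum_congr rfl fun k _ => ?_
    rw [smul_eq_C_mul]
  rw [h3, finsetSum_coeff] at h2
  have h4 : ∀ k, (C (c k) * ((Ek x m k * (r k * X ^ i)) %ₘ ResDegE x m)).coeff (n - 1) =
      c k * (taylor (xc x k) (r k * X ^ i)).coeff (m k) := by
    intro k
    rw [coeff_C_mul, hn, ResDeg_one]
  rw [Finset.sum_congr rfl fun k _ => h4 k, h0] at h2
  exact hM0 (leadingCoeff_eq_zero.1 h2.symm)

theorem res_inj (x : ι → ℝ) (hx : Function.Injective x) (m : ι → ℕ) (r : ι → ℂ[X])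
    (hr : ∀ k, (r k).degree < (m k + 1 : ℕ)) (c : ι → ℂ)
    (h : ∑ k, C (c k) * (Ek x m k * r k) = 0) (k : ι) : c k = 0 ∨ r k = 0 := by
  have hQd : (((X - C (xc x k)) ^ (m k + 1) : ℂ[X])).degree = ((m k + 1 : ℕ) : WithBot ℕ) := by
    rw [degree_pow, degree_X_sub_C, nsmul_one]
  have h1 : (X - C (xc x k)) ^ (m k + 1) ∣ C (c k) * (Ek x m k * r k) := by
    rw [← Finset.add_sum_erase Finset.univ _ (Finset.mem_univ k)] at h
    have h2 : C (c k) * (Ek x m k * r k) = -∑ l ∈ Finset.univ.erase k, C (c l) * (Ek x m l * r l) :=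
      eq_neg_of_add_eq_zero_left h
    rw [h2, dvd_neg]
    refine Finset.dvd_sum fun l hl => ?_
    have h3 : (X - C (xc x k)) ^ (m k + 1) ∣ Ek x m l := by
      unfold Ek
      exact Finset.dvd_prod_of_mem (fun j => (X - C (xc x j)) ^ (m j + 1))
        (Finset.mem_erase.2 ⟨fun hkl => (Finset.mem_erase.1 hl).1 hkl.symm, Finset.mem_univ k⟩)
    exact (h3.mul_right _).mul_left _
  have hco : IsCoprime ((X - C (xc x k)) ^ (m k + 1)) (Ek x m k) := by
    unfold Ek
    refine IsCoprime.prod_right fun j hj => ?_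
    refine IsCoprime.pow ?_
    refine isCoprime_X_sub_C_of_isUnit_sub ?_
    rw [isUnit_iff_ne_zero, sub_ne_zero]
    intro h
    exact (Finset.mem_erase.1 hj).1 (hx (Complex.ofReal_injective h).symm)
  have h2 : (X - C (xc x k)) ^ (m k + 1) ∣ C (c k) * r k := by
    refine hco.dvd_of_dvd_mul_left (?_ : _ ∣ Ek x m k * (C (c k) * r k))
    have : Ek x m k * (C (c k) * r k) = C (c k) * (Ek x m k * r k) := by ring
    rw [this]; exact h1
  have h3 : C (c k) * r k = 0 := by
    refine eq_zero_of_dvd_of_degree_lt h2 ?_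
    rw [hQd]
    exact lt_of_le_of_lt (ResDeg_degree_C_mul_le _ _) (hr k)
  rcases mul_eq_zero.1 h3 with h4 | h4
  · exact Or.inl (C_eq_zero.1 h4)
  · exact Or.inr h4

end Pool.Agent.Lib.MP_0ae92b_ag.G26
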