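import Pool.Agent.Lib.MP_0ae92b_ag.G26.FunRep
import Pool.Agent.Lib.MP_0ae92b_ag.G26.Dual
import Pool.Agent.Lib.MP_0ae92b_ag.G26.ResDeg
import Pool.Agent.Lib.MP_0ae92b_ag.G26.NodeDiv

set_option autoImplicit false

/-!
# A point with too large a tangent space is a node

PROOF.  `dual_exists` gives `ℓ_k`, `fun_rep` (with `m k ≤ d`: `p_k f + q_k g ≠ 0` has degree at most `d` and is divisible by `(X - x_k)^(m_k+1)`) gives `r_k` with `deg r_k ≤ m_k` and
`ℓ_k u = (taylor x_k (r_k u)).coeff m_k` on `Γ_d`; not all `r_k` are `0`.  `hrf`, `hrg` are `ℓ_k f = 0 = ℓ_k g`.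
`N_f = ∑ q_k E_k r_k`, `N_g = -∑ p_k E_k r_k`.  `res_deg` (`c = q` and `c = p`): each is `0` or has `natDegree + d + 2 ≤ n := ∑ (m_k + 1) = 2 d - 3 + card ι`.
`N_f g - N_g f = ∑_k E_k r_k (p_k f + q_k g)` is divisible by `E = ∏ (X - x_k)^(m_k+1)` (each term is, by `hdiv`), of degree `n`, but has degree at most `n - 2`, so it is `0`.
`node_div` gives `N`.  `N ≠ 0`: otherwise `res_inj` gives `q_k = 0 ∨ r_k = 0` and `p_k = 0 ∨ r_k = 0` for all `k`, so `r_k = 0` by `hpq`.
`hdeg`: by `wr_deg` `natDegree f = d` or `natDegree g = d`; in the first case `natDegree N + d = natDegree N_f` and `natDegree N_f + d + 2 ≤ 2 d - 3 + card ι`.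
-/

namespace Pool.Agent.Lib.MP_0ae92b_ag.G26

open Polynomial

variable {ι : Type} [Fintype ι] [DecidableEq ι]

theorem NodeN_deg (x : ι → ℝ) (m : ι → ℕ) :
    (∏ k, (X - C (xc x k)) ^ (m k + 1)).natDegree = ∑ k, (m k + 1) := by
  rw [Polynomial.natDegree_prod_of_monic _ _ (fun k _ => (monic_X_sub_C _).pow _)]
  refine Finset.sum_congr rfl fun k _ => ?_
  rw [Polynomial.natDegree_pow, Polynomial.natDegree_X_sub_C, mul_one]

theorem NodeN_Ek_mul (x : ι → ℝ) (m : ι → ℕ) (k : ι) :
    (X - C (xc x k)) ^ (m k + 1) * Ek x m k = ∏ j, (X - C (xc x j)) ^ (m j + 1) := by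
  unfold Ek
  exact Finset.mul_prod_erase Finset.univ (fun j => (X - C (xc x j)) ^ (m j + 1)) (Finset.mem_univ k)

theorem node_exists (x : ι → ℝ) (m : ι → ℕ) (d : ℕ) (f g : ℂ[X]) (p q : ι → ℂ)
    (hD : PData x m d f g p q) (hT : Module.finrank ℂ (TanC x m d f g p q) ≠ 5) :
    ∃ (N : ℂ[X]) (r : ι → ℂ[X]), IsNode x m f g p q N r := by
  obtain ⟨ℓ, ⟨k0, u0, hu0, hℓ0⟩, hℓdiv, hℓfg, hℓsum⟩ := dual_exists x m d f g p q hD hT
  -- m k ≤ d
  have hmd : ∀ k, m k ≤ d := by
    intro k
    have h1 : C (p k) * f + C (q k) * g ≠ 0 := by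
      intro h
      obtain ⟨h2, h3⟩ := hD.hfg _ _ h
      rcases hD.hpq k with h4 | h4
      · exact h4 h2
      · exact h4 h3
    have h2 := Polynomial.natDegree_le_of_dvd (hD.hdiv k) h1
    rw [Polynomial.natDegree_pow, Polynomial.natDegree_X_sub_C, mul_one] at h2
    have h3 : (C (p k) * f + C (q k) * g).natDegree ≤ d :=
      (Polynomial.natDegree_add_le _ _).trans (max_le
        ((Polynomial.natDegree_C_mul_le _ _).trans hD.hf)
        ((Polynomial.natDegree_C_mul_le _ _).trans hD.hg))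
    omega
  have hex : ∀ k, ∃ r : ℂ[X], r.degree < (m k + 1 : ℕ) ∧
      ∀ u : ℂ[X], u.natDegree ≤ d → ℓ k u = (taylor (xc x k) (r * u)).coeff (m k) :=
    fun k => fun_rep (xc x k) (m k) d (hmd k) (ℓ k) (hℓdiv k)
  choose r hr hru using hex
  have hr0 : r k0 ≠ 0 := by
    intro h
    apply hℓ0
    rw [hru k0 u0 hu0, h, zero_mul, map_zero, Polynomial.coeff_zero]
  have hrf : ∀ k, (taylor (xc x k) (r k * f)).coeff (m k) = 0 := by
    intro k
    rw [← hru k f hD.hf]
    exact (hℓfg k).1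
  have hrg : ∀ k, (taylor (xc x k) (r k * g)).coeff (m k) = 0 := by
    intro k
    rw [← hru k g hD.hg]
    exact (hℓfg k).2
  -- degrees
  have hdq := res_deg x hD.hx m d r hr q (by
    intro u hu
    rw [← (hℓsum u hu).2]
    exact Finset.sum_congr rfl fun k _ => by rw [hru k u hu])
  have hdp := res_deg x hD.hx m d r hr p (by
    intro u hu
    rw [← (hℓsum u hu).1]
    exact Finset.sum_congr rfl fun k _ => by rw [hru k u hu])
  obtain ⟨Q, hQ⟩ : ∃ Q, Q = ∑ k, C (q k) * (Ek x m k * r k) := ⟨_, rfl⟩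
  obtain ⟨P, hP⟩ : ∃ P, P = ∑ k, C (p k) * (Ek x m k * r k) := ⟨_, rfl⟩
  rw [← hQ] at hdq
  rw [← hP] at hdp
  have hS : Q * g + P * f = ∑ k, (Ek x m k * r k) * (C (p k) * f + C (q k) * g) := by
    rw [hQ, hP, Finset.sum_mul, Finset.sum_mul, ← Finset.sum_add_distrib]
    exact Finset.sum_congr rfl fun k _ => by ring
  have hdvd : (∏ k, (X - C (xc x k)) ^ (m k + 1)) ∣ Q * g + P * f := by
    rw [hS]
    refine Finset.dvd_sum fun k _ => ?_
    rw [← NodeN_Ek_mul x m k]
    obtain ⟨t, ht⟩ := hD.hdiv k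
    rw [ht]
    exact ⟨r k * t, by ring⟩
  have hzero : Q * g + P * f = 0 := by
    by_cases hQ0 : Q = 0
    · by_cases hP0 : P = 0
      · rw [hQ0, hP0, zero_mul, zero_mul, add_zero]
      · have h1 := hdp.resolve_left hP0
        refine Polynomial.eq_zero_of_dvd_of_natDegree_lt hdvd ?_
        rw [NodeN_deg, hQ0, zero_mul, zero_add]
        have h2 := Polynomial.natDegree_mul_le (p := P) (q := f)
        have h3 := hD.hf
        omega
    · have h0 := hdq.resolve_left hQ0
      by_cases hP0 : P = 0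
      · refine Polynomial.eq_zero_of_dvd_of_natDegree_lt hdvd ?_
        rw [NodeN_deg, hP0, zero_mul, add_zero]
        have h2 := Polynomial.natDegree_mul_le (p := Q) (q := g)
        have h3 := hD.hg
        omega
      · have h1 := hdp.resolve_left hP0
        refine Polynomial.eq_zero_of_dvd_of_natDegree_lt hdvd ?_
        rw [NodeN_deg]
        have h2 := Polynomial.natDegree_mul_le (p := P) (q := f)
        have h3 := hD.hf
        have h4 := Polynomial.natDegree_mul_le (p := Q) (q := g)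
        have h5 := hD.hg
        have h6 := Polynomial.natDegree_add_le (Q * g) (P * f)
        have h7 : max (Q * g).natDegree (P * f).natDegree ≤ (∑ k, (m k + 1)) - 2 := by
          refine max_le ?_ ?_
          · omega
          · omega
        omega
  have hrel : (∑ k, C (q k) * (Ek x m k * r k)) * g = (-∑ k, C (p k) * (Ek x m k * r k)) * f := by
    rw [← hQ, ← hP]
    linear_combination hzero
  obtain ⟨N, hNf, hNg⟩ := node_div x m d f g p q hD r hrel
  have hN0 : N ≠ 0 := by
    intro h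
    rw [h, zero_mul] at hNf hNg
    have h1 := res_inj x hD.hx m r hr q hNf.symm k0
    have h2 := res_inj x hD.hx m r hr p (by
      have h3 := hNg.symm
      rwa [neg_eq_zero] at h3) k0
    rcases hD.hpq k0 with h4 | h4
    · exact (h2.resolve_left h4 |> hr0)
    · exact (h1.resolve_left h4 |> hr0)
  have hsum : ∑ k, (m k + 1) = ∑ k, m k + Fintype.card ι := by
    rw [Finset.sum_add_distrib, Finset.sum_const, Finset.card_univ, smul_eq_mul, mul_one]
  have hs := hD.hsum
  refine ⟨N, r, hN0, ?_, hNf, hNg, hrf, hrg⟩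
  rcases wr_deg x m d f g p q hD with h | h
  · have hf0 : f ≠ 0 := by
      rintro rfl
      rw [Polynomial.natDegree_zero] at h
      omega
    have h1 : Q = N * f := by rw [hQ, hNf]
    have hQ0 : Q ≠ 0 := by rw [h1]; exact mul_ne_zero hN0 hf0
    have h2 := hdq.resolve_left hQ0
    rw [h1, Polynomial.natDegree_mul hN0 hf0, h] at h2
    omega
  · have hg0 : g ≠ 0 := by
      rintro rfl
      rw [Polynomial.natDegree_zero] at h
      omega
    have h1 : P = -(N * g) := by rw [hP, hNg, neg_neg]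
    have hP0 : P ≠ 0 := by rw [h1]; exact neg_ne_zero.2 (mul_ne_zero hN0 hg0)
    have h2 := hdp.resolve_left hP0
    rw [h1, Polynomial.natDegree_neg, Polynomial.natDegree_mul hN0 hg0, h] at h2
    omega

end Pool.Agent.Lib.MP_0ae92b_ag.G26
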