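import Pool.Agent.Lib.MP_0ae92b_ag.G26.Vec

set_option autoImplicit false

/-!
# Classification of real pencils of binary quadratic forms

`r`, `s` are linearly independent real quadratics (triples of coefficients).  The pencil they span contains, over `ℂ`,
two independent squares `g1², g2²`, both real or conjugate to each other, or it is of the form `g · (linear forms)`
with `g` real.

PROOF.  The discriminant `disc(α r + β s)` (`disc (n2,n1,n0) = n1² - 4 n2 n0`) is a binary quadratic form in `(α, β)`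
with real coefficients, so it has a zero `(α, β) ≠ 0` over `ℂ`; `n = α r + β s ≠ 0` has discriminant `0`, so it is
`c · g²` with `c ≠ 0` and a linear form `g = (g.1, g.2) ≠ 0` over `ℂ` (`n2 ≠ 0`: `g = (2 n2, n1)`, `c = 1/(4 n2)`; `n2 = 0`: `n1 = 0`,
`g = (0, 1)`, `c = n0`), i.e. `lm g g` lies in the complex span of `r`, `s`.
* If `wd g ḡ ≠ 0`: `lm g g` and its conjugate `lm ḡ ḡ` both lie in the span of the real vectors `r`, `s`, and
they are linearly independent, so they span the same two-dimensional space: second case.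
* If `wd g ḡ = 0`: `g` is a complex multiple of a real form (for instance divide by a nonzero coefficient), so we may assume
`g` real, and then `lm g g` is a REAL combination of `r, s` (real and imaginary parts of the coefficients,
`r, s` being independent).
Choose any real linear form `m` with `wd g m ≠ 0`.  `lm g g`, `lm g m`, `lm m m` is a basis of the space of
real quadratics.  The pencil is spanned by `lm g g` and some `M = a · lm g g + b · lm g m + c · lm m m` with
`(b, c) ≠ 0`.  If `c = 0` we are in the third case.  If `c ≠ 0` put `g2 = m + (b / 2c) g`: then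
`M = c · lm g2 g2 + (a - b²/(4c)) · lm g g`: first case, `wd g g2 = wd g m ≠ 0`.
-/

namespace Pool.Agent.Lib.MP_0ae92b_ag.G26

private theorem Pencil_cram (a b a' b' r s : ℂ) (h : a * b' - b * a' ≠ 0) :
    r = b' / (a * b' - b * a') * (a * r + b * s) + -b / (a * b' - b * a') * (a' * r + b' * s) ∧
    s = -a' / (a * b' - b * a') * (a * r + b * s) + a / (a * b' - b * a') * (a' * r + b' * s) := by
  obtain ⟨D, hD⟩ : ∃ D, D = a * b' - b * a' := ⟨_, rfl⟩
  rw [← hD] at h ⊢
  constructor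
  · field_simp
    rw [hD]; ring
  · field_simp
    rw [hD]; ring

/-- complex independence of real vectors -/
private theorem Pencil_indC {r2 r1 r0 s2 s1 s0 : ℝ}
    (hind : ∀ a b : ℝ, a * r2 + b * s2 = 0 → a * r1 + b * s1 = 0 → a * r0 + b * s0 = 0 → a = 0 ∧ b = 0)
    (a b : ℂ) (h2 : a * r2 + b * s2 = 0) (h1 : a * r1 + b * s1 = 0) (h0 : a * r0 + b * s0 = 0) :
    a = 0 ∧ b = 0 := by
  have e2 := congrArg Complex.re h2
  have e1 := congrArg Complex.re h1
  have e0 := congrArg Complex.re h0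
  have f2 := congrArg Complex.im h2
  have f1 := congrArg Complex.im h1
  have f0 := congrArg Complex.im h0
  simp only [Complex.add_re, Complex.mul_re, Complex.ofReal_re, Complex.ofReal_im, mul_zero,
    sub_zero, Complex.zero_re, Complex.add_im, Complex.mul_im, Complex.zero_im, zero_add]
    at e2 e1 e0 f2 f1 f0
  obtain ⟨x1, x2⟩ := hind a.re b.re e2 e1 e0
  obtain ⟨y1, y2⟩ := hind a.im b.im (by linarith) (by linarith) (by linarith)
  exact ⟨Complex.ext x1 y1, Complex.ext x2 y2⟩

/-- a complex square in the span -/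
private theorem Pencil_sq {r2 r1 r0 s2 s1 s0 : ℝ}
    (hind : ∀ a b : ℝ, a * r2 + b * s2 = 0 → a * r1 + b * s1 = 0 → a * r0 + b * s0 = 0 → a = 0 ∧ b = 0) :
    ∃ g1 g2 a b : ℂ, (g1 ≠ 0 ∨ g2 ≠ 0) ∧ g1 * g1 = a * r2 + b * s2 ∧
      g1 * g2 + g2 * g1 = a * r1 + b * s1 ∧ g2 * g2 = a * r0 + b * s0 := by
  obtain ⟨α, β, hαβ, hdisc⟩ : ∃ α β : ℂ, (α ≠ 0 ∨ β ≠ 0) ∧
      (α * r1 + β * s1) ^ 2 - 4 * (α * r2 + β * s2) * (α * r0 + β * s0) = 0 := by
    by_cases hA : (r1 : ℂ) ^ 2 - 4 * r2 * r0 = 0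
    · exact ⟨1, 0, Or.inl one_ne_zero, by linear_combination hA⟩
    · set A : ℂ := (r1 : ℂ) ^ 2 - 4 * r2 * r0 with hAd
      set B : ℂ := 2 * r1 * s1 - 4 * (r2 * s0 + s2 * r0) with hBd
      set C : ℂ := (s1 : ℂ) ^ 2 - 4 * s2 * s0 with hCd
      obtain ⟨d, hd⟩ := IsAlgClosed.exists_pow_nat_eq (B ^ 2 - 4 * A * C) two_pos
      refine ⟨(-B + d) / (2 * A), 1, Or.inr one_ne_zero, ?_⟩
      set α : ℂ := (-B + d) / (2 * A) with hα
      have h1 : 2 * A * α = -B + d := by
        rw [hα]; field_simp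
      have h2 : 4 * A * (A * α ^ 2 + B * α + C) = 0 := by
        linear_combination (2 * A * α + B + d) * h1 + hd
      have h3 : A * α ^ 2 + B * α + C = 0 := by
        rcases mul_eq_zero.1 h2 with h | h
        · exact absurd h (mul_ne_zero (by norm_num) hA)
        · exact h
      rw [hAd, hBd, hCd] at h3
      linear_combination h3
  set n2 := α * r2 + β * s2 with hn2
  set n1 := α * r1 + β * s1 with hn1
  set n0 := α * r0 + β * s0 with hn0
  by_cases h : n2 = 0
  · have h1 : n1 = 0 := by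
      rw [h] at hdisc
      have : n1 ^ 2 = 0 := by linear_combination hdisc
      exact pow_eq_zero_iff two_ne_zero |>.1 this
    have h0 : n0 ≠ 0 := by
      intro h0
      obtain ⟨x, y⟩ := Pencil_indC hind α β h h1 h0
      rcases hαβ with h' | h'
      · exact h' x
      · exact h' y
    refine ⟨0, 1, α / n0, β / n0, Or.inr one_ne_zero, ?_, ?_, ?_⟩
    · have : α / n0 * r2 + β / n0 * s2 = n2 / n0 := by rw [hn2]; ring
      rw [this, h]; simp
    · have : α / n0 * r1 + β / n0 * s1 = n1 / n0 := by rw [hn1]; ring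
      rw [this, h1]; simp
    · have : α / n0 * r0 + β / n0 * s0 = n0 / n0 := by
        rw [hn0]; ring
      rw [this, div_self h0]; simp
  · refine ⟨2 * n2, n1, 4 * n2 * α, 4 * n2 * β, Or.inl (mul_ne_zero two_ne_zero h), ?_, ?_, ?_⟩
    · have : 4 * n2 * α * r2 + 4 * n2 * β * s2 = 4 * n2 * n2 := by rw [hn2]; ring
      rw [this]; ring
    · have : 4 * n2 * α * r1 + 4 * n2 * β * s1 = 4 * n2 * n1 := by rw [hn1]; ring
      rw [this]; ring
    · have : 4 * n2 * α * r0 + 4 * n2 * β * s0 = 4 * n2 * n0 := by rw [hn0]; ring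
      rw [this]; linear_combination hdisc

/-- the real case -/
private theorem Pencil_real {r2 r1 r0 s2 s1 s0 : ℝ} (p q : ℝ) (hg : p ≠ 0 ∨ q ≠ 0) (a b : ℝ)
    (h2 : p * p = a * r2 + b * s2) (h1 : p * q + q * p = a * r1 + b * s1)
    (h0 : q * q = a * r0 + b * s0) :
    (∃ g1 g2 : ℝ × ℝ, wd g1 g2 ≠ 0 ∧
      (∃ c1 c2 : ℝ, ((r2, r1, r0) : ℝ × ℝ × ℝ) = c1 • lm g1 g1 + c2 • lm g2 g2) ∧
      (∃ c1 c2 : ℝ, ((s2, s1, s0) : ℝ × ℝ × ℝ) = c1 • lm g1 g1 + c2 • lm g2 g2)) ∨
    (∃ g m : ℝ × ℝ, wd g m ≠ 0 ∧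
      (∃ c1 c2 : ℝ, ((r2, r1, r0) : ℝ × ℝ × ℝ) = c1 • lm g g + c2 • lm g m) ∧
      (∃ c1 c2 : ℝ, ((s2, s1, s0) : ℝ × ℝ × ℝ) = c1 • lm g g + c2 • lm g m)) := by
  -- the second element of the pencil
  obtain ⟨M2, M1, M0, ⟨u1, u2, hu2, hu1, hu0⟩, ⟨v1, v2, hv2, hv1, hv0⟩⟩ : ∃ M2 M1 M0 : ℝ,
      (∃ c1 c2 : ℝ, r2 = c1 * (p * p) + c2 * M2 ∧ r1 = c1 * (p * q + q * p) + c2 * M1 ∧
        r0 = c1 * (q * q) + c2 * M0) ∧
      (∃ c1 c2 : ℝ, s2 = c1 * (p * p) + c2 * M2 ∧ s1 = c1 * (p * q + q * p) + c2 * M1 ∧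
        s0 = c1 * (q * q) + c2 * M0) := by
    by_cases ha : a = 0
    · have hb : b ≠ 0 := by
        intro hb
        rw [ha, hb] at h2 h0
        rcases hg with h | h
        · exact h (mul_self_eq_zero.1 (by linarith))
        · exact h (mul_self_eq_zero.1 (by linarith))
      refine ⟨r2, r1, r0, ⟨0, 1, by ring, by ring, by ring⟩, ⟨1 / b, -a / b, ?_, ?_, ?_⟩⟩
      · field_simp; linarith
      · field_simp; linarith
      · field_simp; linarith
    · refine ⟨s2, s1, s0, ⟨1 / a, -b / a, ?_, ?_, ?_⟩, ⟨0, 1, by ring, by ring, by ring⟩⟩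
      · field_simp; linarith
      · field_simp; linarith
      · field_simp; linarith
  -- the basis with `m = (-q, p)`, `w = p ^ 2 + q ^ 2`
  have hw : p ^ 2 + q ^ 2 ≠ 0 := by
    rcases hg with h | h
    · have : 0 < p ^ 2 := by positivity
      nlinarith [sq_nonneg q]
    · have : 0 < q ^ 2 := by positivity
      nlinarith [sq_nonneg p]
  set w := p ^ 2 + q ^ 2 with hwd
  set x := (M2 * p ^ 2 + M1 * (p * q) + M0 * q ^ 2) / w ^ 2 with hx
  set y := (-2 * M2 * (p * q) + M1 * (p ^ 2 - q ^ 2) + 2 * M0 * (p * q)) / w ^ 2 with hy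
  set z := (M2 * q ^ 2 - M1 * (p * q) + M0 * p ^ 2) / w ^ 2 with hz
  have k2 : M2 = x * (p * p) + y * (p * -q) + z * (-q * -q) := by
    rw [hx, hy, hz]; field_simp; rw [hwd]; ring
  have k1 : M1 = x * (p * q + q * p) + y * (p * p + q * -q) + z * (-q * p + p * -q) := by
    rw [hx, hy, hz]; field_simp; rw [hwd]; ring
  have k0 : M0 = x * (q * q) + y * (q * p) + z * (p * p) := by
    rw [hx, hy, hz]; field_simp; rw [hwd]; ring
  by_cases hz0 : z = 0
  · right
    rw [hz0] at k2 k1 k0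
    refine ⟨(p, q), (-q, p), ?_, ⟨u1 + u2 * x, u2 * y, ?_⟩, ⟨v1 + v2 * x, v2 * y, ?_⟩⟩
    · simp only [wd]
      intro h; apply hw; rw [hwd]; linarith
    · simp only [lm, Prod.smul_mk, Prod.mk_add_mk, smul_eq_mul, Prod.mk.injEq]
      refine ⟨?_, ?_, ?_⟩
      · rw [hu2, k2]; ring
      · rw [hu1, k1]; ring
      · rw [hu0, k0]; ring
    · simp only [lm, Prod.smul_mk, Prod.mk_add_mk, smul_eq_mul, Prod.mk.injEq]
      refine ⟨?_, ?_, ?_⟩
      · rw [hv2, k2]; ring
      · rw [hv1, k1]; ring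
      · rw [hv0, k0]; ring
  · left
    have l2 : M2 = (x - y ^ 2 / (4 * z)) * (p * p)
        + z * ((-q + y / (2 * z) * p) * (-q + y / (2 * z) * p)) := by
      rw [k2]; field_simp; ring
    have l1 : M1 = (x - y ^ 2 / (4 * z)) * (p * q + q * p)
        + z * ((-q + y / (2 * z) * p) * (p + y / (2 * z) * q)
          + (p + y / (2 * z) * q) * (-q + y / (2 * z) * p)) := by
      rw [k1]; field_simp; ring
    have l0 : M0 = (x - y ^ 2 / (4 * z)) * (q * q)
        + z * ((p + y / (2 * z) * q) * (p + y / (2 * z) * q)) := by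
      rw [k0]; field_simp; ring
    set X := x - y ^ 2 / (4 * z) with hX
    set e1 := -q + y / (2 * z) * p with he1
    set e2 := p + y / (2 * z) * q with he2
    refine ⟨(p, q), (e1, e2), ?_, ⟨u1 + u2 * X, u2 * z, ?_⟩, ⟨v1 + v2 * X, v2 * z, ?_⟩⟩
    · simp only [wd]
      intro h
      apply hw
      rw [he1, he2] at h
      rw [hwd]
      linear_combination h
    · simp only [lm, Prod.smul_mk, Prod.mk_add_mk, smul_eq_mul, Prod.mk.injEq]
      refine ⟨?_, ?_, ?_⟩
      · rw [hu2, l2]; ring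
      · rw [hu1, l1]; ring
      · rw [hu0, l0]; ring
    · simp only [lm, Prod.smul_mk, Prod.mk_add_mk, smul_eq_mul, Prod.mk.injEq]
      refine ⟨?_, ?_, ?_⟩
      · rw [hv2, l2]; ring
      · rw [hv1, l1]; ring
      · rw [hv0, l0]; ring

theorem pencil (r s : ℝ × ℝ × ℝ) (hrs : LinearIndependent ℝ ![r, s]) :
    (∃ g1 g2 : ℝ × ℝ, wd g1 g2 ≠ 0 ∧ (∃ c1 c2 : ℝ, r = c1 • lm g1 g1 + c2 • lm g2 g2) ∧
      (∃ c1 c2 : ℝ, s = c1 • lm g1 g1 + c2 • lm g2 g2)) ∨
    (∃ g : ℂ × ℂ, wd g ((starRingEnd ℂ) g.1, (starRingEnd ℂ) g.2) ≠ 0 ∧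
      (∃ c1 c2 : ℂ, ((r.1 : ℂ), (r.2.1 : ℂ), (r.2.2 : ℂ)) =
        c1 • lm g g + c2 • lm ((starRingEnd ℂ) g.1, (starRingEnd ℂ) g.2)
          ((starRingEnd ℂ) g.1, (starRingEnd ℂ) g.2)) ∧
      (∃ c1 c2 : ℂ, ((s.1 : ℂ), (s.2.1 : ℂ), (s.2.2 : ℂ)) =
        c1 • lm g g + c2 • lm ((starRingEnd ℂ) g.1, (starRingEnd ℂ) g.2)
          ((starRingEnd ℂ) g.1, (starRingEnd ℂ) g.2))) ∨
    (∃ g m : ℝ × ℝ, wd g m ≠ 0 ∧ (∃ c1 c2 : ℝ, r = c1 • lm g g + c2 • lm g m) ∧
      (∃ c1 c2 : ℝ, s = c1 • lm g g + c2 • lm g m)) := by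
  obtain ⟨r2, r1, r0⟩ := r
  obtain ⟨s2, s1, s0⟩ := s
  rw [LinearIndependent.pair_iff] at hrs
  have hind : ∀ a b : ℝ, a * r2 + b * s2 = 0 → a * r1 + b * s1 = 0 → a * r0 + b * s0 = 0 →
      a = 0 ∧ b = 0 := by
    intro a b h2 h1 h0
    apply hrs a b
    simp only [Prod.smul_mk, Prod.mk_add_mk, smul_eq_mul, h2, h1, h0]
    rfl
  obtain ⟨g1, g2, a, b, hg, h2, h1, h0⟩ := Pencil_sq hind
  set c := starRingEnd ℂ with hc
  have i2 : c g1 * c g1 = c a * r2 + c b * s2 := by
    have := congrArg c h2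
    simpa only [map_mul, map_add, hc, Complex.conj_ofReal] using this
  have i1 : c g1 * c g2 + c g2 * c g1 = c a * r1 + c b * s1 := by
    have := congrArg c h1
    simpa only [map_mul, map_add, hc, Complex.conj_ofReal] using this
  have i0 : c g2 * c g2 = c a * r0 + c b * s0 := by
    have := congrArg c h0
    simpa only [map_mul, map_add, hc, Complex.conj_ofReal] using this
  by_cases hwd : g1 * c g2 - g2 * c g1 = 0
  · -- real case
    have hreal : ∃ p q a' b' : ℝ, (p ≠ 0 ∨ q ≠ 0) ∧ p * p = a' * r2 + b' * s2 ∧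
        p * q + q * p = a' * r1 + b' * s1 ∧ q * q = a' * r0 + b' * s0 := by
      -- a complex multiple of a real form
      have hex : ∃ (p q : ℝ) (a' b' : ℂ), (p ≠ 0 ∨ q ≠ 0) ∧ (p : ℂ) * p = a' * r2 + b' * s2 ∧
          (p : ℂ) * q + q * p = a' * r1 + b' * s1 ∧ (q : ℂ) * q = a' * r0 + b' * s0 := by
        by_cases hg1 : g1 = 0
        · have hg2 : g2 ≠ 0 := by
            rcases hg with h | h
            · exact absurd hg1 h
            · exact h
          rw [hg1] at h2 h1
          refine ⟨0, 1, a / (g2 * g2), b / (g2 * g2), Or.inr one_ne_zero, ?_, ?_, ?_⟩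
          · have e : a / (g2 * g2) * r2 + b / (g2 * g2) * s2 = (a * r2 + b * s2) / (g2 * g2) := by
              ring
            rw [e, ← h2]; simp
          · have e : a / (g2 * g2) * r1 + b / (g2 * g2) * s1 = (a * r1 + b * s1) / (g2 * g2) := by
              ring
            rw [e, ← h1]; simp
          · have e : a / (g2 * g2) * r0 + b / (g2 * g2) * s0 = (a * r0 + b * s0) / (g2 * g2) := by
              ring
            rw [e, ← h0, div_self (mul_ne_zero hg2 hg2)]; simp
        · have hcg1 : c g1 ≠ 0 := by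
            intro h
            exact hg1 ((map_eq_zero c).1 h)
          have hρ : c (g2 / g1) = g2 / g1 := by
            rw [map_div₀, div_eq_div_iff hcg1 hg1]
            linear_combination hwd
          obtain ⟨ρ, hρ'⟩ := Complex.conj_eq_iff_real.1 hρ
          have hg2 : g2 = ρ * g1 := by
            rw [← hρ']; field_simp
          rw [hg2] at h1 h0
          refine ⟨1, ρ, a / (g1 * g1), b / (g1 * g1), Or.inl one_ne_zero, ?_, ?_, ?_⟩
          · have e : a / (g1 * g1) * r2 + b / (g1 * g1) * s2 = (a * r2 + b * s2) / (g1 * g1) := by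
              ring
            rw [e, ← h2, div_self (mul_ne_zero hg1 hg1)]; simp
          · have e : a / (g1 * g1) * r1 + b / (g1 * g1) * s1 = (a * r1 + b * s1) / (g1 * g1) := by
              ring
            rw [e, ← h1]
            field_simp
            push_cast
            ring
          · have e : a / (g1 * g1) * r0 + b / (g1 * g1) * s0 = (a * r0 + b * s0) / (g1 * g1) := by
              ring
            rw [e, ← h0]
            field_simp
      obtain ⟨p, q, a', b', hpq, e2, e1, e0⟩ := hex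
      refine ⟨p, q, a'.re, b'.re, hpq, ?_, ?_, ?_⟩
      · have := congrArg Complex.re e2
        simpa using this
      · have := congrArg Complex.re e1
        simpa using this
      · have := congrArg Complex.re e0
        simpa using this
    obtain ⟨p, q, a', b', hpq, e2, e1, e0⟩ := hreal
    rcases Pencil_real p q hpq a' b' e2 e1 e0 with h | h
    · exact Or.inl h
    · exact Or.inr (Or.inr h)
  · -- conjugate case
    right; left
    have hdet : a * c b - b * c a ≠ 0 := by
      intro hdet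
      apply hwd
      have hab : a ≠ 0 ∨ b ≠ 0 := by
        by_contra hcon
        push Not at hcon
        rw [hcon.1, hcon.2] at h2 h0
        rcases hg with h | h
        · exact h (mul_self_eq_zero.1 (by linear_combination h2))
        · exact h (mul_self_eq_zero.1 (by linear_combination h0))
      have key : ∀ e : ℂ, (e = a ∨ e = b) → e ≠ 0 → (g1 * c g2 - g2 * c g1) ^ 2 = 0 := by
        intro e he hne
        have m2 : c e * (g1 * g1) = e * (c g1 * c g1) := by
          rcases he with rfl | rfl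
          · rw [h2, i2]; linear_combination (-(s2 : ℂ)) * hdet
          · rw [h2, i2]; linear_combination (r2 : ℂ) * hdet
        have m1 : c e * (g1 * g2 + g2 * g1) = e * (c g1 * c g2 + c g2 * c g1) := by
          rcases he with rfl | rfl
          · rw [h1, i1]; linear_combination (-(s1 : ℂ)) * hdet
          · rw [h1, i1]; linear_combination (r1 : ℂ) * hdet
        have m0 : c e * (g2 * g2) = e * (c g2 * c g2) := by
          rcases he with rfl | rfl
          · rw [h0, i0]; linear_combination (-(s0 : ℂ)) * hdet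
          · rw [h0, i0]; linear_combination (r0 : ℂ) * hdet
        have : e * (g1 * c g2 - g2 * c g1) ^ 2 = 0 := by
          linear_combination (-(g1 * g1)) * m0 + (g1 * g2) * m1 + (-(g2 * g2)) * m2
        exact (mul_eq_zero.1 this).resolve_left hne
      have : (g1 * c g2 - g2 * c g1) ^ 2 = 0 := by
        rcases hab with h | h
        · exact key a (Or.inl rfl) h
        · exact key b (Or.inr rfl) h
      exact pow_eq_zero_iff two_ne_zero |>.1 this
    refine ⟨(g1, g2), ?_, ⟨c b / (a * c b - b * c a), -b / (a * c b - b * c a), ?_⟩,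
      ⟨-(c a) / (a * c b - b * c a), a / (a * c b - b * c a), ?_⟩⟩
    · simpa only [wd] using hwd
    · simp only [lm, Prod.smul_mk, Prod.mk_add_mk, smul_eq_mul, Prod.mk.injEq]
      refine ⟨?_, ?_, ?_⟩
      · rw [h2, i2]; exact (Pencil_cram a b (c a) (c b) _ _ hdet).1
      · rw [h1, i1]; exact (Pencil_cram a b (c a) (c b) _ _ hdet).1
      · rw [h0, i0]; exact (Pencil_cram a b (c a) (c b) _ _ hdet).1
    · simp only [lm, Prod.smul_mk, Prod.mk_add_mk, smul_eq_mul, Prod.mk.injEq]
      refine ⟨?_, ?_, ?_⟩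
      · rw [h2, i2]; exact (Pencil_cram a b (c a) (c b) _ _ hdet).2
      · rw [h1, i1]; exact (Pencil_cram a b (c a) (c b) _ _ hdet).2
      · rw [h0, i0]; exact (Pencil_cram a b (c a) (c b) _ _ hdet).2

end Pool.Agent.Lib.MP_0ae92b_ag.G26
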