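import Pool.Agent.Lib.MP_0ae92b_ag.G26.Vec

set_option autoImplicit false

/-!
# Polynomial side: definitions
-/

namespace Pool.Agent.Lib.MP_0ae92b_ag.G26

open Polynomial

/-- The Wronskian. -/
noncomputable def Wr (f g : ℂ[X]) : ℂ[X] := f * derivative g - derivative f * g

/-- Linear independence of two polynomials. -/
def Indep (f g : ℂ[X]) : Prop := ∀ c1 c2 : ℂ, C c1 * f + C c2 * g = 0 → c1 = 0 ∧ c2 = 0

variable {ι : Type} [Fintype ι] [DecidableEq ι]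

/-- `∑_{j ≠ k} 1 / (x_k - x_j) = D''(x_k) / (2 D'(x_k))`. -/
noncomputable def Sg {K : Type} [Field K] (x : ι → K) (k : ι) : K := ∑ j, (x k - x j)⁻¹

/-- `N' h + 2 N h' = 2 N S h` at `x_k`, `S = ∑_{j ≠ k} 1 / (x_k - x_j)`. -/
def Lrel (x : ι → ℝ) (N h : ℂ[X]) (k : ι) : Prop :=
  (derivative N).eval (xc x k) * h.eval (xc x k) +
      2 * (N.eval (xc x k) * (derivative h).eval (xc x k)) =
    2 * (N.eval (xc x k) * (Sg (xc x) k * h.eval (xc x k)))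

/-- `E / (X - x_k)^(m_k+1)`, where `E = ∏ (X - x_j)^(m_j+1)`. -/
noncomputable def Ek (x : ι → ℝ) (m : ι → ℕ) (k : ι) : ℂ[X] :=
  ∏ j ∈ Finset.univ.erase k, (X - C (xc x j)) ^ (m j + 1)

/-- The data: `f, g` is a basis of a point `V` of `S` (points `x_k` in `ℝ`, one-row partitions `(m_k)`), and
`p_k f + q_k g` is a nonzero element of `V` which vanishes to order at least `m_k + 1` at `x_k`. -/
structure PData (x : ι → ℝ) (m : ι → ℕ) (d : ℕ) (f g : ℂ[X]) (p q : ι → ℂ) : Prop where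
  hx : Function.Injective x
  hsum : ∑ k, m k + 3 = 2 * d
  hf : f.natDegree ≤ d
  hg : g.natDegree ≤ d
  hfg : Indep f g
  hpq : ∀ k, p k ≠ 0 ∨ q k ≠ 0
  hdiv : ∀ k, (X - C (xc x k)) ^ (m k + 1) ∣ C (p k) * f + C (q k) * g

/-- The node data: a nonzero polynomial `N` of degree at most `card ι - 5` such that `N h g' / E` is residue free at
all `x_k` for `h, g'` in `V`; `r_k / (X - x_k)^(m_k+1)` is the polar part at `x_k`. -/
structure IsNode (x : ι → ℝ) (m : ι → ℕ) (f g : ℂ[X]) (p q : ι → ℂ) (N : ℂ[X])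
    (r : ι → ℂ[X]) : Prop where
  hN : N ≠ 0
  hdeg : N.natDegree + 5 ≤ Fintype.card ι
  hf : N * f = ∑ k, C (q k) * (Ek x m k * r k)
  hg : N * g = -∑ k, C (p k) * (Ek x m k * r k)
  hrf : ∀ k, (taylor (xc x k) (r k * f)).coeff (m k) = 0
  hrg : ∀ k, (taylor (xc x k) (r k * g)).coeff (m k) = 0

/-- The tangent pairs in the finite one-row case. -/
noncomputable def TanC (x : ι → ℝ) (m : ι → ℕ) (d : ℕ) (f g : ℂ[X]) (p q : ι → ℂ) :
    Submodule ℂ (ℂ[X] × ℂ[X]) where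
  carrier := {w | w.1 ∈ degreeLT ℂ (d + 1) ∧ w.2 ∈ degreeLT ℂ (d + 1) ∧ ∀ k, ∃ c1 c2 : ℂ,
    (X - C (xc x k)) ^ (m k + 1) ∣ C (p k) * w.1 + C (q k) * w.2 - (C c1 * f + C c2 * g)}
  zero_mem' := by
    refine ⟨Submodule.zero_mem _, Submodule.zero_mem _, fun k => ⟨0, 0, ?_⟩⟩
    simp
  add_mem' := by
    rintro ⟨u, v⟩ ⟨u', v'⟩ ⟨hu, hv, h⟩ ⟨hu', hv', h'⟩
    refine ⟨Submodule.add_mem _ hu hu', Submodule.add_mem _ hv hv', fun k => ?_⟩
    obtain ⟨c1, c2, hc⟩ := h k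
    obtain ⟨c1', c2', hc'⟩ := h' k
    refine ⟨c1 + c1', c2 + c2', ?_⟩
    have := dvd_add hc hc'
    convert this using 1
    simp only [Prod.mk_add_mk, map_add]
    ring
  smul_mem' := by
    rintro c ⟨u, v⟩ ⟨hu, hv, h⟩
    refine ⟨Submodule.smul_mem _ c hu, Submodule.smul_mem _ c hv, fun k => ?_⟩
    obtain ⟨c1, c2, hc⟩ := h k
    refine ⟨c * c1, c * c2, ?_⟩
    have := Dvd.dvd.mul_left hc (C c)
    convert this using 1
    simp only [Prod.smul_mk, smul_eq_C_mul, map_mul]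
    ring

end Pool.Agent.Lib.MP_0ae92b_ag.G26
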