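import Pool.Agent.Lib.MP_0ae92b_ag.G26.WrZero

set_option autoImplicit false

/-!
# The sum rule for six points

PROOF.  `W = Wr f g ≠ 0` (`wr_zero`) has degree at most `6` and vanishes at the six points: `W = c D`, `D = ∏ (X - x_k)`, `c ≠ 0`.
Change the basis `f, g` of `V` (the claim for all elements of `V` follows from the claim for a basis, or prove the claim
directly for every `h ∈ V`): some nonzero element of `V` has coefficient `0` in degree `4`; call it `φ`, `deg φ ≤ 3`, and let `γ` be another element of a basis.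
The coefficient of `X^6` in `φ γ' - φ' γ` is `φ_3 γ_4 (4 - 3)`, and it is nonzero as `Wr φ γ` is a nonzero multiple of `D`.  So we may take
`φ = X³ + φ_2 X² + ..`, `γ = X⁴ + 0 · X³ + ..` (subtract a multiple of `φ`), `Wr φ γ = D`.
The coefficient of `X^5` is `4 φ_2 - 2 φ_2 = 2 φ_2`, so `φ_2` is real.
`P = φ' γ'' - φ'' γ'` has degree at most `4`, coefficients `12` (degree `4`) and `16 φ_2` (degree `3`): both real.  Every `h ∈ V` satisfies
`D h'' - D' h' + P h = 0` (expand the determinant of the three rows `(h, φ, γ)`, `(h', φ', γ')`, `(h'', φ'', γ'')`, which is zero; `Wr' = φ γ'' - φ'' γ`), so at `x_k`: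
`P(x_k) h(x_k) = D'(x_k) h'(x_k)`, i.e. `h'(x_k)/h(x_k) = P(x_k)/D'(x_k)` if `h(x_k) ≠ 0`.
`p` = the polynomial of the imaginary parts of the coefficients of `P`; it has degree at most `2`, and `Im P(x_k) = p(x_k)`.
-/

namespace Pool.Agent.Lib.MP_0ae92b_ag.G26

open Polynomial

theorem SumRule_expand (f : ℂ[X]) (hf : f.natDegree ≤ 4) :
    f = C (f.coeff 4) * X ^ 4 + C (f.coeff 3) * X ^ 3 + C (f.coeff 2) * X ^ 2 + C (f.coeff 1) * X +
      C (f.coeff 0) := by
  conv_lhs => rw [f.as_sum_range_C_mul_X_pow' (Nat.lt_succ_of_le hf)]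
  simp only [Finset.sum_range_succ, Finset.sum_range_zero, pow_zero, mul_one, pow_one, zero_add]
  ring

theorem SumRule_P (f g : ℂ[X]) (hf : f.natDegree ≤ 4) (hg : g.natDegree ≤ 4) :
    derivative f * derivative (derivative g) - derivative (derivative f) * derivative g =
      C (12 * (f.coeff 3 * g.coeff 4 - f.coeff 4 * g.coeff 3)) * X ^ 4 +
      C (16 * (f.coeff 2 * g.coeff 4 - f.coeff 4 * g.coeff 2)) * X ^ 3 +
      C (12 * (f.coeff 1 * g.coeff 4 - f.coeff 4 * g.coeff 1) +
        6 * (f.coeff 2 * g.coeff 3 - f.coeff 3 * g.coeff 2)) * X ^ 2 +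
      C (6 * (f.coeff 1 * g.coeff 3 - f.coeff 3 * g.coeff 1)) * X +
      C (2 * (f.coeff 1 * g.coeff 2 - f.coeff 2 * g.coeff 1)) := by
  conv_lhs => rw [SumRule_expand f hf, SumRule_expand g hg]
  generalize f.coeff 0 = a0
  generalize f.coeff 1 = a1
  generalize f.coeff 2 = a2
  generalize f.coeff 3 = a3
  generalize f.coeff 4 = a4
  generalize g.coeff 0 = b0
  generalize g.coeff 1 = b1
  generalize g.coeff 2 = b2
  generalize g.coeff 3 = b3
  generalize g.coeff 4 = b4
  simp only [derivative_add, derivative_mul, derivative_C, derivative_X_pow, derivative_X, zero_mul, zero_add,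
    mul_one, add_zero, Nat.cast_ofNat, map_ofNat, Nat.reduceSub, pow_one, mul_zero, map_add, map_sub, map_mul,
    derivative_ofNat]
  ring

theorem SumRule_W (f g : ℂ[X]) (hf : f.natDegree ≤ 4) (hg : g.natDegree ≤ 4) :
    Wr f g =
      C (f.coeff 3 * g.coeff 4 - f.coeff 4 * g.coeff 3) * X ^ 6 +
      C (2 * (f.coeff 2 * g.coeff 4 - f.coeff 4 * g.coeff 2)) * X ^ 5 +
      C (3 * (f.coeff 1 * g.coeff 4 - f.coeff 4 * g.coeff 1) +
        (f.coeff 2 * g.coeff 3 - f.coeff 3 * g.coeff 2)) * X ^ 4 +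
      C (4 * (f.coeff 0 * g.coeff 4 - f.coeff 4 * g.coeff 0) +
        2 * (f.coeff 1 * g.coeff 3 - f.coeff 3 * g.coeff 1)) * X ^ 3 +
      C (3 * (f.coeff 0 * g.coeff 3 - f.coeff 3 * g.coeff 0) +
        (f.coeff 1 * g.coeff 2 - f.coeff 2 * g.coeff 1)) * X ^ 2 +
      C (2 * (f.coeff 0 * g.coeff 2 - f.coeff 2 * g.coeff 0)) * X +
      C (f.coeff 0 * g.coeff 1 - f.coeff 1 * g.coeff 0) := by
  unfold Wr
  conv_lhs => rw [SumRule_expand f hf, SumRule_expand g hg]
  generalize f.coeff 0 = a0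
  generalize f.coeff 1 = a1
  generalize f.coeff 2 = a2
  generalize f.coeff 3 = a3
  generalize f.coeff 4 = a4
  generalize g.coeff 0 = b0
  generalize g.coeff 1 = b1
  generalize g.coeff 2 = b2
  generalize g.coeff 3 = b3
  generalize g.coeff 4 = b4
  simp only [derivative_add, derivative_mul, derivative_C, derivative_X_pow, derivative_X, zero_mul, zero_add,
    mul_one, add_zero, Nat.cast_ofNat, map_ofNat, Nat.reduceSub, pow_one, mul_zero, map_add, map_sub, map_mul]
  ring

variable {ι : Type} [Fintype ι] [DecidableEq ι]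

/-- the product of the linear factors -/
noncomputable def SumRuleD (x : ι → ℝ) : ℝ[X] := ∏ k, (X - C (x k))

omit [DecidableEq ι] in
theorem SumRuleD_monic (x : ι → ℝ) : (SumRuleD x).Monic :=
  monic_prod_of_monic _ _ fun j _ => monic_X_sub_C (x j)

omit [DecidableEq ι] in
theorem SumRuleD_natDegree (x : ι → ℝ) : (SumRuleD x).natDegree = Fintype.card ι := by
  unfold SumRuleD
  rw [natDegree_prod_of_monic _ _ fun j _ => monic_X_sub_C (x j)]
  simp [Finset.card_univ]

theorem SumRuleD_deriv (x : ι → ℝ) (k : ι) : (derivative (SumRuleD x)).eval (x k) = Dp x k := by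
  unfold SumRuleD Dp
  rw [derivative_prod_finset]
  rw [eval_finsetSum, Finset.sum_eq_single k]
  · simp [eval_prod]
  · intro j _ hj
    rw [eval_mul, eval_prod, Finset.prod_eq_zero (Finset.mem_erase.2 ⟨fun h => hj h.symm, Finset.mem_univ k⟩)
      (by simp), zero_mul]
  · intro h; exact absurd (Finset.mem_univ k) h

theorem SumRule_factor (x : ι → ℝ) (hx : Function.Injective x) (W : ℂ[X])
    (hW : ∀ k, W.eval (xc x k) = 0) (hd : W.natDegree ≤ Fintype.card ι) :
    ∃ c : ℂ, W = C c * (SumRuleD x).map Complex.ofRealHom := by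
  set D := (SumRuleD x).map Complex.ofRealHom with hD
  have hDm : D.Monic := (SumRuleD_monic x).map _
  have hDd : D.natDegree = Fintype.card ι := by
    rw [hD, (SumRuleD_monic x).natDegree_map, SumRuleD_natDegree]
  have hDe : D = ∏ k, (X - C (xc x k)) := by
    rw [hD, SumRuleD, Polynomial.map_prod]
    refine Finset.prod_congr rfl fun k _ => ?_
    rw [Polynomial.map_sub, map_X, map_C]
    rfl
  have hdvd : D ∣ W := by
    rw [hDe]
    refine Finset.prod_dvd_of_coprime ?_ fun k _ => dvd_iff_isRoot.2 (hW k)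
    intro i _ j _ hij
    exact isCoprime_X_sub_C_of_isUnit_sub (isUnit_iff_ne_zero.2 (sub_ne_zero.2 fun h =>
      hij (hx (Complex.ofReal_injective h))))
  obtain ⟨q, hq⟩ := hdvd
  by_cases hq0 : q = 0
  · exact ⟨0, by rw [hq, hq0]; simp⟩
  have h1 : W.natDegree = D.natDegree + q.natDegree := by
    rw [hq, hDm.natDegree_mul' hq0]
  have h2 : q.natDegree = 0 := by omega
  refine ⟨q.coeff 0, ?_⟩
  rw [hq, mul_comm]
  congr 1
  exact eq_C_of_natDegree_eq_zero h2

theorem sumrule (hι : Fintype.card ι = 6) (x : ι → ℝ) (hx : Function.Injective x) (f g : ℂ[X])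
    (hf : f.natDegree ≤ 4) (hg : g.natDegree ≤ 4) (hfg : Indep f g)
    (hW : ∀ k, (Wr f g).eval (xc x k) = 0) :
    ∃ p : ℝ[X], p.natDegree ≤ 2 ∧ ∀ (k : ι) (h : ℂ[X]), (h = f ∨ h = g) → h.eval (xc x k) ≠ 0 →
      ((derivative h).eval (xc x k) / h.eval (xc x k)).im = p.eval (x k) * (Dp x k)⁻¹ := by
  have hW0 : Wr f g ≠ 0 := by
    intro h
    obtain ⟨c1, c2, hc, h2⟩ := wr_zero f g h
    obtain ⟨h3, h4⟩ := hfg c1 c2 h2
    rcases hc with h5 | h5
    · exact h5 h3
    · exact h5 h4
  have hWd : (Wr f g).natDegree ≤ Fintype.card ι := by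
    have := wr_natDegree f g 4 hf hg
    omega
  obtain ⟨c, hc⟩ := SumRule_factor x hx (Wr f g) hW hWd
  have hc0 : c ≠ 0 := by
    rintro rfl
    rw [C_0, zero_mul] at hc
    exact hW0 hc
  set D := SumRuleD x with hD
  have hDd : D.natDegree = 6 := by rw [hD, SumRuleD_natDegree, hι]
  have hD6 : D.coeff 6 = 1 := by
    rw [← hDd]; exact (SumRuleD_monic x).coeff_natDegree
  have h6 : f.coeff 3 * g.coeff 4 - f.coeff 4 * g.coeff 3 = c := by
    have h1 := congrArg (fun p : ℂ[X] => p.coeff 6) (SumRule_W f g hf hg)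
    simp only [hc, coeff_C_mul, coeff_map, hD6, coeff_add, coeff_X_pow, coeff_X, coeff_C] at h1
    norm_num at h1
    exact h1.symm
  have h5 : 2 * (f.coeff 2 * g.coeff 4 - f.coeff 4 * g.coeff 2) = c * (D.coeff 5 : ℂ) := by
    have h1 := congrArg (fun p : ℂ[X] => p.coeff 5) (SumRule_W f g hf hg)
    simp only [hc, coeff_C_mul, coeff_map, coeff_add, coeff_X_pow, coeff_X, coeff_C] at h1
    norm_num at h1
    exact h1.symm
  set P0 := derivative f * derivative (derivative g) - derivative (derivative f) * derivative g with hP0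
  have hP0e := SumRule_P f g hf hg
  rw [← hP0, h6] at hP0e
  have h16 : 16 * (f.coeff 2 * g.coeff 4 - f.coeff 4 * g.coeff 2) = 8 * (c * (D.coeff 5 : ℂ)) := by
    rw [← h5]; ring
  rw [h16] at hP0e
  generalize 12 * (f.coeff 1 * g.coeff 4 - f.coeff 4 * g.coeff 1) +
        6 * (f.coeff 2 * g.coeff 3 - f.coeff 3 * g.coeff 2) = u2 at hP0e
  generalize 6 * (f.coeff 1 * g.coeff 3 - f.coeff 3 * g.coeff 1) = u1 at hP0e
  generalize 2 * (f.coeff 1 * g.coeff 2 - f.coeff 2 * g.coeff 1) = u0 at hP0e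
  refine ⟨C (u2 / c).im * X ^ 2 + C (u1 / c).im * X + C (u0 / c).im, natDegree_quadratic_le, ?_⟩
  intro k h hh hhk
  -- derivative relation
  have hrel : Wr f g * derivative (derivative h) - derivative (Wr f g) * derivative h + P0 * h = 0 := by
    rcases hh with rfl | rfl
    · rw [hP0]
      unfold Wr
      simp only [derivative_sub, derivative_mul]
      ring
    · rw [hP0]
      unfold Wr
      simp only [derivative_sub, derivative_mul]
      ring
  have hrelk := congrArg (fun p : ℂ[X] => p.eval (xc x k)) hrel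
  simp only [eval_add, eval_sub, eval_mul, hW k, zero_mul, zero_sub, eval_zero] at hrelk
  have hWder : (derivative (Wr f g)).eval (xc x k) = c * ((Dp x k : ℝ) : ℂ) := by
    rw [hc, derivative_C_mul, eval_mul, eval_C, derivative_map]
    have : (xc x k) = Complex.ofRealHom (x k) := rfl
    rw [this, eval_map_apply, SumRuleD_deriv]
    rfl
  rw [hWder] at hrelk
  have hDp : ((Dp x k : ℝ) : ℂ) ≠ 0 := by
    have : Dp x k ≠ 0 := by
      unfold Dp
      rw [Finset.prod_ne_zero_iff]
      intro j hj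
      exact sub_ne_zero.2 (fun h => (Finset.mem_erase.1 hj).1 (hx h.symm))
    exact_mod_cast this
  have hP0k : P0.eval (xc x k) = c * ((12 * x k ^ 4 + 8 * D.coeff 5 * x k ^ 3 : ℝ) + (u2 / c) * (x k ^ 2 : ℝ) +
      (u1 / c) * (x k : ℝ) + u0 / c) := by
    rw [hP0e]
    simp only [eval_add, eval_mul, eval_C, eval_pow, eval_X, xc]
    push_cast
    field_simp
  have hratio : (derivative h).eval (xc x k) / h.eval (xc x k) =
      ((12 * x k ^ 4 + 8 * D.coeff 5 * x k ^ 3 : ℝ) + (u2 / c) * (x k ^ 2 : ℝ) +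
      (u1 / c) * (x k : ℝ) + u0 / c) * ((Dp x k)⁻¹ : ℝ) := by
    rw [hP0k] at hrelk
    rw [div_eq_iff hhk]
    have h7 : c * ((Dp x k : ℝ) : ℂ) * (derivative h).eval (xc x k) =
        c * ((12 * x k ^ 4 + 8 * D.coeff 5 * x k ^ 3 : ℝ) + (u2 / c) * (x k ^ 2 : ℝ) +
      (u1 / c) * (x k : ℝ) + u0 / c) * h.eval (xc x k) := by
      linear_combination (-1 : ℂ) * hrelk
    generalize ((12 * x k ^ 4 + 8 * D.coeff 5 * x k ^ 3 : ℝ) + (u2 / c) * (x k ^ 2 : ℝ) +
      (u1 / c) * (x k : ℝ) + u0 / c : ℂ) = T at h7 ⊢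
    rw [Complex.ofReal_inv]
    have h8 : ((Dp x k : ℝ) : ℂ) * (derivative h).eval (xc x k) = T * h.eval (xc x k) := by
      apply mul_left_cancel₀ hc0
      rw [← mul_assoc, h7, mul_assoc]
    field_simp
    linear_combination h8
  rw [hratio, Complex.im_mul_ofReal]
  congr 1
  simp only [Complex.add_im, Complex.im_mul_ofReal, Complex.ofReal_im, zero_add, eval_add, eval_mul, eval_C, eval_pow, eval_X]

end Pool.Agent.Lib.MP_0ae92b_ag.G26
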