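import Pool.Agent.Lib.MP_0ae92b_ag.G26.Defs

set_option autoImplicit false

/-!
# Removing the second rows

`B = ∏ (X - y_i)^(b_i)`, monic of degree `∑ b_i ≤ d`.

PROOF.  `tworow_mem`: if `(X - y_i)^(b_i) ∣ u` for all `i` then `B ∣ u` (pairwise coprime factors), `u = B u'`, and degrees add (or `u = u' = 0`).
`tworow_fl`: `(X - y_i)^(b_i + k) ∣ B u'` iff `(X - y_i)^k ∣ u'` as `B = (X - y_i)^(b_i) B'` with `B'` coprime to `X - y_i`.
-/

namespace Pool.Agent.Lib.MP_0ae92b_ag.G26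

open Polynomial

variable {ι : Type} [Fintype ι]

omit [Fintype ι] in
theorem tworow_gam {d : ℕ} {h : ℂ[X]} : h ∈ Gam d ↔ h.natDegree ≤ d := by
  rw [Gam, mem_degreeLT, Polynomial.degree_lt_iff_coeff_zero,
    Polynomial.natDegree_le_iff_coeff_eq_zero]
  exact Iff.rfl

theorem tworow_monic (y : ι → ℝ) (b : ι → ℕ) : (∏ i, (X - C (y i : ℂ)) ^ b i : ℂ[X]).Monic :=
  monic_prod_of_monic _ _ fun i _ => (monic_X_sub_C _).pow _

theorem tworow_deg (y : ι → ℝ) (b : ι → ℕ) :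
    (∏ i, (X - C (y i : ℂ)) ^ b i : ℂ[X]).natDegree = ∑ i, b i := by
  rw [natDegree_prod_of_monic _ _ fun i _ => (monic_X_sub_C _).pow _]
  refine Finset.sum_congr rfl fun i _ => ?_
  rw [(monic_X_sub_C _).natDegree_pow, natDegree_X_sub_C, mul_one]

theorem tworow_gam_mul (d : ℕ) (y : ι → ℝ) (b : ι → ℕ) (hb : ∑ i, b i ≤ d) (u' : ℂ[X]) :
    (∏ i, (X - C (y i : ℂ)) ^ b i) * u' ∈ Gam d ↔ u' ∈ Gam (d - ∑ i, b i) := by
  rw [tworow_gam, tworow_gam]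
  by_cases hu : u' = 0
  · simp [hu]
  · rw [(tworow_monic y b).natDegree_mul' hu, tworow_deg]
    omega

omit [Fintype ι] in
theorem tworow_cop (y : ι → ℝ) (hy : Function.Injective y) {i j : ι} (hij : i ≠ j) (k l : ℕ) :
    IsCoprime ((X - C (y i : ℂ)) ^ k : ℂ[X]) ((X - C (y j : ℂ)) ^ l) := by
  refine IsCoprime.pow ?_
  refine isCoprime_X_sub_C_of_isUnit_sub ?_
  rw [isUnit_iff_ne_zero, sub_ne_zero]
  exact fun h => hij (hy (Complex.ofReal_injective h))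

theorem tworow_mem (d : ℕ) (y : ι → ℝ) (hy : Function.Injective y) (b : ι → ℕ) (hb : ∑ i, b i ≤ d)
    (u : ℂ[X]) :
    (u ∈ Gam d ∧ ∀ i, u ∈ Fl d ((y i : ℝ) : OnePoint ℝ) (b i)) ↔
      ∃ u' ∈ Gam (d - ∑ i, b i), u = (∏ i, (X - C (y i : ℂ)) ^ b i) * u' := by
  classical
  constructor
  · rintro ⟨h1, h2⟩
    have hdvd : (∏ i, (X - C (y i : ℂ)) ^ b i) ∣ u :=
      Finset.prod_dvd_of_coprime (fun i _ j _ hij => tworow_cop y hy hij _ _) fun i _ => (h2 i).2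
    obtain ⟨u', rfl⟩ := hdvd
    exact ⟨u', (tworow_gam_mul d y b hb u').1 h1, rfl⟩
  · rintro ⟨u', hu', rfl⟩
    have h1 := (tworow_gam_mul d y b hb u').2 hu'
    exact ⟨h1, fun i => ⟨h1, Dvd.dvd.mul_right
      (Finset.dvd_prod_of_mem (fun i => (X - C (y i : ℂ)) ^ b i) (Finset.mem_univ i)) _⟩⟩

theorem tworow_fl (d : ℕ) (y : ι → ℝ) (hy : Function.Injective y) (b : ι → ℕ) (hb : ∑ i, b i ≤ d)
    (i : ι) (k : ℕ) (u' : ℂ[X]) (hu' : u' ∈ Gam (d - ∑ i, b i)) :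
    (∏ i, (X - C (y i : ℂ)) ^ b i) * u' ∈ Fl d ((y i : ℝ) : OnePoint ℝ) (b i + k) ↔
      (X - C (y i : ℂ)) ^ k ∣ u' := by
  classical
  have h1 := (tworow_gam_mul d y b hb u').2 hu'
  rw [mem_Fl_coe]
  have hB : (∏ i, (X - C (y i : ℂ)) ^ b i : ℂ[X]) = (X - C (y i : ℂ)) ^ b i *
      ∏ j ∈ Finset.univ.erase i, (X - C (y j : ℂ)) ^ b j :=
    (Finset.mul_prod_erase _ _ (Finset.mem_univ i)).symm
  have hne : ((X - C (y i : ℂ)) ^ b i : ℂ[X]) ≠ 0 := pow_ne_zero _ (X_sub_C_ne_zero _)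
  have hc : IsCoprime ((X - C (y i : ℂ)) ^ k : ℂ[X])
      (∏ j ∈ Finset.univ.erase i, (X - C (y j : ℂ)) ^ b j) :=
    IsCoprime.prod_right fun j hj => tworow_cop y hy (Finset.ne_of_mem_erase hj).symm _ _
  rw [and_iff_right h1, hB, pow_add, mul_assoc, mul_dvd_mul_iff_left hne]
  exact ⟨fun h => hc.dvd_of_dvd_mul_left h, fun h => Dvd.dvd.mul_left h _⟩

end Pool.Agent.Lib.MP_0ae92b_ag.G26
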