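import Pool.Agent.Lib.MP_0ae92b_ag.G26.Conc
import Pool.Agent.Lib.MP_0ae92b_ag.G26.Moeb
import Pool.Agent.Lib.MP_0ae92b_ag.G26.TwoRow
import Pool.Agent.Lib.MP_0ae92b_ag.G26.WrFacts

set_option autoImplicit false

/-!
# Reduction to finite points and one-row partitions

PROOF.  `y, τ` from `moeb`; `B = ∏ (X - y_i)^(b_i)`; `∑ b_i ≤ d` (from `hsum` and `b ≤ a`).  `hS i` with `schubEq_iff`: `f, g ∈ Fl d (x i) (b i)`, and `p_i, q_i` with
`p_i f + q_i g ∈ Fl d (x i) (a i + 1)`.  So `τ f`, `τ g` are in all `Fl d (y i) (b i)`: `τ f = B f'`, `τ g = B g'` (`tworow_mem`), and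
`τ (p_i f + q_i g) = B (p_i f' + q_i g') ∈ Fl d (y i) (b_i + (a_i - b_i + 1))`, so `(X - y_i)^(a_i - b_i + 1) ∣ p_i f' + q_i g'` (`tworow_fl`).
`PData` for `y, m = a - b, d' = d - ∑ b`: `∑ (a_i - b_i) + 3 = 2 d'`; independence because `τ` and multiplication by `B` are injective; `xc y i = (y i : ℂ)`.
`hnot` of `schubTan_iff`: by `wr_nb` not both `f', g'` are divisible by `(X - y_i)^(a_i-b_i+1)`, so not both `f, g ∈ Fl d (x i) (a i + 1)`.
Equality of dimensions: the image of `tanPairs` under `τ × τ` equals the image of `TanC` under `(B ·) × (B ·)` (both maps injective, so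
`LinearEquiv.finrank_eq` for `Submodule.equivMapOfInjective`, or `LinearMap.finrank_...`): `(u, v) ∈ tanPairs` iff `u, v ∈ Γ_d`, `u, v ∈ Fl d (x i) (b i)` for all `i`, i.e. `τ u = B u'`, `τ v = B v'` with
`u', v' ∈ Γ_{d'}`, and `p_i u + q_i v - (c1 f + c2 g) ∈ Fl d (x i) (a i + 1)`, i.e. `(X - y_i)^(m_i+1) ∣ p_i u' + q_i v' - (c1 f' + c2 g')`.
-/

namespace Pool.Agent.Lib.MP_0ae92b_ag.G26

open Polynomial

variable {ι : Type} [Fintype ι] [DecidableEq ι]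

private theorem tocore_mulC (τ : ℂ[X] →ₗ[ℂ] ℂ[X]) (c : ℂ) (h : ℂ[X]) : τ (C c * h) = C c * τ h := by
  rw [← smul_eq_C_mul, map_smul, smul_eq_C_mul]

private theorem tocore_CGam (d : ℕ) (c : ℂ) {h : ℂ[X]} (hh : h ∈ Gam d) : C c * h ∈ Gam d := by
  rw [← smul_eq_C_mul]; exact Submodule.smul_mem _ c hh

private theorem tocore_comb (d : ℕ) (c1 c2 : ℂ) {h k : ℂ[X]} (hh : h ∈ Gam d) (hk : k ∈ Gam d) :
    C c1 * h + C c2 * k ∈ Gam d :=
  Submodule.add_mem _ (tocore_CGam d c1 hh) (tocore_CGam d c2 hk)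

private theorem tocore_natDegree (d : ℕ) {h : ℂ[X]} (hh : h ∈ Gam d) : h.natDegree ≤ d := by
  unfold Gam at hh
  rw [mem_degreeLT] at hh
  by_cases h0 : h = 0
  · simp [h0]
  · have := (natDegree_lt_iff_degree_lt h0).2 hh
    omega

theorem to_core (d : ℕ) (x : ι → OnePoint ℝ) (hx : Function.Injective x) (a b : ι → ℕ)
    (hab : ∀ i, b i ≤ a i) (hsum : ∑ i, (a i + b i) + 3 = 2 * d) (f g : ℂ[X])
    (hf : f ∈ Gam d) (hg : g ∈ Gam d) (hfg : Indep f g)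
    (hS : ∀ i, SchubEq d (x i) (a i) (b i) f g) :
    ∃ (y : ι → ℝ) (f' g' : ℂ[X]) (p q : ι → ℂ),
      PData y (fun i => a i - b i) (d - ∑ i, b i) f' g' p q ∧
      Module.finrank ℂ (tanPairs d x a b f g) =
        Module.finrank ℂ (TanC y (fun i => a i - b i) (d - ∑ i, b i) f' g' p q) := by
  obtain ⟨y, τ, hy, hτi, hτG, hτs, hτF⟩ := moeb d x hx
  have hsumab : ∑ i, (a i + b i) = ∑ i, a i + ∑ i, b i := Finset.sum_add_distrib
  have hble : ∑ i, b i ≤ ∑ i, a i := Finset.sum_le_sum (fun i _ => hab i)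
  have hb : ∑ i, b i ≤ d := by omega
  have hsub : ∑ i, (a i - b i) + ∑ i, b i = ∑ i, a i := by
    rw [← Finset.sum_add_distrib]
    exact Finset.sum_congr rfl fun i _ => Nat.sub_add_cancel (hab i)
  have hc : ∀ i, f ∈ Fl d (x i) (b i) ∧ g ∈ Fl d (x i) (b i) ∧
      ∃ p q : ℂ, (p ≠ 0 ∨ q ≠ 0) ∧ C p * f + C q * g ∈ Fl d (x i) (a i + 1) :=
    fun i => (schubEq_iff d (x i) (a i) (b i) f g).1 (hS i)
  choose hbf hbg p q hpq hpF using hc
  obtain ⟨f', hf', hff⟩ := (tworow_mem d y hy b hb (τ f)).1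
    ⟨hτG f hf, fun i => (hτF i (b i) f hf).1 (hbf i)⟩
  obtain ⟨g', hg', hgg⟩ := (tworow_mem d y hy b hb (τ g)).1
    ⟨hτG g hg, fun i => (hτF i (b i) g hg).1 (hbg i)⟩
  have hB0 : (∏ i, (X - C (y i : ℂ)) ^ b i : ℂ[X]) ≠ 0 := by
    rw [Finset.prod_ne_zero_iff]
    exact fun i _ => pow_ne_zero _ (X_sub_C_ne_zero _)
  set B : ℂ[X] := ∏ i, (X - C (y i : ℂ)) ^ b i with hBdef
  have key : ∀ (i : ι) (h h' : ℂ[X]), h ∈ Gam d → h' ∈ Gam (d - ∑ i, b i) → τ h = B * h' →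
      (h ∈ Fl d (x i) (a i + 1) ↔ (X - C (xc y i)) ^ (a i - b i + 1) ∣ h') := by
    intro i h h' hh hh' he
    rw [hτF i (a i + 1) h hh, he]
    have h1 : a i + 1 = b i + (a i - b i + 1) := by have := hab i; omega
    rw [h1]
    exact tworow_fl d y hy b hb i (a i - b i + 1) h' hh'
  have keyb : ∀ (i : ι) (h h' : ℂ[X]), h ∈ Gam d → h' ∈ Gam (d - ∑ i, b i) → τ h = B * h' →
      h ∈ Fl d (x i) (b i) := by
    intro i h h' hh hh' he
    rw [hτF i (b i) h hh]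
    exact ((tworow_mem d y hy b hb (τ h)).2 ⟨h', hh', he⟩).2 i
  have hD : PData y (fun i => a i - b i) (d - ∑ i, b i) f' g' p q := by
    refine ⟨hy, ?_, tocore_natDegree _ hf', tocore_natDegree _ hg', ?_, hpq, ?_⟩
    · omega
    · intro c1 c2 h0
      apply hfg c1 c2
      apply hτi
      rw [map_add, tocore_mulC, tocore_mulC, hff, hgg, map_zero]
      linear_combination B * h0
    · intro k
      refine (key k (C (p k) * f + C (q k) * g) (C (p k) * f' + C (q k) * g')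
        (tocore_comb d _ _ hf hg) (tocore_comb _ _ _ hf' hg') ?_).1 (hpF k)
      rw [map_add, tocore_mulC, tocore_mulC, hff, hgg]
      ring
  refine ⟨y, f', g', p, q, hD, ?_⟩
  have hnot : ∀ i, ¬(f ∈ Fl d (x i) (a i + 1) ∧ g ∈ Fl d (x i) (a i + 1)) := by
    rintro i ⟨h1, h2⟩
    exact wr_nb y (fun i => a i - b i) _ f' g' p q hD i
      ⟨(key i f f' hf hf' hff).1 h1, (key i g g' hg hg' hgg).1 h2⟩
  have main : ∀ u v u' v' : ℂ[X], u ∈ Gam d → v ∈ Gam d → u' ∈ Gam (d - ∑ i, b i) →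
      v' ∈ Gam (d - ∑ i, b i) → τ u = B * u' → τ v = B * v' →
      ((∀ i, SchubTan d (x i) (a i) (b i) f g u v) ↔ ∀ k, ∃ c1 c2 : ℂ,
        (X - C (xc y k)) ^ (a k - b k + 1) ∣
          C (p k) * u' + C (q k) * v' - (C c1 * f' + C c2 * g')) := by
    intro u v u' v' hu hv hu' hv' heu hev
    refine forall_congr' fun i => ?_
    rw [schubTan_iff d (x i) (a i) (b i) f g u v (p i) (q i) (hpq i) (hpF i) (hnot i)]
    have e1 := keyb i u u' hu hu' heu
    have e2 := keyb i v v' hv hv' hev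
    simp only [e1, e2, true_and]
    refine exists_congr fun c1 => exists_congr fun c2 => ?_
    refine key i _ _ (Submodule.sub_mem _ (tocore_comb d _ _ hu hv) (tocore_comb d _ _ hf hg))
      (Submodule.sub_mem _ (tocore_comb _ _ _ hu' hv') (tocore_comb _ _ _ hf' hg')) ?_
    rw [map_sub, map_add, map_add, tocore_mulC, tocore_mulC, tocore_mulC, tocore_mulC, heu, hev,
      hff, hgg]
    ring
  set Ψ : ℂ[X] × ℂ[X] →ₗ[ℂ] ℂ[X] × ℂ[X] :=
    (LinearMap.mulLeft ℂ B).prodMap (LinearMap.mulLeft ℂ B) with hΨ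
  have hΦi : Function.Injective (τ.prodMap τ) := by
    rintro ⟨u, v⟩ ⟨u', v'⟩ h
    simp only [LinearMap.prodMap_apply, Prod.mk.injEq] at h
    exact Prod.ext (hτi h.1) (hτi h.2)
  have hΨi : Function.Injective Ψ := by
    rintro ⟨u, v⟩ ⟨u', v'⟩ h
    simp only [hΨ, LinearMap.prodMap_apply, LinearMap.mulLeft_apply, Prod.mk.injEq] at h
    exact Prod.ext (mul_left_cancel₀ hB0 h.1) (mul_left_cancel₀ hB0 h.2)
  have hmap : (tanPairs d x a b f g).map (τ.prodMap τ) =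
      (TanC y (fun i => a i - b i) (d - ∑ i, b i) f' g' p q).map Ψ := by
    ext w
    constructor
    · rintro ⟨⟨u, v⟩, ⟨hu, hv, hT⟩, rfl⟩
      simp only at hu hv hT
      have hub : ∀ i, τ u ∈ Fl d ((y i : ℝ) : OnePoint ℝ) (b i) := fun i =>
        (hτF i (b i) u hu).1 (hT i).1
      have hvb : ∀ i, τ v ∈ Fl d ((y i : ℝ) : OnePoint ℝ) (b i) := fun i =>
        (hτF i (b i) v hv).1 (hT i).2.1
      obtain ⟨u', hu', heu⟩ := (tworow_mem d y hy b hb (τ u)).1 ⟨hτG u hu, hub⟩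
      obtain ⟨v', hv', hev⟩ := (tworow_mem d y hy b hb (τ v)).1 ⟨hτG v hv, hvb⟩
      refine ⟨(u', v'), ⟨hu', hv', ?_⟩, ?_⟩
      · exact (main u v u' v' hu hv hu' hv' heu hev).1 hT
      · simp only [hΨ, LinearMap.prodMap_apply, LinearMap.mulLeft_apply]
        rw [heu, hev]
    · rintro ⟨⟨u', v'⟩, ⟨hu', hv', hT⟩, rfl⟩
      simp only at hu' hv' hT
      obtain ⟨u, hu, heu⟩ := hτs (B * u') ((tworow_mem d y hy b hb (B * u')).2 ⟨u', hu', rfl⟩).1
      obtain ⟨v, hv, hev⟩ := hτs (B * v') ((tworow_mem d y hy b hb (B * v')).2 ⟨v', hv', rfl⟩).1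
      refine ⟨(u, v), ⟨hu, hv, ?_⟩, ?_⟩
      · exact (main u v u' v' hu hv hu' hv' heu hev).2 hT
      · simp only [hΨ, LinearMap.prodMap_apply, LinearMap.mulLeft_apply]
        rw [heu, hev]
  have e1 := LinearEquiv.finrank_eq
    (Submodule.equivMapOfInjective (τ.prodMap τ) hΦi (tanPairs d x a b f g))
  have e2 := LinearEquiv.finrank_eq
    (Submodule.equivMapOfInjective Ψ hΨi (TanC y (fun i => a i - b i) (d - ∑ i, b i) f' g' p q))
  rw [e1, e2, hmap]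

end Pool.Agent.Lib.MP_0ae92b_ag.G26
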