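import Mathlib

set_option autoImplicit false

/-!
# The Cauchy matrix `1/(x_k - x_l)`: definitions
-/

namespace Pool.Agent.Lib.MP_0ae92b_ag.G26

open Polynomial

variable {ι : Type} [Fintype ι] [DecidableEq ι]

/-- `(C b)_k = ∑_{l ≠ k} b_l / (x_k - x_l)` (the diagonal term is `0⁻¹ * b_k = 0`). -/
noncomputable def Cau {K : Type} [Field K] (x : ι → K) (b : ι → K) (k : ι) : K :=
  ∑ l, (x k - x l)⁻¹ * b l

/-- `D'(x_k) = ∏_{j ≠ k} (x_k - x_j)`. -/
noncomputable def Dp {K : Type} [Field K] (x : ι → K) (k : ι) : K :=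
  ∏ j ∈ Finset.univ.erase k, (x k - x j)

/-- Real points as complex numbers. -/
noncomputable def xc (x : ι → ℝ) (k : ι) : ℂ := (x k : ℂ)

/-- Value at `z` of the linear form with coefficients `g = (slope, constant)`. -/
def lv {K : Type} [Field K] (g : K × K) (z : K) : K := g.1 * z + g.2

/-- The determinant `g ∧ m` of two linear forms. -/
def wd {K : Type} [Field K] (g m : K × K) : K := g.1 * m.2 - g.2 * m.1

/-- Value at `z` of the polynomial with coefficients `n = (n_2, n_1, n_0)`. -/
def qv {K : Type} [Field K] (n : K × K × K) (z : K) : K := n.1 * z ^ 2 + n.2.1 * z + n.2.2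

/-- Value at `z` of the derivative of the polynomial with coefficients `n = (n_2, n_1, n_0)`. -/
def qd {K : Type} [Field K] (n : K × K × K) (z : K) : K := 2 * n.1 * z + n.2.1

/-- The product of two linear forms, as a quadratic. -/
def lm {K : Type} [Field K] (g m : K × K) : K × K × K := (g.1 * m.1, g.1 * m.2 + g.2 * m.1, g.2 * m.2)

/-- `(B(N) b)_k = ∑_{l ≠ k} N(x_k, x_l) b_l / (x_k - x_l)`, where `N(x, y)` is the
polarisation `n_2 x y + n_1 (x + y) / 2 + n_0` of `N`. -/
noncomputable def BN {K : Type} [Field K] (x : ι → K) (n : K × K × K) (b : ι → K) (k : ι) : K :=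
  ∑ l, (n.1 * x k * x l + n.2.1 * (x k + x l) / 2 + n.2.2) * (x k - x l)⁻¹ * b l

omit [DecidableEq ι] in
theorem Cau_add {K : Type} [Field K] (x a b : ι → K) (k : ι) :
    Cau x (a + b) k = Cau x a k + Cau x b k := by
  simp only [Cau, Pi.add_apply, mul_add, Finset.sum_add_distrib]

omit [DecidableEq ι] in
theorem Cau_smul {K : Type} [Field K] (x b : ι → K) (c : K) (k : ι) :
    Cau x (fun l => c * b l) k = c * Cau x b k := by
  simp only [Cau, Finset.mul_sum]
  exact Finset.sum_congr rfl fun l _ => by ring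

end Pool.Agent.Lib.MP_0ae92b_ag.G26
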