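import Pool.Agent.Lib.MP_0ae92b_ag.G26.Pol

set_option autoImplicit false

/-!
# Polynomials with zero Wronskian are linearly dependent

PROOF.  If `f = 0` take `(1, 0)`.  Let `f ≠ 0`.  If `h ≠ 0` and `deg h ≠ deg f` then the coefficient of `f h' - f' h` in degree
`deg f + deg h - 1` is `(deg h - deg f)` times the product of the leading coefficients, so `Wr f h ≠ 0`
(if `deg f + deg h = 0` the degrees are equal).  Hence `g = 0` (take `(0, 1)`) or `deg g = deg f`; in the second case
choose `c` with `deg (g - c f) < deg f` or `g - c f = 0`; `Wr f (g - c f) = Wr f g = 0`, so `g - c f = 0`.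
-/

namespace Pool.Agent.Lib.MP_0ae92b_ag.G26

open Polynomial

private theorem coeff_mul_der (f u : ℂ[X]) (h : 1 ≤ f.natDegree + u.natDegree) :
    (f * derivative u).coeff (f.natDegree + u.natDegree - 1) =
      (u.natDegree : ℂ) * (f.leadingCoeff * u.leadingCoeff) := by
  rcases Nat.eq_zero_or_pos u.natDegree with h0 | h0
  · rw [derivative_of_natDegree_zero h0, h0]
    simp
  · have i1 : f.natDegree + u.natDegree - 1 = f.natDegree + (u.natDegree - 1) := by omega
    rw [i1, coeff_mul_add_eq_of_natDegree_le le_rfl (natDegree_derivative_le u), coeff_derivative]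
    have h1 : u.natDegree - 1 + 1 = u.natDegree := by omega
    have h3 : ((u.natDegree - 1 : ℕ) : ℂ) + 1 = (u.natDegree : ℂ) := by
      rw [← Nat.cast_succ]; congr 1
    rw [h1, h3]
    simp only [leadingCoeff]
    ring

theorem wr_zero (f g : ℂ[X]) (h : Wr f g = 0) :
    ∃ c1 c2 : ℂ, (c1 ≠ 0 ∨ c2 ≠ 0) ∧ C c1 * f + C c2 * g = 0 := by
  by_cases hf : f = 0
  · exact ⟨1, 0, Or.inl one_ne_zero, by rw [hf]; simp⟩
  obtain ⟨c, hc⟩ : ∃ c : ℂ, c = g.coeff f.natDegree / f.leadingCoeff := ⟨_, rfl⟩
  obtain ⟨u, hu⟩ : ∃ u : ℂ[X], u = g - C c * f := ⟨_, rfl⟩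
  have hlf : f.leadingCoeff ≠ 0 := leadingCoeff_ne_zero.mpr hf
  have huc : u.coeff f.natDegree = 0 := by
    rw [hu, coeff_sub, coeff_C_mul, hc, coeff_natDegree, div_mul_cancel₀ _ hlf, sub_self]
  have hWu : f * derivative u - derivative f * u = 0 := by
    rw [hu, derivative_sub, derivative_C_mul, ← h, Wr]; ring
  by_cases hu0 : u = 0
  · refine ⟨c, -1, Or.inr (by simp), ?_⟩
    rw [hu0] at hu
    rw [C_neg, C_1]
    linear_combination hu
  · exfalso
    have hne : u.natDegree ≠ f.natDegree := by
      intro h1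
      rw [← h1, coeff_natDegree] at huc
      exact hu0 (leadingCoeff_eq_zero.mp huc)
    have hpos : 1 ≤ f.natDegree + u.natDegree := by omega
    have h1 := coeff_mul_der f u hpos
    have h2 := coeff_mul_der u f (by omega)
    have h3 := congrArg (fun P => P.coeff (f.natDegree + u.natDegree - 1)) hWu
    simp only [coeff_sub, coeff_zero] at h3
    rw [h1, mul_comm (derivative f) u, add_comm f.natDegree u.natDegree, h2] at h3
    have h4 : ((u.natDegree : ℂ) - f.natDegree) * (f.leadingCoeff * u.leadingCoeff) = 0 := by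
      linear_combination h3
    rcases mul_eq_zero.mp h4 with h5 | h5
    · exact hne (by exact_mod_cast sub_eq_zero.mp h5)
    · exact mul_ne_zero hlf (leadingCoeff_ne_zero.mpr hu0) h5

/-- The Wronskian of two polynomials of degree at most `d` has degree at most `2 d - 2`. -/
theorem wr_natDegree (f g : ℂ[X]) (d : ℕ) (hf : f.natDegree ≤ d) (hg : g.natDegree ≤ d) :
    (Wr f g).natDegree ≤ 2 * d - 2 := by
  rcases Nat.eq_zero_or_pos d with rfl | hd
  · have h1 : derivative f = 0 := derivative_of_natDegree_zero (by omega)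
    have h2 : derivative g = 0 := derivative_of_natDegree_zero (by omega)
    rw [Wr, h1, h2]
    simp
  have hf' : (derivative f).natDegree ≤ d - 1 := (natDegree_derivative_le f).trans (by omega)
  have hg' : (derivative g).natDegree ≤ d - 1 := (natDegree_derivative_le g).trans (by omega)
  have hW : (Wr f g).natDegree ≤ 2 * d - 1 := by
    rw [Wr]
    refine (natDegree_sub_le _ _).trans (max_le ?_ ?_)
    · exact natDegree_mul_le.trans (by omega)
    · exact natDegree_mul_le.trans (by omega)
  rw [natDegree_le_iff_coeff_eq_zero]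
  intro n hn
  by_cases hn2 : n = 2 * d - 1
  · have i1 : n = d + (d - 1) := by omega
    have i2 : n = (d - 1) + d := by omega
    have h1 : d - 1 + 1 = d := by omega
    rw [Wr, coeff_sub]
    have c1 : (f * derivative g).coeff n = f.coeff d * (g.coeff d * ((d - 1 : ℕ) + 1 : ℂ)) := by
      rw [i1, coeff_mul_add_eq_of_natDegree_le hf hg', coeff_derivative, h1]
    have c2 : (derivative f * g).coeff n = (f.coeff d * ((d - 1 : ℕ) + 1 : ℂ)) * g.coeff d := by
      rw [i2, coeff_mul_add_eq_of_natDegree_le hf' hg, coeff_derivative, h1]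
    rw [c1, c2]
    ring
  · exact coeff_eq_zero_of_natDegree_lt (by omega)

end Pool.Agent.Lib.MP_0ae92b_ag.G26
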